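import Pool.Agent.Lib_MP_d22ea4_an.Base

/-!
Elementary one-dimensional integral inequalities (boxes, Neumann bracketing), piece B of the proof
for MP_d22ea4_an.
-/

open MeasureTheory Filter Topology Complex
open scoped ContDiff ComplexConjugate InnerProductSpace

noncomputable section

namespace MP_d22ea4_an

attribute [local instance] instMeasureSpaceUnitAddCircle

/-- Cauchy-Schwarz on an interval -/
theorem sq_integral_le {f : ℝ → ℝ} (hf : Continuous f) {α ℓ : ℝ} (hℓ : 0 < ℓ) :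
    (∫ x in α..(α + ℓ), f x) ^ 2 ≤ ℓ * ∫ x in α..(α + ℓ), f x ^ 2 := by
  set A := ∫ x in α..(α + ℓ), f x with hA
  have h0 : 0 ≤ ∫ x in α..(α + ℓ), (f x - A / ℓ) ^ 2 :=
    intervalIntegral.integral_nonneg (by linarith) (fun x _ => sq_nonneg _)
  have h1 : ∫ x in α..(α + ℓ), (f x - A / ℓ) ^ 2 =
      (∫ x in α..(α + ℓ), f x ^ 2) - 2 * (A / ℓ) * A + (A / ℓ) ^ 2 * ℓ := by
    have e : ∀ x, (f x - A / ℓ) ^ 2 = (f x ^ 2 - 2 * (A / ℓ) * f x) + (A / ℓ) ^ 2 := by
      intro x; ring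
    simp_rw [e]
    rw [intervalIntegral.integral_add, intervalIntegral.integral_sub,
      intervalIntegral.integral_const_mul, intervalIntegral.integral_const]
    · simp only [add_sub_cancel_left, smul_eq_mul]
      ring
    · exact (hf.pow 2).intervalIntegrable _ _
    · exact (continuous_const.mul hf).intervalIntegrable _ _
    · exact ((hf.pow 2).sub (continuous_const.mul hf)).intervalIntegrable _ _
    · exact continuous_const.intervalIntegrable _ _
  rw [h1] at h0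
  have h2 : (∫ x in α..(α + ℓ), f x ^ 2) - 2 * (A / ℓ) * A + (A / ℓ) ^ 2 * ℓ =
      (∫ x in α..(α + ℓ), f x ^ 2) - A ^ 2 / ℓ := by
    field_simp
    ring
  rw [h2] at h0
  have h3 : A ^ 2 / ℓ ≤ ∫ x in α..(α + ℓ), f x ^ 2 := by linarith
  rw [div_le_iff₀ hℓ] at h3
  linarith

/-- oscillation of a `C¹` function on a box -/
theorem osc_box {u : ℝ → ℂ} (hu : ContDiff ℝ 1 u) {α ℓ : ℝ} (hℓ : 0 < ℓ) {x y : ℝ}
    (hx : x ∈ Set.Icc α (α + ℓ)) (hy : y ∈ Set.Icc α (α + ℓ)) :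
    ‖u x - u y‖ ^ 2 ≤ ℓ * ∫ t in α..(α + ℓ), ‖deriv u t‖ ^ 2 := by
  have hc : Continuous (deriv u) := hu.continuous_deriv (le_refl _)
  have hd : Differentiable ℝ u := hu.differentiable (by norm_num)
  have h1 : ∫ t in y..x, deriv u t = u x - u y :=
    intervalIntegral.integral_deriv_eq_sub (fun t _ => hd t) (hc.intervalIntegrable _ _)
  have h2 : ‖u x - u y‖ ≤ ∫ t in α..(α + ℓ), ‖deriv u t‖ := by
    rw [← h1]
    refine intervalIntegral.norm_integral_le_abs_integral_norm.trans ?_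
    refine (intervalIntegral.abs_integral_mono_interval (c := α) (d := α + ℓ) ?_ ?_ ?_).trans ?_
    · rw [Set.uIoc_of_le (by linarith : α ≤ α + ℓ)]
      intro t ht
      rw [Set.mem_uIoc] at ht
      rcases ht with ht | ht
      · exact ⟨hy.1.trans_lt ht.1, ht.2.trans hx.2⟩
      · exact ⟨hx.1.trans_lt ht.1, ht.2.trans hy.2⟩
    · exact Eventually.of_forall fun t => norm_nonneg _
    · exact hc.norm.intervalIntegrable _ _
    · rw [abs_of_nonneg]
      exact intervalIntegral.integral_nonneg (by linarith) (fun x _ => norm_nonneg _)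
  calc ‖u x - u y‖ ^ 2 ≤ (∫ t in α..(α + ℓ), ‖deriv u t‖) ^ 2 := by
        gcongr
    _ ≤ _ := sq_integral_le hc.norm hℓ

theorem box_ineq {u : ℝ → ℂ} (hu : ContDiff ℝ 1 u) {α ℓ : ℝ} (hℓ : 0 < ℓ) {S : Set ℝ}
    (hS : MeasurableSet S) (hSI : S ⊆ Set.Icc α (α + ℓ)) (hvol : ℓ / 8 ≤ (volume S).toReal) :
    ∫ x in α..(α + ℓ), ‖u x‖ ^ 2 ≤
      16 * (∫ x in S, ‖u x‖ ^ 2) + 2 * ℓ ^ 2 * ∫ x in α..(α + ℓ), ‖deriv u x‖ ^ 2 := by
  set D := ∫ x in α..(α + ℓ), ‖deriv u x‖ ^ 2 with hD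
  set B := ∫ x in S, ‖u x‖ ^ 2 with hB
  set v := (volume S).toReal with hv
  have hvpos : 0 < v := lt_of_lt_of_le (by positivity) hvol
  have hB0 : 0 ≤ B := integral_nonneg fun _ => by positivity
  have hcont : Continuous fun x => ‖u x‖ ^ 2 := hu.continuous.norm.pow 2
  have hfin : volume S ≠ ⊤ := ne_top_of_le_ne_top (by simp) (measure_mono hSI)
  have hint : IntegrableOn (fun x => ‖u x‖ ^ 2) S volume :=
    (hcont.integrableOn_Icc).mono_set hSI
  -- pointwise estimate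
  have hpt : ∀ x ∈ Set.Icc α (α + ℓ), v * ‖u x‖ ^ 2 ≤ 2 * B + 2 * ℓ * v * D := by
    intro x hx
    have h1 : ∫ y in S, ‖u x‖ ^ 2 ≤ ∫ y in S, (2 * ‖u y‖ ^ 2 + 2 * ℓ * D) := by
      refine setIntegral_mono_on ?_ ?_ hS ?_
      · exact integrableOn_const hfin
      · exact (hint.const_mul 2).add (integrableOn_const hfin)
      · intro y hy
        have h2 := osc_box hu hℓ hx (hSI hy)
        have h3 : ‖u x‖ ≤ ‖u y‖ + ‖u x - u y‖ := by
          calc ‖u x‖ = ‖u y + (u x - u y)‖ := by ring_nf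
            _ ≤ _ := norm_add_le _ _
        have h4 : ‖u x‖ ^ 2 ≤ (‖u y‖ + ‖u x - u y‖) ^ 2 := by gcongr
        nlinarith [sq_nonneg (‖u y‖ - ‖u x - u y‖)]
    rw [setIntegral_const, integral_add (hint.const_mul 2) (integrableOn_const hfin),
      integral_const_mul, setIntegral_const] at h1
    simp only [smul_eq_mul, measureReal_def] at h1
    rw [← hv, ← hB] at h1
    nlinarith [h1]
  have h5 : ∫ x in α..(α + ℓ), v * ‖u x‖ ^ 2 ≤ ∫ x in α..(α + ℓ), (2 * B + 2 * ℓ * v * D) := by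
    refine intervalIntegral.integral_mono_on (by linarith) ?_ ?_ hpt
    · exact (continuous_const.mul hcont).intervalIntegrable _ _
    · exact continuous_const.intervalIntegrable _ _
  rw [intervalIntegral.integral_const_mul, intervalIntegral.integral_const] at h5
  simp only [add_sub_cancel_left, smul_eq_mul] at h5
  -- divide by v
  have h6 : v * (∫ x in α..(α + ℓ), ‖u x‖ ^ 2) ≤ v * (16 * B + 2 * ℓ ^ 2 * D) := by
    have h7 : ℓ * (2 * B) ≤ v * (16 * B) := by
      have : ℓ ≤ 8 * v := by linarith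
      nlinarith
    calc v * (∫ x in α..(α + ℓ), ‖u x‖ ^ 2) ≤ ℓ * (2 * B + 2 * ℓ * v * D) := h5
      _ = ℓ * (2 * B) + v * (2 * ℓ ^ 2 * D) := by ring
      _ ≤ v * (16 * B) + v * (2 * ℓ ^ 2 * D) := by linarith
      _ = _ := by ring
  exact le_of_mul_le_mul_left h6 hvpos

theorem poincare_box {u : ℝ → ℂ} (hu : ContDiff ℝ 1 u) {α ℓ : ℝ} (hℓ : 0 < ℓ)
    (h0 : ∫ x in α..(α + ℓ), u x = 0) :
    ∫ x in α..(α + ℓ), ‖u x‖ ^ 2 ≤ ℓ ^ 2 * ∫ x in α..(α + ℓ), ‖deriv u x‖ ^ 2 := by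
  set D := ∫ x in α..(α + ℓ), ‖deriv u x‖ ^ 2 with hD
  have hD0 : 0 ≤ D := intervalIntegral.integral_nonneg (by linarith) fun _ _ => by positivity
  have hcont : Continuous fun x => ‖u x‖ ^ 2 := hu.continuous.norm.pow 2
  have hpt : ∀ x ∈ Set.Icc α (α + ℓ), ‖u x‖ ^ 2 ≤ ℓ * D := by
    intro x hx
    have h1 : ∫ y in α..(α + ℓ), (u x - u y) = (ℓ : ℂ) * u x := by
      rw [intervalIntegral.integral_sub, h0, intervalIntegral.integral_const]
      · simp
      · exact continuous_const.intervalIntegrable _ _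
      · exact hu.continuous.intervalIntegrable _ _
    have h2 : ‖∫ y in α..(α + ℓ), (u x - u y)‖ ≤ Real.sqrt (ℓ * D) * |α + ℓ - α| := by
      refine intervalIntegral.norm_integral_le_of_norm_le_const ?_
      intro y hy
      rw [Set.uIoc_of_le (by linarith : α ≤ α + ℓ)] at hy
      exact Real.le_sqrt_of_sq_le (osc_box hu hℓ hx ⟨hy.1.le, hy.2⟩)
    rw [h1, add_sub_cancel_left, abs_of_pos hℓ, norm_mul, Complex.norm_real,
      Real.norm_of_nonneg hℓ.le, mul_comm] at h2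
    have h3 : ‖u x‖ ≤ Real.sqrt (ℓ * D) := le_of_mul_le_mul_right h2 hℓ
    calc ‖u x‖ ^ 2 ≤ Real.sqrt (ℓ * D) ^ 2 := by gcongr
      _ = ℓ * D := Real.sq_sqrt (by positivity)
  have h5 : ∫ x in α..(α + ℓ), ‖u x‖ ^ 2 ≤ ∫ x in α..(α + ℓ), (ℓ * D) := by
    refine intervalIntegral.integral_mono_on (by linarith) ?_ ?_ hpt
    · exact hcont.intervalIntegrable _ _
    · exact continuous_const.intervalIntegrable _ _
  rw [intervalIntegral.integral_const] at h5
  simp only [add_sub_cancel_left, smul_eq_mul] at h5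
  calc _ ≤ ℓ * (ℓ * D) := h5
    _ = _ := by ring

/-- sublevel sets of a function with large derivative are small -/
theorem sublevel {a : ℝ → ℝ} (ha : ContDiff ℝ 1 a) {β γ κ τ : ℝ} (hκ : 0 < κ) (hτ : 0 ≤ τ)
    (hβγ : β ≤ γ) (hd : ∀ x ∈ Set.Icc β γ, κ ≤ |deriv a x|) :
    γ - β - 2 * τ / κ ≤ (volume {x | x ∈ Set.Icc β γ ∧ τ ≤ |a x|}).toReal := by
  have hda : Differentiable ℝ a := ha.differentiable (by norm_num)
  set G := {x | x ∈ Set.Icc β γ ∧ τ ≤ |a x|} with hG
  set T := {x | x ∈ Set.Icc β γ ∧ |a x| < τ} with hT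
  have hGT : Set.Icc β γ = G ∪ T := by
    ext x
    simp only [hG, hT, Set.mem_union, Set.mem_ofPred_eq]
    constructor
    · intro h
      rcases le_or_gt τ |a x| with h1 | h1
      · exact Or.inl ⟨h, h1⟩
      · exact Or.inr ⟨h, h1⟩
    · rintro (h | h) <;> exact h.1
  have hdiam : Metric.ediam T ≤ ENNReal.ofReal (2 * τ / κ) := by
    refine Metric.ediam_le ?_
    have key : ∀ x ∈ T, ∀ y ∈ T, x < y → y - x ≤ 2 * τ / κ := by
      intro x hx y hy hxy
      obtain ⟨c, hc, hc'⟩ := exists_deriv_eq_slope a hxy hda.continuous.continuousOn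
        (hda.differentiableOn)
      have hcI : c ∈ Set.Icc β γ := ⟨hx.1.1.trans hc.1.le, hc.2.le.trans hy.1.2⟩
      have h1 := hd c hcI
      rw [hc', abs_div, abs_of_pos (by linarith : (0:ℝ) < y - x),
        le_div_iff₀ (by linarith : (0:ℝ) < y - x)] at h1
      have h2 : |a y - a x| ≤ 2 * τ := by
        have := abs_sub (a y) (a x)
        have h3 := hx.2
        have h4 := hy.2
        linarith
      rw [le_div_iff₀ hκ]
      linarith [mul_comm κ (y - x)]
    intro x hx y hy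
    rw [edist_dist, Real.dist_eq]
    refine ENNReal.ofReal_le_ofReal ?_
    rcases lt_trichotomy x y with h | h | h
    · rw [abs_sub_comm, abs_of_pos (by linarith)]
      exact key x hx y hy h
    · rw [h, sub_self, abs_zero]
      positivity
    · rw [abs_of_pos (by linarith)]
      exact key y hy x hx h
  have hvT : volume T ≤ ENNReal.ofReal (2 * τ / κ) := (Real.volume_le_diam T).trans hdiam
  have hGfin : volume G ≠ ⊤ :=
    ne_top_of_le_ne_top (by simp) (measure_mono (show G ⊆ Set.Icc β γ from fun x hx => hx.1))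
  have hle : ENNReal.ofReal (γ - β) ≤ volume G + ENNReal.ofReal (2 * τ / κ) := by
    rw [← Real.volume_Icc, hGT]
    exact (measure_union_le _ _).trans (by gcongr)
  have h1 := ENNReal.toReal_mono (by simp [hGfin]) hle
  rw [ENNReal.toReal_add hGfin (by simp), ENNReal.toReal_ofReal (by linarith),
    ENNReal.toReal_ofReal (by positivity)] at h1
  linarith

theorem forb_of_deriv {a : ℝ → ℝ} (ha : ContDiff ℝ 1 a) {s : ℝ} (hs : 0 < s) {P j : ℕ}
    (hP : 0 < P) {β γ κ : ℝ} (hβ : (j : ℝ) / P ≤ β) (hγ : γ ≤ (j : ℝ) / P + 1 / P)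
    (hlen : 1 / (2 * (P : ℝ)) ≤ γ - β) (hκ : ∀ x ∈ Set.Icc β γ, κ ≤ |deriv a x|)
    (hκs : 64 * s * P ≤ κ) : Forb a s P j := by
  have hP' : (0:ℝ) < P := by exact_mod_cast hP
  have hκpos : 0 < κ := lt_of_lt_of_le (by positivity) hκs
  have hβγ : β ≤ γ := by
    have : 0 < 1 / (2 * (P : ℝ)) := by positivity
    linarith
  refine ⟨{x | x ∈ Set.Icc β γ ∧ 8 * s ≤ |a x|}, ?_, ?_, ?_, fun x hx => hx.2⟩
  · intro x hx
    exact ⟨hβ.trans hx.1.1, hx.1.2.trans hγ⟩
  · exact (isClosed_Icc.inter (isClosed_le continuous_const ha.continuous.abs)).measurableSet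
  · refine le_trans ?_ (sublevel ha hκpos (by positivity) hβγ hκ)
    have h1 : 2 * (8 * s) / κ ≤ 1 / (4 * (P : ℝ)) := by
      rw [div_le_div_iff₀ hκpos (by positivity)]
      nlinarith
    have h2 : 1 / (8 * (P : ℝ)) + 1 / (4 * (P : ℝ)) ≤ 1 / (2 * (P : ℝ)) := by
      have : 1 / (2 * (P : ℝ)) - (1 / (8 * (P : ℝ)) + 1 / (4 * (P : ℝ))) = 1 / (8 * P) := by
        field_simp
        norm_num
      have h3 : 0 < 1 / (8 * (P : ℝ)) := by positivity
      linarith
    linarith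

/-- the inequality on one box -/
theorem box_energy {a : ℝ → ℝ} (ha : Continuous a) {s : ℝ} (hs : 0 < s) {P j : ℕ}
    (hP : 4 * s ≤ P) {u : ℝ → ℂ} (hu : ContDiff ℝ 1 u)
    (h : Forb a s P j ∨ ∫ x in ((j : ℝ) / P)..((j : ℝ) / P + 1 / P), u x = 0) :
    ∫ x in ((j : ℝ) / P)..((j : ℝ) / P + 1 / P), ‖u x‖ ^ 2 ≤
      1 / (4 * s ^ 2) *
        ∫ x in ((j : ℝ) / P)..((j : ℝ) / P + 1 / P), (‖deriv u x‖ ^ 2 + (a x) ^ 2 * ‖u x‖ ^ 2) := by
  have hPpos : (0:ℝ) < P := by linarith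
  have hℓ : (0:ℝ) < 1 / P := by positivity
  have hc : Continuous (deriv u) := hu.continuous_deriv (le_refl _)
  set A := (j : ℝ) / P with hA
  set ℓ := 1 / (P : ℝ) with hl
  set D := ∫ x in A..(A + ℓ), ‖deriv u x‖ ^ 2 with hD
  set Q := ∫ x in A..(A + ℓ), (a x) ^ 2 * ‖u x‖ ^ 2 with hQ
  have hD0 : 0 ≤ D := intervalIntegral.integral_nonneg (by linarith) fun _ _ => by positivity
  have hQ0 : 0 ≤ Q := intervalIntegral.integral_nonneg (by linarith) fun _ _ => by positivity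
  have hsum : ∫ x in A..(A + ℓ), (‖deriv u x‖ ^ 2 + (a x) ^ 2 * ‖u x‖ ^ 2) = D + Q := by
    rw [intervalIntegral.integral_add]
    · exact (hc.norm.pow 2).intervalIntegrable _ _
    · exact ((ha.pow 2).mul (hu.continuous.norm.pow 2)).intervalIntegrable _ _
  rw [hsum]
  have hℓs : ℓ ^ 2 ≤ 1 / (16 * s ^ 2) := by
    rw [hl, div_pow, one_pow]
    apply one_div_le_one_div_of_le (by positivity)
    nlinarith
  have h16 : 1 / (16 * s ^ 2) = 1 / (4 * s ^ 2) / 4 := by
    field_simp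
    norm_num
  have hspos : 0 < 1 / (4 * s ^ 2) := by positivity
  rcases h with h | h
  · obtain ⟨S, hSI, hS, hvol, hSa⟩ := h
    have hvol' : ℓ / 8 ≤ (volume S).toReal := by
      refine le_trans (le_of_eq ?_) hvol
      rw [hl]; field_simp
    have h1 := box_ineq hu hℓ hS hSI hvol'
    have h2 : ∫ x in S, ‖u x‖ ^ 2 ≤ 1 / (64 * s ^ 2) * Q := by
      have h3 : ∫ x in S, ‖u x‖ ^ 2 ≤ ∫ x in S, 1 / (64 * s ^ 2) * ((a x) ^ 2 * ‖u x‖ ^ 2) := by
        refine setIntegral_mono_on ?_ ?_ hS ?_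
        · exact (((hu.continuous.norm.pow 2)).integrableOn_Icc).mono_set hSI
        · exact ((continuous_const.mul
            ((ha.pow 2).mul (hu.continuous.norm.pow 2))).integrableOn_Icc).mono_set hSI
        · intro x hx
          have h4 := hSa x hx
          have h5 : 64 * s ^ 2 ≤ a x ^ 2 := by
            rw [← sq_abs (a x)]
            nlinarith [abs_nonneg (a x)]
          rw [← mul_assoc]
          refine le_mul_of_one_le_left (by positivity) ?_
          rw [one_div, inv_mul_eq_div, le_div_iff₀ (by positivity)]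
          linarith
      refine h3.trans ?_
      rw [integral_const_mul]
      refine mul_le_mul_of_nonneg_left ?_ (by positivity)
      rw [hQ, intervalIntegral.integral_of_le (by linarith), ← integral_Icc_eq_integral_Ioc]
      refine setIntegral_mono_set ?_ ?_ ?_
      · exact ((ha.pow 2).mul (hu.continuous.norm.pow 2)).integrableOn_Icc
      · exact Eventually.of_forall fun x => by positivity
      · exact LE.le.eventuallyLE hSI
    have h64 : 1 / (64 * s ^ 2) = 1 / (4 * s ^ 2) / 16 := by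
      field_simp
      norm_num
    rw [h64] at h2
    rw [h16] at hℓs
    have h6 : 2 * ℓ ^ 2 * D ≤ 2 * (1 / (4 * s ^ 2) / 4) * D := by
      gcongr
    calc _ ≤ _ := h1
      _ ≤ 16 * (1 / (4 * s ^ 2) / 16 * Q) + 2 * (1 / (4 * s ^ 2) / 4) * D := by
          gcongr
      _ ≤ 1 / (4 * s ^ 2) * (D + Q) := by nlinarith [mul_nonneg hspos.le hD0]
  · have h1 := poincare_box hu hℓ h
    rw [h16] at hℓs
    calc _ ≤ _ := h1
      _ ≤ (1 / (4 * s ^ 2) / 4) * D := by gcongr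
      _ ≤ 1 / (4 * s ^ 2) * (D + Q) := by
          nlinarith [mul_nonneg hspos.le hD0, mul_nonneg hspos.le hQ0]

/-- sum over the boxes -/
theorem sum_boxes {f : ℝ → ℝ} (hf : Continuous f) {P : ℕ} (hP : 0 < P) :
    ∑ j ∈ Finset.range P, ∫ x in ((j : ℝ) / P)..((j : ℝ) / P + 1 / P), f x =
      ∫ x in (0:ℝ)..1, f x := by
  have h := intervalIntegral.sum_integral_adjacent_intervals (μ := volume) (f := f)
    (a := fun j : ℕ => (j : ℝ) / P) (n := P) (fun k _ => hf.intervalIntegrable _ _)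
  have hP' : (P : ℝ) ≠ 0 := by positivity
  simp only [Nat.cast_zero, zero_div, div_self hP'] at h
  rw [← h]
  refine Finset.sum_congr rfl fun j _ => ?_
  congr 1
  push_cast
  field_simp

theorem finrank_le_boxes {a : ℝ → ℝ} (ha : Continuous a) {s : ℝ} (hs : 0 < s) {P : ℕ}
    (hP : 4 * s ≤ P) (V : Submodule ℂ (ℝ → ℂ)) [FiniteDimensional ℂ V]
    (hV : ∀ u ∈ V, ContDiff ℝ 1 u ∧ Function.Periodic u 1)
    (hq : ∀ u ∈ V, ∫ x in (0:ℝ)..1, (‖deriv u x‖ ^ 2 + (a x) ^ 2 * ‖u x‖ ^ 2) ≤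
      s ^ 2 * ∫ x in (0:ℝ)..1, ‖u x‖ ^ 2) [DecidablePred fun j => ¬ Forb a s P j] :
    Module.finrank ℂ V ≤ ((Finset.range P).filter fun j => ¬ Forb a s P j).card := by
  have hPpos : (0:ℝ) < P := by linarith
  have hPnat : 0 < P := by exact_mod_cast hPpos
  by_contra hcon
  push Not at hcon
  set F := (Finset.range P).filter fun j => ¬ Forb a s P j with hF
  -- the map of box averages
  let L : V →ₗ[ℂ] (F → ℂ) :=
    { toFun := fun u j => ∫ x in (((j : ℕ) : ℝ) / P)..(((j : ℕ) : ℝ) / P + 1 / P), (u : ℝ → ℂ) x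
      map_add' := by
        intro u v
        funext j
        simp only [Submodule.coe_add, Pi.add_apply]
        exact intervalIntegral.integral_add ((hV u u.2).1.continuous.intervalIntegrable _ _)
          ((hV v v.2).1.continuous.intervalIntegrable _ _)
      map_smul' := by
        intro c u
        funext j
        simp only [Submodule.coe_smul, Pi.smul_apply, RingHom.id_apply]
        exact intervalIntegral.integral_smul c _ }
  have hker : LinearMap.ker L ≠ ⊥ := by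
    apply LinearMap.ker_ne_bot_of_finrank_lt
    rw [Module.finrank_fintype_fun_eq_card]
    simpa using hcon
  obtain ⟨u, huL, hu0⟩ := Submodule.exists_mem_ne_zero_of_ne_bot hker
  apply hu0
  have huc := (hV u u.2).1
  have hup := (hV u u.2).2
  have hc : Continuous (deriv (u : ℝ → ℂ)) := huc.continuous_deriv (le_refl _)
  have hbox : ∀ j ∈ Finset.range P,
      ∫ x in ((j : ℝ) / P)..((j : ℝ) / P + 1 / P), ‖(u : ℝ → ℂ) x‖ ^ 2 ≤
      1 / (4 * s ^ 2) * ∫ x in ((j : ℝ) / P)..((j : ℝ) / P + 1 / P),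
        (‖deriv (u : ℝ → ℂ) x‖ ^ 2 + (a x) ^ 2 * ‖(u : ℝ → ℂ) x‖ ^ 2) := by
    intro j hj
    apply box_energy ha hs hP huc
    by_cases hfo : Forb a s P j
    · exact Or.inl hfo
    · right
      have hjF : j ∈ F := by
        rw [hF, Finset.mem_filter]
        exact ⟨hj, hfo⟩
      have := congrFun (LinearMap.mem_ker.mp huL) ⟨j, hjF⟩
      simpa [L] using this
  have hsum := Finset.sum_le_sum hbox
  have hc1 : Continuous fun x => ‖(u : ℝ → ℂ) x‖ ^ 2 := huc.continuous.norm.pow 2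
  have hc2 : Continuous fun x => ‖deriv (u : ℝ → ℂ) x‖ ^ 2 + (a x) ^ 2 * ‖(u : ℝ → ℂ) x‖ ^ 2 :=
    (hc.norm.pow 2).add ((ha.pow 2).mul (huc.continuous.norm.pow 2))
  rw [← Finset.mul_sum, sum_boxes hc1 hPnat, sum_boxes hc2 hPnat] at hsum
  have hq' := hq u u.2
  have hI0 : 0 ≤ ∫ x in (0:ℝ)..1, ‖(u : ℝ → ℂ) x‖ ^ 2 :=
    intervalIntegral.integral_nonneg (by norm_num) fun _ _ => by positivity
  have hI : ∫ x in (0:ℝ)..1, ‖(u : ℝ → ℂ) x‖ ^ 2 = 0 := by
    have h1 : 1 / (4 * s ^ 2) * (s ^ 2 * ∫ x in (0:ℝ)..1, ‖(u : ℝ → ℂ) x‖ ^ 2) =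
        1 / 4 * ∫ x in (0:ℝ)..1, ‖(u : ℝ → ℂ) x‖ ^ 2 := by
      field_simp
    have h2 := mul_le_mul_of_nonneg_left hq' (by positivity : (0:ℝ) ≤ 1 / (4 * s ^ 2))
    rw [h1] at h2
    linarith
  have hzero : ∀ x ∈ Set.Icc (0:ℝ) 1, (u : ℝ → ℂ) x = 0 := by
    by_contra hne
    push Not at hne
    obtain ⟨x, hx, hux⟩ := hne
    have : 0 < ∫ x in (0:ℝ)..1, ‖(u : ℝ → ℂ) x‖ ^ 2 := by
      refine intervalIntegral.integral_pos (by norm_num)
        ((huc.continuous.norm.pow 2).continuousOn) (fun x _ => by positivity) ⟨x, hx, ?_⟩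
      have := norm_pos_iff.mpr hux
      positivity
    linarith
  apply Subtype.ext
  funext x
  obtain ⟨y, hy, hxy⟩ := hup.exists_mem_Ico₀ one_pos x
  rw [hxy]
  exact hzero y ⟨hy.1, hy.2.le⟩

end MP_d22ea4_an
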