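import Pool.Agent.Lib_MP_d22ea4_an.Base
import Pool.Agent.Lib_MP_d22ea4_an.Box

/-!
Facts on the eigenbases of one-dimensional periodic Schrödinger operators: energies, the
variational principle for the smallest eigenvalue, the counting bound by boxes.
-/

open MeasureTheory Filter Topology Complex
open scoped ContDiff ComplexConjugate InnerProductSpace

noncomputable section

namespace MP_d22ea4_an

attribute [local instance] instMeasureSpaceUnitAddCircle

/-! ### integrals over the circle -/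

theorem integral_circle (g : UnitAddCircle → ℂ) :
    ∫ y, g y ∂AddCircle.haarAddCircle = ∫ x in (0:ℝ)..1, g ((x : ℝ) : UnitAddCircle) := by
  have h := AddCircle.intervalIntegral_preimage (1 : ℝ) 0 g
  rw [AddCircle.volume_eq_smul_haarAddCircle, integral_smul_measure] at h
  simp only [zero_add, ENNReal.ofReal_one, ENNReal.toReal_one, one_smul] at h
  exact h.symm

theorem inner_clc (u v : C(UnitAddCircle, ℂ)) :
    ⟪clc u, clc v⟫_ℂ = ∫ x in (0:ℝ)..1, conj (lift u x) * lift v x := by
  rw [ContinuousMap.inner_toLp, integral_circle]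
  refine intervalIntegral.integral_congr fun x _ => ?_
  simp only [lift]
  ring

theorem lift_periodic (u : C(UnitAddCircle, ℂ)) : Function.Periodic (lift u) 1 := by
  intro x
  simp only [lift]
  rw [AddCircle.coe_add_period]

theorem conj_mul_self' (z : ℂ) : conj z * z = ((‖z‖ ^ 2 : ℝ) : ℂ) := by
  rw [← Complex.normSq_eq_norm_sq, Complex.normSq_eq_conj_mul_self]

theorem integral_conj_self (f : ℝ → ℂ) :
    (∫ x in (0:ℝ)..1, conj (f x) * f x) = ((∫ x in (0:ℝ)..1, ‖f x‖ ^ 2 : ℝ) : ℂ) := by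
  rw [← intervalIntegral.integral_ofReal]
  exact intervalIntegral.integral_congr fun x _ => conj_mul_self' _

theorem norm_clc_sq (u : C(UnitAddCircle, ℂ)) :
    ‖clc u‖ ^ 2 = ∫ x in (0:ℝ)..1, ‖lift u x‖ ^ 2 := by
  have h := inner_clc u u
  rw [inner_self_eq_norm_sq_to_K, integral_conj_self] at h
  have h3 : ((‖clc u‖ ^ 2 : ℝ) : ℂ) = ((∫ x in (0:ℝ)..1, ‖lift u x‖ ^ 2 : ℝ) : ℂ) := by
    rw [← h]
    push_cast
    rfl
  exact Complex.ofReal_injective h3

theorem EB.norm_one {V : ℝ → ℝ} (b : EB V) (i : b.ι) :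
    ∫ x in (0:ℝ)..1, ‖lift (b.fn i) x‖ ^ 2 = 1 := by
  rw [← norm_clc_sq, b.orth.1 i, one_pow]

/-! ### integration by parts -/

/-- the derivative of a differentiable periodic function is periodic -/
theorem periodic_deriv {f : ℝ → ℂ} (hf : Function.Periodic f 1) :
    Function.Periodic (deriv f) 1 := by
  intro x
  have h : (fun y => f (y + 1)) = f := funext hf
  rw [← deriv_comp_add_const f 1 x, h]

theorem hasDerivAt_conj {f : ℝ → ℂ} {f' : ℂ} {x : ℝ} (h : HasDerivAt f f' x) :
    HasDerivAt (fun y => conj (f y)) (conj f') x := by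
  have := h.star
  exact this

theorem deriv_conj' {f : ℝ → ℂ} (x : ℝ) (hf : DifferentiableAt ℝ f x) :
    deriv (fun y => conj (f y)) x = conj (deriv f x) :=
  (hasDerivAt_conj hf.hasDerivAt).deriv

theorem ibp {u v : ℝ → ℂ} (hu : ContDiff ℝ 1 u) (hv : ContDiff ℝ 2 v)
    (pu : Function.Periodic u 1) (pv : Function.Periodic v 1) :
    ∫ x in (0:ℝ)..1, conj (deriv u x) * deriv v x =
      ∫ x in (0:ℝ)..1, conj (u x) * (-deriv (deriv v) x) := by
  have hv1 : ContDiff ℝ 1 (deriv v) := by
    have := (contDiff_succ_iff_deriv (n := 1) (f := v)).1 (by rw [one_add_one_eq_two]; exact hv)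
    exact this.2.2
  have cu' : Continuous (deriv u) := hu.continuous_deriv le_rfl
  have cv'' : Continuous (deriv (deriv v)) := hv1.continuous_deriv le_rfl
  have h := intervalIntegral.integral_mul_deriv_eq_deriv_mul (a := (0:ℝ)) (b := 1)
    (u := fun x => conj (u x)) (v := deriv v) (u' := fun x => conj (deriv u x))
    (v' := deriv (deriv v))
    (fun x _ => hasDerivAt_conj ((hu.differentiable one_ne_zero) x).hasDerivAt)
    (fun x _ => ((hv1.differentiable one_ne_zero) x).hasDerivAt)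
    ((Complex.continuous_conj.comp cu').intervalIntegrable _ _)
    (cv''.intervalIntegrable _ _)
  have p0 : u 1 = u 0 := by simpa using pu 0
  have p1 : deriv v 1 = deriv v 0 := by simpa using periodic_deriv pv 0
  simp only [p0, p1, sub_self, zero_sub] at h
  have h2 : (∫ x in (0:ℝ)..1, conj (u x) * (-deriv (deriv v) x)) =
      - ∫ x in (0:ℝ)..1, conj (u x) * deriv (deriv v) x := by
    rw [← intervalIntegral.integral_neg]
    exact intervalIntegral.integral_congr fun x _ => by ring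
  rw [h2, h, neg_neg]

/-- the sesquilinear form -/
def Bf (V : ℝ → ℝ) (u v : ℝ → ℂ) : ℂ :=
  ∫ x in (0:ℝ)..1, (conj (deriv u x) * deriv v x + (V x : ℂ) * (conj (u x) * v x))

theorem Bf_eq {V : ℝ → ℝ} (hV : Continuous V) {u v : ℝ → ℂ} (hu : ContDiff ℝ 1 u)
    (hv : ContDiff ℝ 2 v) (pu : Function.Periodic u 1) (pv : Function.Periodic v 1) :
    Bf V u v = ∫ x in (0:ℝ)..1, conj (u x) * (-deriv (deriv v) x + (V x : ℂ) * v x) := by
  have hv1 : ContDiff ℝ 1 (deriv v) := by
    have := (contDiff_succ_iff_deriv (n := 1) (f := v)).1 (by rw [one_add_one_eq_two]; exact hv)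
    exact this.2.2
  have cu' : Continuous (deriv u) := hu.continuous_deriv le_rfl
  have cv' : Continuous (deriv v) := hv1.continuous
  have cv'' : Continuous (deriv (deriv v)) := hv1.continuous_deriv le_rfl
  have cu := hu.continuous
  have cv := hv.continuous
  have cc := Complex.continuous_conj
  have cV : Continuous fun x => (V x : ℂ) := Complex.continuous_ofReal.comp hV
  unfold Bf
  rw [intervalIntegral.integral_add, ibp hu hv pu pv, ← intervalIntegral.integral_add]
  · exact intervalIntegral.integral_congr fun x _ => by ring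
  · exact (((cc.comp cu).mul cv''.neg).intervalIntegrable _ _)
  · exact ((cV.mul ((cc.comp cu).mul cv)).intervalIntegrable _ _)
  · exact (((cc.comp cu').mul cv').intervalIntegrable _ _)
  · exact ((cV.mul ((cc.comp cu).mul cv)).intervalIntegrable _ _)

theorem Bf_conj (V : ℝ → ℝ) (u v : ℝ → ℂ) : conj (Bf V u v) = Bf V v u := by
  unfold Bf
  rw [intervalIntegral.integral_of_le zero_le_one, ← integral_conj,
    ← intervalIntegral.integral_of_le zero_le_one]
  refine intervalIntegral.integral_congr fun x _ => ?_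
  simp only [map_add, map_mul, Complex.conj_conj, Complex.conj_ofReal]
  ring

theorem Bf_self (V : ℝ → ℝ) (u : ℝ → ℂ) :
    Bf V u u = ((∫ x in (0:ℝ)..1, (‖deriv u x‖ ^ 2 + V x * ‖u x‖ ^ 2) : ℝ) : ℂ) := by
  unfold Bf
  rw [← intervalIntegral.integral_ofReal]
  refine intervalIntegral.integral_congr fun x _ => ?_
  simp only [conj_mul_self']
  push_cast
  ring

section

variable {V : ℝ → ℝ} (hV : Good V) (b : EB V)

theorem EB.smooth1 (i : b.ι) {n : ℕ} : ContDiff ℝ n (lift (b.fn i)) :=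
  (b.smooth i).of_le (by exact_mod_cast le_top)

include hV in
theorem EB.Bf_right {u : C(UnitAddCircle, ℂ)} (hu : ContDiff ℝ 1 (lift u)) (i : b.ι) :
    Bf V (lift u) (lift (b.fn i)) = (b.ev i : ℂ) * ⟪clc u, clc (b.fn i)⟫_ℂ := by
  rw [Bf_eq hV.smooth.continuous hu (b.smooth1 i) (lift_periodic _) (lift_periodic _), inner_clc,
    ← intervalIntegral.integral_const_mul]
  refine intervalIntegral.integral_congr fun x _ => ?_
  simp only [b.eq i x]
  ring

include hV in
theorem EB.Bf_left {u : C(UnitAddCircle, ℂ)} (hu : ContDiff ℝ 1 (lift u)) (i : b.ι) :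
    Bf V (lift (b.fn i)) (lift u) = (b.ev i : ℂ) * ⟪clc (b.fn i), clc u⟫_ℂ := by
  rw [← Bf_conj, EB.Bf_right hV b hu i, map_mul, Complex.conj_ofReal, inner_conj_symm]

include hV in
theorem EB.energy (i : b.ι) :
    ∫ x in (0:ℝ)..1, (‖deriv (lift (b.fn i)) x‖ ^ 2 + V x * ‖lift (b.fn i) x‖ ^ 2) = b.ev i := by
  have h := EB.Bf_right hV b (b.smooth1 i (n := 1)) i
  rw [Bf_self, inner_clc, integral_conj_self, b.norm_one i, Complex.ofReal_one, mul_one] at h
  exact Complex.ofReal_injective h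

include hV in
theorem EB.ev_nonneg (i : b.ι) : 0 ≤ b.ev i := by
  rw [← EB.energy hV b i]
  refine intervalIntegral.integral_nonneg zero_le_one fun x _ => ?_
  have := hV.nonneg x
  positivity

end

/-- a continuous periodic function as a continuous function on the circle -/
theorem exists_lift {f : ℝ → ℂ} (hf : Continuous f) (pf : Function.Periodic f 1) :
    ∃ w : C(UnitAddCircle, ℂ), lift w = f := by
  refine ⟨⟨pf.lift, ?_⟩, ?_⟩
  · refine (QuotientAddGroup.isQuotientMap_mk (N := AddSubgroup.zmultiples (1:ℝ))).continuous_iff.2 ?_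
    exact hf
  · funext x
    exact pf.lift_coe x

/-- the Hilbert basis of an eigenbasis -/
def EB.basis {V : ℝ → ℝ} (b : EB V) : HilbertBasis b.ι ℂ L2C :=
  HilbertBasis.mkOfOrthogonalEqBot b.orth (by
    rw [Submodule.eq_bot_iff]
    intro g hg
    refine b.total g fun i => ?_
    rw [Submodule.mem_orthogonal] at hg
    exact hg _ (Submodule.subset_span ⟨i, rfl⟩))

theorem EB.basis_apply {V : ℝ → ℝ} (b : EB V) (i : b.ι) : b.basis i = clc (b.fn i) := by
  unfold EB.basis
  rw [HilbertBasis.coe_mkOfOrthogonalEqBot]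

theorem EB.hasSum_norm {V : ℝ → ℝ} (b : EB V) (u : C(UnitAddCircle, ℂ)) :
    HasSum (fun i => ‖⟪clc (b.fn i), clc u⟫_ℂ‖ ^ 2) (∫ x in (0:ℝ)..1, ‖lift u x‖ ^ 2) := by
  have h := b.basis.hasSum_inner_mul_inner (clc u) (clc u)
  simp only [EB.basis_apply] at h
  rw [inner_clc, integral_conj_self] at h
  have h2 : (fun i => ⟪clc u, clc (b.fn i)⟫_ℂ * ⟪clc (b.fn i), clc u⟫_ℂ) =
      fun i => ((‖⟪clc (b.fn i), clc u⟫_ℂ‖ ^ 2 : ℝ) : ℂ) := by
    funext i
    rw [← conj_mul_self', inner_conj_symm]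
  rw [h2] at h
  exact_mod_cast h

theorem EB.hasSum_energy {V : ℝ → ℝ} (hV : Good V) (b : EB V) {u : C(UnitAddCircle, ℂ)}
    (hu : ContDiff ℝ ∞ (lift u)) :
    HasSum (fun i => b.ev i * ‖⟪clc (b.fn i), clc u⟫_ℂ‖ ^ 2)
      (∫ x in (0:ℝ)..1, (‖deriv (lift u) x‖ ^ 2 + V x * ‖lift u x‖ ^ 2)) := by
  have hu1 : ContDiff ℝ 1 (lift u) := hu.of_le (by exact_mod_cast le_top)
  have hu2 : ContDiff ℝ 2 (lift u) := contDiff_infty.1 hu 2
  have hu2' : ContDiff ℝ 1 (deriv (lift u)) := by
    have := (contDiff_succ_iff_deriv (n := 1) (f := lift u)).1 (by rw [one_add_one_eq_two]; exact hu2)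
    exact this.2.2
  obtain ⟨w, hw⟩ := exists_lift (f := fun x => -deriv (deriv (lift u)) x + (V x : ℂ) * lift u x)
    (((hu2'.continuous_deriv le_rfl).neg).add
      ((Complex.continuous_ofReal.comp hV.smooth.continuous).mul hu.continuous))
    (fun x => by
      simp only [periodic_deriv (periodic_deriv (lift_periodic u)) x, hV.per x,
        lift_periodic u x])
  have key : ∀ v : C(UnitAddCircle, ℂ), ContDiff ℝ 1 (lift v) →
      ⟪clc v, clc w⟫_ℂ = Bf V (lift v) (lift u) := by
    intro v hv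
    rw [inner_clc, hw, Bf_eq hV.smooth.continuous hv hu2 (lift_periodic _) (lift_periodic _)]
  have h := b.basis.hasSum_inner_mul_inner (clc u) (clc w)
  simp only [EB.basis_apply] at h
  rw [key u hu1, Bf_self] at h
  have h2 : (fun i => ⟪clc u, clc (b.fn i)⟫_ℂ * ⟪clc (b.fn i), clc w⟫_ℂ) =
      fun i => ((b.ev i * ‖⟪clc (b.fn i), clc u⟫_ℂ‖ ^ 2 : ℝ) : ℂ) := by
    funext i
    rw [key (b.fn i) (b.smooth1 i (n := 1)), EB.Bf_left hV b hu1 i, Complex.ofReal_mul,
      ← conj_mul_self', inner_conj_symm]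
    ring
  rw [h2] at h
  exact_mod_cast h

theorem clc_zero : clc 0 = 0 := map_zero (ContinuousMap.toLp (E := ℂ) 2 _ ℂ)

theorem clc_add (u v : C(UnitAddCircle, ℂ)) : clc (u + v) = clc u + clc v :=
  map_add (ContinuousMap.toLp (E := ℂ) 2 _ ℂ) u v

theorem clc_smul (c : ℂ) (u : C(UnitAddCircle, ℂ)) : clc (c • u) = c • clc u :=
  map_smul (ContinuousMap.toLp (E := ℂ) 2 _ ℂ) c u

theorem clc_injective : Function.Injective (clc : C(UnitAddCircle, ℂ) → L2C) :=
  ContinuousMap.toLp_injective (E := ℂ) (p := 2) (𝕜 := ℂ) AddCircle.haarAddCircle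

/-- trial functions -/
theorem EB.exists_le {V : ℝ → ℝ} (hV : Good V) (b : EB V) {u : C(UnitAddCircle, ℂ)}
    (hu : ContDiff ℝ ∞ (lift u)) (hu0 : u ≠ 0) {t : ℝ}
    (h : ∫ x in (0:ℝ)..1, (‖deriv (lift u) x‖ ^ 2 + V x * ‖lift u x‖ ^ 2) ≤
      t * ∫ x in (0:ℝ)..1, ‖lift u x‖ ^ 2) : ∃ i, b.ev i ≤ t := by
  by_contra hcon
  push Not at hcon
  have h1 := (EB.hasSum_energy hV b hu).sub ((b.hasSum_norm u).mul_left t)
  have hle : ∀ i, 0 ≤ b.ev i * ‖⟪clc (b.fn i), clc u⟫_ℂ‖ ^ 2 -
      t * ‖⟪clc (b.fn i), clc u⟫_ℂ‖ ^ 2 := by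
    intro i
    rw [← sub_mul]
    exact mul_nonneg (sub_nonneg.2 (hcon i).le) (sq_nonneg _)
  have hz : HasSum (fun i => b.ev i * ‖⟪clc (b.fn i), clc u⟫_ℂ‖ ^ 2 -
      t * ‖⟪clc (b.fn i), clc u⟫_ℂ‖ ^ 2) 0 := by
    have h0 := h1.nonneg hle
    have h2 : (∫ x in (0:ℝ)..1, (‖deriv (lift u) x‖ ^ 2 + V x * ‖lift u x‖ ^ 2)) -
      t * ∫ x in (0:ℝ)..1, ‖lift u x‖ ^ 2 = 0 := le_antisymm (sub_nonpos.2 h) h0
    rwa [h2] at h1
  have hall := (hasSum_zero_iff_of_nonneg hle).1 hz
  have hu' : clc u = 0 := by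
    refine b.total _ fun i => ?_
    have hi := congrFun hall i
    simp only [Pi.zero_apply, ← sub_mul] at hi
    have h3 : b.ev i - t ≠ 0 := (sub_pos.2 (hcon i)).ne'
    have h4 := (mul_eq_zero.1 hi).resolve_left h3
    exact norm_eq_zero.1 (pow_eq_zero_iff two_ne_zero |>.1 h4)
  refine hu0 (clc_injective ?_)
  rw [hu', clc_zero]

/-- the lift as a linear map -/
def liftL : C(UnitAddCircle, ℂ) →ₗ[ℂ] (ℝ → ℂ) where
  toFun u := lift u
  map_add' _ _ := rfl
  map_smul' _ _ := rfl

theorem liftL_injective : Function.Injective liftL := by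
  intro u v h
  ext y
  obtain ⟨x, rfl⟩ := QuotientAddGroup.mk_surjective y
  exact congrFun h x

theorem EB.linearIndependent {V : ℝ → ℝ} (b : EB V) : LinearIndependent ℂ b.fn := by
  have h := b.orth.linearIndependent
  exact LinearIndependent.of_comp
    ((ContinuousMap.toLp (E := ℂ) 2 AddCircle.haarAddCircle ℂ : C(UnitAddCircle, ℂ) →L[ℂ] L2C) :
      C(UnitAddCircle, ℂ) →ₗ[ℂ] L2C) h

/-- the number of eigenvalues is at most the number of boxes which are not forbidden -/
theorem EB.ncard_le {a : ℝ → ℝ} (hV : Good fun x => a x ^ 2) (ha : Continuous a)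
    (b : EB fun x => a x ^ 2) {s : ℝ} (hs : 0 < s) {P : ℕ} (hP : 4 * s ≤ P)
    [DecidablePred fun j => ¬ Forb a s P j] :
    {i | b.ev i ≤ s ^ 2}.Finite ∧
      {i | b.ev i ≤ s ^ 2}.ncard ≤ ((Finset.range P).filter fun j => ¬ Forb a s P j).card := by
  have key : ∀ F : Finset b.ι, (F : Set b.ι) ⊆ {i | b.ev i ≤ s ^ 2} →
      F.card ≤ ((Finset.range P).filter fun j => ¬ Forb a s P j).card := by
    intro F hF
    obtain ⟨W, hW⟩ : ∃ W, W = Submodule.span ℂ (Set.range fun i : F => b.fn i) := ⟨_, rfl⟩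
    have hWdim : Module.finrank ℂ W = F.card := by
      have h := finrank_span_eq_card (b.linearIndependent.comp (fun i : F => (i : b.ι))
        Subtype.val_injective)
      rw [Fintype.card_coe] at h
      rw [hW]
      exact h
    have hfd : FiniteDimensional ℂ W := by
      rw [hW]
      exact FiniteDimensional.span_of_finite ℂ (Set.finite_range _)
    have hmap : Module.finrank ℂ (W.map liftL) = F.card := by
      rw [← hWdim]; exact (LinearEquiv.finrank_eq (Submodule.equivMapOfInjective liftL liftL_injective W)).symm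
    have hsm : ∀ w ∈ W, ContDiff ℝ ∞ (lift w) := by
      intro w hw
      rw [hW] at hw
      induction hw using Submodule.span_induction with
      | mem x hx =>
        obtain ⟨i, rfl⟩ := hx
        exact b.smooth i
      | zero => exact contDiff_const
      | add x y _ _ hx hy => exact hx.add hy
      | smul c x _ hx => exact contDiff_const.smul hx
    have hort : ∀ w ∈ W, ∀ j, j ∉ F → ⟪clc (b.fn j), clc w⟫_ℂ = 0 := by
      intro w hw j hj
      rw [hW] at hw
      induction hw using Submodule.span_induction with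
      | mem x hx =>
        obtain ⟨i, rfl⟩ := hx
        exact b.orth.2 fun h => hj (h ▸ i.2)
      | zero => rw [clc_zero, inner_zero_right]
      | add x y _ _ hx hy => rw [clc_add, inner_add_right, hx, hy, add_zero]
      | smul c x _ hx => rw [clc_smul, inner_smul_right, hx, mul_zero]
    rw [← hmap]
    refine finrank_le_boxes ha hs hP (W.map liftL) ?_ ?_
    · rintro u ⟨w, hw, rfl⟩
      exact ⟨(hsm w hw).of_le (by exact_mod_cast le_top), lift_periodic w⟩
    · rintro u ⟨w, hw, rfl⟩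
      have h1 := EB.hasSum_energy hV b (hsm w hw)
      have h2 := (b.hasSum_norm w).mul_left (s ^ 2)
      refine hasSum_le (fun i => ?_) h1 h2
      by_cases hi : i ∈ F
      · exact mul_le_mul_of_nonneg_right (hF hi) (sq_nonneg _)
      · rw [hort w hw i hi]
        simp
  have hfin : {i | b.ev i ≤ s ^ 2}.Finite := by
    by_contra hinf
    obtain ⟨F, hF, hc⟩ := Set.Infinite.exists_subset_card_eq hinf
      (((Finset.range P).filter fun j => ¬ Forb a s P j).card + 1)
    have := key F hF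
    omega
  refine ⟨hfin, ?_⟩
  rw [Set.ncard_eq_toFinset_card _ hfin]
  exact key _ (by simp)

end MP_d22ea4_an
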