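import Pool.Agent.Lib_MP_d22ea4_an.Base

/-!
PIECE F: the functions `f_k`.
-/

open MeasureTheory Filter Topology Complex
open scoped ContDiff ComplexConjugate InnerProductSpace

noncomputable section

namespace MP_d22ea4_an

theorem hasDerivAt_fk (k : ℕ) (x : ℝ) : HasDerivAt (fk k)
    (k * (1 - Real.cos (2 * Real.pi * x)) ^ (k - 1) *
      (2 * Real.pi * Real.sin (2 * Real.pi * x))) x := by
  have h1 : HasDerivAt (fun x : ℝ => 2 * Real.pi * x) (2 * Real.pi) x := by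
    simpa using (hasDerivAt_id x).const_mul (2 * Real.pi)
  have h2 := h1.cos
  have h3 := (h2.const_sub 1).pow k
  refine h3.congr_deriv ?_
  ring

theorem deriv_fk (k : ℕ) (x : ℝ) : deriv (fk k) x =
    k * (1 - Real.cos (2 * Real.pi * x)) ^ (k - 1) * (2 * Real.pi * Real.sin (2 * Real.pi * x)) :=
  (hasDerivAt_fk k x).deriv

theorem deriv_ak (k : ℕ) (m n : ℤ) (x : ℝ) :
    deriv (ak k m n) x = 2 * Real.pi * n * deriv (fk k) x := by
  have h := (((hasDerivAt_fk k x).const_mul (n : ℝ)).const_add (m : ℝ)).const_mul (2 * Real.pi)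
  rw [deriv_fk]
  refine (h.congr_deriv ?_).deriv
  ring

/-- distance to the critical points, for `x ∈ [0,1]` -/
def dd (x : ℝ) : ℝ := min (min x (1 - x)) |x - 1 / 2|

theorem sin_pi_ge {e : ℝ} (h0 : 0 ≤ e) (h1 : e ≤ 1 / 2) : 2 * e ≤ Real.sin (Real.pi * e) := by
  have hpi := Real.pi_pos
  have h := Real.mul_le_sin (x := Real.pi * e) (by positivity) (by nlinarith)
  have e1 : 2 / Real.pi * (Real.pi * e) = 2 * e := by field_simp
  rw [e1] at h
  exact h

/-- lower bound for `1 - cos` -/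
theorem one_sub_cos_ge {x : ℝ} (hx : x ∈ Set.Icc (0 : ℝ) 1) :
    8 * (min x (1 - x)) ^ 2 ≤ 1 - Real.cos (2 * Real.pi * x) := by
  have hcos : 1 - Real.cos (2 * Real.pi * x) = 2 * Real.sin (Real.pi * x) ^ 2 := by
    have := Real.cos_two_mul (Real.pi * x)
    have e1 : 2 * (Real.pi * x) = 2 * Real.pi * x := by ring
    rw [e1] at this
    rw [this]
    have := Real.sin_sq_add_cos_sq (Real.pi * x)
    linarith
  have hge : 2 * min x (1 - x) ≤ Real.sin (Real.pi * x) := by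
    rcases le_total x (1 / 2) with h | h
    · rw [min_eq_left (by linarith)]
      exact sin_pi_ge hx.1 h
    · rw [min_eq_right (by linarith)]
      have := sin_pi_ge (e := 1 - x) (by linarith [hx.2]) (by linarith)
      have e1 : Real.pi * (1 - x) = Real.pi - Real.pi * x := by ring
      rwa [e1, Real.sin_pi_sub] at this
  have hnn : 0 ≤ min x (1 - x) := le_min hx.1 (by linarith [hx.2])
  rw [hcos]
  nlinarith

theorem abs_sin_eq {x : ℝ} (hx : x ∈ Set.Icc (0 : ℝ) 1) :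
    |Real.sin (2 * Real.pi * x)| = Real.sin (2 * Real.pi * |x - 1 / 2|) := by
  have hpi := Real.pi_pos
  have e1 : Real.sin (2 * Real.pi * x) = - Real.sin (2 * Real.pi * (x - 1 / 2)) := by
    have : 2 * Real.pi * (x - 1 / 2) = 2 * Real.pi * x - Real.pi := by ring
    rw [this, Real.sin_sub_pi, neg_neg]
  have hnn : 0 ≤ Real.sin (2 * Real.pi * |x - 1 / 2|) := by
    apply Real.sin_nonneg_of_nonneg_of_le_pi
    · positivity
    · have : |x - 1 / 2| ≤ 1 / 2 := by
        rw [abs_le]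
        constructor <;> linarith [hx.1, hx.2]
      nlinarith
  rw [e1, abs_neg]
  rcases le_total 0 (x - 1 / 2) with h | h
  · rw [abs_of_nonneg h] at hnn ⊢
    exact abs_of_nonneg hnn
  · rw [abs_of_nonpos h] at hnn ⊢
    have : Real.sin (2 * Real.pi * (x - 1 / 2)) = - Real.sin (2 * Real.pi * -(x - 1 / 2)) := by
      rw [mul_neg, Real.sin_neg, neg_neg]
    rw [this, abs_neg]
    exact abs_of_nonneg hnn

theorem sin_two_pi_ge {t : ℝ} (h0 : 0 ≤ t) (h1 : t ≤ 1 / 2) :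
    4 * min t (1 / 2 - t) ≤ Real.sin (2 * Real.pi * t) := by
  rcases le_total t (1 / 4) with h | h
  · rw [min_eq_left (by linarith)]
    have := sin_pi_ge (e := 2 * t) (by linarith) (by linarith)
    have e1 : Real.pi * (2 * t) = 2 * Real.pi * t := by ring
    rw [e1] at this
    linarith
  · rw [min_eq_right (by linarith)]
    have := sin_pi_ge (e := 2 * (1 / 2 - t)) (by linarith) (by linarith)
    have e1 : Real.pi * (2 * (1 / 2 - t)) = Real.pi - 2 * Real.pi * t := by ring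
    rw [e1, Real.sin_pi_sub] at this
    linarith

theorem abs_half_eq (x : ℝ) : |x - 1 / 2| = 1 / 2 - min x (1 - x) := by
  rcases le_total x (1 / 2) with h | h
  · rw [abs_of_nonpos (by linarith), min_eq_left (by linarith)]; ring
  · rw [abs_of_nonneg (by linarith), min_eq_right (by linarith)]; ring

theorem abs_deriv_fk (k : ℕ) (x : ℝ) : |deriv (fk k) x| =
    k * (1 - Real.cos (2 * Real.pi * x)) ^ (k - 1) *
      (2 * Real.pi * |Real.sin (2 * Real.pi * x)|) := by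
  have hpi := Real.pi_pos
  have hc : 0 ≤ 1 - Real.cos (2 * Real.pi * x) := by linarith [Real.cos_le_one (2 * Real.pi * x)]
  rw [deriv_fk, abs_mul, abs_mul, abs_mul, abs_of_nonneg (Nat.cast_nonneg k),
    abs_of_nonneg (pow_nonneg hc _), abs_of_pos (by positivity : 0 < 2 * Real.pi)]

theorem deriv_fk_lower {k : ℕ} (hk : 1 ≤ k) {x : ℝ} (hx : x ∈ Set.Icc (0:ℝ) 1) :
    dd x ^ (2 * k - 1) ≤ |deriv (fk k) x| := by
  have hpi := Real.pi_gt_three
  have he0 : 0 ≤ min x (1 - x) := le_min hx.1 (by linarith [hx.2])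
  have he1 : min x (1 - x) ≤ 1 / 2 := by
    have := abs_half_eq x
    have := abs_nonneg (x - 1 / 2)
    linarith
  have hd0 : 0 ≤ dd x := le_min he0 (abs_nonneg _)
  have hde : dd x ≤ min x (1 - x) := min_le_left _ _
  have hc := one_sub_cos_ge hx
  have hs : 4 * dd x ≤ |Real.sin (2 * Real.pi * x)| := by
    rw [abs_sin_eq hx]
    refine le_trans (le_of_eq ?_) (sin_two_pi_ge (abs_nonneg _) ?_)
    · unfold dd
      have : 1 / 2 - |x - 1 / 2| = min x (1 - x) := by rw [abs_half_eq x]; ring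
      rw [this, min_comm]
    · rw [abs_half_eq x]; linarith
  rw [abs_deriv_fk]
  have h1 : (dd x ^ 2) ^ (k - 1) ≤ (1 - Real.cos (2 * Real.pi * x)) ^ (k - 1) := by
    apply pow_le_pow_left₀ (sq_nonneg _)
    nlinarith
  have h2 : dd x ≤ 2 * Real.pi * |Real.sin (2 * Real.pi * x)| := by nlinarith
  have hk' : (1 : ℝ) ≤ k := by exact_mod_cast hk
  have h3 : 0 ≤ (dd x ^ 2) ^ (k - 1) := by positivity
  have e1 : dd x ^ (2 * k - 1) = (dd x ^ 2) ^ (k - 1) * dd x := by
    rw [← pow_mul, ← pow_succ]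
    congr 1
    omega
  rw [e1]
  refine mul_le_mul ?_ h2 hd0 (mul_nonneg (by linarith) (h3.trans h1))
  calc (dd x ^ 2) ^ (k - 1) = 1 * (dd x ^ 2) ^ (k - 1) := (one_mul _).symm
    _ ≤ k * (1 - Real.cos (2 * Real.pi * x)) ^ (k - 1) := mul_le_mul hk' h1 h3 (by linarith)

theorem deriv_fk_lower' {k : ℕ} (hk : 1 ≤ k) {δ : ℝ} (hδ : 0 < δ) (hδ' : δ < 1 / 4) :
    ∃ c > 0, ∀ x ∈ Set.Icc δ (1 - δ), c * |x - 1 / 2| ≤ |deriv (fk k) x| := by
  have hpi := Real.pi_gt_three
  have hk' : (1 : ℝ) ≤ k := by exact_mod_cast hk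
  refine ⟨k * (8 * δ ^ 2) ^ (k - 1) * (2 * Real.pi * (8 * δ)), by positivity, fun x hx => ?_⟩
  have hx' : x ∈ Set.Icc (0 : ℝ) 1 := ⟨by linarith [hx.1], by linarith [hx.2]⟩
  have he : δ ≤ min x (1 - x) := le_min hx.1 (by linarith [hx.2])
  have hc := one_sub_cos_ge hx'
  have hc' : 8 * δ ^ 2 ≤ 1 - Real.cos (2 * Real.pi * x) := by nlinarith
  have ht : |x - 1 / 2| ≤ 1 / 2 - δ := by rw [abs_half_eq]; linarith
  have ht0 := abs_nonneg (x - 1 / 2)
  have hs : 8 * δ * |x - 1 / 2| ≤ |Real.sin (2 * Real.pi * x)| := by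
    rw [abs_sin_eq hx']
    refine le_trans ?_ (sin_two_pi_ge ht0 (by linarith))
    have h1 : 2 * δ * |x - 1 / 2| ≤ min |x - 1 / 2| (1 / 2 - |x - 1 / 2|) := by
      refine le_min ?_ ?_ <;> nlinarith
    linarith
  rw [abs_deriv_fk]
  have h1 : (8 * δ ^ 2) ^ (k - 1) ≤ (1 - Real.cos (2 * Real.pi * x)) ^ (k - 1) :=
    pow_le_pow_left₀ (by positivity) hc' _
  calc k * (8 * δ ^ 2) ^ (k - 1) * (2 * Real.pi * (8 * δ)) * |x - 1 / 2|
      = k * (8 * δ ^ 2) ^ (k - 1) * (2 * Real.pi * (8 * δ * |x - 1 / 2|)) := by ring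
    _ ≤ k * (1 - Real.cos (2 * Real.pi * x)) ^ (k - 1) *
        (2 * Real.pi * |Real.sin (2 * Real.pi * x)|) := by
      have h0 : 0 ≤ (8 * δ ^ 2) ^ (k - 1) := by positivity
      exact mul_le_mul (mul_le_mul_of_nonneg_left h1 (by linarith))
        (mul_le_mul_of_nonneg_left hs (by linarith)) (by positivity)
        (mul_nonneg (by linarith) (h0.trans h1))

theorem fk_nonneg (k : ℕ) (x : ℝ) : 0 ≤ fk k x :=
  pow_nonneg (by linarith [Real.cos_le_one (2 * Real.pi * x)]) _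

theorem fk_le (k : ℕ) (x : ℝ) : fk k x ≤ 2 ^ k :=
  pow_le_pow_left₀ (by linarith [Real.cos_le_one (2 * Real.pi * x)])
    (by linarith [Real.neg_one_le_cos (2 * Real.pi * x)]) _

theorem fk_le_pow (k : ℕ) (x : ℝ) : fk k x ≤ (20 * x ^ 2) ^ k := by
  refine pow_le_pow_left₀ (by linarith [Real.cos_le_one (2 * Real.pi * x)]) ?_ _
  have h := Real.one_sub_sq_div_two_le_cos (x := 2 * Real.pi * x)
  have hpi := Real.pi_lt_d2
  have hpi0 := Real.pi_pos
  have h2 : Real.pi ^ 2 ≤ 10 := by nlinarith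
  nlinarith [mul_le_mul_of_nonneg_right h2 (sq_nonneg x)]

end MP_d22ea4_an
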