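import Pool.Agent.Lib_MP_d22ea4_an.Box
import Pool.Agent.Lib_MP_d22ea4_an.Fk

/-!
Localisation of the eigenfunctions near `x = 0` (piece C of the proof for MP_d22ea4_an).
-/

open MeasureTheory Filter Topology Complex
open scoped ContDiff ComplexConjugate InnerProductSpace

noncomputable section

namespace MP_d22ea4_an

attribute [local instance] instMeasureSpaceUnitAddCircle

/-- the inequality on one box -/
theorem loc_box {u : ℝ → ℂ} (hu : ContDiff ℝ 1 u) {a : ℝ → ℝ} (ha : ContDiff ℝ 1 a) {α ℓ κ : ℝ}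
    (hℓ : 0 < ℓ) (hκ : 0 < κ)
    (hd : ∀ x ∈ Set.Icc (α + ℓ / 4) (α + 3 * ℓ / 4), κ ≤ |deriv a x|) :
    ∫ x in α..(α + ℓ), ‖u x‖ ^ 2 ≤
      ∫ x in α..(α + ℓ), (2 * ℓ ^ 2 * ‖deriv u x‖ ^ 2 +
        16 / (κ * ℓ / 8) ^ 2 * ((a x) ^ 2 * ‖u x‖ ^ 2)) := by
  set τ : ℝ := κ * ℓ / 8 with hτdef
  have hτ : 0 < τ := by positivity
  set S : Set ℝ := {x | x ∈ Set.Icc (α + ℓ / 4) (α + 3 * ℓ / 4) ∧ τ ≤ |a x|} with hSdef
  have hcu : Continuous u := hu.continuous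
  have hca : Continuous a := ha.continuous
  have hcdu : Continuous (deriv u) := hu.continuous_deriv le_rfl
  have hSm : MeasurableSet S :=
    measurableSet_Icc.inter (isClosed_le continuous_const hca.abs).measurableSet
  have hSI : S ⊆ Set.Icc α (α + ℓ) := by
    intro x hx
    have := hx.1
    rw [Set.mem_Icc] at this ⊢
    constructor <;> linarith [this.1, this.2]
  have hvol : ℓ / 8 ≤ (volume S).toReal := by
    have h := sublevel ha hκ hτ.le (by linarith : α + ℓ / 4 ≤ α + 3 * ℓ / 4) hd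
    refine le_trans ?_ h
    have : 2 * τ / κ = ℓ / 4 := by
      rw [hτdef]; field_simp; ring
    rw [this]; linarith
  have h1 := box_ineq hu hℓ hSm hSI hvol
  have hle : α ≤ α + ℓ := by linarith
  -- the integral over `S`
  have h2 : ∫ x in S, ‖u x‖ ^ 2 ≤ 1 / τ ^ 2 * ∫ x in α..(α + ℓ), (a x) ^ 2 * ‖u x‖ ^ 2 := by
    have hi1 : IntegrableOn (fun x => ‖u x‖ ^ 2) (Set.Icc α (α + ℓ)) :=
      (hcu.norm.pow 2).continuousOn.integrableOn_Icc
    have hi2 : IntegrableOn (fun x => 1 / τ ^ 2 * ((a x) ^ 2 * ‖u x‖ ^ 2)) (Set.Icc α (α + ℓ)) :=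
      (continuous_const.mul ((hca.pow 2).mul (hcu.norm.pow 2))).continuousOn.integrableOn_Icc
    calc ∫ x in S, ‖u x‖ ^ 2 ≤ ∫ x in S, 1 / τ ^ 2 * ((a x) ^ 2 * ‖u x‖ ^ 2) := by
          refine setIntegral_mono_on (hi1.mono_set hSI) (hi2.mono_set hSI) hSm ?_
          intro x hx
          have hax : τ ^ 2 ≤ (a x) ^ 2 := by
            rw [← sq_abs (a x)]
            exact pow_le_pow_left₀ hτ.le hx.2 2
          have : 1 ≤ 1 / τ ^ 2 * (a x) ^ 2 := by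
            rw [one_div, inv_mul_eq_div, le_div_iff₀ (by positivity)]
            linarith
          nlinarith [sq_nonneg ‖u x‖, mul_le_mul_of_nonneg_right this (sq_nonneg ‖u x‖)]
      _ ≤ ∫ x in Set.Icc α (α + ℓ), 1 / τ ^ 2 * ((a x) ^ 2 * ‖u x‖ ^ 2) := by
          refine setIntegral_mono_set hi2 ?_ hSI.eventuallyLE
          exact Filter.Eventually.of_forall fun x => by positivity
      _ = 1 / τ ^ 2 * ∫ x in α..(α + ℓ), (a x) ^ 2 * ‖u x‖ ^ 2 := by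
          rw [intervalIntegral.integral_of_le hle, integral_Icc_eq_integral_Ioc, integral_const_mul]
  have h3 : ∫ x in α..(α + ℓ), (2 * ℓ ^ 2 * ‖deriv u x‖ ^ 2 +
        16 / τ ^ 2 * ((a x) ^ 2 * ‖u x‖ ^ 2)) =
      2 * ℓ ^ 2 * (∫ x in α..(α + ℓ), ‖deriv u x‖ ^ 2) +
        16 / τ ^ 2 * ∫ x in α..(α + ℓ), (a x) ^ 2 * ‖u x‖ ^ 2 := by
    rw [intervalIntegral.integral_add, intervalIntegral.integral_const_mul,
      intervalIntegral.integral_const_mul]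
    · exact (continuous_const.mul (hcdu.norm.pow 2)).intervalIntegrable _ _
    · exact (continuous_const.mul ((hca.pow 2).mul (hcu.norm.pow 2))).intervalIntegrable _ _
  rw [h3]
  have h4 : 16 * (∫ x in S, ‖u x‖ ^ 2) ≤
      16 / τ ^ 2 * ∫ x in α..(α + ℓ), (a x) ^ 2 * ‖u x‖ ^ 2 := by
    calc 16 * (∫ x in S, ‖u x‖ ^ 2) ≤
        16 * (1 / τ ^ 2 * ∫ x in α..(α + ℓ), (a x) ^ 2 * ‖u x‖ ^ 2) := by linarith
      _ = _ := by ring
  linarith

theorem loc {k : ℕ} (hk : 2 ≤ k) {δ : ℝ} (hδ : 0 < δ) (hδ' : δ < 1 / 4) :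
    ∃ C R0 : ℝ, 0 < C ∧ ∀ R : ℝ, R0 ≤ R → ∀ m n : ℤ, R ^ 3 ≤ |(n : ℝ)| →
      ∀ u : ℝ → ℂ, ContDiff ℝ 1 u → Function.Periodic u 1 →
        ∫ x in δ..(1 - δ), ‖u x‖ ^ 2 ≤
          C / R ^ 2 * ∫ x in (0:ℝ)..1, (‖deriv u x‖ ^ 2 + (ak k m n x) ^ 2 * ‖u x‖ ^ 2) := by
  obtain ⟨c, hc, hcl⟩ := deriv_fk_lower' (k := k) (by omega) (δ := δ / 2) (by linarith)
    (by linarith)
  set c1 : ℝ := 2 * Real.pi * c / 288 with hc1
  have hc1p : 0 < c1 := by positivity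
  refine ⟨2 + 16 / c1 ^ 2, max 1 (2 / δ), by positivity, ?_⟩
  intro R hR m n hn u hu _
  have hR1 : 1 ≤ R := le_trans (le_max_left _ _) hR
  have hR2 : 2 / δ ≤ R := le_trans (le_max_right _ _) hR
  have hRp : 0 < R := by linarith
  -- the number of boxes
  set h : ℕ := ⌈R / 2⌉₊ with hh
  set P : ℕ := 2 * h with hPdef
  have hh1 : R / 2 ≤ h := Nat.le_ceil _
  have hh2 : (h : ℝ) < R / 2 + 1 := Nat.ceil_lt_add_one (by positivity)
  have hPr : (P : ℝ) = 2 * h := by rw [hPdef]; push_cast; ring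
  have hPR : R ≤ P := by rw [hPr]; linarith
  have hPR3 : (P : ℝ) ≤ 3 * R := by rw [hPr]; linarith
  have hPp : (0 : ℝ) < P := by linarith
  set ℓ : ℝ := 1 / (P : ℝ) with hℓdef
  have hℓ : 0 < ℓ := by positivity
  have hℓP : ℓ * P = 1 := by rw [hℓdef]; field_simp
  -- first box
  set j0 : ℕ := ⌊δ * P⌋₊ with hj0
  have hj0a : (j0 : ℝ) ≤ δ * P := Nat.floor_le (by positivity)
  have hj0b : δ * P < j0 + 1 := Nat.lt_floor_add_one _
  have hδP : 2 ≤ δ * P := by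
    have : δ * (2 / δ) ≤ δ * P := by
      apply mul_le_mul_of_nonneg_left _ hδ.le
      linarith
    have h2 : δ * (2 / δ) = 2 := by field_simp
    linarith
  have hj0P : 2 * j0 ≤ P := by
    have : (2 : ℝ) * j0 ≤ P := by nlinarith
    exact_mod_cast this
  set κ : ℝ := 2 * Real.pi * |(n : ℝ)| * (c * (ℓ / 4)) with hκdef
  have hnp : 0 < |(n : ℝ)| := lt_of_lt_of_le (by positivity) hn
  have hκ : 0 < κ := by positivity
  -- the derivative on the middle half of a box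
  have hder : ∀ j : ℕ, j0 ≤ j → j < P - j0 →
      ∀ x ∈ Set.Icc ((j : ℝ) * ℓ + ℓ / 4) ((j : ℝ) * ℓ + 3 * ℓ / 4), κ ≤ |deriv (ak k m n) x| := by
    intro j hj1 hj2 x hx
    rw [Set.mem_Icc] at hx
    rw [deriv_ak, abs_mul, abs_mul, abs_of_pos (by positivity : 0 < 2 * Real.pi), hκdef]
    apply mul_le_mul_of_nonneg_left _ (by positivity)
    have hj1' : (j0 : ℝ) ≤ j := by exact_mod_cast hj1
    have hj2' : (j : ℝ) + 1 ≤ P - j0 := by
      have h3 : j + 1 + j0 ≤ P := by omega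
      have h4 : ((j + 1 + j0 : ℕ) : ℝ) ≤ (P : ℝ) := by exact_mod_cast h3
      push_cast at h4
      linarith
    have hlow : δ / 2 ≤ (j0 : ℝ) * ℓ := by
      have : δ / 2 * (ℓ * P) ≤ (j0 : ℝ) * ℓ := by nlinarith
      rwa [hℓP, mul_one] at this
    have hxlow : δ / 2 ≤ x := by nlinarith
    have hxhigh : x ≤ 1 - δ / 2 := by
      have h5 : ((j : ℝ) + 1) * ℓ ≤ (P - j0) * ℓ := mul_le_mul_of_nonneg_right hj2' hℓ.le
      linarith
    refine le_trans ?_ (hcl x ⟨hxlow, hxhigh⟩)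
    apply mul_le_mul_of_nonneg_left _ hc.le
    -- distance to `1 / 2`
    have hhl : (h : ℝ) * ℓ = 1 / 2 := by
      rw [hPr] at hℓP
      linarith
    rcases Nat.lt_or_ge j h with hjh | hjh
    · have h6 : (j : ℝ) + 1 ≤ h := by exact_mod_cast hjh
      have h7 : ((j : ℝ) + 1) * ℓ ≤ h * ℓ := mul_le_mul_of_nonneg_right h6 hℓ.le
      rw [abs_sub_comm]
      refine le_trans ?_ (le_abs_self _)
      linarith
    · have h6 : (h : ℝ) ≤ j := by exact_mod_cast hjh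
      have h7 : (h : ℝ) * ℓ ≤ j * ℓ := mul_le_mul_of_nonneg_right h6 hℓ.le
      refine le_trans ?_ (le_abs_self _)
      linarith
  have hca : Continuous (ak k m n) := (contDiff_ak k m n).continuous
  have hcu : Continuous u := hu.continuous
  have hcdu : Continuous (deriv u) := hu.continuous_deriv le_rfl
  set A : ℝ → ℝ := fun x => ‖u x‖ ^ 2 with hA
  set B : ℝ → ℝ := fun x => (2 * ℓ ^ 2 * ‖deriv u x‖ ^ 2 +
    16 / (κ * ℓ / 8) ^ 2 * ((ak k m n x) ^ 2 * ‖u x‖ ^ 2)) with hB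
  have hAc : Continuous A := hcu.norm.pow 2
  have hBc : Continuous B := (continuous_const.mul (hcdu.norm.pow 2)).add
    (continuous_const.mul ((hca.pow 2).mul (hcu.norm.pow 2)))
  set Q : ℝ → ℝ := fun x => ‖deriv u x‖ ^ 2 + (ak k m n x) ^ 2 * ‖u x‖ ^ 2 with hQ
  have hQc : Continuous Q := (hcdu.norm.pow 2).add ((hca.pow 2).mul (hcu.norm.pow 2))
  have hbox : ∀ j ∈ Finset.Ico j0 (P - j0),
      ∫ x in ((j : ℝ) * ℓ)..(((j + 1 : ℕ) : ℝ) * ℓ), A x ≤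
        ∫ x in ((j : ℝ) * ℓ)..(((j + 1 : ℕ) : ℝ) * ℓ), B x := by
    intro j hj
    rw [Finset.mem_Ico] at hj
    have := loc_box hu ((contDiff_ak k m n).of_le (by exact_mod_cast le_top)) hℓ hκ
      (hder j hj.1 hj.2)
    have h8 : ((j + 1 : ℕ) : ℝ) * ℓ = (j : ℝ) * ℓ + ℓ := by push_cast; ring
    rw [h8]
    exact this
  have hsum := Finset.sum_le_sum hbox
  rw [intervalIntegral.sum_integral_adjacent_intervals_Ico (a := fun j : ℕ => (j : ℝ) * ℓ)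
      (by omega) (fun j _ => hAc.intervalIntegrable _ _),
    intervalIntegral.sum_integral_adjacent_intervals_Ico (a := fun j : ℕ => (j : ℝ) * ℓ)
      (by omega) (fun j _ => hBc.intervalIntegrable _ _)] at hsum
  have hPj : ((P - j0 : ℕ) : ℝ) = P - j0 := by
    rw [Nat.cast_sub (by omega)]
  have he0 : (j0 : ℝ) * ℓ ≤ δ := by
    have : (j0 : ℝ) * ℓ ≤ δ * P * ℓ := mul_le_mul_of_nonneg_right hj0a hℓ.le
    nlinarith
  have he0' : 0 ≤ (j0 : ℝ) * ℓ := by positivity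
  have he1 : 1 - δ ≤ ((P - j0 : ℕ) : ℝ) * ℓ := by
    rw [hPj]; linarith
  have he1' : ((P - j0 : ℕ) : ℝ) * ℓ ≤ 1 := by
    rw [hPj]; linarith
  have hstep1 : ∫ x in δ..(1 - δ), A x ≤ ∫ x in ((j0 : ℝ) * ℓ)..(((P - j0 : ℕ) : ℝ) * ℓ), A x :=
    intervalIntegral.integral_mono_interval he0 (by linarith) he1
      (Filter.Eventually.of_forall fun x => by simp only [hA]; positivity)
      (hAc.intervalIntegrable _ _)
  have hstep2 : ∫ x in ((j0 : ℝ) * ℓ)..(((P - j0 : ℕ) : ℝ) * ℓ), B x ≤ ∫ x in (0:ℝ)..1, B x :=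
    intervalIntegral.integral_mono_interval he0' (by linarith) he1'
      (Filter.Eventually.of_forall fun x => by simp only [hB]; positivity)
      (hBc.intervalIntegrable _ _)
  have hstep3 : ∫ x in (0:ℝ)..1, B x ≤ ∫ x in (0:ℝ)..1, (2 + 16 / c1 ^ 2) / R ^ 2 * Q x := by
    have hcQ : Continuous fun x => (2 + 16 / c1 ^ 2) / R ^ 2 * Q x := continuous_const.mul hQc
    apply intervalIntegral.integral_mono_on (by norm_num) (hBc.intervalIntegrable _ _)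
      (hcQ.intervalIntegrable _ _)
    intro x _
    have hℓR : ℓ ≤ 1 / R := one_div_le_one_div_of_le hRp hPR
    have hℓR2 : ℓ ^ 2 ≤ 1 / R ^ 2 := by
      rw [← one_div_pow]
      exact pow_le_pow_left₀ hℓ.le hℓR 2
    have hτ : c1 * R ≤ κ * ℓ / 8 := by
      have hℓ3 : 1 / (3 * R) ≤ ℓ := one_div_le_one_div_of_le hPp hPR3
      have h9 : (1 / (3 * R)) ^ 2 ≤ ℓ ^ 2 := pow_le_pow_left₀ (by positivity) hℓ3 2
      have h10 : κ * ℓ / 8 = 2 * Real.pi * c / 32 * (|(n : ℝ)| * ℓ ^ 2) := by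
        rw [hκdef]; ring
      have h11 : R / 9 ≤ |(n : ℝ)| * ℓ ^ 2 := by
        calc R / 9 = R ^ 3 * (1 / (3 * R)) ^ 2 := by field_simp; ring
          _ ≤ |(n : ℝ)| * ℓ ^ 2 := mul_le_mul hn h9 (by positivity) (by positivity)
      rw [h10]
      calc c1 * R = 2 * Real.pi * c / 32 * (R / 9) := by rw [hc1]; ring
        _ ≤ _ := mul_le_mul_of_nonneg_left h11 (by positivity)
    have hτ2 : 16 / (κ * ℓ / 8) ^ 2 ≤ 16 / c1 ^ 2 / R ^ 2 := by
      rw [div_div, ← mul_pow]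
      apply div_le_div_of_nonneg_left (by norm_num) (by positivity)
      exact pow_le_pow_left₀ (by positivity) hτ 2
    have h12 : 0 ≤ ‖deriv u x‖ ^ 2 := by positivity
    have h13 : 0 ≤ (ak k m n x) ^ 2 * ‖u x‖ ^ 2 := by positivity
    have h14 : 0 ≤ 16 / c1 ^ 2 / R ^ 2 := by positivity
    have h15 : 0 ≤ 1 / R ^ 2 := by positivity
    have h16 : (2 + 16 / c1 ^ 2) / R ^ 2 = 2 * (1 / R ^ 2) + 16 / c1 ^ 2 / R ^ 2 := by
      ring
    have h21 : B x = 2 * (ℓ ^ 2 * ‖deriv u x‖ ^ 2) +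
      16 / (κ * ℓ / 8) ^ 2 * ((ak k m n x) ^ 2 * ‖u x‖ ^ 2) := by
      simp only [hB]; ring
    have h22 : (2 + 16 / c1 ^ 2) / R ^ 2 * Q x = 2 * (1 / R ^ 2 * ‖deriv u x‖ ^ 2) +
      2 * (1 / R ^ 2 * ((ak k m n x) ^ 2 * ‖u x‖ ^ 2)) + 16 / c1 ^ 2 / R ^ 2 * ‖deriv u x‖ ^ 2 +
      16 / c1 ^ 2 / R ^ 2 * ((ak k m n x) ^ 2 * ‖u x‖ ^ 2) := by
      rw [h16]; simp only [hQ]; ring
    rw [h21, h22]
    have h17 := mul_le_mul_of_nonneg_right hℓR2 h12
    have h18 := mul_le_mul_of_nonneg_right hτ2 h13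
    have h19 := mul_nonneg h14 h12
    have h20 := mul_nonneg h15 h13
    linarith
  rw [intervalIntegral.integral_const_mul] at hstep3
  calc ∫ x in δ..(1 - δ), ‖u x‖ ^ 2 = ∫ x in δ..(1 - δ), A x := rfl
    _ ≤ _ := hstep1
    _ ≤ _ := hsum
    _ ≤ _ := hstep2
    _ ≤ _ := hstep3

end MP_d22ea4_an
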