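import Pool.Agent.Lib_MP_d22ea4_an.Box
import Pool.Agent.Lib_MP_d22ea4_an.EBfacts
import Pool.Agent.Lib_MP_d22ea4_an.Fk

/-!
Piece U: upper bounds for the number of states.
-/

open MeasureTheory Filter Topology Complex
open scoped ContDiff ComplexConjugate InnerProductSpace

noncomputable section

namespace MP_d22ea4_an

attribute [local instance] instMeasureSpaceUnitAddCircle

namespace Upper

/-- number of integers close to `c` -/
theorem card_int_le (F : Finset ℤ) (c : ℤ) {X : ℝ} (hX : 0 ≤ X)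
    (h : ∀ n ∈ F, |(n : ℝ) - c| ≤ X) : (F.card : ℝ) ≤ 2 * X + 1 := by
  have hsub : F ⊆ Finset.Icc (c - ⌊X⌋) (c + ⌊X⌋) := by
    intro n hn
    have h1 := h n hn
    rw [abs_le] at h1
    rw [Finset.mem_Icc]
    constructor
    · have : c - n ≤ ⌊X⌋ := Int.le_floor.2 (by push_cast; linarith [h1.1])
      linarith
    · have : n - c ≤ ⌊X⌋ := Int.le_floor.2 (by push_cast; linarith [h1.2])
      linarith
  have h1 := Finset.card_le_card hsub
  rw [Int.card_Icc] at h1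
  have h2 : 0 ≤ ⌊X⌋ := Int.floor_nonneg.2 hX
  have h3 : ((c + ⌊X⌋ + 1 - (c - ⌊X⌋)).toNat : ℤ) = 2 * ⌊X⌋ + 1 := by
    rw [Int.toNat_of_nonneg (by linarith)]; ring
  have h4 : (F.card : ℤ) ≤ 2 * ⌊X⌋ + 1 := by rw [← h3]; exact_mod_cast h1
  have h5 : (F.card : ℝ) ≤ 2 * (⌊X⌋ : ℝ) + 1 := by exact_mod_cast h4
  have h6 := Int.floor_le X
  linarith

/-- the distance of the box `j` to the critical points, in boxes, plus one -/
def gg (h j : ℕ) : ℕ := if j < h then min (j + 1) (h - j) else min (j - h + 1) (2 * h - j)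

theorem gg_pos {h j : ℕ} (hj : j < 2 * h) : 1 ≤ gg h j := by
  unfold gg
  split_ifs <;> omega

theorem dd_ge {h j : ℕ} (hh : 0 < h) (hj : j < 2 * h) {x : ℝ}
    (hx1 : ((4 * j + 1 : ℕ) : ℝ) / (8 * h) ≤ x) (hx2 : x ≤ ((4 * j + 3 : ℕ) : ℝ) / (8 * h)) :
    (gg h j : ℝ) / (8 * h) ≤ dd x := by
  have hh' : (0 : ℝ) < h := Nat.cast_pos.2 hh
  have hhalf : (1 : ℝ) / 2 = (4 * h : ℝ) / (8 * h) := by field_simp; norm_num
  have hone : (1 : ℝ) = (8 * h : ℝ) / (8 * h) := by field_simp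
  have key : ∀ {A B : ℝ}, A ≤ B → A / (8 * h) ≤ B / (8 * h) := fun hAB =>
    div_le_div_of_nonneg_right hAB (by positivity)
  unfold dd gg
  split_ifs with hlt
  · have c1 : ((min (j + 1) (h - j) : ℕ) : ℝ) ≤ ((4 * j + 1 : ℕ) : ℝ) := by
      exact_mod_cast (by omega : min (j + 1) (h - j) ≤ 4 * j + 1)
    have c2 : ((min (j + 1) (h - j) : ℕ) : ℝ) + ((4 * j + 3 : ℕ) : ℝ) ≤ 4 * h := by
      exact_mod_cast (by omega : min (j + 1) (h - j) + (4 * j + 3) ≤ 4 * h)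
    have d1 := key c1
    have d2 := key c2
    rw [add_div] at d2
    refine le_min (le_min ?_ ?_) ?_
    · linarith
    · linarith
    · refine le_trans ?_ (neg_le_abs _)
      linarith
  · have c1 : ((min (j - h + 1) (2 * h - j) : ℕ) : ℝ) + 4 * h ≤ ((4 * j + 1 : ℕ) : ℝ) := by
      exact_mod_cast (by omega : min (j - h + 1) (2 * h - j) + 4 * h ≤ 4 * j + 1)
    have c2 : ((min (j - h + 1) (2 * h - j) : ℕ) : ℝ) + ((4 * j + 3 : ℕ) : ℝ) ≤ 8 * h := by
      exact_mod_cast (by omega : min (j - h + 1) (2 * h - j) + (4 * j + 3) ≤ 8 * h)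
    have d1 := key c1
    have d2 := key c2
    rw [add_div] at d1 d2
    refine le_min (le_min ?_ ?_) ?_
    · linarith
    · linarith
    · refine le_trans ?_ (le_abs_self _)
      linarith

theorem nonforb_n {k : ℕ} (hk : 1 ≤ k) {s : ℝ} (hs : 0 < s) {h j : ℕ} (hh : 0 < h)
    (hj : j < 2 * h) {m n : ℤ} (hnf : ¬ Forb (ak k m n) s (2 * h) j) :
    |(n : ℝ)| * (gg h j : ℝ) ^ (2 * k - 1) ≤ 64 * s * (2 * h) * (8 * h) ^ (2 * k - 1) := by
  by_contra hcon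
  rw [not_le] at hcon
  apply hnf
  have hh' : (0 : ℝ) < h := Nat.cast_pos.2 hh
  refine forb_of_deriv (κ := 64 * s * (2 * h : ℕ)) (β := ((4 * j + 1 : ℕ) : ℝ) / (8 * h))
    (γ := ((4 * j + 3 : ℕ) : ℝ) / (8 * h)) ((contDiff_ak k m n).of_le (by simp)) hs (by omega)
    ?_ ?_ ?_ ?_ le_rfl
  · push_cast
    rw [div_le_div_iff₀ (by positivity) (by positivity)]
    nlinarith
  · push_cast
    rw [← add_div, div_le_div_iff₀ (by positivity) (by positivity)]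
    nlinarith
  · push_cast
    rw [← sub_div, div_le_div_iff₀ (by positivity) (by positivity)]
    nlinarith
  · intro x hx
    have hj' : ((4 * j + 3 : ℕ) : ℝ) ≤ 8 * h := by exact_mod_cast (by omega : 4 * j + 3 ≤ 8 * h)
    have hx01 : x ∈ Set.Icc (0 : ℝ) 1 := by
      constructor
      · refine le_trans ?_ hx.1
        positivity
      · refine hx.2.trans ?_
        rw [div_le_one (by positivity)]
        exact hj'
    have h1 := dd_ge hh hj hx.1 hx.2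
    have h2 := deriv_fk_lower hk hx01
    have h3 : ((gg h j : ℝ) / (8 * h)) ^ (2 * k - 1) ≤ |deriv (fk k) x| :=
      le_trans (pow_le_pow_left₀ (by positivity) h1 _) h2
    rw [deriv_ak, abs_mul, abs_mul, abs_of_pos (by positivity : (0 : ℝ) < 2 * Real.pi)]
    have h4 : 64 * s * (2 * h : ℕ) ≤ |(n : ℝ)| * ((gg h j : ℝ) / (8 * h)) ^ (2 * k - 1) := by
      rw [div_pow, ← mul_div_assoc, le_div_iff₀ (by positivity)]
      push_cast
      exact hcon.le
    have h5 : (1 : ℝ) ≤ 2 * Real.pi := by linarith [Real.pi_gt_three]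
    calc 64 * s * (2 * h : ℕ) ≤ |(n : ℝ)| * ((gg h j : ℝ) / (8 * h)) ^ (2 * k - 1) := h4
      _ ≤ |(n : ℝ)| * |deriv (fk k) x| := by gcongr
      _ ≤ 2 * Real.pi * |(n : ℝ)| * |deriv (fk k) x| := by
        have : 0 ≤ |(n : ℝ)| * |deriv (fk k) x| := by positivity
        nlinarith

/-- measure of the bad part of a box which is not forbidden -/
theorem nonforb_meas {a : ℝ → ℝ} (ha : Continuous a) {s : ℝ} {P j : ℕ} (hP : 0 < P)
    (hnf : ¬ Forb a s P j) :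
    volume ({x | 8 * s ≤ |a x|} ∩ Set.Icc ((j : ℝ) / P) ((j : ℝ) / P + 1 / P)) ≤
      ENNReal.ofReal (1 / (8 * (P : ℝ))) := by
  have hP' : (0 : ℝ) < P := Nat.cast_pos.2 hP
  have hcl : IsClosed {x | 8 * s ≤ |a x|} := isClosed_le continuous_const ha.abs
  have hfin : volume ({x | 8 * s ≤ |a x|} ∩ Set.Icc ((j : ℝ) / P) ((j : ℝ) / P + 1 / P)) ≠ ⊤ := by
    refine ne_top_of_le_ne_top ?_ (measure_mono Set.inter_subset_right)
    rw [Real.volume_Icc]
    exact ENNReal.ofReal_ne_top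
  by_contra hcon
  rw [not_le] at hcon
  apply hnf
  refine ⟨_, Set.inter_subset_right, (hcl.measurableSet).inter measurableSet_Icc, ?_,
    fun x hx => hx.1⟩
  exact (ENNReal.ofReal_le_iff_le_toReal hfin).1 hcon.le

/-- two frequencies `m` for which the box is not forbidden are close -/
theorem nonforb_close {a b : ℝ → ℝ} (ha : Continuous a) (hb : Continuous b) {s : ℝ} {P j : ℕ}
    (hP : 0 < P) (hnf : ¬ Forb a s P j) (hnf' : ¬ Forb b s P j) :
    ∃ x, |a x| < 8 * s ∧ |b x| < 8 * s := by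
  have hP' : (0 : ℝ) < P := Nat.cast_pos.2 hP
  have h1 := nonforb_meas ha hP hnf
  have h2 := nonforb_meas hb hP hnf'
  by_contra hcon
  push Not at hcon
  have hsub : Set.Icc ((j : ℝ) / P) ((j : ℝ) / P + 1 / P) ⊆
      ({x | 8 * s ≤ |a x|} ∩ Set.Icc ((j : ℝ) / P) ((j : ℝ) / P + 1 / P)) ∪
      ({x | 8 * s ≤ |b x|} ∩ Set.Icc ((j : ℝ) / P) ((j : ℝ) / P + 1 / P)) := by
    intro x hx
    by_cases h : 8 * s ≤ |a x|
    · exact Or.inl ⟨h, hx⟩
    · exact Or.inr ⟨hcon x (not_le.1 h), hx⟩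
  have h3 := (measure_mono (μ := volume) hsub).trans (measure_union_le _ _)
  rw [Real.volume_Icc] at h3
  have h4 := h3.trans (add_le_add h1 h2)
  rw [← ENNReal.ofReal_add (by positivity) (by positivity),
    ENNReal.ofReal_le_ofReal_iff (by positivity)] at h4
  have h5 : (1 : ℝ) / (8 * P) + 1 / (8 * P) = 1 / (4 * P) := by field_simp; norm_num
  rw [h5, add_sub_cancel_left, div_le_div_iff₀ hP' (by positivity)] at h4
  linarith

/-- half of the number of boxes -/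
def hh (s : ℝ) : ℕ := ⌈2 * s⌉₊

theorem hh_ge (s : ℝ) : 2 * s ≤ hh s := Nat.le_ceil _

theorem hh_le {s : ℝ} (hs : 1 ≤ s) : (hh s : ℝ) ≤ 3 * s := by
  have := Nat.ceil_lt_add_one (by linarith : 0 ≤ 2 * s)
  unfold hh
  linarith

theorem hh_pos {s : ℝ} (hs : 1 ≤ s) : 0 < hh s := by
  have h1 := hh_ge s
  have h2 : (0 : ℝ) < hh s := by linarith
  exact_mod_cast h2

/-- the constant -/
def C1 (k : ℕ) : ℝ := 384 * 24 ^ (2 * k - 1)

theorem C1_pos (k : ℕ) : 0 < C1 k := by unfold C1; positivity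

theorem nonforb_n' {k : ℕ} (hk : 1 ≤ k) {s : ℝ} (hs : 1 ≤ s) {j : ℕ} (hj : j < 2 * hh s)
    {m n : ℤ} (hnf : ¬ Forb (ak k m n) s (2 * hh s) j) :
    |(n : ℝ)| * (gg (hh s) j : ℝ) ^ (2 * k - 1) ≤ C1 k * s ^ (2 * k + 1) := by
  have h1 := nonforb_n hk (by linarith) (hh_pos hs) hj hnf
  have h2 := hh_le hs
  have h3 : (0 : ℝ) ≤ hh s := Nat.cast_nonneg _
  calc |(n : ℝ)| * (gg (hh s) j : ℝ) ^ (2 * k - 1)
      ≤ 64 * s * (2 * hh s) * (8 * hh s) ^ (2 * k - 1) := h1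
    _ ≤ 64 * s * (2 * (3 * s)) * (8 * (3 * s)) ^ (2 * k - 1) := by gcongr
    _ = C1 k * s ^ (2 * k + 1) := by
      unfold C1
      rw [show 8 * (3 * s) = 24 * s by ring, mul_pow,
        show 2 * k + 1 = (2 * k - 1) + 2 by omega, pow_add]
      ring

theorem nonforb_n0 {k : ℕ} (hk : 1 ≤ k) {s : ℝ} (hs : 1 ≤ s) {j : ℕ} (hj : j < 2 * hh s)
    {m n : ℤ} (hnf : ¬ Forb (ak k m n) s (2 * hh s) j) :
    |(n : ℝ)| ≤ C1 k * s ^ (2 * k + 1) := by
  refine le_trans ?_ (nonforb_n' hk hs hj hnf)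
  have h1 : (1 : ℝ) ≤ (gg (hh s) j : ℝ) ^ (2 * k - 1) :=
    one_le_pow₀ (by exact_mod_cast gg_pos hj)
  nlinarith [abs_nonneg (n : ℝ)]

theorem nonforb_m {k : ℕ} (hk : 1 ≤ k) {s : ℝ} (hs : 1 ≤ s) {j : ℕ} (hj : j < 2 * hh s)
    {m n : ℤ} (hnf : ¬ Forb (ak k m n) s (2 * hh s) j) :
    |(m : ℝ)| ≤ (8 + 2 ^ k * C1 k) * s ^ (2 * k + 1) := by
  have hc := (contDiff_ak k m n).continuous
  obtain ⟨x, hx, -⟩ := nonforb_close hc hc (P := 2 * hh s) (by have := hh_pos hs; omega) hnf hnf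
  have h1 := nonforb_n0 hk hs hj hnf
  unfold ak at hx
  rw [abs_mul, abs_of_pos (by positivity : (0 : ℝ) < 2 * Real.pi)] at hx
  have h2 : |(m : ℝ) + n * fk k x| ≤ 8 * s := by
    have h5 : (1 : ℝ) ≤ 2 * Real.pi := by linarith [Real.pi_gt_three]
    have := abs_nonneg ((m : ℝ) + n * fk k x)
    nlinarith
  have h3 : |(n : ℝ) * fk k x| ≤ C1 k * s ^ (2 * k + 1) * 2 ^ k := by
    rw [abs_mul, abs_of_nonneg (fk_nonneg k x)]
    have := fk_le k x
    have := fk_nonneg k x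
    have := C1_pos k
    gcongr
  have h4 : |(m : ℝ)| ≤ |(m : ℝ) + n * fk k x| + |(n : ℝ) * fk k x| := by
    have := abs_sub ((m : ℝ) + n * fk k x) (n * fk k x)
    rwa [add_sub_cancel_right] at this
  have h6 : s ≤ s ^ (2 * k + 1) := le_self_pow₀ hs (by omega)
  nlinarith

theorem card_m {k : ℕ} {s : ℝ} (hs : 1 ≤ s) (n : ℤ) (j : ℕ) (M : Finset ℤ)
    [DecidablePred fun m => ¬ Forb (ak k m n) s (2 * hh s) j] :
    ((M.filter fun m => ¬ Forb (ak k m n) s (2 * hh s) j).card : ℝ) ≤ 7 * s := by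
  rcases (M.filter fun m => ¬ Forb (ak k m n) s (2 * hh s) j).eq_empty_or_nonempty with h | ⟨m0, h0⟩
  · rw [h]; simp; linarith
  · have h0' := (Finset.mem_filter.1 h0).2
    have := card_int_le (M.filter fun m => ¬ Forb (ak k m n) s (2 * hh s) j) m0 (X := 3 * s)
      (by linarith) (fun m hm => by
        have hm' := (Finset.mem_filter.1 hm).2
        obtain ⟨x, hx1, hx2⟩ := nonforb_close (contDiff_ak k m n).continuous
          (contDiff_ak k m0 n).continuous (P := 2 * hh s) (by have := hh_pos hs; omega) hm' h0'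
        unfold ak at hx1 hx2
        have h1 := abs_sub (2 * Real.pi * ((m : ℝ) + n * fk k x))
          (2 * Real.pi * ((m0 : ℝ) + n * fk k x))
        rw [show 2 * Real.pi * ((m : ℝ) + n * fk k x) - 2 * Real.pi * ((m0 : ℝ) + n * fk k x) =
          2 * Real.pi * (m - m0) by ring, abs_mul,
          abs_of_pos (by positivity : (0 : ℝ) < 2 * Real.pi)] at h1
        have h3 : (6 : ℝ) ≤ 2 * Real.pi := by linarith [Real.pi_gt_three]
        have := abs_nonneg ((m : ℝ) - m0)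
        nlinarith)
    linarith

section

variable {k : ℕ} (E : ∀ p : ℤ × ℤ, EB (Vk k p.1 p.2))

theorem box_count {s : ℝ} (hs : 1 ≤ s) (p : ℤ × ℤ)
    [DecidablePred fun j => ¬ Forb (ak k p.1 p.2) s (2 * hh s) j] :
    {i | (E p).ev i ≤ s ^ 2}.Finite ∧ {i | (E p).ev i ≤ s ^ 2}.ncard ≤
      ((Finset.range (2 * hh s)).filter fun j => ¬ Forb (ak k p.1 p.2) s (2 * hh s) j).card := by
  refine EB.ncard_le (a := ak k p.1 p.2) (good_Vk k p.1 p.2) (contDiff_ak k _ _).continuous (E p)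
    (by linarith) ?_
  have := hh_ge s
  push_cast
  linarith

theorem exists_box {s : ℝ} (hs : 1 ≤ s) (α : St E) (hα : α.ev ≤ s ^ 2) :
    ∃ j < 2 * hh s, ¬ Forb (ak k α.m α.n) s (2 * hh s) j := by
  classical
  obtain ⟨h1, h2⟩ := box_count E hs α.1
  have h3 : 0 < {i | (E α.1).ev i ≤ s ^ 2}.ncard := (Set.ncard_pos h1).2 ⟨α.2, hα⟩
  obtain ⟨j, hj⟩ := Finset.card_pos.1 (h3.trans_le h2)
  rw [Finset.mem_filter, Finset.mem_range] at hj
  exact ⟨j, hj.1, hj.2⟩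

open Classical in
theorem main_count {s : ℝ} (hs : 1 ≤ s) (M N : Finset ℤ) (A : Set (St E))
    (hA : ∀ α ∈ A, α.m ∈ M ∧ α.n ∈ N ∧ α.ev ≤ s ^ 2) :
    A.Finite ∧ (A.ncard : ℝ) ≤ ∑ j ∈ Finset.range (2 * hh s), ∑ n ∈ N,
      ((M.filter fun m => ¬ Forb (ak k m n) s (2 * hh s) j).card : ℝ) := by
  have hfin : ∀ p, {i | (E p).ev i ≤ s ^ 2}.Finite := fun p => (box_count E hs p).1
  have hsub : A ⊆ ((M ×ˢ N).sigma (fun p => (hfin p).toFinset) : Finset (St E)) := by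
    intro α hα
    obtain ⟨h1, h2, h3⟩ := hA α hα
    rw [Finset.mem_coe, Finset.mem_sigma, Finset.mem_product, Set.Finite.mem_toFinset]
    exact ⟨⟨h1, h2⟩, h3⟩
  refine ⟨(Finset.finite_toSet _).subset hsub, ?_⟩
  have h1 := Set.ncard_le_ncard hsub (Finset.finite_toSet _)
  rw [Set.ncard_coe_finset, Finset.card_sigma] at h1
  have h2 : ∀ p ∈ M ×ˢ N, ((hfin p).toFinset).card ≤
      ((Finset.range (2 * hh s)).filter fun j => ¬ Forb (ak k p.1 p.2) s (2 * hh s) j).card := by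
    intro p _
    rw [← Set.ncard_eq_toFinset_card _ (hfin p)]
    exact (box_count E hs p).2
  have h3 := h1.trans (Finset.sum_le_sum h2)
  have h4 : ∑ p ∈ M ×ˢ N,
      ((Finset.range (2 * hh s)).filter fun j => ¬ Forb (ak k p.1 p.2) s (2 * hh s) j).card =
      ∑ j ∈ Finset.range (2 * hh s), ∑ n ∈ N,
      (M.filter fun m => ¬ Forb (ak k m n) s (2 * hh s) j).card := by
    simp only [Finset.card_filter]
    rw [Finset.sum_comm]
    refine Finset.sum_congr rfl fun j _ => ?_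
    rw [Finset.sum_product_right]
  rw [h4] at h3
  exact_mod_cast h3

end

theorem sum_inv_sq_le (h : ℕ) : ∑ j ∈ Finset.range h, 1 / ((j : ℝ) + 1) ^ 2 ≤ 2 := by
  have key : ∀ h : ℕ, ∑ j ∈ Finset.range (h + 1), 1 / ((j : ℝ) + 1) ^ 2 ≤ 2 - 1 / ((h : ℝ) + 1) := by
    intro h
    induction h with
    | zero => norm_num
    | succ n ih =>
      rw [Finset.sum_range_succ]
      have h1 : (1 : ℝ) / (((n + 1 : ℕ) : ℝ) + 1) ^ 2 ≤ 1 / ((n : ℝ) + 1) - 1 / (((n + 1 : ℕ) : ℝ) + 1) := by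
        push_cast
        rw [div_sub_div _ _ (by positivity) (by positivity), div_le_div_iff₀ (by positivity) (by positivity)]
        nlinarith
      linarith
  cases h with
  | zero => simp
  | succ n =>
    refine (key n).trans ?_
    have : (0 : ℝ) ≤ 1 / ((n : ℝ) + 1) := by positivity
    linarith

theorem inv_min_le {a b q : ℕ} (ha : 1 ≤ a) (hb : 1 ≤ b) (hq : 2 ≤ q) :
    1 / ((min a b : ℕ) : ℝ) ^ q ≤ 1 / (a : ℝ) ^ 2 + 1 / (b : ℝ) ^ 2 := by
  have key : ∀ c : ℕ, 1 ≤ c → 1 / (c : ℝ) ^ q ≤ 1 / (c : ℝ) ^ 2 := by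
    intro c hc
    have hc' : (1 : ℝ) ≤ c := by exact_mod_cast hc
    exact one_div_le_one_div_of_le (by positivity) (pow_le_pow_right₀ hc' hq)
  have pa : (0 : ℝ) ≤ 1 / (a : ℝ) ^ 2 := by positivity
  have pb : (0 : ℝ) ≤ 1 / (b : ℝ) ^ 2 := by positivity
  rcases le_total a b with h | h
  · rw [min_eq_left h]; linarith [key a ha]
  · rw [min_eq_right h]; linarith [key b hb]

theorem sum_gg_le (h : ℕ) {q : ℕ} (hq : 2 ≤ q) :
    ∑ j ∈ Finset.range (2 * h), 1 / (gg h j : ℝ) ^ q ≤ 8 := by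
  have s1 := sum_inv_sq_le h
  have s2 : ∑ j ∈ Finset.range h, 1 / ((h - j : ℕ) : ℝ) ^ 2 ≤ 2 := by
    rw [← Finset.sum_range_reflect]
    refine le_trans (le_of_eq (Finset.sum_congr rfl fun j hj => ?_)) s1
    rw [Finset.mem_range] at hj
    rw [show h - (h - 1 - j) = j + 1 by omega]
    push_cast
    ring
  have hA : ∑ j ∈ Finset.range h, 1 / (gg h j : ℝ) ^ q ≤ 4 := by
    have : ∀ j ∈ Finset.range h, 1 / (gg h j : ℝ) ^ q ≤
        1 / ((j : ℝ) + 1) ^ 2 + 1 / ((h - j : ℕ) : ℝ) ^ 2 := by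
      intro j hj
      rw [Finset.mem_range] at hj
      unfold gg
      rw [if_pos hj]
      have := inv_min_le (a := j + 1) (b := h - j) (by omega) (by omega) hq
      push_cast at this ⊢
      exact this
    refine (Finset.sum_le_sum this).trans ?_
    rw [Finset.sum_add_distrib]
    linarith
  have hB : ∑ j ∈ Finset.range h, 1 / (gg h (h + j) : ℝ) ^ q ≤ 4 := by
    have : ∀ j ∈ Finset.range h, 1 / (gg h (h + j) : ℝ) ^ q ≤
        1 / ((j : ℝ) + 1) ^ 2 + 1 / ((h - j : ℕ) : ℝ) ^ 2 := by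
      intro j hj
      rw [Finset.mem_range] at hj
      unfold gg
      rw [if_neg (by omega), show h + j - h + 1 = j + 1 by omega,
        show 2 * h - (h + j) = h - j by omega]
      have := inv_min_le (a := j + 1) (b := h - j) (by omega) (by omega) hq
      push_cast at this ⊢
      exact this
    refine (Finset.sum_le_sum this).trans ?_
    rw [Finset.sum_add_distrib]
    linarith
  rw [two_mul, Finset.sum_range_add]
  linarith

end Upper

section U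

open Upper

variable {k : ℕ} (E : ∀ p : ℤ × ℤ, EB (Vk k p.1 p.2))

theorem st_zero (hk : 2 ≤ k) : ∃ C : ℝ, ∀ s : ℝ, 1 ≤ s → ∀ α : St E, α.ev ≤ s ^ 2 →
    |(α.n : ℝ)| ≤ C * s ^ (2 * k + 1) ∧ |(α.m : ℝ)| ≤ C * s ^ (2 * k + 1) := by
  refine ⟨(8 + 2 ^ k * C1 k), fun s hs α hα => ?_⟩
  obtain ⟨j, hj, hnf⟩ := exists_box E hs α hα
  refine ⟨(nonforb_n0 (by omega) hs hj hnf).trans ?_, nonforb_m (by omega) hs hj hnf⟩
  have h1 : (1 : ℝ) ≤ 2 ^ k := one_le_pow₀ (by norm_num)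
  have h2 := C1_pos k
  have h3 : 0 < s ^ (2 * k + 1) := by positivity
  have h4 : C1 k ≤ 8 + 2 ^ k * C1 k := by nlinarith
  exact mul_le_mul_of_nonneg_right h4 h3.le

theorem exists_MN (hk : 2 ≤ k) {s : ℝ} (hs : 1 ≤ s) : ∃ M : Finset ℤ,
    ∀ α : St E, α.ev ≤ s ^ 2 → α.m ∈ M ∧ α.n ∈ M := by
  obtain ⟨C, hC⟩ := st_zero E hk
  refine ⟨Finset.Icc (-⌊C * s ^ (2 * k + 1)⌋) ⌊C * s ^ (2 * k + 1)⌋, fun α hα => ?_⟩
  have key : ∀ n : ℤ, |(n : ℝ)| ≤ C * s ^ (2 * k + 1) →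
      n ∈ Finset.Icc (-⌊C * s ^ (2 * k + 1)⌋) ⌊C * s ^ (2 * k + 1)⌋ := by
    intro n hn
    rw [abs_le] at hn
    rw [Finset.mem_Icc]
    constructor
    · have : -n ≤ ⌊C * s ^ (2 * k + 1)⌋ := Int.le_floor.2 (by push_cast; linarith [hn.1])
      linarith
    · exact Int.le_floor.2 hn.2
  exact ⟨key _ (hC s hs α hα).2, key _ (hC s hs α hα).1⟩

theorem st_finite (hk : 2 ≤ k) (t : ℝ) : {α : St E | α.ev ≤ t}.Finite := by
  obtain ⟨s, hs, hst⟩ : ∃ s : ℝ, 1 ≤ s ∧ t ≤ s ^ 2 := by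
    refine ⟨max 1 t, le_max_left _ _, ?_⟩
    have h1 : 1 ≤ max 1 t := le_max_left _ _
    have h2 : t ≤ max 1 t := le_max_right _ _
    nlinarith
  obtain ⟨M, hM⟩ := exists_MN E hk hs
  exact (main_count E hs M M {α : St E | α.ev ≤ t} fun α hα =>
    ⟨(hM α (le_trans hα hst)).1, (hM α (le_trans hα hst)).2, le_trans hα hst⟩).1

theorem st_n (hk : 2 ≤ k) : ∃ C : ℝ, ∀ s : ℝ, 1 ≤ s → ∀ R : ℝ, 0 ≤ R →
    ({α : St E | α.ev ≤ s ^ 2 ∧ |(α.n : ℝ)| ≤ R}.ncard : ℝ) ≤ C * (R + 1) * s ^ 2 := by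
  classical
  refine ⟨84, fun s hs R hR => ?_⟩
  obtain ⟨M, hM⟩ := exists_MN E hk hs
  have h1 := (main_count E hs M (M.filter fun n : ℤ => |(n : ℝ)| ≤ R)
    {α : St E | α.ev ≤ s ^ 2 ∧ |(α.n : ℝ)| ≤ R} fun α hα =>
    ⟨(hM α hα.1).1, Finset.mem_filter.2 ⟨(hM α hα.1).2, hα.2⟩, hα.1⟩).2
  refine h1.trans ?_
  have h2 : ((M.filter fun n : ℤ => |(n : ℝ)| ≤ R).card : ℝ) ≤ 2 * R + 1 :=
    card_int_le _ 0 hR fun n hn => by simpa using (Finset.mem_filter.1 hn).2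
  calc ∑ j ∈ Finset.range (2 * hh s), ∑ n ∈ (M.filter fun n : ℤ => |(n : ℝ)| ≤ R),
      ((M.filter fun m => ¬ Forb (ak k m n) s (2 * hh s) j).card : ℝ)
      ≤ ∑ j ∈ Finset.range (2 * hh s), ∑ n ∈ (M.filter fun n : ℤ => |(n : ℝ)| ≤ R), 7 * s :=
        Finset.sum_le_sum fun j _ => Finset.sum_le_sum fun n _ => card_m hs n j M
    _ = (2 * hh s) * ((M.filter fun n : ℤ => |(n : ℝ)| ≤ R).card * (7 * s)) := by
        simp [Finset.sum_const]
    _ ≤ (2 * (3 * s)) * ((2 * R + 1) * (7 * s)) := by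
        have := hh_le hs
        gcongr
    _ ≤ 84 * (R + 1) * s ^ 2 := by nlinarith [sq_nonneg s]

theorem st_up (hk : 2 ≤ k) : ∃ C : ℝ, ∀ s : ℝ, 1 ≤ s →
    ({α : St E | α.ev ≤ s ^ 2}.ncard : ℝ) ≤ C * s ^ (2 * k + 2) := by
  classical
  refine ⟨112 * C1 k + 42, fun s hs => ?_⟩
  obtain ⟨M, hM⟩ := exists_MN E hk hs
  have h1 := (main_count E hs M M {α : St E | α.ev ≤ s ^ 2} fun α hα =>
    ⟨(hM α hα).1, (hM α hα).2, hα⟩).2
  refine h1.trans ?_
  have hC := C1_pos k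
  have h2 : ∀ j ∈ Finset.range (2 * hh s), ∑ n ∈ M,
      ((M.filter fun m => ¬ Forb (ak k m n) s (2 * hh s) j).card : ℝ) ≤
      7 * s * (2 * (C1 k * s ^ (2 * k + 1)) * (1 / (gg (hh s) j : ℝ) ^ (2 * k - 1)) + 1) := by
    intro j hj
    rw [Finset.mem_range] at hj
    have hg : (0 : ℝ) < (gg (hh s) j : ℝ) ^ (2 * k - 1) := by
      have : (0 : ℝ) < gg (hh s) j := by exact_mod_cast gg_pos hj
      positivity
    have h3 : ∀ n ∈ M, ((M.filter fun m => ¬ Forb (ak k m n) s (2 * hh s) j).card : ℝ) ≤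
        if (∃ m ∈ M, ¬ Forb (ak k m n) s (2 * hh s) j) then 7 * s else 0 := by
      intro n _
      split_ifs with h
      · exact card_m hs n j M
      · rw [Finset.filter_eq_empty_iff.2 (fun m hm hf => h ⟨m, hm, hf⟩)]
        simp
    refine (Finset.sum_le_sum h3).trans ?_
    rw [← Finset.sum_filter, Finset.sum_const, nsmul_eq_mul, mul_comm]
    have h4 : ((M.filter fun n => ∃ m ∈ M, ¬ Forb (ak k m n) s (2 * hh s) j).card : ℝ) ≤
        2 * (C1 k * s ^ (2 * k + 1) / (gg (hh s) j : ℝ) ^ (2 * k - 1)) + 1 := by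
      refine card_int_le _ 0 (by positivity) fun n hn => ?_
      obtain ⟨m, -, hm⟩ := (Finset.mem_filter.1 hn).2
      rw [Int.cast_zero, sub_zero, le_div_iff₀ hg]
      exact nonforb_n' (by omega) hs hj hm
    rw [show 2 * (C1 k * s ^ (2 * k + 1)) * (1 / (gg (hh s) j : ℝ) ^ (2 * k - 1)) =
      2 * (C1 k * s ^ (2 * k + 1) / (gg (hh s) j : ℝ) ^ (2 * k - 1)) by ring]
    gcongr
  refine (Finset.sum_le_sum h2).trans ?_
  rw [← Finset.mul_sum, Finset.sum_add_distrib, ← Finset.mul_sum]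
  have h5 := sum_gg_le (hh s) (q := 2 * k - 1) (by omega)
  have h6 : ∑ j ∈ Finset.range (2 * hh s), (1 : ℝ) ≤ 6 * s := by
    have := hh_le hs
    simp
    linarith
  calc 7 * s * (2 * (C1 k * s ^ (2 * k + 1)) *
        ∑ j ∈ Finset.range (2 * hh s), 1 / (gg (hh s) j : ℝ) ^ (2 * k - 1) +
        ∑ j ∈ Finset.range (2 * hh s), (1 : ℝ))
      ≤ 7 * s * (2 * (C1 k * s ^ (2 * k + 1)) * 8 + 6 * s ^ (2 * k + 1)) := by
        have h7 : s ≤ s ^ (2 * k + 1) := le_self_pow₀ hs (by omega)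
        gcongr
        linarith
    _ = (112 * C1 k + 42) * s ^ (2 * k + 2) := by ring

end U

end MP_d22ea4_an
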