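import Pool.Agent.Lib_MP_d22ea4_an.EBfacts
import Pool.Agent.Lib_MP_d22ea4_an.Fk
import Pool.Agent.Lib_MP_d22ea4_an.Upper

/-!
PIECE L: lower bound for the number of states (trial functions).
-/

open MeasureTheory Filter Topology Complex
open scoped ContDiff ComplexConjugate InnerProductSpace

noncomputable section

namespace MP_d22ea4_an

attribute [local instance] instMeasureSpaceUnitAddCircle

/-- smooth cut-off: one on `t ≤ 1` and zero on `t ≥ 2` -/
def chiL (t : ℝ) : ℝ := Real.smoothTransition (2 - t)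

theorem chiL_smooth : ContDiff ℝ ∞ chiL :=
  Real.smoothTransition.contDiff.comp (contDiff_const.sub contDiff_id)

theorem chiL_one {t : ℝ} (h : t ≤ 1) : chiL t = 1 :=
  Real.smoothTransition.one_of_one_le (by linarith)

theorem chiL_zero {t : ℝ} (h : 2 ≤ t) : chiL t = 0 :=
  Real.smoothTransition.zero_of_nonpos (by linarith)

theorem chiL_nonneg (t : ℝ) : 0 ≤ chiL t := Real.smoothTransition.nonneg _

theorem chiL_le_one (t : ℝ) : chiL t ≤ 1 := Real.smoothTransition.le_one _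

theorem deriv_chiL_of_ge {t : ℝ} (h : 2 ≤ t) : deriv chiL t = 0 := by
  apply IsLocalMin.deriv_eq_zero
  refine Eventually.of_forall fun y => ?_
  rw [chiL_zero h]
  exact chiL_nonneg y

theorem deriv_chiL_of_le {t : ℝ} (h : t ≤ 1) : deriv chiL t = 0 := by
  apply IsLocalMax.deriv_eq_zero
  refine Eventually.of_forall fun y => ?_
  rw [chiL_one h]
  exact chiL_le_one y

theorem exists_deriv_chiL : ∃ K : ℝ, 0 < K ∧ ∀ t, |deriv chiL t| ≤ K := by
  have hc : Continuous (deriv chiL) := chiL_smooth.continuous_deriv (by simp)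
  obtain ⟨K, hK⟩ := (isCompact_Icc (a := (1:ℝ)) (b := 2)).exists_bound_of_continuousOn
    hc.continuousOn
  refine ⟨max K 1, lt_of_lt_of_le one_pos (le_max_right _ _), fun t => ?_⟩
  by_cases h1 : t ≤ 1
  · rw [deriv_chiL_of_le h1, abs_zero]; positivity
  by_cases h2 : 2 ≤ t
  · rw [deriv_chiL_of_ge h2, abs_zero]; positivity
  exact (hK t ⟨by linarith, by linarith⟩).trans (le_max_left _ _)

/-- the trial function on the line -/
def trialR (Λ x : ℝ) : ℝ := chiL (Λ * (1 - Real.cos (2 * Real.pi * x)))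

/-- the trial function on the circle -/
def trialC (Λ : ℝ) : C(UnitAddCircle, ℂ) where
  toFun x := ((chiL (Λ * (1 - (fourier 1 x).re)) : ℝ) : ℂ)
  continuous_toFun := by
    have h := chiL_smooth.continuous
    fun_prop

theorem lift_trialC (Λ : ℝ) : lift (trialC Λ) = fun x => ((trialR Λ x : ℝ) : ℂ) := by
  funext x
  have h1 : (fourier 1 ((x : ℝ) : UnitAddCircle)).re = Real.cos (2 * Real.pi * x) := by
    rw [fourier_coe_apply]
    have h2 : (2 * (Real.pi : ℂ) * I * ((1 : ℤ) : ℂ) * (x : ℂ) / ((1 : ℝ) : ℂ)) =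
        ((2 * Real.pi * x : ℝ) : ℂ) * I := by
      push_cast; ring
    rw [h2, Complex.exp_ofReal_mul_I_re]
  change ((chiL (Λ * (1 - (fourier 1 ((x : ℝ) : UnitAddCircle)).re)) : ℝ) : ℂ) = _
  rw [h1]
  rfl

theorem trialR_smooth (Λ : ℝ) : ContDiff ℝ ∞ (trialR Λ) := by
  unfold trialR
  exact chiL_smooth.comp (by fun_prop)

theorem trialR_periodic (Λ : ℝ) : Function.Periodic (trialR Λ) 1 := by
  intro x
  unfold trialR
  rw [show 2 * Real.pi * (x + 1) = 2 * Real.pi * x + 2 * Real.pi by ring, Real.cos_add_two_pi]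

theorem hasDerivAt_trialR (Λ x : ℝ) : HasDerivAt (trialR Λ)
    (deriv chiL (Λ * (1 - Real.cos (2 * Real.pi * x))) *
      (Λ * (2 * Real.pi * Real.sin (2 * Real.pi * x)))) x := by
  have h1 : HasDerivAt (fun y : ℝ => 2 * Real.pi * y) (2 * Real.pi) x := by
    simpa using (hasDerivAt_id x).const_mul (2 * Real.pi)
  have h2 := (h1.cos.const_sub 1).const_mul Λ
  have h3 : HasDerivAt chiL (deriv chiL (Λ * (1 - Real.cos (2 * Real.pi * x))))
      (Λ * (1 - Real.cos (2 * Real.pi * x))) :=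
    (chiL_smooth.differentiable (by simp) _).hasDerivAt
  have h4 := h3.comp x h2
  refine h4.congr_deriv ?_
  ring

theorem deriv_trialR_periodic (Λ : ℝ) : Function.Periodic (deriv (trialR Λ)) 1 := by
  intro x
  rw [(hasDerivAt_trialR Λ x).deriv, (hasDerivAt_trialR Λ (x + 1)).deriv]
  rw [show 2 * Real.pi * (x + 1) = 2 * Real.pi * x + 2 * Real.pi by ring, Real.cos_add_two_pi,
    Real.sin_add_two_pi]

theorem one_sub_cos_lower {x : ℝ} (hx : |x| ≤ 1 / 2) :
    8 * x ^ 2 ≤ 1 - Real.cos (2 * Real.pi * x) := by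
  have h1 : 1 - Real.cos (2 * Real.pi * x) = 2 * Real.sin (Real.pi * x) ^ 2 := by
    rw [show 2 * Real.pi * x = 2 * (Real.pi * x) by ring, Real.cos_two_mul]
    have := Real.sin_sq_add_cos_sq (Real.pi * x)
    linarith
  have h2 : |2 * x| ≤ |Real.sin (Real.pi * x)| := by
    have h3 := Real.mul_abs_le_abs_sin (x := Real.pi * x) (by
      rw [abs_mul, abs_of_pos Real.pi_pos]
      nlinarith [Real.pi_pos])
    rw [abs_mul, abs_of_pos Real.pi_pos] at h3
    rw [abs_mul, abs_two]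
    calc 2 * |x| = 2 / Real.pi * (Real.pi * |x|) := by field_simp
      _ ≤ _ := h3
  have h4 : (2 * x) ^ 2 ≤ Real.sin (Real.pi * x) ^ 2 := sq_le_sq.mpr h2
  rw [h1]
  linarith

theorem one_sub_cos_upper (x : ℝ) : 1 - Real.cos (2 * Real.pi * x) ≤ 20 * x ^ 2 := by
  have := fk_le_pow 1 x
  simpa [fk] using this

theorem trialR_estimate {K : ℝ} (hK0 : 0 < K) (hK : ∀ t, |deriv chiL t| ≤ K) {Λ : ℝ} (hΛ : 0 < Λ) :
    ∫ x in (0:ℝ)..1, (deriv (trialR Λ) x) ^ 2 ≤
      (12 * Real.pi ^ 4 * K ^ 2 * Λ) * ∫ x in (0:ℝ)..1, (trialR Λ x) ^ 2 := by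
  have hπ := Real.pi_pos
  set r : ℝ := 1 / (2 * Real.sqrt Λ) with hr
  have hr0 : 0 < r := by positivity
  have hsq : Real.sqrt Λ ^ 2 = Λ := Real.sq_sqrt hΛ.le
  have hrΛ : r ^ 2 * Λ = 1 / 4 := by
    rw [hr, div_pow, mul_pow, hsq]; field_simp; norm_num
  set ρ : ℝ := min (1 / 2) r with hρ
  have hρ0 : 0 < ρ := lt_min (by norm_num) hr0
  have hρ1 : ρ ≤ 1 / 2 := min_le_left _ _
  have hρr : ρ ≤ r := min_le_right _ _
  have hρ2 : ρ ^ 2 * Λ ≤ 1 / 4 := by
    rw [← hrΛ]; gcongr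
  -- shift the integrals
  have s1 : ∫ x in (0:ℝ)..1, (deriv (trialR Λ) x) ^ 2 =
      ∫ x in (-(1/2):ℝ)..(1/2), (deriv (trialR Λ) x) ^ 2 := by
    have h1 : Function.Periodic (fun x => (deriv (trialR Λ) x) ^ 2) 1 := fun x => by
      simp only [deriv_trialR_periodic Λ x]
    have h2 := h1.intervalIntegral_add_eq 0 (-(1/2))
    norm_num at h2 ⊢
    exact h2
  have s2 : ∫ x in (0:ℝ)..1, (trialR Λ x) ^ 2 = ∫ x in (-(1/2):ℝ)..(1/2), (trialR Λ x) ^ 2 := by
    have h1 : Function.Periodic (fun x => (trialR Λ x) ^ 2) 1 := fun x => by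
      simp only [trialR_periodic Λ x]
    have h2 := h1.intervalIntegral_add_eq 0 (-(1/2))
    norm_num at h2 ⊢
    exact h2
  rw [s1, s2]
  have hcont : Continuous (deriv (trialR Λ)) := (trialR_smooth Λ).continuous_deriv (by simp)
  have hcont2 : Continuous (trialR Λ) := (trialR_smooth Λ).continuous
  -- pointwise bound of the derivative
  set M : ℝ := 4 * Real.pi ^ 4 * K ^ 2 * Λ with hM
  have hM0 : 0 < M := by positivity
  have hpt : ∀ x ∈ Set.Icc (-(1/2):ℝ) (1/2), (deriv (trialR Λ) x) ^ 2 ≤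
      (Set.Icc (-ρ) ρ).indicator (fun _ => M) x := by
    intro x hx
    have hx' : |x| ≤ 1 / 2 := abs_le.mpr ⟨by linarith [hx.1], hx.2⟩
    rw [(hasDerivAt_trialR Λ x).deriv]
    by_cases hxρ : x ∈ Set.Icc (-ρ) ρ
    · rw [Set.indicator_of_mem hxρ]
      have hxρ' : |x| ≤ ρ := abs_le.mpr hxρ
      have h1 : |Real.sin (2 * Real.pi * x)| ≤ 2 * Real.pi * |x| := by
        have h := Real.abs_sin_le_abs (x := 2 * Real.pi * x)
        rwa [abs_mul, abs_of_pos (by positivity : 0 < 2 * Real.pi)] at h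
      have h2 : |deriv chiL (Λ * (1 - Real.cos (2 * Real.pi * x))) *
          (Λ * (2 * Real.pi * Real.sin (2 * Real.pi * x)))| ≤ K * (Λ * (2 * Real.pi * (2 * Real.pi * ρ))) := by
        rw [abs_mul, abs_mul Λ, abs_of_pos hΛ, abs_mul (2 * Real.pi),
          abs_of_pos (by positivity : 0 < 2 * Real.pi)]
        have h3 : |Real.sin (2 * Real.pi * x)| ≤ 2 * Real.pi * ρ := h1.trans (by gcongr)
        have := hK (Λ * (1 - Real.cos (2 * Real.pi * x)))
        gcongr
      calc _ = |deriv chiL (Λ * (1 - Real.cos (2 * Real.pi * x))) *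
          (Λ * (2 * Real.pi * Real.sin (2 * Real.pi * x)))| ^ 2 := (sq_abs _).symm
        _ ≤ (K * (Λ * (2 * Real.pi * (2 * Real.pi * ρ)))) ^ 2 := by gcongr
        _ = 16 * Real.pi ^ 4 * K ^ 2 * Λ * (ρ ^ 2 * Λ) := by ring
        _ ≤ 16 * Real.pi ^ 4 * K ^ 2 * Λ * (1 / 4) := by gcongr
        _ = M := by rw [hM]; ring
    · rw [Set.indicator_of_notMem hxρ]
      have hxρ' : ρ < |x| := by
        by_contra h
        exact hxρ (abs_le.mp (not_lt.mp h))
      have hρr' : ρ = r := by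
        rw [hρ]
        rcases min_choice (1/2) r with h | h
        · rw [hρ, h] at hxρ'
          linarith
        · exact h
      have h1 : 2 ≤ Λ * (1 - Real.cos (2 * Real.pi * x)) := by
        have h2 := one_sub_cos_lower hx'
        have h3 : r ^ 2 ≤ x ^ 2 := by
          rw [← sq_abs x, ← hρr']
          gcongr
        calc (2:ℝ) = 8 * (r ^ 2 * Λ) := by rw [hrΛ]; norm_num
          _ ≤ 8 * (x ^ 2 * Λ) := by gcongr
          _ = Λ * (8 * x ^ 2) := by ring
          _ ≤ _ := by gcongr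
      rw [deriv_chiL_of_ge h1]
      simp
  have hup : ∫ x in (-(1/2):ℝ)..(1/2), (deriv (trialR Λ) x) ^ 2 ≤ M * (2 * ρ) := by
    have h1 : ∫ x in (-(1/2):ℝ)..(1/2), (deriv (trialR Λ) x) ^ 2 ≤
        ∫ x in (-(1/2):ℝ)..(1/2), (Set.Icc (-ρ) ρ).indicator (fun _ => M) x := by
      refine intervalIntegral.integral_mono_on (by norm_num)
        (hcont.pow 2).continuousOn.intervalIntegrable ?_ hpt
      have hi : IntegrableOn (fun _ : ℝ => M) (Set.Ioc (-(1/2):ℝ) (1/2)) volume := by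
        simp
      rw [intervalIntegrable_iff_integrableOn_Ioc_of_le (by norm_num)]
      exact hi.indicator measurableSet_Icc
    refine h1.trans ?_
    rw [intervalIntegral.integral_of_le (by norm_num), integral_indicator measurableSet_Icc,
      Measure.restrict_restrict measurableSet_Icc, setIntegral_const, smul_eq_mul, mul_comm]
    refine mul_le_mul_of_nonneg_left ?_ hM0.le
    have h2 : volume.real (Set.Icc (-ρ) ρ ∩ Set.Ioc (-(1/2)) (1/2)) ≤ volume.real (Set.Icc (-ρ) ρ) :=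
      measureReal_mono Set.inter_subset_left (by simp)
    refine h2.trans ?_
    rw [Real.volume_real_Icc_of_le (by linarith)]
    linarith
  have hlo : 2 * ρ / 3 ≤ ∫ x in (-(1/2):ℝ)..(1/2), (trialR Λ x) ^ 2 := by
    have h1 : ∫ x in (-(ρ/3):ℝ)..(ρ/3), (trialR Λ x) ^ 2 ≤
        ∫ x in (-(1/2):ℝ)..(1/2), (trialR Λ x) ^ 2 :=
      intervalIntegral.integral_mono_interval (by linarith) (by linarith) (by linarith)
        (Eventually.of_forall fun x => sq_nonneg _)
        (hcont2.pow 2).continuousOn.intervalIntegrable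
    have h2 : ∫ x in (-(ρ/3):ℝ)..(ρ/3), (trialR Λ x) ^ 2 = ∫ x in (-(ρ/3):ℝ)..(ρ/3), (1:ℝ) := by
      refine intervalIntegral.integral_congr fun x hx => ?_
      rw [Set.uIcc_of_le (by linarith)] at hx
      have h3 : x ^ 2 ≤ (ρ / 3) ^ 2 := by
        rw [← sq_abs x]
        have : |x| ≤ ρ / 3 := abs_le.mpr hx
        gcongr
      have h4 : Λ * (1 - Real.cos (2 * Real.pi * x)) ≤ 1 := by
        calc Λ * (1 - Real.cos (2 * Real.pi * x)) ≤ Λ * (20 * x ^ 2) := by
              have := one_sub_cos_upper x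
              gcongr
          _ ≤ Λ * (20 * (ρ / 3) ^ 2) := by gcongr
          _ = 20 / 9 * (ρ ^ 2 * Λ) := by ring
          _ ≤ 20 / 9 * (1 / 4) := by gcongr
          _ ≤ 1 := by norm_num
      simp only [trialR, chiL_one h4, one_pow]
    rw [h2, intervalIntegral.integral_const, smul_eq_mul] at h1
    linarith
  calc ∫ x in (-(1/2):ℝ)..(1/2), (deriv (trialR Λ) x) ^ 2 ≤ M * (2 * ρ) := hup
    _ = (3 * M) * (2 * ρ / 3) := by ring
    _ ≤ (3 * M) * ∫ x in (-(1/2):ℝ)..(1/2), (trialR Λ x) ^ 2 := by gcongr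
    _ = _ := by rw [hM]; ring

theorem trialC_ne_zero (Λ : ℝ) : trialC Λ ≠ 0 := by
  intro h
  have h1 := congrFun (lift_trialC Λ) 0
  rw [h] at h1
  simp [trialR, chiL_one] at h1

section U

variable {k : ℕ} (E : ∀ p : ℤ × ℤ, EB (Vk k p.1 p.2))

theorem exists_state : ∃ c : ℝ, 0 < c ∧ ∀ s : ℝ, 1 ≤ s → ∀ m n : ℤ, |(m : ℝ)| ≤ c * s →
    |(n : ℝ)| ≤ c * s ^ (2 * k + 1) → ∃ i, (E (m, n)).ev i ≤ s ^ 2 := by
  have hπ := Real.pi_pos
  obtain ⟨K, hK0, hK⟩ := exists_deriv_chiL
  set A : ℝ := 1 / (24 * Real.pi ^ 4 * K ^ 2) with hA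
  have hA0 : 0 < A := by positivity
  set c : ℝ := min (1 / (8 * Real.pi)) ((A / 2) ^ k / (8 * Real.pi)) with hc
  have hc0 : 0 < c := by positivity
  refine ⟨c, hc0, fun s hs m n hm hn => ?_⟩
  have hs0 : 0 < s := by linarith
  set Λ : ℝ := A * s ^ 2 with hΛ
  have hΛ0 : 0 < Λ := by positivity
  have hest := trialR_estimate hK0 hK hΛ0
  have hcoef : 12 * Real.pi ^ 4 * K ^ 2 * Λ = s ^ 2 / 2 := by
    rw [hΛ, hA]; field_simp; norm_num
  rw [hcoef] at hest
  have hcont2 : Continuous (trialR Λ) := (trialR_smooth Λ).continuous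
  have hcont : Continuous (deriv (trialR Λ)) := (trialR_smooth Λ).continuous_deriv (by simp)
  -- the potential on the support
  have hpot : ∀ x, Vk k m n x * (trialR Λ x) ^ 2 ≤ s ^ 2 / 4 * (trialR Λ x) ^ 2 := by
    intro x
    by_cases h2 : 2 ≤ Λ * (1 - Real.cos (2 * Real.pi * x))
    · have : trialR Λ x = 0 := chiL_zero h2
      rw [this]; simp
    · refine mul_le_mul_of_nonneg_right ?_ (sq_nonneg _)
      have hg0 : 0 ≤ 1 - Real.cos (2 * Real.pi * x) := by
        linarith [Real.cos_le_one (2 * Real.pi * x)]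
      have hg : 1 - Real.cos (2 * Real.pi * x) ≤ 2 / A / s ^ 2 := by
        rw [div_div, le_div_iff₀ (by positivity)]
        calc _ = Λ * (1 - Real.cos (2 * Real.pi * x)) := by rw [hΛ]; ring
          _ ≤ 2 := (not_le.mp h2).le
      have hfk : fk k x ≤ (2 / A) ^ k / s ^ (2 * k) := by
        unfold fk
        calc (1 - Real.cos (2 * Real.pi * x)) ^ k ≤ (2 / A / s ^ 2) ^ k := by gcongr
          _ = (2 / A) ^ k / s ^ (2 * k) := by rw [div_pow (2 / A), ← pow_mul]
      have hfk0 : 0 ≤ fk k x := by unfold fk; positivity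
      have ha : |ak k m n x| ≤ s / 2 := by
        unfold ak
        rw [abs_mul, abs_of_pos (by positivity : 0 < 2 * Real.pi)]
        have h3 : |(m : ℝ) + n * fk k x| ≤ s / (8 * Real.pi) + s / (8 * Real.pi) := by
          refine (abs_add_le _ _).trans (add_le_add ?_ ?_)
          · calc |(m : ℝ)| ≤ c * s := hm
              _ ≤ 1 / (8 * Real.pi) * s := by gcongr; exact min_le_left _ _
              _ = s / (8 * Real.pi) := by ring
          · rw [abs_mul, abs_of_nonneg hfk0]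
            calc |(n : ℝ)| * fk k x ≤ (c * s ^ (2 * k + 1)) * ((2 / A) ^ k / s ^ (2 * k)) := by
                  gcongr
              _ ≤ ((A / 2) ^ k / (8 * Real.pi) * s ^ (2 * k + 1)) * ((2 / A) ^ k / s ^ (2 * k)) := by
                  gcongr; exact min_le_right _ _
              _ = ((A / 2) ^ k * (2 / A) ^ k) * (s ^ (2 * k + 1) / s ^ (2 * k)) / (8 * Real.pi) := by
                  ring
              _ = s / (8 * Real.pi) := by
                  rw [← mul_pow, show A / 2 * (2 / A) = 1 by field_simp, one_pow, one_mul, pow_succ]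
                  field_simp
        calc 2 * Real.pi * |(m : ℝ) + n * fk k x| ≤
            2 * Real.pi * (s / (8 * Real.pi) + s / (8 * Real.pi)) := by gcongr
          _ = s / 2 := by field_simp; norm_num
      unfold Vk
      calc (ak k m n x) ^ 2 = |ak k m n x| ^ 2 := (sq_abs _).symm
        _ ≤ (s / 2) ^ 2 := by gcongr
        _ = s ^ 2 / 4 := by ring
  refine (E (m, n)).exists_le (good_Vk k m n) (u := trialC Λ) ?_ (trialC_ne_zero Λ) ?_
  · rw [lift_trialC]
    exact ofRealCLM.contDiff.comp (trialR_smooth Λ)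
  · have hd : ∀ x, ‖deriv (lift (trialC Λ)) x‖ ^ 2 = (deriv (trialR Λ) x) ^ 2 := by
      intro x
      rw [lift_trialC]
      have h1 : HasDerivAt (trialR Λ) (deriv (trialR Λ) x) x :=
        ((trialR_smooth Λ).differentiable (by simp) x).hasDerivAt
      rw [h1.ofReal_comp.deriv, Complex.norm_real, Real.norm_eq_abs, sq_abs]
    have hl : ∀ x, ‖lift (trialC Λ) x‖ ^ 2 = (trialR Λ x) ^ 2 := by
      intro x
      rw [lift_trialC, Complex.norm_real, Real.norm_eq_abs, sq_abs]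
    simp only [hd, hl]
    have hi1 : IntervalIntegrable (fun x => (deriv (trialR Λ) x) ^ 2) volume 0 1 :=
      (hcont.pow 2).continuousOn.intervalIntegrable
    have hi3 : IntervalIntegrable (fun x => (trialR Λ x) ^ 2) volume 0 1 :=
      (hcont2.pow 2).continuousOn.intervalIntegrable
    have hi2 : IntervalIntegrable (fun x => Vk k m n x * (trialR Λ x) ^ 2) volume 0 1 :=
      ((good_Vk k m n).smooth.continuous.mul (hcont2.pow 2)).continuousOn.intervalIntegrable
    rw [intervalIntegral.integral_add hi1 hi2]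
    have h5 : ∫ x in (0:ℝ)..1, Vk k m n x * (trialR Λ x) ^ 2 ≤
        s ^ 2 / 4 * ∫ x in (0:ℝ)..1, (trialR Λ x) ^ 2 := by
      rw [← intervalIntegral.integral_const_mul]
      exact intervalIntegral.integral_mono_on zero_le_one hi2 (hi3.const_mul _) fun x _ => hpot x
    have h6 : 0 ≤ ∫ x in (0:ℝ)..1, (trialR Λ x) ^ 2 :=
      intervalIntegral.integral_nonneg zero_le_one fun x _ => sq_nonneg _
    have h7 : 0 ≤ s ^ 2 * ∫ x in (0:ℝ)..1, (trialR Λ x) ^ 2 := by positivity
    linarith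

theorem st_lo (hk : 2 ≤ k) : ∃ c > 0, ∀ s : ℝ, 1 ≤ s →
    c * s ^ (2 * k + 2) ≤ ({α : St E | α.ev ≤ s ^ 2}.ncard : ℝ) := by
  obtain ⟨c, hc0, hc⟩ := exists_state E
  refine ⟨c ^ 2, by positivity, fun s hs => ?_⟩
  have hs0 : 0 < s := by linarith
  set N₁ : ℕ := ⌊c * s⌋₊ with hN₁
  set N₂ : ℕ := ⌊c * s ^ (2 * k + 1)⌋₊ with hN₂
  have hl₁ : (N₁ : ℝ) ≤ c * s := Nat.floor_le (by positivity)
  have hl₂ : (N₂ : ℝ) ≤ c * s ^ (2 * k + 1) := Nat.floor_le (by positivity)
  have hu₁ : c * s < N₁ + 1 := Nat.lt_floor_add_one _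
  have hu₂ : c * s ^ (2 * k + 1) < N₂ + 1 := Nat.lt_floor_add_one _
  set P : Finset (ℤ × ℤ) := Finset.Icc (0 : ℤ) N₁ ×ˢ Finset.Icc (0 : ℤ) N₂ with hP
  have hPcard : P.card = (N₁ + 1) * (N₂ + 1) := by
    rw [hP, Finset.card_product, Int.card_Icc, Int.card_Icc]
    congr 1
  have hex : ∀ p : ℤ × ℤ, p ∈ P → ∃ i, (E p).ev i ≤ s ^ 2 := by
    rintro ⟨m, n⟩ hp
    rw [hP, Finset.mem_product, Finset.mem_Icc, Finset.mem_Icc] at hp
    obtain ⟨⟨h1, h2⟩, h3, h4⟩ := hp
    simp only at h1 h2 h3 h4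
    refine hc s hs m n ?_ ?_
    · have h5 : (0 : ℝ) ≤ m := by exact_mod_cast h1
      rw [abs_of_nonneg h5]
      exact le_trans (by exact_mod_cast h2) hl₁
    · have h5 : (0 : ℝ) ≤ n := by exact_mod_cast h3
      rw [abs_of_nonneg h5]
      exact le_trans (by exact_mod_cast h4) hl₂
  classical
  choose i hi using hex
  have hcard : P.card ≤ {α : St E | α.ev ≤ s ^ 2}.ncard := by
    have h1 : ((fun p : {p // p ∈ P} => (⟨p.1, i p.1 p.2⟩ : St E)) '' Set.univ) ⊆
        {α : St E | α.ev ≤ s ^ 2} := by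
      rintro _ ⟨p, -, rfl⟩
      exact hi p.1 p.2
    have h2 := Set.ncard_le_ncard h1 (st_finite E hk (s ^ 2))
    rw [Set.ncard_image_of_injective] at h2
    · rw [Set.ncard_univ, Nat.card_eq_fintype_card, Fintype.card_coe] at h2
      exact h2
    · intro p q hpq
      have := congrArg Sigma.fst hpq
      exact Subtype.ext this
  have h3 : (P.card : ℝ) = (N₁ + 1) * (N₂ + 1) := by rw [hPcard]; push_cast; ring
  calc c ^ 2 * s ^ (2 * k + 2) = (c * s) * (c * s ^ (2 * k + 1)) := by ring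
    _ ≤ (N₁ + 1) * (N₂ + 1) := by gcongr
    _ = (P.card : ℝ) := h3.symm
    _ ≤ _ := by exact_mod_cast hcard

end U

end MP_d22ea4_an
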