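import Pool.Agent.Lib_MP_d22ea4_an.Base

/-!
PIECE P: product eigenfunctions on `T^6`.
-/

open MeasureTheory Filter Topology Complex
open scoped ContDiff ComplexConjugate InnerProductSpace

noncomputable section

namespace MP_d22ea4_an

attribute [local instance] instMeasureSpaceUnitAddCircle

namespace PieceP

/-! ### descending functions to the torus -/

theorem isOpenQuotientMap_pr (d : ℕ) : IsOpenQuotientMap (pr (d := d)) :=
  IsOpenQuotientMap.piMap (f := fun (_ : Fin d) (x : ℝ) => (x : UnitAddCircle))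
    fun _ => QuotientAddGroup.isOpenQuotientMap_mk

theorem continuous_pr (d : ℕ) : Continuous (pr (d := d)) := (isOpenQuotientMap_pr d).continuous

theorem pr_add {d : ℕ} (x y : Fin d → ℝ) : pr (x + y) = pr x + pr y := by
  funext i
  simp [pr]

theorem pr_int {d : ℕ} (x : Fin d → ℝ) (k : Fin d → ℤ) :
    pr (x + fun i => ((k i : ℤ) : ℝ)) = pr x := by
  funext i
  simp only [pr, Pi.add_apply]
  have h0 : (((k i : ℤ) : ℝ) : UnitAddCircle) = 0 :=
    (AddCircle.coe_eq_zero_iff (1 : ℝ)).2 ⟨k i, by simp⟩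
  rw [AddCircle.coe_add, h0, add_zero]

theorem exists_int_of_pr_eq {d : ℕ} {x y : Fin d → ℝ} (h : pr x = pr y) :
    ∃ k : Fin d → ℤ, x = y + fun i => ((k i : ℤ) : ℝ) := by
  have h1 : ∀ i, ∃ k : ℤ, x i = y i + (k : ℝ) := by
    intro i
    have h2 : ((x i : ℝ) : UnitAddCircle) = ((y i : ℝ) : UnitAddCircle) := congrFun h i
    rw [QuotientAddGroup.eq_iff_sub_mem, AddSubgroup.mem_zmultiples_iff] at h2
    obtain ⟨k, hk⟩ := h2
    refine ⟨k, ?_⟩
    have : (k : ℝ) = x i - y i := by simpa using hk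
    rw [this]; ring
  choose k hk using h1
  exact ⟨k, funext hk⟩

theorem exists_desc {d : ℕ} (F : (Fin d → ℝ) → ℂ) (hF : Continuous F)
    (hp : ∀ x (k : Fin d → ℤ), F (x + fun i => ((k i : ℤ) : ℝ)) = F x) :
    ∃ g : C(Torus d, ℂ), ∀ x, g (pr x) = F x := by
  have hq := (isOpenQuotientMap_pr d).isQuotientMap
  have hfac : Function.FactorsThrough F (pr (d := d)) := by
    intro x y hxy
    obtain ⟨k, rfl⟩ := exists_int_of_pr_eq hxy
    exact hp y k
  refine ⟨Topology.IsQuotientMap.lift (f := ⟨pr, continuous_pr d⟩) hq ⟨F, hF⟩ hfac, ?_⟩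
  intro x
  have := Topology.IsQuotientMap.lift_comp (f := ⟨pr, continuous_pr d⟩) hq ⟨F, hF⟩ hfac
  exact congrArg (fun (g : C((Fin d → ℝ), ℂ)) => g x) this

/-- the partial derivative of a smooth function is a continuous function on the torus -/
theorem exists_partial {d : ℕ} {F : C(Torus d, ℂ)} (hF : IsSmooth F) (w : Fin d → ℝ) :
    ∃ D : C(Torus d, ℂ), ∀ x, D (pr x) = fderiv ℝ (fun y : Fin d → ℝ => F (pr y)) x w := by
  apply exists_desc
  · have h1 : ContDiff ℝ ∞ (fun x => fderiv ℝ (fun y : Fin d → ℝ => F (pr y)) x) :=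
      hF.fderiv_right (m := ∞) (by simp)
    exact h1.continuous.clm_apply continuous_const
  · intro x k
    have h2 : (fun y : Fin d → ℝ => F (pr y)) =
        fun y => (fun y : Fin d → ℝ => F (pr y)) (y + fun i => ((k i : ℤ) : ℝ)) := by
      funext y
      simp only [pr_int]
    have h3 := fderiv_comp_add_right (𝕜 := ℝ) (f := fun y : Fin d → ℝ => F (pr y)) (x := x)
      (fun i => ((k i : ℤ) : ℝ))
    rw [← h3]
    have h4 : (fun y : Fin d → ℝ => F (pr (y + fun i => ((k i : ℤ) : ℝ)))) =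
        fun y => F (pr y) := h2.symm
    rw [h4]

/-! ### integration by parts -/

instance instInvT (d : ℕ) : (haarT d).IsAddLeftInvariant :=
  inferInstanceAs ((Measure.pi fun _ : Fin d => AddCircle.haarAddCircle).IsAddLeftInvariant)

/-- the integral of a partial derivative is zero -/
theorem int_partial {d : ℕ} {F c D : C(Torus d, ℂ)} (hF : IsSmooth F) (w : Fin d → ℝ)
    (k : Fin d → ℤ) (hw : w = fun i => ((k i : ℤ) : ℝ))
    (hD : ∀ x, D (pr x) = fderiv ℝ (fun y : Fin d → ℝ => F (pr y)) x w)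
    (hc : ∀ x (t : ℝ), c (pr (x + t • w)) = c (pr x)) :
    ∫ y, c y * D y ∂(haarT d) = 0 := by
  -- the function `K (t, y) = (c D) (t w + y)`
  set K : ℝ → Torus d → ℂ := fun t y => c (pr (t • w) + y) * D (pr (t • w) + y) with hK
  have hcont : Continuous (Function.uncurry K) := by
    have h1 : Continuous fun p : ℝ × Torus d => pr (p.1 • w) + p.2 := by
      have : Continuous fun p : ℝ × Torus d => pr (p.1 • w) :=
        (continuous_pr d).comp (continuous_fst.smul continuous_const)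
      exact this.add continuous_snd
    exact (c.continuous.comp h1).mul (D.continuous.comp h1)
  have hint : Integrable (Function.uncurry K)
      ((volume.restrict (Set.Ioc (0:ℝ) 1)).prod (haarT d)) := by
    refine Integrable.of_bound hcont.aestronglyMeasurable (‖c‖ * ‖D‖) (Eventually.of_forall ?_)
    rintro ⟨t, y⟩
    simp only [Function.uncurry, hK, norm_mul]
    exact mul_le_mul (c.norm_coe_le_norm _) (D.norm_coe_le_norm _) (norm_nonneg _) (norm_nonneg _)
  have h1 : ∀ t : ℝ, ∫ y, K t y ∂(haarT d) = ∫ y, c y * D y ∂(haarT d) := by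
    intro t
    exact integral_add_left_eq_self (μ := haarT d) (fun y => c y * D y) (pr (t • w))
  have h2 : ∀ y : Torus d, ∫ t in (0:ℝ)..1, K t y = 0 := by
    intro y
    obtain ⟨x, rfl⟩ := (isOpenQuotientMap_pr d).surjective y
    have h3 : ∀ t : ℝ, K t (pr x) = c (pr x) *
        fderiv ℝ (fun y : Fin d → ℝ => F (pr y)) (x + t • w) w := by
      intro t
      simp only [hK]
      rw [← pr_add, add_comm (t • w) x, hc, hD]
    simp_rw [h3]
    rw [intervalIntegral.integral_const_mul]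
    have h4 : ∀ t : ℝ, HasDerivAt (fun t : ℝ => F (pr (x + t • w)))
        (fderiv ℝ (fun y : Fin d → ℝ => F (pr y)) (x + t • w) w) t := by
      intro t
      have hd : DifferentiableAt ℝ (fun y : Fin d → ℝ => F (pr y)) (x + t • w) :=
        (hF.differentiable (by simp)) _
      have hl : HasDerivAt (fun t : ℝ => x + t • w) w t := by
        simpa using ((hasDerivAt_id t).smul_const w).const_add x
      exact hd.hasFDerivAt.comp_hasDerivAt t hl
    have h5 : Continuous fun t : ℝ => fderiv ℝ (fun y : Fin d → ℝ => F (pr y)) (x + t • w) w := by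
      have h6 : Continuous (fun x => fderiv ℝ (fun y : Fin d → ℝ => F (pr y)) x) :=
        hF.continuous_fderiv (by simp)
      exact (h6.comp (by fun_prop)).clm_apply continuous_const
    rw [intervalIntegral.integral_eq_sub_of_hasDerivAt (fun t _ => h4 t)
      (h5.intervalIntegrable _ _)]
    have h6 : pr (x + (1 : ℝ) • w) = pr x := by
      rw [one_smul, hw]; exact pr_int x k
    rw [h6]
    simp
  calc ∫ y, c y * D y ∂(haarT d)
      = ∫ t in (0:ℝ)..1, ∫ y, K t y ∂(haarT d) := by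
        simp_rw [h1]
        simp
    _ = ∫ t in Set.Ioc (0:ℝ) 1, ∫ y, K t y ∂(haarT d) := by
        rw [intervalIntegral.integral_of_le zero_le_one]
    _ = ∫ y, (∫ t in Set.Ioc (0:ℝ) 1, K t y) ∂(haarT d) := integral_integral_swap hint
    _ = 0 := by
        have : ∀ y, ∫ t in Set.Ioc (0:ℝ) 1, K t y = 0 := by
          intro y
          rw [← intervalIntegral.integral_of_le zero_le_one]
          exact h2 y
        simp_rw [this]
        simp

/-! ### circle functions -/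

theorem exists_desc1 (F : ℝ → ℂ) (hF : Continuous F) (hp : Function.Periodic F 1) :
    ∃ g : C(UnitAddCircle, ℂ), ∀ x, lift g x = F x := by
  have hq : Topology.IsQuotientMap (fun x : ℝ => (x : UnitAddCircle)) :=
    QuotientAddGroup.isQuotientMap_mk _
  have hcont : Continuous (fun x : ℝ => (x : UnitAddCircle)) := hq.continuous
  have hfac : Function.FactorsThrough F (fun x : ℝ => (x : UnitAddCircle)) := by
    intro x y hxy
    have h2 : ((x : ℝ) : UnitAddCircle) = ((y : ℝ) : UnitAddCircle) := hxy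
    rw [QuotientAddGroup.eq_iff_sub_mem, AddSubgroup.mem_zmultiples_iff] at h2
    obtain ⟨k, hk⟩ := h2
    have h3 : x = y + k * 1 := by
      have : (k : ℝ) = x - y := by simpa using hk
      rw [mul_one, this]; ring
    rw [h3]
    exact (hp.int_mul k) y
  refine ⟨Topology.IsQuotientMap.lift (f := ⟨_, hcont⟩) hq ⟨F, hF⟩ hfac, ?_⟩
  intro x
  have := Topology.IsQuotientMap.lift_comp (f := ⟨_, hcont⟩) hq ⟨F, hF⟩ hfac
  exact congrArg (fun (g : C(ℝ, ℂ)) => g x) this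

theorem lift_periodic (u : C(UnitAddCircle, ℂ)) : Function.Periodic (lift u) 1 := by
  intro x
  simp only [lift]
  congr 1
  rw [AddCircle.coe_add, AddCircle.coe_period, add_zero]

/-- the derivative of a smooth function on the circle -/
theorem exists_deriv {u : C(UnitAddCircle, ℂ)} (hu : ContDiff ℝ ∞ (lift u)) :
    ∃ g : C(UnitAddCircle, ℂ), ContDiff ℝ ∞ (lift g) ∧ ∀ x, lift g x = deriv (lift u) x := by
  have h1 : ContDiff ℝ ∞ (deriv (lift u)) := by
    have := (contDiff_infty_iff_deriv (𝕜 := ℝ) (f := lift u)).1 hu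
    exact this.2
  obtain ⟨g, hg⟩ := exists_desc1 (deriv (lift u)) h1.continuous (by
    intro x
    have h2 : (fun y => lift u (y + 1)) = lift u := funext (lift_periodic u)
    have h3 := deriv_comp_add_const (f := lift u) 1 x
    rw [h2] at h3
    exact h3.symm)
  exact ⟨g, by rw [show lift g = deriv (lift u) from funext hg]; exact h1, hg⟩

/-- multiplication by `i a` -/
theorem exists_mul (k : ℕ) (m n : ℤ) {u : C(UnitAddCircle, ℂ)} (hu : ContDiff ℝ ∞ (lift u)) :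
    ∃ g : C(UnitAddCircle, ℂ), ContDiff ℝ ∞ (lift g) ∧
      ∀ x, lift g x = I * (ak k m n x : ℂ) * lift u x := by
  have h1 : ContDiff ℝ ∞ (fun x => I * (ak k m n x : ℂ) * lift u x) :=
    (contDiff_const.mul (Complex.ofRealCLM.contDiff.comp (contDiff_ak k m n))).mul hu
  obtain ⟨g, hg⟩ := exists_desc1 _ h1.continuous (by
    intro x
    simp only
    rw [ak_periodic k m n x, lift_periodic u x])
  exact ⟨g, by rw [show lift g = _ from funext hg]; exact h1, hg⟩

/-- exponentials -/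
def e (m : ℤ) (s : ℝ) : ℂ := Complex.exp (2 * Real.pi * I * m * s)

theorem contDiff_e (m : ℤ) : ContDiff ℝ ∞ (e m) := by
  unfold e
  have : ContDiff ℝ ∞ fun s : ℝ => (2 * Real.pi * I * m * (s : ℂ)) :=
    contDiff_const.mul Complex.ofRealCLM.contDiff
  exact this.cexp

theorem hasDerivAt_e (m : ℤ) (a b : ℝ) :
    HasDerivAt (fun t : ℝ => e m (a + t * b)) (2 * Real.pi * I * m * b * e m a) 0 := by
  unfold e
  have h1 : HasDerivAt (fun t : ℝ => ((a + t * b : ℝ) : ℂ)) (b : ℂ) 0 := by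
    have h2 : HasDerivAt (fun t : ℝ => a + t * b) b 0 := by
      simpa using ((hasDerivAt_id (0:ℝ)).mul_const b).const_add a
    exact h2.ofReal_comp
  have h3 := (h1.const_mul (2 * Real.pi * I * m)).cexp
  convert h3 using 1
  simp only [zero_mul, add_zero]
  ring

theorem prodFn_pr (m1 n1 m2 n2 : ℤ) (u v : C(UnitAddCircle, ℂ)) (x : Fin 6 → ℝ) :
    prodFn m1 n1 m2 n2 u v (pr x) = lift u (x 0) * (e m1 (x 1) * e n1 (x 2)) *
      (lift v (x 3) * (e m2 (x 4) * e n2 (x 5))) := by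
  have h1 : ∀ (m : ℤ) (s : ℝ), fourier m ((s : ℝ) : UnitAddCircle) = e m s := by
    intro m s
    rw [fourier_coe_apply, e]
    simp
  change u _ * (fourier m1 _ * fourier n1 _) * (v _ * (fourier m2 _ * fourier n2 _)) = _
  simp only [pr, h1]

theorem smooth_prodFn (m1 n1 m2 n2 : ℤ) {u v : C(UnitAddCircle, ℂ)}
    (hu : ContDiff ℝ ∞ (lift u)) (hv : ContDiff ℝ ∞ (lift v)) :
    IsSmooth (prodFn m1 n1 m2 n2 u v) := by
  unfold IsSmooth
  simp only [prodFn_pr]
  have hx : ∀ i : Fin 6, ContDiff ℝ ∞ fun x : Fin 6 → ℝ => x i := fun i => contDiff_apply ℝ ℝ i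
  exact ((hu.comp (hx 0)).mul (((contDiff_e m1).comp (hx 1)).mul ((contDiff_e n1).comp (hx 2)))).mul
    ((hv.comp (hx 3)).mul (((contDiff_e m2).comp (hx 4)).mul ((contDiff_e n2).comp (hx 5))))

theorem isDeriv_of_line {F G : C(Torus 6, ℂ)} (hF : IsSmooth F) (V : VF 6)
    (h : ∀ x, HasDerivAt (fun t : ℝ => F (pr (x + t • V x))) (G (pr x)) 0) : IsDeriv V F G := by
  intro x
  have hd : DifferentiableAt ℝ (fun y : Fin 6 → ℝ => F (pr y)) x :=
    (hF.differentiable (by simp)) x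
  have h1 : HasLineDerivAt ℝ (fun y : Fin 6 → ℝ => F (pr y)) (G (pr x)) x (V x) := h x
  rw [← hd.lineDeriv_eq_fderiv, h1.lineDeriv]

theorem hasDerivAt_lift {u : C(UnitAddCircle, ℂ)} (hu : ContDiff ℝ ∞ (lift u)) (a : ℝ) :
    HasDerivAt (fun t : ℝ => lift u (a + t)) (deriv (lift u) a) 0 := by
  apply HasDerivAt.comp_const_add
  rw [add_zero]
  exact ((hu.differentiable (by simp)) a).hasDerivAt

theorem isDeriv0 (m1 n1 m2 n2 : ℤ) {u v u' : C(UnitAddCircle, ℂ)}
    (hu : ContDiff ℝ ∞ (lift u)) (hv : ContDiff ℝ ∞ (lift v))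
    (hu' : ∀ x, lift u' x = deriv (lift u) x) :
    IsDeriv (X0 0) (prodFn m1 n1 m2 n2 u v) (prodFn m1 n1 m2 n2 u' v) := by
  apply isDeriv_of_line (smooth_prodFn m1 n1 m2 n2 hu hv)
  intro x
  simp only [prodFn_pr, hu']
  have h1 : (fun t : ℝ => lift u ((x + t • X0 0 x) 0) *
      (e m1 ((x + t • X0 0 x) 1) * e n1 ((x + t • X0 0 x) 2)) *
      (lift v ((x + t • X0 0 x) 3) * (e m2 ((x + t • X0 0 x) 4) * e n2 ((x + t • X0 0 x) 5)))) =
      fun t : ℝ => lift u (x 0 + t) * (e m1 (x 1) * e n1 (x 2)) *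
        (lift v (x 3) * (e m2 (x 4) * e n2 (x 5))) := by
    funext t
    simp [X0]
  rw [h1]
  exact ((hasDerivAt_lift hu (x 0)).mul_const _).mul_const _

theorem isDeriv2 (m1 n1 m2 n2 : ℤ) {u v v' : C(UnitAddCircle, ℂ)}
    (hu : ContDiff ℝ ∞ (lift u)) (hv : ContDiff ℝ ∞ (lift v))
    (hv' : ∀ x, lift v' x = deriv (lift v) x) :
    IsDeriv (X0 2) (prodFn m1 n1 m2 n2 u v) (prodFn m1 n1 m2 n2 u v') := by
  apply isDeriv_of_line (smooth_prodFn m1 n1 m2 n2 hu hv)
  intro x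
  simp only [prodFn_pr, hv']
  have h1 : (fun t : ℝ => lift u ((x + t • X0 2 x) 0) *
      (e m1 ((x + t • X0 2 x) 1) * e n1 ((x + t • X0 2 x) 2)) *
      (lift v ((x + t • X0 2 x) 3) * (e m2 ((x + t • X0 2 x) 4) * e n2 ((x + t • X0 2 x) 5)))) =
      fun t : ℝ => lift u (x 0) * (e m1 (x 1) * e n1 (x 2)) *
        (lift v (x 3 + t) * (e m2 (x 4) * e n2 (x 5))) := by
    funext t
    simp [X0]
  rw [h1]
  exact ((hasDerivAt_lift hv (x 3)).mul_const _).const_mul _

theorem isDeriv1 (m1 n1 m2 n2 : ℤ) {u v u' : C(UnitAddCircle, ℂ)}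
    (hu : ContDiff ℝ ∞ (lift u)) (hv : ContDiff ℝ ∞ (lift v))
    (hu' : ∀ x, lift u' x = I * (ak 3 m1 n1 x : ℂ) * lift u x) :
    IsDeriv (X0 1) (prodFn m1 n1 m2 n2 u v) (prodFn m1 n1 m2 n2 u' v) := by
  apply isDeriv_of_line (smooth_prodFn m1 n1 m2 n2 hu hv)
  intro x
  simp only [prodFn_pr, hu']
  have h1 : (fun t : ℝ => lift u ((x + t • X0 1 x) 0) *
      (e m1 ((x + t • X0 1 x) 1) * e n1 ((x + t • X0 1 x) 2)) *
      (lift v ((x + t • X0 1 x) 3) * (e m2 ((x + t • X0 1 x) 4) * e n2 ((x + t • X0 1 x) 5)))) =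
      fun t : ℝ => lift u (x 0) * (e m1 (x 1 + t * 1) * e n1 (x 2 + t * fk 3 (x 0))) *
        (lift v (x 3) * (e m2 (x 4) * e n2 (x 5))) := by
    funext t
    simp [X0, fk]
  rw [h1]
  have h2 := (((hasDerivAt_e m1 (x 1) 1).mul (hasDerivAt_e n1 (x 2) (fk 3 (x 0)))).const_mul
    (lift u (x 0))).mul_const (lift v (x 3) * (e m2 (x 4) * e n2 (x 5)))
  refine HasDerivAt.congr_deriv h2 ?_
  simp only [zero_mul, add_zero, ak]
  push_cast
  ring

theorem isDeriv3 (m1 n1 m2 n2 : ℤ) {u v v' : C(UnitAddCircle, ℂ)}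
    (hu : ContDiff ℝ ∞ (lift u)) (hv : ContDiff ℝ ∞ (lift v))
    (hv' : ∀ x, lift v' x = I * (ak 2 m2 n2 x : ℂ) * lift v x) :
    IsDeriv (X0 3) (prodFn m1 n1 m2 n2 u v) (prodFn m1 n1 m2 n2 u v') := by
  apply isDeriv_of_line (smooth_prodFn m1 n1 m2 n2 hu hv)
  intro x
  simp only [prodFn_pr, hv']
  have h1 : (fun t : ℝ => lift u ((x + t • X0 3 x) 0) *
      (e m1 ((x + t • X0 3 x) 1) * e n1 ((x + t • X0 3 x) 2)) *
      (lift v ((x + t • X0 3 x) 3) * (e m2 ((x + t • X0 3 x) 4) * e n2 ((x + t • X0 3 x) 5)))) =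
      fun t : ℝ => lift u (x 0) * (e m1 (x 1) * e n1 (x 2)) *
        (lift v (x 3) * (e m2 (x 4 + t * 1) * e n2 (x 5 + t * fk 2 (x 3)))) := by
    funext t
    simp [X0, fk]
  rw [h1]
  have h2 := (((hasDerivAt_e m2 (x 4) 1).mul (hasDerivAt_e n2 (x 5) (fk 2 (x 3)))).const_mul
    (lift v (x 3))).const_mul (lift u (x 0) * (e m1 (x 1) * e n1 (x 2)))
  refine HasDerivAt.congr_deriv h2 ?_
  simp only [zero_mul, add_zero, ak]
  push_cast
  ring

/-! ### divergence -/

theorem exists_coef (k : ℕ) (j : Fin 6) :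
    ∃ c : C(Torus 6, ℂ), ∀ x, c (pr x) = ((fk k (x j) : ℝ) : ℂ) := by
  apply exists_desc
  · have h1 : Continuous (fk k) := (contDiff_fk k).continuous
    exact Complex.continuous_ofReal.comp (h1.comp (continuous_apply j))
  · intro x l
    simp only [Pi.add_apply]
    have h2 := ((fk_periodic k).int_mul (l j)) (x j)
    rw [mul_one] at h2
    rw [h2]

theorem int_coord {F D : C(Torus 6, ℂ)} (hF : IsSmooth F) (k : Fin 6 → ℤ)
    (hD : ∀ x, D (pr x) = fderiv ℝ (fun y : Fin 6 → ℝ => F (pr y)) x fun i => ((k i : ℤ) : ℝ)) :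
    ∫ y, D y ∂(haarT 6) = 0 := by
  have := int_partial (c := 1) hF _ k rfl hD (fun x t => by simp)
  simpa using this

theorem int_two {F G c D1 D2 : C(Torus 6, ℂ)} (hF : IsSmooth F) (k1 k2 : Fin 6 → ℤ)
    (hD1 : ∀ x, D1 (pr x) =
      fderiv ℝ (fun y : Fin 6 → ℝ => F (pr y)) x fun i => ((k1 i : ℤ) : ℝ))
    (hD2 : ∀ x, D2 (pr x) =
      fderiv ℝ (fun y : Fin 6 → ℝ => F (pr y)) x fun i => ((k2 i : ℤ) : ℝ))
    (hc : ∀ x (t : ℝ), c (pr (x + t • fun i => ((k2 i : ℤ) : ℝ))) = c (pr x))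
    (hG : ∀ y, G y = D1 y + c y * D2 y) : ∫ y, G y ∂(haarT 6) = 0 := by
  simp_rw [hG]
  have i1 : Integrable (fun y => D1 y) (haarT 6) :=
    Integrable.of_bound D1.continuous.aestronglyMeasurable ‖D1‖
      (Eventually.of_forall fun y => D1.norm_coe_le_norm y)
  have i2 : Integrable (fun y => c y * D2 y) (haarT 6) :=
    Integrable.of_bound (c.continuous.mul D2.continuous).aestronglyMeasurable ‖c * D2‖
      (Eventually.of_forall fun y => (c * D2).norm_coe_le_norm y)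
  rw [integral_add i1 i2, int_coord hF k1 hD1, int_partial hF _ k2 rfl hD2 hc, add_zero]

theorem int_X0 (i : Fin 4) {F G : C(Torus 6, ℂ)} (hF : IsSmooth F) (hG : IsDeriv (X0 i) F G) :
    ∫ y, G y ∂(haarT 6) = 0 := by
  fin_cases i
  · refine int_coord hF ![1, 0, 0, 0, 0, 0] ?_
    intro x
    rw [hG x]
    congr 1
    funext j
    fin_cases j <;> simp [X0]
  · obtain ⟨D1, hD1⟩ := exists_partial hF fun i => ((![0, 1, 0, 0, 0, 0] i : ℤ) : ℝ)
    obtain ⟨D2, hD2⟩ := exists_partial hF fun i => ((![0, 0, 1, 0, 0, 0] i : ℤ) : ℝ)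
    obtain ⟨c, hc⟩ := exists_coef 3 0
    refine int_two (c := c) hF _ _ hD1 hD2 ?_ ?_
    · intro x t
      rw [hc, hc]
      simp
    · intro y
      obtain ⟨x, rfl⟩ := (isOpenQuotientMap_pr 6).surjective y
      rw [hG x, hD1, hD2, hc]
      have h1 : X0 1 x = (fun i => ((![0, 1, 0, 0, 0, 0] i : ℤ) : ℝ)) +
          (fk 3 (x 0)) • (fun i => ((![0, 0, 1, 0, 0, 0] i : ℤ) : ℝ)) := by
        funext j
        fin_cases j <;> simp [X0, fk]
      change fderiv ℝ _ x (X0 1 x) = _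
      rw [h1, map_add, map_smul]
      simp
  · refine int_coord hF ![0, 0, 0, 1, 0, 0] ?_
    intro x
    rw [hG x]
    congr 1
    funext j
    fin_cases j <;> simp [X0]
  · obtain ⟨D1, hD1⟩ := exists_partial hF fun i => ((![0, 0, 0, 0, 1, 0] i : ℤ) : ℝ)
    obtain ⟨D2, hD2⟩ := exists_partial hF fun i => ((![0, 0, 0, 0, 0, 1] i : ℤ) : ℝ)
    obtain ⟨c, hc⟩ := exists_coef 2 3
    refine int_two (c := c) hF _ _ hD1 hD2 ?_ ?_
    · intro x t
      rw [hc, hc]
      simp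
    · intro y
      obtain ⟨x, rfl⟩ := (isOpenQuotientMap_pr 6).surjective y
      rw [hG x, hD1, hD2, hc]
      have h1 : X0 3 x = (fun i => ((![0, 0, 0, 0, 1, 0] i : ℤ) : ℝ)) +
          (fk 2 (x 3)) • (fun i => ((![0, 0, 0, 0, 0, 1] i : ℤ) : ℝ)) := by
        funext j
        fin_cases j <;> simp [X0, fk]
      change fderiv ℝ _ x (X0 3 x) = _
      rw [h1, map_add, map_smul]
      simp

theorem isSmooth_star_mul {F G : C(Torus 6, ℂ)} (hF : IsSmooth F) (hG : IsSmooth G) :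
    IsSmooth (star F * G) :=
  (Complex.conjCLE.contDiff.comp hF).mul hG

/-- integration by parts -/
theorem ibp (i : Fin 4) {F F' G G' : C(Torus 6, ℂ)} (hF : IsSmooth F) (hG : IsSmooth G)
    (hF' : IsDeriv (X0 i) F F') (hG' : IsDeriv (X0 i) G G') :
    ⟪cls F', cls G⟫_ℂ = - ⟪cls F, cls G'⟫_ℂ := by
  have hH : IsDeriv (X0 i) (star F * G) (star F' * G + star F * G') := by
    intro x
    have dF : HasFDerivAt (fun y : Fin 6 → ℝ => F (pr y))
        (fderiv ℝ (fun y : Fin 6 → ℝ => F (pr y)) x) x :=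
      ((hF.differentiable (by simp)) x).hasFDerivAt
    have dG : HasFDerivAt (fun y : Fin 6 → ℝ => G (pr y))
        (fderiv ℝ (fun y : Fin 6 → ℝ => G (pr y)) x) x :=
      ((hG.differentiable (by simp)) x).hasFDerivAt
    have dF' : HasFDerivAt (fun y : Fin 6 → ℝ => conj (F (pr y)))
        ((Complex.conjCLE : ℂ →L[ℝ] ℂ).comp (fderiv ℝ (fun y : Fin 6 → ℝ => F (pr y)) x)) x :=
      (Complex.conjCLE : ℂ →L[ℝ] ℂ).hasFDerivAt.comp x dF
    have d : HasFDerivAt (fun y : Fin 6 → ℝ => conj (F (pr y)) * G (pr y)) _ x := dF'.mul dG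
    have h1 : (fun y : Fin 6 → ℝ => (star F * G) (pr y)) =
        (fun y : Fin 6 → ℝ => conj (F (pr y)) * G (pr y)) := rfl
    rw [h1, HasFDerivAt.fderiv d]
    simp only [ContinuousMap.add_apply, ContinuousMap.mul_apply, ContinuousMap.star_apply]
    rw [hF' x, hG' x]
    simp
    ring
  have h2 := int_X0 i (isSmooth_star_mul hF hG) hH
  have i1 : Integrable (fun y => (star F' * G) y) (haarT 6) :=
    Integrable.of_bound (star F' * G).continuous.aestronglyMeasurable ‖star F' * G‖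
      (Eventually.of_forall fun y => (star F' * G).norm_coe_le_norm y)
  have i2 : Integrable (fun y => (star F * G') y) (haarT 6) :=
    Integrable.of_bound (star F * G').continuous.aestronglyMeasurable ‖star F * G'‖
      (Eventually.of_forall fun y => (star F * G').norm_coe_le_norm y)
  have h3 : ∫ y, (star F' * G + star F * G') y ∂(haarT 6) =
      ∫ y, (star F' * G) y ∂(haarT 6) + ∫ y, (star F * G') y ∂(haarT 6) := by
    rw [← integral_add i1 i2]
    rfl
  rw [h3] at h2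
  rw [eq_neg_iff_add_eq_zero]
  rw [cls, cls, cls, cls, ContinuousMap.inner_toLp, ContinuousMap.inner_toLp, ← h2]
  congr 1 <;>
  · apply integral_congr_ae
    apply Eventually.of_forall
    intro y
    simp only [ContinuousMap.mul_apply, ContinuousMap.star_apply]
    rw [mul_comm]
    rfl

/-- the derivatives of product functions -/
theorem exists_grads {m1 n1 m2 n2 : ℤ} {u v : C(UnitAddCircle, ℂ)} {t1 t2 : ℝ}
    (hu : ContDiff ℝ ∞ (lift u)) (hv : ContDiff ℝ ∞ (lift v))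
    (eu : ∀ x, - deriv (deriv (lift u)) x + (Vk 3 m1 n1 x : ℂ) * lift u x = (t1 : ℂ) * lift u x)
    (ev : ∀ x, - deriv (deriv (lift v)) x + (Vk 2 m2 n2 x : ℂ) * lift v x = (t2 : ℂ) * lift v x) :
    ∃ h h2 : Fin 4 → C(Torus 6, ℂ),
      (∀ i, IsDeriv (X0 i) (prodFn m1 n1 m2 n2 u v) (h i)) ∧ (∀ i, IsSmooth (h i)) ∧
      (∀ i, IsDeriv (X0 i) (h i) (h2 i)) ∧
      ∑ i, h2 i = -((t1 + t2 : ℝ) : ℂ) • prodFn m1 n1 m2 n2 u v := by
  obtain ⟨u0, su0, hu0⟩ := exists_deriv hu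
  obtain ⟨u00, su00, hu00⟩ := exists_deriv su0
  obtain ⟨u1, su1, hu1⟩ := exists_mul 3 m1 n1 hu
  obtain ⟨u11, su11, hu11⟩ := exists_mul 3 m1 n1 su1
  obtain ⟨v0, sv0, hv0⟩ := exists_deriv hv
  obtain ⟨v00, sv00, hv00⟩ := exists_deriv sv0
  obtain ⟨v1, sv1, hv1⟩ := exists_mul 2 m2 n2 hv
  obtain ⟨v11, sv11, hv11⟩ := exists_mul 2 m2 n2 sv1
  refine ⟨![prodFn m1 n1 m2 n2 u0 v, prodFn m1 n1 m2 n2 u1 v, prodFn m1 n1 m2 n2 u v0,
      prodFn m1 n1 m2 n2 u v1],
    ![prodFn m1 n1 m2 n2 u00 v, prodFn m1 n1 m2 n2 u11 v, prodFn m1 n1 m2 n2 u v00,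
      prodFn m1 n1 m2 n2 u v11], ?_, ?_, ?_, ?_⟩
  · intro i
    fin_cases i
    · exact isDeriv0 m1 n1 m2 n2 hu hv hu0
    · exact isDeriv1 m1 n1 m2 n2 hu hv hu1
    · exact isDeriv2 m1 n1 m2 n2 hu hv hv0
    · exact isDeriv3 m1 n1 m2 n2 hu hv hv1
  · intro i
    fin_cases i
    · exact smooth_prodFn m1 n1 m2 n2 su0 hv
    · exact smooth_prodFn m1 n1 m2 n2 su1 hv
    · exact smooth_prodFn m1 n1 m2 n2 hu sv0
    · exact smooth_prodFn m1 n1 m2 n2 hu sv1
  · intro i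
    fin_cases i
    · exact isDeriv0 m1 n1 m2 n2 su0 hv hu00
    · exact isDeriv1 m1 n1 m2 n2 su1 hv hu11
    · exact isDeriv2 m1 n1 m2 n2 hu sv0 hv00
    · exact isDeriv3 m1 n1 m2 n2 hu sv1 hv11
  · ext y
    obtain ⟨x, rfl⟩ := (isOpenQuotientMap_pr 6).surjective y
    simp only [Fin.sum_univ_four, ContinuousMap.add_apply, ContinuousMap.smul_apply]
    simp only [Matrix.cons_val_zero, Matrix.cons_val_one, Matrix.cons_val]
    simp only [prodFn_pr, smul_eq_mul]
    have e1 : lift u00 (x 0) = (Vk 3 m1 n1 (x 0) : ℂ) * lift u (x 0) -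
        (t1 : ℂ) * lift u (x 0) := by
      rw [hu00, show lift u0 = deriv (lift u) from funext hu0, ← eu (x 0)]
      ring
    have e2 : lift u11 (x 0) = - (Vk 3 m1 n1 (x 0) : ℂ) * lift u (x 0) := by
      rw [hu11, hu1, Vk]
      push_cast
      linear_combination ((ak 3 m1 n1 (x 0) : ℂ) ^ 2 * lift u (x 0)) * I_sq
    have e3 : lift v00 (x 3) = (Vk 2 m2 n2 (x 3) : ℂ) * lift v (x 3) -
        (t2 : ℂ) * lift v (x 3) := by
      rw [hv00, show lift v0 = deriv (lift v) from funext hv0, ← ev (x 3)]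
      ring
    have e4 : lift v11 (x 3) = - (Vk 2 m2 n2 (x 3) : ℂ) * lift v (x 3) := by
      rw [hv11, hv1, Vk]
      push_cast
      linear_combination ((ak 2 m2 n2 (x 3) : ℂ) ^ 2 * lift v (x 3)) * I_sq
    rw [e1, e2, e3, e4]
    push_cast
    ring

end PieceP

open PieceP

theorem prodFn_smooth (m1 n1 m2 n2 : ℤ) {u v : C(UnitAddCircle, ℂ)}
    (hu : ContDiff ℝ ∞ (lift u)) (hv : ContDiff ℝ ∞ (lift v)) :
    IsSmooth (prodFn m1 n1 m2 n2 u v) := smooth_prodFn m1 n1 m2 n2 hu hv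

theorem prodFn_isEigen {m1 n1 m2 n2 : ℤ} {u v : C(UnitAddCircle, ℂ)} {t1 t2 : ℝ}
    (hu : ContDiff ℝ ∞ (lift u)) (hv : ContDiff ℝ ∞ (lift v))
    (eu : ∀ x, - deriv (deriv (lift u)) x + (Vk 3 m1 n1 x : ℂ) * lift u x = (t1 : ℂ) * lift u x)
    (ev : ∀ x, - deriv (deriv (lift v)) x + (Vk 2 m2 n2 x : ℂ) * lift v x = (t2 : ℂ) * lift v x) :
    IsEigen X0 (t1 + t2) (cls (prodFn m1 n1 m2 n2 u v)) ∧
      ∀ (μ : ℝ) (φ : L2T 6), IsEigen X0 μ φ → μ ≠ t1 + t2 →
        ⟪φ, cls (prodFn m1 n1 m2 n2 u v)⟫_ℂ = 0 := by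
  obtain ⟨h, h2, hh, hs, hh2, hsum⟩ := exists_grads hu hv eu ev
  have hΦ := smooth_prodFn m1 n1 m2 n2 hu hv
  have hcls : ∑ i, cls (h2 i) = -((t1 + t2 : ℝ) : ℂ) • cls (prodFn m1 n1 m2 n2 u v) := by
    simp only [cls]
    rw [← map_sum, hsum, map_smul]
  constructor
  · refine ⟨fun i => cls (h i), ⟨fun _ => prodFn m1 n1 m2 n2 u v, fun _ i => h i, fun _ => hΦ,
      fun _ i => hh i, tendsto_const_nhds, fun i => tendsto_const_nhds⟩, ?_⟩
    intro f h' hf hfh'
    have h3 : ∀ i, ⟪cls (h i), cls (h' i)⟫_ℂ = - ⟪cls (h2 i), cls f⟫_ℂ := by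
      intro i
      have := ibp i (hs i) hf (hh2 i) (hfh' i)
      rw [this, neg_neg]
    simp_rw [h3]
    rw [Finset.sum_neg_distrib, ← sum_inner, hcls, inner_smul_left]
    simp
    ring
  · intro μ φ hφ hμ
    obtain ⟨g, ⟨f, hn, sf, df, tf, tg⟩, hg⟩ := hφ
    have h4 := hg _ h hΦ hh
    have h5 : Tendsto (fun n => ∑ i, ⟪cls (hn n i), cls (h i)⟫_ℂ) atTop
        (𝓝 (∑ i, ⟪g i, cls (h i)⟫_ℂ)) :=
      tendsto_finsetSum _ fun i _ => (tg i).inner tendsto_const_nhds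
    have h6 : ∀ n, ∑ i, ⟪cls (hn n i), cls (h i)⟫_ℂ =
        ((t1 + t2 : ℝ) : ℂ) * ⟪cls (f n), cls (prodFn m1 n1 m2 n2 u v)⟫_ℂ := by
      intro n
      have h7 : ∀ i, ⟪cls (hn n i), cls (h i)⟫_ℂ = - ⟪cls (f n), cls (h2 i)⟫_ℂ := fun i =>
        ibp i (sf n) (hs i) (df n i) (hh2 i)
      simp_rw [h7]
      rw [Finset.sum_neg_distrib, ← inner_sum, hcls, inner_smul_right]
      ring
    simp_rw [h6] at h5
    have h8 : Tendsto (fun n => ((t1 + t2 : ℝ) : ℂ) *
        ⟪cls (f n), cls (prodFn m1 n1 m2 n2 u v)⟫_ℂ) atTop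
        (𝓝 (((t1 + t2 : ℝ) : ℂ) * ⟪φ, cls (prodFn m1 n1 m2 n2 u v)⟫_ℂ)) :=
      (tf.inner tendsto_const_nhds).const_mul _
    have h9 := tendsto_nhds_unique h5 h8
    rw [h4] at h9
    have h10 : ((μ : ℂ) - ((t1 + t2 : ℝ) : ℂ)) * ⟪φ, cls (prodFn m1 n1 m2 n2 u v)⟫_ℂ = 0 := by
      rw [sub_mul, h9, sub_self]
    rcases mul_eq_zero.1 h10 with h11 | h11
    · exfalso
      apply hμ
      rw [← Complex.ofReal_sub] at h11
      have := Complex.ofReal_eq_zero.1 h11
      linarith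
    · exact h11

end MP_d22ea4_an
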