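import Pool.Agent.Lib_MP_d22ea4_an.Base

/-!
Fourier coefficients and totality of products on `T^6`.
-/

open MeasureTheory Filter Topology Complex
open scoped ContDiff ComplexConjugate InnerProductSpace

noncomputable section

namespace MP_d22ea4_an

attribute [local instance] instMeasureSpaceUnitAddCircle

theorem fourier_inner (m m' : ℤ) :
    ⟪clc (fourier m), clc (fourier m')⟫_ℂ = if m = m' then 1 else 0 := by
  have h := orthonormal_iff_ite.1 (orthonormal_fourier (T := (1 : ℝ))) m m'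
  exact h

theorem circle_inner (f g : C(UnitAddCircle, ℂ)) :
    ⟪clc f, clc g⟫_ℂ = ∫ x : UnitAddCircle, g x * conj (f x) := ContinuousMap.inner_toLp _ _ _

theorem prod_inner (m1 n1 m2 n2 m1' n1' m2' n2' : ℤ) (u v u' v' : C(UnitAddCircle, ℂ)) :
    ⟪cls (prodFn m1 n1 m2 n2 u v), cls (prodFn m1' n1' m2' n2' u' v')⟫_ℂ =
      if m1 = m1' ∧ n1 = n1' ∧ m2 = m2' ∧ n2 = n2' then ⟪clc u, clc u'⟫_ℂ * ⟪clc v, clc v'⟫_ℂ
      else 0 := by
  have h0 : ⟪cls (prodFn m1 n1 m2 n2 u v), cls (prodFn m1' n1' m2' n2' u' v')⟫_ℂ =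
      ⟪clc u, clc u'⟫_ℂ * ⟪clc (fourier m1), clc (fourier m1')⟫_ℂ *
      ⟪clc (fourier n1), clc (fourier n1')⟫_ℂ * ⟪clc v, clc v'⟫_ℂ *
      ⟪clc (fourier m2), clc (fourier m2')⟫_ℂ * ⟪clc (fourier n2), clc (fourier n2')⟫_ℂ := by
    rw [ContinuousMap.inner_toLp]
    simp only [circle_inner]
    set F : Fin 6 → UnitAddCircle → ℂ := ![fun x => u' x * conj (u x),
      fun x => fourier m1' x * conj (fourier m1 x : ℂ),
      fun x => fourier n1' x * conj (fourier n1 x : ℂ),
      fun x => v' x * conj (v x),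
      fun x => fourier m2' x * conj (fourier m2 x : ℂ),
      fun x => fourier n2' x * conj (fourier n2 x : ℂ)] with hF
    have : IsProbabilityMeasure (volume : Measure UnitAddCircle) :=
      inferInstanceAs (IsProbabilityMeasure AddCircle.haarAddCircle)
    have h1 := integral_fintype_prod_volume_eq_prod (𝕜 := ℂ) (ι := Fin 6)
      (E := fun _ => UnitAddCircle) F
    rw [Fin.prod_univ_six] at h1
    have h2 : (fun y : Torus 6 => prodFn m1' n1' m2' n2' u' v' y *
        conj (prodFn m1 n1 m2 n2 u v y)) = fun y => ∏ i, F i (y i) := by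
      funext y
      rw [Fin.prod_univ_six]
      simp only [prodFn, ContinuousMap.coe_mk, map_mul, hF]
      simp only [Matrix.cons_val]
      ring
    rw [h2]
    refine h1.trans ?_
    simp only [hF, Matrix.cons_val]
  rw [h0, fourier_inner, fourier_inner, fourier_inner, fourier_inner]
  by_cases a1 : m1 = m1' <;> by_cases a2 : n1 = n1' <;> by_cases a3 : m2 = m2' <;>
    by_cases a4 : n2 = n2' <;> simp [a1, a2, a3, a4]

theorem expo_eq (k : Fin 6 → ℤ) :
    expo k = prodFn (k 1) (k 2) (k 4) (k 5) (fourier (k 0)) (fourier (k 3)) := by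
  ext y
  simp only [prodFn, ContinuousMap.coe_mk, UnitAddTorus.mFourier]
  rw [Fin.prod_univ_six]
  ring

theorem fourier_inner_coeff (j : ℤ) (u : C(UnitAddCircle, ℂ)) :
    ⟪clc (fourier j), clc u⟫_ℂ = fourierCoeff (u : UnitAddCircle → ℂ) j := by
  rw [circle_inner]
  unfold fourierCoeff
  refine integral_congr_ae (Eventually.of_forall fun x => ?_)
  simp only [fourier_neg, smul_eq_mul]
  rw [mul_comm]

theorem prod_coeff (m1 n1 m2 n2 : ℤ) (u v : C(UnitAddCircle, ℂ)) (k : Fin 6 → ℤ) :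
    ⟪cls (expo k), cls (prodFn m1 n1 m2 n2 u v)⟫_ℂ =
      if k 1 = m1 ∧ k 2 = n1 ∧ k 4 = m2 ∧ k 5 = n2 then
        fourierCoeff (u : UnitAddCircle → ℂ) (k 0) * fourierCoeff (v : UnitAddCircle → ℂ) (k 3)
      else 0 := by
  rw [expo_eq, prod_inner, fourier_inner_coeff, fourier_inner_coeff]

theorem prod_orthonormal {k k' : ℕ} (E : ∀ p : ℤ × ℤ, EB (Vk k p.1 p.2))
    (E' : ∀ p : ℤ × ℤ, EB (Vk k' p.1 p.2)) :
    Orthonormal ℂ (fun p : St E × St E' => cls (prodSt p.1 p.2)) := by
  classical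
  rw [orthonormal_iff_ite]
  rintro ⟨⟨p, i⟩, ⟨q, j⟩⟩ ⟨⟨p', i'⟩, ⟨q', j'⟩⟩
  have h := prod_inner p.1 p.2 q.1 q.2 p'.1 p'.2 q'.1 q'.2 ((E p).fn i) ((E' q).fn j)
    ((E p').fn i') ((E' q').fn j')
  refine Eq.trans h ?_
  by_cases hp : p = p'
  · subst hp
    by_cases hq : q = q'
    · subst hq
      rw [if_pos ⟨rfl, rfl, rfl, rfl⟩, orthonormal_iff_ite.1 (E p).orth i i',
        orthonormal_iff_ite.1 (E' q).orth j j']
      by_cases hi : i = i'
      · subst hi
        by_cases hj : j = j'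
        · subst hj
          simp
        · rw [if_neg hj, mul_zero, if_neg]
          intro h2
          simp only [Prod.mk.injEq, Sigma.mk.injEq, heq_eq_eq, true_and] at h2
          exact hj h2
      · rw [if_neg hi, zero_mul, if_neg]
        intro h2
        simp only [Prod.mk.injEq, Sigma.mk.injEq, heq_eq_eq, true_and] at h2
        exact hi h2.1
    · rw [if_neg, if_neg]
      · intro h2
        simp only [Prod.mk.injEq, Sigma.mk.injEq] at h2
        exact hq h2.2.1
      · rintro ⟨_, _, h3, h4⟩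
        exact hq (Prod.ext h3 h4)
  · rw [if_neg, if_neg]
    · intro h2
      simp only [Prod.mk.injEq, Sigma.mk.injEq] at h2
      exact hp h2.1.1
    · rintro ⟨h1, h2, _⟩
      exact hp (Prod.ext h1 h2)

/-- A linear functional bounded by the `L²` norm which vanishes on a total family vanishes. -/
theorem functional_zero {V : ℝ → ℝ} (b : EB V) (L : C(UnitAddCircle, ℂ) →ₗ[ℂ] ℂ) {C : ℝ}
    (hC : 0 ≤ C) (hL : ∀ u, ‖L u‖ ≤ C * ‖clc u‖) (h0 : ∀ i, L (b.fn i) = 0)
    (u : C(UnitAddCircle, ℂ)) : L u = 0 := by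
  set S : Submodule ℂ L2C := Submodule.span ℂ (Set.range fun i => clc (b.fn i)) with hS
  have hdense : S.topologicalClosure = ⊤ := by
    rw [Submodule.topologicalClosure_eq_top_iff, Submodule.eq_bot_iff]
    intro g hg
    apply b.total
    intro i
    exact (Submodule.mem_orthogonal _ _).1 hg _ (Submodule.subset_span ⟨i, rfl⟩)
  have hmem : clc u ∈ S.topologicalClosure := by rw [hdense]; trivial
  have hmem' : clc u ∈ closure (S : Set L2C) := hmem
  rw [Metric.mem_closure_iff] at hmem'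
  have hmap : S = (Submodule.span ℂ (Set.range b.fn)).map
      (ContinuousMap.toLp (E := ℂ) 2 AddCircle.haarAddCircle ℂ :
        C(UnitAddCircle, ℂ) →L[ℂ] L2C).toLinearMap := by
    rw [Submodule.map_span, hS, ← Set.range_comp]
    rfl
  have key : ∀ ε > 0, ‖L u‖ ≤ C * ε := by
    intro ε hε
    obtain ⟨w, hw, hd⟩ := hmem' ε hε
    have hw' : w ∈ S := hw
    rw [hmap] at hw'
    obtain ⟨w', hw'1, hw'2⟩ := hw'
    have hLw : L w' = 0 := by
      have : Submodule.span ℂ (Set.range b.fn) ≤ LinearMap.ker L := by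
        rw [Submodule.span_le]
        rintro _ ⟨i, rfl⟩
        exact h0 i
      exact this hw'1
    have h1 : L u = L (u - w') := by rw [map_sub, hLw, sub_zero]
    rw [h1]
    refine (hL _).trans (mul_le_mul_of_nonneg_left ?_ hC)
    have h2 : clc (u - w') = clc u - w := by
      rw [← hw'2]
      exact map_sub _ _ _
    rw [h2, ← dist_eq_norm]
    exact hd.le
  have h3 : ‖L u‖ ≤ 0 := by
    apply le_of_forall_pos_le_add
    intro ε hε
    rw [zero_add]
    rcases hC.eq_or_lt with h4 | h4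
    · have := key 1 one_pos
      rw [← h4, zero_mul] at this
      linarith
    · have := key (ε / C) (div_pos hε h4)
      rwa [mul_div_cancel₀ _ h4.ne'] at this
  exact norm_le_zero_iff.1 h3

theorem norm_prodFn (m1 n1 m2 n2 : ℤ) (u v : C(UnitAddCircle, ℂ)) :
    ‖cls (prodFn m1 n1 m2 n2 u v)‖ = ‖clc u‖ * ‖clc v‖ := by
  have h := prod_inner m1 n1 m2 n2 m1 n1 m2 n2 u v u v
  rw [if_pos ⟨rfl, rfl, rfl, rfl⟩, inner_self_eq_norm_sq_to_K, inner_self_eq_norm_sq_to_K,
    inner_self_eq_norm_sq_to_K] at h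
  have h1 : ‖cls (prodFn m1 n1 m2 n2 u v)‖ ^ 2 = (‖clc u‖ * ‖clc v‖) ^ 2 := by
    rw [mul_pow]
    exact_mod_cast h
  exact (pow_left_inj₀ (norm_nonneg _) (by positivity) two_ne_zero).1 h1

theorem prod_total {k k' : ℕ} (E : ∀ p : ℤ × ℤ, EB (Vk k p.1 p.2))
    (E' : ∀ p : ℤ × ℤ, EB (Vk k' p.1 p.2)) (g : L2T 6)
    (h : ∀ (α : St E) (β : St E'), ⟪cls (prodSt α β), g⟫_ℂ = 0) : g = 0 := by
  -- all products are orthogonal to `g`
  have h1 : ∀ (m1 n1 m2 n2 : ℤ) (u v : C(UnitAddCircle, ℂ)),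
      ⟪g, cls (prodFn m1 n1 m2 n2 u v)⟫_ℂ = 0 := by
    intro m1 n1 m2 n2
    let Lu : C(UnitAddCircle, ℂ) → C(UnitAddCircle, ℂ) →ₗ[ℂ] ℂ := fun v =>
      { toFun := fun u => ⟪g, cls (prodFn m1 n1 m2 n2 u v)⟫_ℂ
        map_add' := by
          intro u u'
          rw [← inner_add_right, ← map_add]
          congr 2
          ext y
          simp only [prodFn, ContinuousMap.coe_mk, ContinuousMap.add_apply]
          ring
        map_smul' := by
          intro c u
          rw [RingHom.id_apply, smul_eq_mul, ← inner_smul_right, ← map_smul]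
          congr 2
          ext y
          simp only [prodFn, ContinuousMap.coe_mk, ContinuousMap.smul_apply, smul_eq_mul]
          ring }
    let Lv : C(UnitAddCircle, ℂ) → C(UnitAddCircle, ℂ) →ₗ[ℂ] ℂ := fun u =>
      { toFun := fun v => ⟪g, cls (prodFn m1 n1 m2 n2 u v)⟫_ℂ
        map_add' := by
          intro v v'
          rw [← inner_add_right, ← map_add]
          congr 2
          ext y
          simp only [prodFn, ContinuousMap.coe_mk, ContinuousMap.add_apply]
          ring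
        map_smul' := by
          intro c v
          rw [RingHom.id_apply, smul_eq_mul, ← inner_smul_right, ← map_smul]
          congr 2
          ext y
          simp only [prodFn, ContinuousMap.coe_mk, ContinuousMap.smul_apply, smul_eq_mul]
          ring }
    have hstep : ∀ (j : (E' (m2, n2)).ι) (u : C(UnitAddCircle, ℂ)),
        ⟪g, cls (prodFn m1 n1 m2 n2 u ((E' (m2, n2)).fn j))⟫_ℂ = 0 := by
      intro j u
      refine functional_zero (E (m1, n1)) (Lu ((E' (m2, n2)).fn j))
        (C := ‖g‖ * ‖clc ((E' (m2, n2)).fn j)‖) (by positivity) ?_ ?_ u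
      · intro w
        refine (norm_inner_le_norm (𝕜 := ℂ) g
          (cls (prodFn m1 n1 m2 n2 w ((E' (m2, n2)).fn j)))).trans ?_
        rw [norm_prodFn]
        exact le_of_eq (by ring)
      · intro i
        have := h ⟨(m1, n1), i⟩ ⟨(m2, n2), j⟩
        have h2 := inner_eq_zero_symm.1 this
        exact h2
    intro u v
    refine functional_zero (E' (m2, n2)) (Lv u) (C := ‖g‖ * ‖clc u‖) (by positivity) ?_ ?_ v
    · intro w
      refine (norm_inner_le_norm (𝕜 := ℂ) g (cls (prodFn m1 n1 m2 n2 u w))).trans ?_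
      rw [norm_prodFn]
      exact le_of_eq (by ring)
    · intro j
      exact hstep j u
  have h2 : UnitAddTorus.mFourierBasis.repr g = 0 := by
    ext k
    rw [HilbertBasis.repr_apply_apply, UnitAddTorus.coe_mFourierBasis]
    have h3 : ⟪g, cls (expo k)⟫_ℂ = 0 := by rw [expo_eq]; exact h1 _ _ _ _ _ _
    exact inner_eq_zero_symm.1 h3
  exact (LinearIsometryEquiv.map_eq_zero_iff _).1 h2

end MP_d22ea4_an
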