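import Pool.Agent.Lib_MP_d22ea4_an.Base

/-!
Piece S (helper46): existence of a smooth orthonormal eigenbasis for a periodic Schroedinger
operator on the circle.
-/

open MeasureTheory Filter Topology Complex
open scoped ContDiff ComplexConjugate InnerProductSpace ENNReal

noncomputable section

namespace MP_d22ea4_an

namespace Spec1

/-- the Fourier basis of `L²` of the circle -/
abbrev eb (k : ℤ) : L2C := (fourierBasis : HilbertBasis ℤ ℂ L2C) k

/-- the weights -/
def rr (c : ℝ) (k : ℤ) : ℝ := 1 / (c + 4 * Real.pi ^ 2 * (k : ℝ) ^ 2)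

theorem rr_pos {c : ℝ} (hc : 1 ≤ c) (k : ℤ) : 0 < rr c k := by
  unfold rr
  positivity

/-- summable majorant -/
def bb (k : ℤ) : ℝ := if k = 0 then 1 else 1 / (k : ℝ) ^ 2

theorem summable_bb : Summable bb := by
  have h1 : Summable (fun k : ℤ => 1 / (k : ℝ) ^ 2) := by
    have := (Real.summable_one_div_int_pow (p := 2)).mpr (by norm_num)
    exact this
  refine (h1.add (summable_of_hasFiniteSupport (f := fun k : ℤ => if k = 0 then (1 : ℝ) else 0)
    ?_)).of_nonneg_of_le ?_ ?_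
  · exact (Set.finite_singleton (0 : ℤ)).subset (fun k hk => by
      by_contra h
      simp only [Set.mem_singleton_iff] at h
      simp [h] at hk)
  · intro k
    unfold bb
    split_ifs <;> positivity
  · intro k
    unfold bb
    by_cases h : k = 0 <;> simp [h]

theorem rr_le_bb {c : ℝ} (hc : 1 ≤ c) (k : ℤ) : rr c k ≤ bb k := by
  unfold rr bb
  by_cases h : k = 0
  · simp only [h, if_true, Int.cast_zero]
    rw [div_le_one (by nlinarith)]
    nlinarith
  · simp only [h, if_false]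
    have hk : (0 : ℝ) < (k : ℝ) ^ 2 := by positivity
    apply one_div_le_one_div_of_le hk
    have hpi : (1 : ℝ) ≤ 4 * Real.pi ^ 2 := by nlinarith [Real.pi_gt_three]
    nlinarith

theorem summable_rr {c : ℝ} (hc : 1 ≤ c) : Summable (rr c) :=
  summable_bb.of_nonneg_of_le (fun k => (rr_pos hc k).le) (rr_le_bb hc)

theorem tendsto_sum_rr : Tendsto (fun c : ℝ => ∑' k, rr c k) atTop (𝓝 0) := by
  have h := tendsto_tsum_of_dominated_convergence (𝓕 := (atTop : Filter ℝ)) (f := fun c k => rr c k)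
    (g := fun _ => (0 : ℝ)) (bound := bb) summable_bb ?_ ?_
  · simpa using h
  · intro k
    unfold rr
    apply Tendsto.const_div_atTop
    exact tendsto_atTop_add_const_right _ _ tendsto_id
  · filter_upwards [eventually_ge_atTop (1 : ℝ)] with c hc k
    rw [Real.norm_of_nonneg (rr_pos hc k).le]
    exact rr_le_bb hc k

/-- one term -/
def tm (c : ℝ) (k : ℤ) : L2C →L[ℂ] L2C := ((rr c k : ℝ) : ℂ) • (innerSL ℂ (eb k)).smulRight (eb k)

theorem tm_apply (c : ℝ) (k : ℤ) (x : L2C) : tm c k x = ((rr c k : ℂ) * ⟪eb k, x⟫_ℂ) • eb k := by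
  show ((rr c k : ℝ) : ℂ) • (⟪eb k, x⟫_ℂ • eb k) = _
  rw [smul_smul]

theorem norm_eb (k : ℤ) : ‖eb k‖ = 1 := (fourierBasis : HilbertBasis ℤ ℂ L2C).orthonormal.1 k

theorem norm_tm {c : ℝ} (hc : 1 ≤ c) (k : ℤ) : ‖tm c k‖ ≤ rr c k := by
  apply ContinuousLinearMap.opNorm_le_bound _ (rr_pos hc k).le
  intro x
  rw [tm_apply, norm_smul, norm_mul, norm_eb, mul_one, Complex.norm_real,
    Real.norm_of_nonneg (rr_pos hc k).le]
  have := norm_inner_le_norm (𝕜 := ℂ) (eb k) x
  rw [norm_eb, one_mul] at this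
  exact mul_le_mul_of_nonneg_left this (rr_pos hc k).le

theorem summable_tm {c : ℝ} (hc : 1 ≤ c) : Summable (tm c) :=
  Summable.of_norm_bounded (summable_rr hc) (norm_tm hc)

/-- the resolvent of the free operator -/
def RR (c : ℝ) : L2C →L[ℂ] L2C := ∑' k, tm c k

theorem norm_RR {c : ℝ} (hc : 1 ≤ c) : ‖RR c‖ ≤ ∑' k, rr c k := by
  have h1 : Summable (fun k => ‖tm c k‖) :=
    (summable_rr hc).of_nonneg_of_le (fun _ => norm_nonneg _) (norm_tm hc)
  exact (norm_tsum_le_tsum_norm h1).trans (h1.tsum_le_tsum (norm_tm hc) (summable_rr hc))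

theorem hasSum_RR {c : ℝ} (hc : 1 ≤ c) (x : L2C) :
    HasSum (fun k => ((rr c k : ℂ) * ⟪eb k, x⟫_ℂ) • eb k) (RR c x) := by
  have h1 : HasSum (tm c) (RR c) := (summable_tm hc).hasSum
  have h2 := h1.mapL (ContinuousLinearMap.apply ℂ L2C x)
  simpa [tm_apply] using h2

theorem inner_RR {c : ℝ} (hc : 1 ≤ c) (k : ℤ) (x : L2C) :
    ⟪eb k, RR c x⟫_ℂ = (rr c k : ℂ) * ⟪eb k, x⟫_ℂ := by
  have h1 := (hasSum_RR hc x).mapL (innerSL ℂ (eb k))
  have h2 : ∀ j, innerSL ℂ (eb k) (((rr c j : ℂ) * ⟪eb j, x⟫_ℂ) • eb j) =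
      if j = k then (rr c k : ℂ) * ⟪eb k, x⟫_ℂ else 0 := by
    intro j
    simp only [innerSL_apply_apply, inner_smul_right]
    have := orthonormal_iff_ite.mp (fourierBasis : HilbertBasis ℤ ℂ L2C).orthonormal k j
    rw [this]
    by_cases h : j = k
    · subst h; simp
    · simp [h, Ne.symm h]
  simp only [h2] at h1
  have h3 := hasSum_ite_eq k ((rr c k : ℂ) * ⟪eb k, x⟫_ℂ)
  exact h1.unique h3

theorem ext_eb {x y : L2C} (h : ∀ k, ⟪eb k, x⟫_ℂ = ⟪eb k, y⟫_ℂ) : x = y := by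
  apply (fourierBasis : HilbertBasis ℤ ℂ L2C).repr.injective
  ext k
  rw [HilbertBasis.repr_apply_apply, HilbertBasis.repr_apply_apply]
  exact h k

theorem RR_symm {c : ℝ} (hc : 1 ≤ c) : (RR c : L2C →ₗ[ℂ] L2C).IsSymmetric := by
  intro x y
  have h1 := (hasSum_RR hc y).mapL (innerSL ℂ x)
  have h2 := (hasSum_RR hc x).mapL (innerSL ℂ y)
  have h3 := h2.map (starRingEnd ℂ) Complex.continuous_conj
  have h4 : ∀ k, (starRingEnd ℂ ∘ fun k => innerSL ℂ y (((rr c k : ℂ) * ⟪eb k, x⟫_ℂ) • eb k)) k =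
      innerSL ℂ x (((rr c k : ℂ) * ⟪eb k, y⟫_ℂ) • eb k) := by
    intro k
    simp only [Function.comp_apply, innerSL_apply_apply, inner_smul_right, map_mul,
      Complex.conj_ofReal, inner_conj_symm]
    ring
  have h5 : HasSum (fun k => innerSL ℂ x (((rr c k : ℂ) * ⟪eb k, y⟫_ℂ) • eb k))
      ((starRingEnd ℂ) (innerSL ℂ y (RR c x))) := by
    have := h3
    rwa [show (starRingEnd ℂ ∘ fun k => innerSL ℂ y (((rr c k : ℂ) * ⟪eb k, x⟫_ℂ) • eb k)) =
      fun k => innerSL ℂ x (((rr c k : ℂ) * ⟪eb k, y⟫_ℂ) • eb k) from funext h4] at this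
  have h6 := h1.unique h5
  simp only [innerSL_apply_apply, inner_conj_symm] at h6
  exact h6.symm

theorem RR_compact {c : ℝ} (hc : 1 ≤ c) : IsCompactOperator (RR c) := by
  have h1 : HasSum (tm c) (RR c) := (summable_tm hc).hasSum
  have h2 : ∀ k, IsCompactOperator (tm c k) := by
    intro k
    have : tm c k = ((1 : ℂ →L[ℂ] ℂ).smulRight ((rr c k : ℂ) • eb k)).comp (innerSL ℂ (eb k)) := by
      ext1 x
      rw [tm_apply]
      show _ = ⟪eb k, x⟫_ℂ • ((rr c k : ℂ) • eb k)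
      rw [smul_smul, mul_comm]
    rw [this, ContinuousLinearMap.coe_comp]
    exact (isCompactOperator_of_locallyCompactSpace_rng
      ((1 : ℂ →L[ℂ] ℂ).smulRight ((rr c k : ℂ) • eb k))).comp_clm _
  have h3 : ∀ s : Finset ℤ, IsCompactOperator (∑ k ∈ s, tm c k : L2C →L[ℂ] L2C) := by
    intro s
    induction s using Finset.induction_on with
    | empty => simpa using isCompactOperator_zero
    | insert a s ha ih =>
      rw [Finset.sum_insert ha]
      exact (h2 a).add ih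
  exact isCompactOperator_of_tendsto h1 (Eventually.of_forall h3)

/-- multiplication by a continuous function -/
def MM (v : C(UnitAddCircle, ℂ)) : L2C →L[ℂ] L2C :=
  (ContinuousLinearMap.mul ℂ ℂ).holderL AddCircle.haarAddCircle ∞ 2 2
    (ContinuousMap.toLp (E := ℂ) ∞ AddCircle.haarAddCircle ℂ v)

theorem MM_coe (v : C(UnitAddCircle, ℂ)) (f : L2C) :
    (MM v f : UnitAddCircle → ℂ) =ᵐ[AddCircle.haarAddCircle] fun x => v x * f x := by
  have h1 : (MM v f : UnitAddCircle → ℂ) =ᵐ[AddCircle.haarAddCircle] fun x =>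
      (ContinuousMap.toLp (E := ℂ) ∞ AddCircle.haarAddCircle ℂ v : UnitAddCircle → ℂ) x * f x :=
    (ContinuousLinearMap.mul ℂ ℂ).coeFn_holder _ _
  have h2 := ContinuousMap.coeFn_toLp (p := ∞) (𝕜 := ℂ) AddCircle.haarAddCircle v
  filter_upwards [h1, h2] with x hx hx'
  rw [hx, hx']

theorem MM_clc (v f : C(UnitAddCircle, ℂ)) : MM v (clc f) = clc (v * f) := by
  apply Lp.ext
  have h1 := ContinuousMap.coeFn_toLp (p := 2) (𝕜 := ℂ) AddCircle.haarAddCircle f
  have h2 := ContinuousMap.coeFn_toLp (p := 2) (𝕜 := ℂ) AddCircle.haarAddCircle (v * f)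
  filter_upwards [MM_coe v (clc f), h1, h2] with x hx hx1 hx2
  rw [hx, hx2, hx1]
  rfl

theorem MM_symm (v : C(UnitAddCircle, ℂ)) (hv : ∀ x, conj (v x) = v x) :
    (MM v : L2C →ₗ[ℂ] L2C).IsSymmetric := by
  intro f g
  show ⟪MM v f, g⟫_ℂ = ⟪f, MM v g⟫_ℂ
  rw [L2.inner_def, L2.inner_def]
  apply integral_congr_ae
  filter_upwards [MM_coe v f, MM_coe v g] with x hx hx'
  rw [hx, hx']
  simp only [RCLike.inner_apply, map_mul, hv]
  ring

/-- data for the resolvent: a large constant `c` -/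
theorem exists_c (v : C(UnitAddCircle, ℂ)) : ∃ c : ℝ, 1 ≤ c ∧ ‖MM v * RR c‖ < 1 := by
  have h1 := tendsto_sum_rr.const_mul ‖MM v‖
  rw [mul_zero] at h1
  obtain ⟨c, hc, hc'⟩ := ((h1.eventually (gt_mem_nhds zero_lt_one)).and
    (eventually_ge_atTop (1 : ℝ))).exists
  refine ⟨c, hc', (norm_mul_le _ _).trans_lt (lt_of_le_of_lt ?_ hc)⟩
  exact mul_le_mul_of_nonneg_left (norm_RR hc') (norm_nonneg _)

/-- the properties of the resolvent -/
theorem exists_T (v : C(UnitAddCircle, ℂ)) (hv : ∀ x, conj (v x) = v x) :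
    ∃ (c : ℝ) (T U : L2C →L[ℂ] L2C), 1 ≤ c ∧ IsCompactOperator T ∧
      (T : L2C →ₗ[ℂ] L2C).IsSymmetric ∧ (∀ x, T x = RR c (U x)) ∧
      (∀ x, U x + MM v (RR c (U x)) = x) := by
  obtain ⟨c, hc, hn⟩ := exists_c v
  have hn' : ‖-(MM v * RR c)‖ < 1 := by rwa [norm_neg]
  set u := Units.oneSub (-(MM v * RR c)) hn' with hu
  have hval : (u : L2C →L[ℂ] L2C) = 1 + MM v * RR c := by
    rw [hu]
    show 1 - -(MM v * RR c) = _
    rw [sub_neg_eq_add]
  have hR : IsSelfAdjoint (RR c) := (RR_symm hc).isSelfAdjoint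
  have hM : IsSelfAdjoint (MM v) := (MM_symm v hv).isSelfAdjoint
  have hstar : star (u : L2C →L[ℂ] L2C) = 1 + RR c * MM v := by
    rw [hval, star_add, star_one, star_mul, hR.star_eq, hM.star_eq]
  have hcomm : star (u : L2C →L[ℂ] L2C) * RR c = RR c * u := by
    rw [hstar, hval]
    noncomm_ring
  have hT : IsSelfAdjoint (RR c * (↑u⁻¹ : L2C →L[ℂ] L2C)) := by
    rw [IsSelfAdjoint, star_mul, hR.star_eq]
    have h1 : star (↑u⁻¹ : L2C →L[ℂ] L2C) * star (u : L2C →L[ℂ] L2C) = 1 := by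
      rw [← star_mul, Units.mul_inv, star_one]
    calc star (↑u⁻¹ : L2C →L[ℂ] L2C) * RR c
        = star (↑u⁻¹ : L2C →L[ℂ] L2C) * RR c * (u * ↑u⁻¹) := by rw [Units.mul_inv, mul_one]
      _ = star (↑u⁻¹ : L2C →L[ℂ] L2C) * (RR c * u) * ↑u⁻¹ := by noncomm_ring
      _ = (star (↑u⁻¹ : L2C →L[ℂ] L2C) * star (u : L2C →L[ℂ] L2C)) * RR c * ↑u⁻¹ := by
          rw [← hcomm]; noncomm_ring
      _ = RR c * ↑u⁻¹ := by rw [h1, one_mul]
  refine ⟨c, RR c * (↑u⁻¹ : L2C →L[ℂ] L2C), ↑u⁻¹, hc, ?_, hT.isSymmetric, fun x => rfl, ?_⟩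
  · exact (RR_compact hc).comp_clm _
  · intro x
    have h1 : (u : L2C →L[ℂ] L2C) * ↑u⁻¹ = 1 := Units.mul_inv u
    have h2 := congrArg (fun A : L2C →L[ℂ] L2C => A x) h1
    rw [hval] at h2
    exact h2

theorem inner_clc_coeff (k : ℤ) (f : C(UnitAddCircle, ℂ)) : ⟪eb k, clc f⟫_ℂ = fourierCoeff f k := by
  have h1 := (fourierBasis : HilbertBasis ℤ ℂ L2C).repr_apply_apply (clc f) k
  rw [← h1, fourierBasis_repr]
  exact fourierCoeff_toLp f k

theorem eb_eq (k : ℤ) : eb k = clc (fourier k) := by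
  show (fourierBasis : HilbertBasis ℤ ℂ L2C) k = _
  rw [coe_fourierBasis]

theorem exists_cont {u g : L2C}
    (h : ∀ k : ℤ, ((4 * Real.pi ^ 2 * (k : ℝ) ^ 2 : ℝ) : ℂ) * ⟪eb k, u⟫_ℂ = ⟪eb k, g⟫_ℂ) :
    ∃ φ : C(UnitAddCircle, ℂ), clc φ = u := by
  have hb : ∀ k, ‖⟪eb k, u⟫_ℂ‖ ≤ (‖u‖ + ‖g‖) * bb k := by
    intro k
    have hu : ‖⟪eb k, u⟫_ℂ‖ ≤ ‖u‖ := by
      have := norm_inner_le_norm (𝕜 := ℂ) (eb k) u
      rwa [norm_eb, one_mul] at this
    have hg : ‖⟪eb k, g⟫_ℂ‖ ≤ ‖g‖ := by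
      have := norm_inner_le_norm (𝕜 := ℂ) (eb k) g
      rwa [norm_eb, one_mul] at this
    unfold bb
    by_cases hk : k = 0
    · simp only [hk, if_true, mul_one]
      rw [hk] at hu
      linarith [norm_nonneg g]
    · simp only [hk, if_false]
      have hk2 : (0 : ℝ) < (k : ℝ) ^ 2 := by positivity
      have h1 := congrArg norm (h k)
      rw [norm_mul, Complex.norm_real, Real.norm_of_nonneg (by positivity)] at h1
      have hpi : (1 : ℝ) ≤ 4 * Real.pi ^ 2 := by nlinarith [Real.pi_gt_three]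
      have h2 : (k : ℝ) ^ 2 * ‖⟪eb k, u⟫_ℂ‖ ≤ ‖g‖ := by
        refine le_trans ?_ hg
        rw [← h1]
        have := mul_nonneg hk2.le (norm_nonneg ⟪eb k, u⟫_ℂ)
        nlinarith
      rw [mul_one_div, le_div_iff₀ hk2]
      nlinarith [norm_nonneg u]
  have hs : Summable (fun k => ‖⟪eb k, u⟫_ℂ • (fourier k : C(UnitAddCircle, ℂ))‖) := by
    refine ((summable_bb.mul_left (‖u‖ + ‖g‖))).of_nonneg_of_le (fun _ => norm_nonneg _) ?_
    intro k
    rw [norm_smul, fourier_norm, mul_one]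
    exact hb k
  have h1 : HasSum (fun k => ⟪eb k, u⟫_ℂ • (fourier k : C(UnitAddCircle, ℂ)))
      (∑' k, ⟪eb k, u⟫_ℂ • (fourier k : C(UnitAddCircle, ℂ))) := hs.of_norm.hasSum
  refine ⟨∑' k, ⟪eb k, u⟫_ℂ • (fourier k : C(UnitAddCircle, ℂ)), ?_⟩
  have h2 := h1.mapL (ContinuousMap.toLp (E := ℂ) 2 AddCircle.haarAddCircle ℂ)
  have h3 := (fourierBasis : HilbertBasis ℤ ℂ L2C).hasSum_repr u
  refine h2.unique ?_
  convert h3 using 1
  funext k
  rw [map_smul, HilbertBasis.repr_apply_apply]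
  congr 1
  exact (eb_eq k).symm

/-! ### functions on the circle from periodic functions -/

/-- the function on the circle defined by a periodic function -/
def mkC (f : ℝ → ℂ) (hf : Continuous f) (hp : Function.Periodic f 1) : C(UnitAddCircle, ℂ) where
  toFun := hp.lift
  continuous_toFun := by
    apply continuous_coinduced_dom.mpr
    exact hf

theorem mkC_coe (f : ℝ → ℂ) (hf : Continuous f) (hp : Function.Periodic f 1) (x : ℝ) :
    mkC f hf hp ((x : ℝ) : UnitAddCircle) = f x := rfl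

theorem lift_continuous (f : C(UnitAddCircle, ℂ)) : Continuous (lift f) :=
  f.continuous.comp (AddCircle.continuous_mk' 1)

theorem lift_periodic (f : C(UnitAddCircle, ℂ)) : Function.Periodic (lift f) 1 := by
  intro x
  show f _ = f _
  congr 1
  exact AddCircle.coe_add_period 1 x

/-- Fourier integrals -/
def II (f : ℝ → ℂ) (n : ℤ) : ℂ := ∫ x in (0 : ℝ)..1, (fourier (-n) ((x : ℝ) : UnitAddCircle)) * f x

theorem coeff_eq_II (f : C(UnitAddCircle, ℂ)) (n : ℤ) : fourierCoeff f n = II (lift f) n := by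
  rw [fourierCoeff_eq_intervalIntegral f n 0]
  simp [II, lift]

theorem ibp {F F' : ℝ → ℂ} (hF : ∀ x, HasDerivAt F (F' x) x) (hF' : Continuous F')
    (hp : Function.Periodic F 1) (n : ℤ) : II F' n = 2 * Real.pi * Complex.I * n * II F n := by
  have hc : Continuous F := continuous_iff_continuousAt.mpr fun x => (hF x).continuousAt
  have he : Continuous (fun x : ℝ => (fourier (-n) ((x : ℝ) : UnitAddCircle) : ℂ)) :=
    (fourier (-n) : C(UnitAddCircle, ℂ)).continuous.comp (AddCircle.continuous_mk' 1)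
  have h1 : ∀ x : ℝ, HasDerivAt (fun x : ℝ => (fourier (-n) ((x : ℝ) : UnitAddCircle) : ℂ) * F x)
      ((-2 * Real.pi * Complex.I * n / (1 : ℝ) * fourier (-n) ((x : ℝ) : UnitAddCircle)) * F x +
        fourier (-n) ((x : ℝ) : UnitAddCircle) * F' x) x := by
    intro x
    exact (hasDerivAt_fourier_neg 1 n x).mul (hF x)
  have h2 := intervalIntegral.integral_eq_sub_of_hasDerivAt (a := 0) (b := 1)
    (fun x _ => h1 x) (by
      apply Continuous.intervalIntegrable
      fun_prop)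
  have h3 : (fourier (-n) (((1 : ℝ) : ℝ) : UnitAddCircle) : ℂ) * F 1 -
      fourier (-n) (((0 : ℝ) : ℝ) : UnitAddCircle) * F 0 = 0 := by
    have e1 : (((1 : ℝ) : ℝ) : UnitAddCircle) = (((0 : ℝ) : ℝ) : UnitAddCircle) := by
      have := AddCircle.coe_add_period (1 : ℝ) (0 : ℝ)
      rwa [zero_add] at this
    have e2 : F 1 = F 0 := by
      have := hp 0
      rwa [zero_add] at this
    rw [e1, e2, sub_self]
  rw [h3, intervalIntegral.integral_add] at h2
  · have h4 : ∫ x in (0 : ℝ)..1, (-2 * Real.pi * Complex.I * n / (1 : ℝ) *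
        fourier (-n) ((x : ℝ) : UnitAddCircle)) * F x =
        (-2 * Real.pi * Complex.I * n) * II F n := by
      rw [II, ← intervalIntegral.integral_const_mul]
      congr 1
      funext x
      push_cast
      ring
    rw [h4] at h2
    unfold II at h2 ⊢
    linear_combination h2
  · apply Continuous.intervalIntegrable
    fun_prop
  · apply Continuous.intervalIntegrable
    fun_prop

theorem ext_coeff {f g : C(UnitAddCircle, ℂ)} (h : ∀ n, fourierCoeff f n = fourierCoeff g n) :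
    f = g := by
  have h1 : clc f = clc g := ext_eb fun k => by rw [inner_clc_coeff, inner_clc_coeff, h k]
  exact ContinuousMap.toLp_injective (p := 2) (𝕜 := ℂ) AddCircle.haarAddCircle h1

theorem hasDerivAt_integral {f : ℝ → ℂ} (hf : Continuous f) (x : ℝ) :
    HasDerivAt (fun x => ∫ t in (0 : ℝ)..x, f t) (f x) x :=
  intervalIntegral.integral_hasDerivAt_right (hf.intervalIntegrable _ _)
    (hf.stronglyMeasurableAtFilter _ _) hf.continuousAt

theorem periodic_integral {f : ℝ → ℂ} (hf : Continuous f) (hp : Function.Periodic f 1)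
    (h0 : ∫ t in (0 : ℝ)..1, f t = 0) : Function.Periodic (fun x => ∫ t in (0 : ℝ)..x, f t) 1 := by
  intro x
  show ∫ t in (0 : ℝ)..(x + 1), f t = ∫ t in (0 : ℝ)..x, f t
  rw [← intervalIntegral.integral_add_adjacent_intervals (hf.intervalIntegrable 0 x)
    (hf.intervalIntegrable x (x + 1))]
  have := hp.intervalIntegral_add_eq x 0
  rw [zero_add] at this
  rw [this, h0, add_zero]

/-- a function with the right Fourier coefficients is twice differentiable -/
theorem two_deriv {φ G : C(UnitAddCircle, ℂ)}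
    (h : ∀ k : ℤ, ((4 * Real.pi ^ 2 * (k : ℝ) ^ 2 : ℝ) : ℂ) * fourierCoeff φ k = fourierCoeff G k) :
    ∃ D : ℝ → ℂ, (∀ x, HasDerivAt (lift φ) (D x) x) ∧ ∀ x, HasDerivAt D (-lift G x) x := by
  have hG := lift_continuous G
  have hGp := lift_periodic G
  have h0 : ∫ t in (0 : ℝ)..1, lift G t = 0 := by
    have h1 := h 0
    rw [coeff_eq_II G 0] at h1
    simp only [Int.cast_zero, ne_eq, OfNat.ofNat_ne_zero, not_false_eq_true, zero_pow, mul_zero,
      Complex.ofReal_zero, zero_mul, II, neg_zero, fourier_zero, one_mul] at h1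
    exact h1.symm
  set H : ℝ → ℂ := fun x => ∫ t in (0 : ℝ)..x, lift G t with hH
  have hHd : ∀ x, HasDerivAt H (lift G x) x := hasDerivAt_integral hG
  have hHc : Continuous H := continuous_iff_continuousAt.mpr fun x => (hHd x).continuousAt
  have hHp : Function.Periodic H 1 := periodic_integral hG hGp h0
  set m : ℂ := ∫ t in (0 : ℝ)..1, H t with hm
  set K : ℝ → ℂ := fun x => H x - m with hK
  have hKc : Continuous K := hHc.sub continuous_const
  have hKp : Function.Periodic K 1 := fun x => by simp only [hK, hHp x]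
  have hK0 : ∫ t in (0 : ℝ)..1, K t = 0 := by
    simp only [hK]
    rw [intervalIntegral.integral_sub (hHc.intervalIntegrable _ _)
      (continuous_const.intervalIntegrable _ _)]
    simp [hm]
  have hKd : ∀ x, HasDerivAt K (lift G x) x := fun x => (hHd x).sub_const m
  set P : ℝ → ℂ := fun x => ∫ t in (0 : ℝ)..x, K t with hP
  have hPd : ∀ x, HasDerivAt P (K x) x := hasDerivAt_integral hKc
  have hPc : Continuous P := continuous_iff_continuousAt.mpr fun x => (hPd x).continuousAt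
  have hPp : Function.Periodic P 1 := periodic_integral hKc hKp hK0
  have h1 : ∀ n, II (lift G) n = 2 * Real.pi * Complex.I * n * II K n := fun n =>
    ibp hKd hG hKp n
  have h2 : ∀ n, II K n = 2 * Real.pi * Complex.I * n * II P n := fun n => ibp hPd hKc hPp n
  set Fc : C(UnitAddCircle, ℂ) := mkC P hPc hPp with hFc
  have hFl : lift Fc = P := rfl
  set κ : ℂ := fourierCoeff φ 0 + fourierCoeff Fc 0 with hκ
  have h3 : φ = κ • (fourier 0 : C(UnitAddCircle, ℂ)) - Fc := by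
    apply ext_coeff
    intro n
    rw [← inner_clc_coeff, ← inner_clc_coeff]
    have e1 : clc (κ • (fourier 0 : C(UnitAddCircle, ℂ)) - Fc) =
        κ • clc (fourier 0) - clc Fc := by
      rw [clc, map_sub, map_smul]
    rw [e1, inner_sub_right, inner_smul_right, inner_clc_coeff, inner_clc_coeff, inner_clc_coeff]
    by_cases hn : n = 0
    · subst hn
      rw [fourierCoeff_fourier]
      simp [hκ]
    · have e2 : fourierCoeff (fourier 0 : C(UnitAddCircle, ℂ)) n = 0 := by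
        rw [fourierCoeff_fourier]
        simp [hn]
      rw [e2, mul_zero, zero_sub, coeff_eq_II Fc n, hFl]
      have e3 := h n
      rw [coeff_eq_II G n, h1 n, h2 n] at e3
      have hn' : (n : ℂ) ≠ 0 := by exact_mod_cast hn
      have hpi : (Real.pi : ℂ) ≠ 0 := by exact_mod_cast Real.pi_ne_zero
      have e4 : (4 * (Real.pi : ℂ) ^ 2 * (n : ℂ) ^ 2) * (fourierCoeff φ n + II P n) = 0 := by
        push_cast at e3
        linear_combination e3 + 4 * (Real.pi : ℂ) ^ 2 * (n : ℂ) ^ 2 * II P n * Complex.I_sq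
      have e5 : fourierCoeff φ n + II P n = 0 := by
        rcases mul_eq_zero.mp e4 with h' | h'
        · exfalso
          have : (4 * (Real.pi : ℂ) ^ 2 * (n : ℂ) ^ 2) ≠ 0 :=
            mul_ne_zero (mul_ne_zero (by norm_num) (pow_ne_zero _ hpi)) (pow_ne_zero _ hn')
          exact this h'
        · exact h'
      linear_combination e5
  have h4 : lift φ = fun x => κ - P x := by
    funext x
    show φ _ = _
    rw [h3]
    show κ • (fourier 0 ((x : ℝ) : UnitAddCircle) : ℂ) - Fc _ = _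
    rw [fourier_zero, smul_eq_mul, mul_one]
    rfl
  refine ⟨fun x => -K x, ?_, ?_⟩
  · intro x
    rw [h4]
    exact (hPd x).const_sub κ
  · intro x
    exact (hKd x).neg

theorem smooth_of_ode {y D W : ℝ → ℂ} (h1 : ∀ x, HasDerivAt y (D x) x)
    (h2 : ∀ x, HasDerivAt D (W x * y x) x) (hW : ContDiff ℝ ∞ W) : ContDiff ℝ ∞ y := by
  have hy : deriv y = D := funext fun x => (h1 x).deriv
  have hD : deriv D = fun x => W x * y x := funext fun x => (h2 x).deriv
  have key : ∀ n : ℕ, ContDiff ℝ n y ∧ ContDiff ℝ n D := by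
    intro n
    induction n with
    | zero =>
      refine ⟨contDiff_zero.mpr ?_, contDiff_zero.mpr ?_⟩
      · exact continuous_iff_continuousAt.mpr fun x => (h1 x).continuousAt
      · exact continuous_iff_continuousAt.mpr fun x => (h2 x).continuousAt
    | succ n ih =>
      have hWn : ContDiff ℝ n W := hW.of_le (by exact_mod_cast le_top)
      refine ⟨?_, ?_⟩
      · rw [Nat.cast_add, Nat.cast_one, contDiff_succ_iff_deriv]
        refine ⟨fun x => (h1 x).differentiableAt, ?_, ?_⟩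
        · intro h; exact absurd h (by simp)
        · rw [hy]; exact ih.2
      · rw [Nat.cast_add, Nat.cast_one, contDiff_succ_iff_deriv]
        refine ⟨fun x => (h2 x).differentiableAt, ?_, ?_⟩
        · intro h; exact absurd h (by simp)
        · rw [hD]; exact hWn.mul ih.1
  exact contDiff_infty.mpr fun n => (key n).1

/-- regularity of eigenvectors of the resolvent -/
theorem eigen_regular {V : ℝ → ℝ} (hV : Good V) {v : C(UnitAddCircle, ℂ)}
    (hv : ∀ x : ℝ, v ((x : ℝ) : UnitAddCircle) = (V x : ℂ)) {c : ℝ} (hc : 1 ≤ c)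
    {T U : L2C →L[ℂ] L2C} (hTU : ∀ x, T x = RR c (U x)) (hU : ∀ x, U x + MM v (RR c (U x)) = x)
    {τ : ℝ} (hτ : τ ≠ 0) {u : L2C} (hu : T u = (τ : ℂ) • u) :
    ∃ φ : C(UnitAddCircle, ℂ), clc φ = u ∧ ContDiff ℝ ∞ (lift φ) ∧
      ∀ x : ℝ, - deriv (deriv (lift φ)) x + (V x : ℂ) * lift φ x =
        ((τ⁻¹ - c : ℝ) : ℂ) * lift φ x := by
  have hτ' : (τ : ℂ) ≠ 0 := by exact_mod_cast hτ
  have hRU : RR c (U u) = (τ : ℂ) • u := by rw [← hTU, hu]
  have hUu : U u = u - (τ : ℂ) • MM v u := by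
    have := hU u
    rw [hRU, map_smul] at this
    exact eq_sub_of_add_eq this
  -- Fourier coefficients
  have hk : ∀ k : ℤ, ((4 * Real.pi ^ 2 * (k : ℝ) ^ 2 : ℝ) : ℂ) * ⟪eb k, u⟫_ℂ =
      ⟪eb k, ((τ⁻¹ - c : ℝ) : ℂ) • u - MM v u⟫_ℂ := by
    intro k
    have h1 := inner_RR hc k (U u)
    rw [hRU, hUu, inner_smul_right, inner_sub_right, inner_smul_right] at h1
    rw [inner_sub_right, inner_smul_right]
    have hr : ((rr c k : ℝ) : ℂ) * (((c : ℝ) : ℂ) + ((4 * Real.pi ^ 2 * (k : ℝ) ^ 2 : ℝ) : ℂ)) = 1 := by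
      rw [← Complex.ofReal_add, ← Complex.ofReal_mul]
      unfold rr
      rw [one_div, inv_mul_cancel₀ (by positivity)]
      simp
    have h2 : (((c : ℝ) : ℂ) + ((4 * Real.pi ^ 2 * (k : ℝ) ^ 2 : ℝ) : ℂ)) * ((τ : ℂ) * ⟪eb k, u⟫_ℂ) =
        ⟪eb k, u⟫_ℂ - (τ : ℂ) * ⟪eb k, MM v u⟫_ℂ := by
      rw [h1, ← mul_assoc, mul_comm _ ((rr c k : ℝ) : ℂ), hr, one_mul]
    have h3 : (τ : ℂ) * (((4 * Real.pi ^ 2 * (k : ℝ) ^ 2 : ℝ) : ℂ) * ⟪eb k, u⟫_ℂ) =
        (τ : ℂ) * (((τ⁻¹ - c : ℝ) : ℂ) * ⟪eb k, u⟫_ℂ - ⟪eb k, MM v u⟫_ℂ) := by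
      have h4 : (τ : ℂ) * ((τ⁻¹ - c : ℝ) : ℂ) = 1 - τ * c := by
        push_cast
        rw [mul_sub, mul_inv_cancel₀ hτ']
      linear_combination h2 - ⟪eb k, u⟫_ℂ * h4
    exact mul_left_cancel₀ hτ' h3
  obtain ⟨φ, hφ⟩ := exists_cont hk
  set G : C(UnitAddCircle, ℂ) := ((τ⁻¹ - c : ℝ) : ℂ) • φ - v * φ with hG
  have hclG : clc G = ((τ⁻¹ - c : ℝ) : ℂ) • u - MM v u := by
    rw [hG, ← hφ, MM_clc, clc, map_sub, map_smul]
  have hk' : ∀ k : ℤ, ((4 * Real.pi ^ 2 * (k : ℝ) ^ 2 : ℝ) : ℂ) * fourierCoeff φ k =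
      fourierCoeff G k := by
    intro k
    rw [← inner_clc_coeff, ← inner_clc_coeff, hφ, hclG]
    exact hk k
  obtain ⟨D, hD1, hD2⟩ := two_deriv hk'
  have hGx : ∀ x : ℝ, -lift G x = ((V x - (τ⁻¹ - c) : ℝ) : ℂ) * lift φ x := by
    intro x
    show -(((τ⁻¹ - c : ℝ) : ℂ) • φ ((x : ℝ) : UnitAddCircle) -
      v ((x : ℝ) : UnitAddCircle) * φ ((x : ℝ) : UnitAddCircle)) = _ * φ ((x : ℝ) : UnitAddCircle)
    rw [hv x]
    simp only [smul_eq_mul]
    push_cast
    ring
  have hD3 : ∀ x, HasDerivAt D (((V x - (τ⁻¹ - c) : ℝ) : ℂ) * lift φ x) x := by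
    intro x
    rw [← hGx x]
    exact hD2 x
  refine ⟨φ, hφ, ?_, ?_⟩
  · apply smooth_of_ode hD1 hD3
    exact Complex.ofRealCLM.contDiff.comp (hV.smooth.sub contDiff_const)
  · intro x
    have e1 : deriv (lift φ) = D := funext fun x => (hD1 x).deriv
    rw [e1, (hD3 x).deriv]
    push_cast
    ring

/-- the spectral theorem for an injective compact symmetric operator, in coordinates -/
theorem spectral {H : Type*} [NormedAddCommGroup H] [InnerProductSpace ℂ H] [CompleteSpace H]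
    (T : H →L[ℂ] H) (hTc : IsCompactOperator T) (hTs : (T : H →ₗ[ℂ] H).IsSymmetric)
    (hinj : ∀ x, T x = 0 → x = 0) :
    ∃ (ι : Type) (w : ι → H) (τ : ι → ℝ), Orthonormal ℂ w ∧ (∀ a, T (w a) = (τ a : ℂ) • w a) ∧
      (∀ a, τ a ≠ 0) ∧ ∀ g : H, (∀ a, ⟪w a, g⟫_ℂ = 0) → g = 0 := by
  have hfd : ∀ μ : ℂ, FiniteDimensional ℂ (Module.End.eigenspace (T : H →ₗ[ℂ] H) μ) := by
    intro μ
    by_cases hμ : μ = 0
    · subst hμ
      have : Module.End.eigenspace (T : H →ₗ[ℂ] H) 0 = ⊥ := by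
        rw [eq_bot_iff]
        intro x hx
        rw [Module.End.mem_eigenspace_iff, zero_smul] at hx
        exact hinj x hx
      rw [this]
      infer_instance
    · exact ContinuousLinearMap.finite_dimensional_eigenspace hTc μ hμ
  let b : ∀ μ : ℂ, OrthonormalBasis (Fin (Module.finrank ℂ
      (Module.End.eigenspace (T : H →ₗ[ℂ] H) μ))) ℂ
      (Module.End.eigenspace (T : H →ₗ[ℂ] H) μ) := fun μ =>
    haveI := hfd μ
    stdOrthonormalBasis ℂ _
  let ι : Type := Σ μ : ℂ, Fin (Module.finrank ℂ (Module.End.eigenspace (T : H →ₗ[ℂ] H) μ))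
  let w : ι → H := fun a => (b a.1 a.2 : H)
  have hworth : Orthonormal ℂ w :=
    (LinearMap.IsSymmetric.orthogonalFamily_eigenspaces hTs).orthonormal_sigma_orthonormal
      (fun μ => (b μ).orthonormal)
  have hwT : ∀ a : ι, T (w a) = a.1 • w a := fun a =>
    Module.End.mem_eigenspace_iff.mp (b a.1 a.2).2
  have hw0 : ∀ a : ι, w a ≠ 0 := fun a => hworth.ne_zero a
  have hreal : ∀ a : ι, ((a.1.re : ℝ) : ℂ) = a.1 := by
    intro a
    have : Module.End.HasEigenvalue (T : H →ₗ[ℂ] H) a.1 :=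
      Module.End.hasEigenvalue_of_hasEigenvector ⟨(b a.1 a.2).2, hw0 a⟩
    exact Complex.conj_eq_iff_re.mp (hTs.conj_eigenvalue_eq_self this)
  have hne : ∀ a : ι, a.1.re ≠ 0 := by
    intro a h
    apply hw0 a
    apply hinj
    rw [hwT a, ← hreal a, h]
    simp
  refine ⟨ι, w, fun a => a.1.re, hworth, ?_, hne, ?_⟩
  · intro a
    rw [hreal a]
    exact hwT a
  · intro g hg
    have h1 : g ∈ (⨆ μ, Module.End.eigenspace (T : H →ₗ[ℂ] H) μ)ᗮ := by
      rw [Submodule.mem_orthogonal]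
      intro u hu
      induction hu using Submodule.iSup_induction' with
      | mem μ x hx =>
        have h2 := (b μ).sum_repr ⟨x, hx⟩
        have h3 := congrArg Subtype.val h2
        simp only [Submodule.coe_sum, Submodule.coe_smul] at h3
        rw [← h3, sum_inner]
        apply Finset.sum_eq_zero
        intro i _
        rw [inner_smul_left]
        have h5 : ⟪((b μ i : Module.End.eigenspace (T : H →ₗ[ℂ] H) μ) : H), g⟫_ℂ = 0 :=
          hg ⟨μ, i⟩
        rw [h5, mul_zero]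
      | zero => exact inner_zero_left _
      | add x y _ _ hx hy => rw [inner_add_left, hx, hy, add_zero]
    rw [ContinuousLinearMap.orthogonalComplement_iSup_eigenspaces_eq_bot hTc hTs] at h1
    exact (Submodule.mem_bot ℂ).mp h1

end Spec1

open Spec1

theorem exists_EB {V : ℝ → ℝ} (hV : Good V) : Nonempty (EB V) := by
  set v : C(UnitAddCircle, ℂ) := mkC (fun x => (V x : ℂ))
    (Complex.continuous_ofReal.comp hV.smooth.continuous)
    (fun x => by simp only [hV.per x]) with hv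
  have hvx : ∀ x : ℝ, v ((x : ℝ) : UnitAddCircle) = (V x : ℂ) := fun x => rfl
  have hvc : ∀ y, conj (v y) = v y := by
    intro y
    obtain ⟨x, rfl⟩ := QuotientAddGroup.mk_surjective y
    show conj (V x : ℂ) = (V x : ℂ)
    exact Complex.conj_ofReal _
  obtain ⟨c, T, U, hc, hTc, hTs, hTU, hU⟩ := exists_T v hvc
  -- `T` is injective
  have hinj : ∀ x, T x = 0 → x = 0 := by
    intro x hx
    rw [hTU] at hx
    have h1 : U x = 0 := by
      apply ext_eb
      intro k
      have := inner_RR hc k (U x)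
      rw [hx, inner_zero_right] at this
      rw [inner_zero_right]
      rcases mul_eq_zero.mp this.symm with h | h
      · exfalso
        have h2 := rr_pos hc k
        rw [Complex.ofReal_eq_zero] at h
        exact h2.ne' h
      · exact h
    have h2 := hU x
    rw [h1, map_zero, map_zero, add_zero] at h2
    exact h2.symm
  obtain ⟨ι, w, τ, hworth, hwT, hne, htot⟩ := spectral T hTc hTs hinj
  have hex : ∀ a : ι, ∃ φ : C(UnitAddCircle, ℂ), clc φ = w a ∧ ContDiff ℝ ∞ (lift φ) ∧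
      ∀ x : ℝ, - deriv (deriv (lift φ)) x + (V x : ℂ) * lift φ x =
        (((τ a)⁻¹ - c : ℝ) : ℂ) * lift φ x := fun a =>
    eigen_regular hV hvx hc hTU hU (hne a) (hwT a)
  choose φ hφ1 hφ2 hφ3 using hex
  have hfun : (fun i => clc (φ i)) = w := funext hφ1
  refine ⟨⟨ι, φ, fun a => (τ a)⁻¹ - c, hφ2, hφ3, ?_, ?_⟩⟩
  · rw [hfun]
    exact hworth
  · intro g hg
    apply htot
    intro a
    rw [← hφ1 a]
    exact hg a

end MP_d22ea4_an
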