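import Pool.Agent.Lib_MP_d22ea4_an.Base

/-!
PIECE Q: absolutely summable Fourier expansion in the base variable of a symbol of order zero.
-/

open MeasureTheory Filter Topology Complex
open scoped ContDiff ComplexConjugate InnerProductSpace

noncomputable section

namespace MP_d22ea4_an

attribute [local instance] instMeasureSpaceUnitAddCircle

namespace SymQ

variable {d : ℕ}

instance instHaarT (d : ℕ) : Measure.IsAddHaarMeasure (haarT d) :=
  inferInstanceAs (Measure.IsAddHaarMeasure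
    (Measure.pi fun _ : Fin d => (AddCircle.haarAddCircle : Measure UnitAddCircle)))

theorem pr_add (x y : Fin d → ℝ) : pr (x + y) = pr x + pr y := by
  funext i
  simp [pr]

theorem pr_quot : IsOpenQuotientMap (pr : (Fin d → ℝ) → Torus d) :=
  IsOpenQuotientMap.piMap (fun _ => QuotientAddGroup.isOpenQuotientMap_mk)

theorem exists_pr (y : Torus d) : ∃ x ∈ Set.Icc (0 : Fin d → ℝ) 1, pr x = y := by
  obtain ⟨x, rfl⟩ := pr_quot.surjective y
  refine ⟨fun i => Int.fract (x i), ⟨fun i => Int.fract_nonneg _, fun i => (Int.fract_lt_one _).le⟩,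
    ?_⟩
  funext i
  show ((Int.fract (x i) : ℝ) : UnitAddCircle) = ((x i : ℝ) : UnitAddCircle)
  rw [← sub_eq_zero, ← AddCircle.coe_sub, AddCircle.coe_eq_zero_iff]
  refine ⟨-⌊x i⌋, ?_⟩
  rw [zsmul_eq_mul, mul_one]
  have := Int.self_sub_floor (x i)
  push_cast
  linarith

/-- the partial derivative of a symbol along a coordinate of the base -/
def ds (j : Fin d) (a : Torus d → (Fin d → ℝ) → ℂ) : Torus d → (Fin d → ℝ) → ℂ :=
  fun y ξ => deriv (fun s : ℝ => a (y + pr (s • Pi.single j (1 : ℝ))) ξ) 0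

/-- the lift of a symbol -/
def lf (a : Torus d → (Fin d → ℝ) → ℂ) : (Fin d → ℝ) × (Fin d → ℝ) → ℂ :=
  fun p => a (pr p.1) p.2

theorem isOpen_dom : IsOpen {p : (Fin d → ℝ) × (Fin d → ℝ) | p.2 ≠ 0} :=
  isOpen_ne_fun continuous_snd continuous_const

variable {a : Torus d → (Fin d → ℝ) → ℂ}

theorem hasDerivAt_zero (ha : IsSymbol a) (j : Fin d) (x : Fin d → ℝ) {ξ : Fin d → ℝ}
    (hξ : ξ ≠ 0) : HasDerivAt (fun s : ℝ => a (pr x + pr (s • Pi.single j (1 : ℝ))) ξ)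
      (fderiv ℝ (lf a) (x, ξ) (Pi.single j 1, 0)) 0 := by
  have hd : DifferentiableAt ℝ (lf a) (x, ξ) :=
    (ha.smooth.differentiableOn (by simp)).differentiableAt (isOpen_dom.mem_nhds hξ)
  have hpath : HasDerivAt (fun s : ℝ => ((x + s • Pi.single j (1 : ℝ), ξ) :
      (Fin d → ℝ) × (Fin d → ℝ))) (Pi.single j 1, 0) 0 := by
    have h1 : HasDerivAt (fun s : ℝ => x + s • (Pi.single j (1 : ℝ) : Fin d → ℝ))
        ((1 : ℝ) • (Pi.single j (1 : ℝ) : Fin d → ℝ)) 0 :=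
      ((hasDerivAt_id (0 : ℝ)).smul_const _).const_add x
    rw [one_smul] at h1
    exact h1.prodMk (hasDerivAt_const 0 ξ)
  have h2 : HasFDerivAt (lf a) (fderiv ℝ (lf a) (x, ξ))
      ((x + (0 : ℝ) • (Pi.single j (1 : ℝ) : Fin d → ℝ), ξ) : (Fin d → ℝ) × (Fin d → ℝ)) := by
    rw [zero_smul, add_zero]
    exact hd.hasFDerivAt
  have h3 := h2.comp_hasDerivAt (0 : ℝ) hpath
  refine h3.congr_of_eventuallyEq (Eventually.of_forall fun s => ?_)
  show a (pr x + pr (s • Pi.single j (1 : ℝ))) ξ = a (pr (x + s • Pi.single j (1 : ℝ))) ξ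
  rw [pr_add]

theorem ds_pr (ha : IsSymbol a) (j : Fin d) (x : Fin d → ℝ) {ξ : Fin d → ℝ} (hξ : ξ ≠ 0) :
    ds j a (pr x) ξ = fderiv ℝ (lf a) (x, ξ) (Pi.single j 1, 0) :=
  (hasDerivAt_zero ha j x hξ).deriv

theorem hasDerivAt_ds (ha : IsSymbol a) (j : Fin d) (y : Torus d) {ξ : Fin d → ℝ} (hξ : ξ ≠ 0)
    (s : ℝ) : HasDerivAt (fun s : ℝ => a (y + pr (s • Pi.single j (1 : ℝ))) ξ)
      (ds j a (y + pr (s • Pi.single j (1 : ℝ))) ξ) s := by
  obtain ⟨x, hx⟩ := pr_quot.surjective (y + pr (s • Pi.single j (1 : ℝ)))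
  have h1 := hasDerivAt_zero ha j x hξ
  rw [← ds_pr ha j x hξ, hx] at h1
  have h2 : HasDerivAt (fun r : ℝ => r - s) 1 s := (hasDerivAt_id s).sub_const s
  have h3 : HasDerivAt (fun r : ℝ => a (y + pr (s • Pi.single j (1 : ℝ)) +
      pr (r • Pi.single j (1 : ℝ))) ξ) (ds j a (y + pr (s • Pi.single j (1 : ℝ))) ξ) (s - s) := by
    rwa [sub_self]
  have h4 := HasDerivAt.scomp (h := fun r : ℝ => r - s) s h3 h2
  rw [one_smul] at h4
  refine h4.congr_of_eventuallyEq (Eventually.of_forall fun r => ?_)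
  show _ = a (y + pr (s • Pi.single j (1 : ℝ)) + pr ((r - s) • Pi.single j (1 : ℝ))) ξ
  rw [add_assoc, ← pr_add, ← add_smul, add_sub_cancel]

theorem isSymbol_ds (ha : IsSymbol a) (j : Fin d) : IsSymbol (ds j a) where
  smooth := by
    have h1 : ContDiffOn ℝ ∞ (fderiv ℝ (lf a)) {p : (Fin d → ℝ) × (Fin d → ℝ) | p.2 ≠ 0} :=
      ContDiffOn.fderiv_of_isOpen ha.smooth isOpen_dom (by simp)
    have h2 : ContDiffOn ℝ ∞ (fun p => fderiv ℝ (lf a) p (Pi.single j 1, 0))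
        {p : (Fin d → ℝ) × (Fin d → ℝ) | p.2 ≠ 0} := h1.clm_apply contDiffOn_const
    refine h2.congr fun p hp => ?_
    exact ds_pr ha j p.1 hp
  homog := by
    intro y ξ t ht
    unfold ds
    congr 1
    funext s
    exact ha.homog _ _ _ ht

theorem continuous_symbol (ha : IsSymbol a) {ξ : Fin d → ℝ} (hξ : ξ ≠ 0) :
    Continuous fun y => a y ξ := by
  rw [pr_quot.isQuotientMap.continuous_iff]
  have h1 : ContinuousOn (lf a) {p : (Fin d → ℝ) × (Fin d → ℝ) | p.2 ≠ 0} :=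
    ha.smooth.continuousOn
  exact h1.comp_continuous (f := fun x : Fin d → ℝ => (x, ξ)) (by fun_prop) fun _ => hξ

theorem continuousOn_symbol (ha : IsSymbol a) (y : Torus d) :
    ContinuousOn (fun ξ => a y ξ) {0}ᶜ := by
  obtain ⟨x, rfl⟩ := pr_quot.surjective y
  have h1 : ContinuousOn (lf a) {p : (Fin d → ℝ) × (Fin d → ℝ) | p.2 ≠ 0} :=
    ha.smooth.continuousOn
  exact h1.comp (f := fun ξ : Fin d → ℝ => (x, ξ)) (by fun_prop) fun _ hξ => hξ

theorem symbol_bound (ha : IsSymbol a) : ∃ C : ℝ, ∀ y ξ, ξ ≠ 0 → ‖a y ξ‖ ≤ C := by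
  have hK : IsCompact (Set.Icc (0 : Fin d → ℝ) 1 ×ˢ Metric.sphere (0 : Fin d → ℝ) 1) :=
    isCompact_Icc.prod (isCompact_sphere 0 1)
  have hcont : ContinuousOn (lf a) (Set.Icc (0 : Fin d → ℝ) 1 ×ˢ Metric.sphere (0 : Fin d → ℝ) 1) :=
    ha.smooth.continuousOn.mono fun p hp => by
      have h1 : ‖p.2‖ = 1 := by simpa using hp.2
      show p.2 ≠ 0
      intro h0
      rw [h0, norm_zero] at h1
      exact zero_ne_one h1
  obtain ⟨C, hC⟩ := hK.exists_bound_of_continuousOn hcont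
  refine ⟨C, fun y ξ hξ => ?_⟩
  obtain ⟨x, hx, rfl⟩ := exists_pr y
  have hn : 0 < ‖ξ‖ := norm_pos_iff.mpr hξ
  have h1 := hC (x, ‖ξ‖⁻¹ • ξ) ⟨hx, by
    rw [mem_sphere_zero_iff_norm, norm_smul, norm_inv, norm_norm, inv_mul_cancel₀ hn.ne']⟩
  have h2 : lf a (x, ‖ξ‖⁻¹ • ξ) = a (pr x) ξ := ha.homog _ _ _ (inv_pos.mpr hn)
  rwa [h2] at h1

theorem fourier_add_arg (n : ℤ) (x y : UnitAddCircle) :
    fourier n (x + y) = fourier n x * fourier n y := by
  simp [fourier_apply, smul_add, AddCircle.toCircle_add]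

theorem expo_add (l : Fin d → ℤ) (x y : Torus d) : expo l (x + y) = expo l x * expo l y := by
  simp only [expo, UnitAddTorus.mFourier, ContinuousMap.coe_mk, Pi.add_apply, fourier_add_arg,
    Finset.prod_mul_distrib]

theorem expo_single (l : Fin d → ℤ) (j : Fin d) (s : ℝ) :
    expo l (pr (s • Pi.single j (1 : ℝ))) = Complex.exp (2 * Real.pi * I * (l j) * s) := by
  simp only [expo, UnitAddTorus.mFourier, ContinuousMap.coe_mk]
  rw [Finset.prod_eq_single j]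
  · show fourier (l j) (((s • Pi.single j (1 : ℝ) : Fin d → ℝ) j : ℝ) : UnitAddCircle) = _
    rw [fourier_coe_apply]
    simp
  · intro i _ hij
    show fourier (l i) (((s • Pi.single j (1 : ℝ) : Fin d → ℝ) i : ℝ) : UnitAddCircle) = _
    rw [fourier_coe_apply]
    simp [hij]
  · intro h
    exact absurd (Finset.mem_univ j) h

theorem norm_expo (l : Fin d → ℤ) (y : Torus d) : ‖expo l y‖ = 1 := by
  simp [expo, UnitAddTorus.mFourier, norm_prod, fourier_apply]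

/-- the Fourier coefficients of a symbol -/
def ah (a : Torus d → (Fin d → ℝ) → ℂ) (l : Fin d → ℤ) (ξ : Fin d → ℝ) : ℂ :=
  ∫ y : Torus d, expo (-l) y * a y ξ

theorem norm_ah_le {ξ : Fin d → ℝ} {C : ℝ} (h : ∀ y, ‖a y ξ‖ ≤ C) (l : Fin d → ℤ) :
    ‖ah a l ξ‖ ≤ C := by
  unfold ah
  refine (norm_integral_le_of_norm_le_const (C := C) (Eventually.of_forall fun y => ?_)).trans ?_
  · rw [norm_mul, norm_expo, one_mul]
    exact h y
  · simp

theorem ah_shift (a : Torus d → (Fin d → ℝ) → ℂ) (l : Fin d → ℤ) (ξ : Fin d → ℝ) (w : Torus d) :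
    ∫ y : Torus d, expo (-l) y * a (y + w) ξ = expo l w * ah a l ξ := by
  have h1 : ∀ y : Torus d, expo (-l) y * a (y + w) ξ =
      (fun z : Torus d => expo l w * (expo (-l) z * a z ξ)) (y + w) := by
    intro y
    show _ = expo l w * (expo (-l) (y + w) * a (y + w) ξ)
    rw [expo_add]
    have h2 : expo l w * expo (-l) w = 1 := by
      rw [expo, expo, ← UnitAddTorus.mFourier_add, add_neg_cancel, UnitAddTorus.mFourier_zero]
      rfl
    linear_combination (-(expo (-l) y * a (y + w) ξ)) * h2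
  simp_rw [h1]
  rw [integral_add_right_eq_self (μ := haarT d)
    (fun z : Torus d => expo l w * (expo (-l) z * a z ξ)) w, integral_const_mul]
  rfl

theorem hasDerivAt_gen (A A' : ℝ → Torus d → ℂ) (hA : ∀ s, Continuous (A s))
    (hA' : Continuous (A' 0)) (C : ℝ) (hb : ∀ s y, ‖A' s y‖ ≤ C)
    (hd : ∀ y s, HasDerivAt (fun r => A r y) (A' s y) s) :
    HasDerivAt (fun s : ℝ => ∫ y : Torus d, A s y ∂(haarT d)) (∫ y : Torus d, A' 0 y ∂(haarT d))
      0 := by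
  have hint : Integrable (A 0) (haarT d) :=
    (hA 0).integrable_of_hasCompactSupport (HasCompactSupport.of_compactSpace _)
  exact (hasDerivAt_integral_of_dominated_loc_of_deriv_le (μ := haarT d) (F := A) (F' := A')
    (x₀ := (0 : ℝ)) (s := Set.univ) (bound := fun _ => C) univ_mem
    (Eventually.of_forall fun s => (hA s).aestronglyMeasurable)
    hint hA'.aestronglyMeasurable (Eventually.of_forall fun y s _ => hb s y) (integrable_const C)
    (Eventually.of_forall fun y s _ => hd y s)).2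

theorem hasDerivAt_int (ha : IsSymbol a) (j : Fin d) (l : Fin d → ℤ) {ξ : Fin d → ℝ}
    (hξ : ξ ≠ 0) : HasDerivAt
      (fun s : ℝ => ∫ y : Torus d, expo (-l) y * a (y + pr (s • Pi.single j (1 : ℝ))) ξ)
      (∫ y : Torus d, expo (-l) y * ds j a (y + pr ((0 : ℝ) • Pi.single j (1 : ℝ))) ξ) 0 := by
  obtain ⟨C, hC⟩ := symbol_bound (isSymbol_ds ha j)
  have hcont : ∀ s : ℝ, Continuous fun y : Torus d =>
      expo (-l) y * a (y + pr (s • Pi.single j (1 : ℝ))) ξ := fun s =>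
    (expo (-l)).continuous.mul ((continuous_symbol ha hξ).comp
      (continuous_id.add continuous_const))
  have hcont' : Continuous fun y : Torus d =>
      expo (-l) y * ds j a (y + pr ((0 : ℝ) • Pi.single j (1 : ℝ))) ξ :=
    (expo (-l)).continuous.mul ((continuous_symbol (isSymbol_ds ha j) hξ).comp
      (continuous_id.add continuous_const))
  have hb : ∀ (s : ℝ) (y : Torus d),
      ‖expo (-l) y * ds j a (y + pr (s • Pi.single j (1 : ℝ))) ξ‖ ≤ C := by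
    intro s y
    rw [norm_mul, norm_expo, one_mul]
    exact hC _ _ hξ
  have hd : ∀ (y : Torus d) (s : ℝ),
      HasDerivAt (fun s : ℝ => expo (-l) y * a (y + pr (s • Pi.single j (1 : ℝ))) ξ)
        (expo (-l) y * ds j a (y + pr (s • Pi.single j (1 : ℝ))) ξ) s := by
    intro y s
    exact (hasDerivAt_ds ha j y hξ s).const_mul (expo (-l) y)
  have h := hasDerivAt_gen
    (fun (s : ℝ) (y : Torus d) => expo (-l) y * a (y + pr (s • Pi.single j (1 : ℝ))) ξ)
    (fun (s : ℝ) (y : Torus d) => expo (-l) y * ds j a (y + pr (s • Pi.single j (1 : ℝ))) ξ)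
  exact h hcont hcont' C hb hd

theorem hasDerivAt_exp (l : Fin d → ℤ) (j : Fin d) (A : ℂ) :
    HasDerivAt (fun s : ℝ => Complex.exp (2 * Real.pi * I * (l j) * s) * A)
      ((2 * Real.pi * I * (l j)) * A) 0 := by
  have h4 : HasDerivAt (fun s : ℝ => 2 * Real.pi * I * (l j) * (s : ℂ))
      (2 * Real.pi * I * (l j) * 1) 0 :=
    (Complex.ofRealCLM.hasDerivAt (x := (0 : ℝ))).const_mul (2 * Real.pi * I * (l j))
  have h5 := h4.cexp.mul_const A
  rw [Complex.ofReal_zero, mul_zero, Complex.exp_zero, one_mul, mul_one] at h5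
  exact h5

theorem ah_ds (ha : IsSymbol a) (j : Fin d) (l : Fin d → ℤ) {ξ : Fin d → ℝ} (hξ : ξ ≠ 0) :
    ah (ds j a) l ξ = (2 * Real.pi * I * (l j)) * ah a l ξ := by
  have h1 := hasDerivAt_int ha j l hξ
  have h2 : (fun s : ℝ => ∫ y : Torus d, expo (-l) y * a (y + pr (s • Pi.single j (1 : ℝ))) ξ) =
      fun s : ℝ => Complex.exp (2 * Real.pi * I * (l j) * s) * ah a l ξ := by
    funext s
    rw [ah_shift, expo_single]
  rw [h2] at h1
  have h6 := h1.unique (hasDerivAt_exp l j _)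
  have h7 : pr (0 : Fin d → ℝ) = 0 := by funext i; simp [pr]
  rw [zero_smul, h7] at h6
  rw [← h6]
  unfold ah
  refine integral_congr_ae (Eventually.of_forall fun y => ?_)
  show expo (-l) y * ds j a y ξ = expo (-l) y * ds j a (y + 0) ξ
  rw [add_zero]

theorem ah_decay (s : Finset (Fin d)) : ∀ a : Torus d → (Fin d → ℝ) → ℂ, IsSymbol a →
    ∃ C : ℝ, ∀ l ξ, ξ ≠ 0 → ‖ah a l ξ‖ * ∏ j ∈ s, (1 + (l j : ℝ) ^ 2) ≤ C := by
  classical
  induction s using Finset.induction_on with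
  | empty =>
    intro a ha
    obtain ⟨C, hC⟩ := symbol_bound ha
    refine ⟨C, fun l ξ hξ => ?_⟩
    rw [Finset.prod_empty, mul_one]
    exact norm_ah_le (fun y => hC y ξ hξ) l
  | insert j s hj ih =>
    intro a ha
    obtain ⟨C₁, h₁⟩ := ih a ha
    obtain ⟨C₂, h₂⟩ := ih _ (isSymbol_ds (isSymbol_ds ha j) j)
    refine ⟨C₁ + C₂, fun l ξ hξ => ?_⟩
    rw [Finset.prod_insert hj]
    have k1 := h₁ l ξ hξ
    have k2 := h₂ l ξ hξ
    rw [ah_ds (isSymbol_ds ha j) j l hξ, ah_ds ha j l hξ] at k2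
    have hn : ‖(2 * Real.pi * I * (l j) : ℂ)‖ = 2 * Real.pi * |(l j : ℝ)| := by
      simp [abs_of_pos Real.pi_pos]
    rw [norm_mul (2 * Real.pi * I * (l j) : ℂ), norm_mul (2 * Real.pi * I * (l j) : ℂ), hn] at k2
    have hP : 0 ≤ ∏ j ∈ s, (1 + (l j : ℝ) ^ 2) := Finset.prod_nonneg fun i _ => by positivity
    have hA : 0 ≤ ‖ah a l ξ‖ * ∏ j ∈ s, (1 + (l j : ℝ) ^ 2) := mul_nonneg (norm_nonneg _) hP
    have hpi : 1 ≤ (2 * Real.pi) * (2 * Real.pi) := by nlinarith [Real.pi_gt_three]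
    have hl : (0 : ℝ) ≤ (l j : ℝ) ^ 2 := sq_nonneg _
    have hsq : |(l j : ℝ)| * |(l j : ℝ)| = (l j : ℝ) ^ 2 := by rw [← sq, sq_abs]
    have k3 : (l j : ℝ) ^ 2 * (‖ah a l ξ‖ * ∏ j ∈ s, (1 + (l j : ℝ) ^ 2)) ≤ C₂ := by
      refine le_trans ?_ k2
      calc (l j : ℝ) ^ 2 * (‖ah a l ξ‖ * ∏ j ∈ s, (1 + (l j : ℝ) ^ 2))
          = 1 * ((l j : ℝ) ^ 2 * (‖ah a l ξ‖ * ∏ j ∈ s, (1 + (l j : ℝ) ^ 2))) := by ring
        _ ≤ ((2 * Real.pi) * (2 * Real.pi)) *
            ((l j : ℝ) ^ 2 * (‖ah a l ξ‖ * ∏ j ∈ s, (1 + (l j : ℝ) ^ 2))) :=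
            mul_le_mul_of_nonneg_right hpi (mul_nonneg hl hA)
        _ = _ := by rw [← hsq]; ring
    calc ‖ah a l ξ‖ * ((1 + (l j : ℝ) ^ 2) * ∏ j ∈ s, (1 + (l j : ℝ) ^ 2))
        = ‖ah a l ξ‖ * ∏ j ∈ s, (1 + (l j : ℝ) ^ 2) +
          (l j : ℝ) ^ 2 * (‖ah a l ξ‖ * ∏ j ∈ s, (1 + (l j : ℝ) ^ 2)) := by ring
      _ ≤ C₁ + C₂ := add_le_add k1 k3

theorem summable_one : Summable fun n : ℤ => (1 + (n : ℝ) ^ 2)⁻¹ := by
  have h1 : Summable fun n : ℤ => 1 / (n : ℝ) ^ 2 := Real.summable_one_div_int_pow.mpr one_lt_two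
  refine Summable.of_norm_bounded_eventually h1 ?_
  have h2 : {n : ℤ | ¬ ‖(1 + (n : ℝ) ^ 2)⁻¹‖ ≤ 1 / (n : ℝ) ^ 2} ⊆ {0} := by
    intro n hn
    by_contra h0
    apply hn
    have h3 : (n : ℝ) ≠ 0 := by exact_mod_cast h0
    have h4 : 0 < (n : ℝ) ^ 2 := by positivity
    rw [Real.norm_of_nonneg (by positivity), one_div]
    exact inv_anti₀ h4 (by linarith)
  exact (Set.finite_singleton (0 : ℤ)).subset h2

theorem summable_prod (d : ℕ) : Summable fun l : Fin d → ℤ => ∏ j, (1 + (l j : ℝ) ^ 2)⁻¹ := by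
  classical
  refine summable_of_sum_le (c := (∑' n : ℤ, (1 + (n : ℝ) ^ 2)⁻¹) ^ d)
    (fun l => Finset.prod_nonneg fun j _ => by positivity) fun u => ?_
  set t : Fin d → Finset ℤ := fun j => u.image fun l => l j with ht
  have hsub : u ⊆ Fintype.piFinset t := fun l hl => by
    rw [Fintype.mem_piFinset]
    intro j
    exact Finset.mem_image_of_mem _ hl
  calc ∑ l ∈ u, ∏ j, (1 + (l j : ℝ) ^ 2)⁻¹
      ≤ ∑ l ∈ Fintype.piFinset t, ∏ j, (1 + (l j : ℝ) ^ 2)⁻¹ :=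
        Finset.sum_le_sum_of_subset_of_nonneg hsub
          fun l _ _ => Finset.prod_nonneg fun j _ => by positivity
    _ = ∏ j, ∑ n ∈ t j, (1 + (n : ℝ) ^ 2)⁻¹ := by
        rw [Finset.prod_univ_sum]
    _ ≤ ∏ _j : Fin d, ∑' n : ℤ, (1 + (n : ℝ) ^ 2)⁻¹ :=
        Finset.prod_le_prod (fun j _ => Finset.sum_nonneg fun n _ => by positivity)
          fun j _ => summable_one.sum_le_tsum _ fun n _ => by positivity
    _ = _ := by simp

end SymQ

open SymQ

/-- PIECE Q. -/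
theorem symbol_series {d : ℕ} {a : Torus d → (Fin d → ℝ) → ℂ} (ha : IsSymbol a) :
    ∃ (c : (Fin d → ℤ) → ℝ) (ah : (Fin d → ℤ) → (Fin d → ℝ) → ℂ), Summable c ∧
      (∀ l ξ, ξ ≠ 0 → ‖ah l ξ‖ ≤ c l) ∧ (∀ l, ContinuousOn (ah l) {0}ᶜ) ∧
      (∀ l ξ, ∀ t : ℝ, 0 < t → ah l (t • ξ) = ah l ξ) ∧
      ∀ y ξ, ξ ≠ 0 → HasSum (fun l => ah l ξ * expo l y) (a y ξ) := by
  obtain ⟨C, hC⟩ := ah_decay Finset.univ a ha
  obtain ⟨C', hC'⟩ := symbol_bound ha
  have hc : Summable fun l : Fin d → ℤ => C * ∏ j, (1 + (l j : ℝ) ^ 2)⁻¹ :=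
    (summable_prod d).mul_left C
  have hb : ∀ l ξ, ξ ≠ 0 → ‖ah a l ξ‖ ≤ C * ∏ j, (1 + (l j : ℝ) ^ 2)⁻¹ := by
    intro l ξ hξ
    have hP : 0 < ∏ j, (1 + (l j : ℝ) ^ 2) := Finset.prod_pos fun i _ => by positivity
    rw [Finset.prod_inv_distrib, ← div_eq_mul_inv, le_div_iff₀ hP]
    exact hC l ξ hξ
  refine ⟨_, ah a, hc, hb, ?_, ?_, ?_⟩
  · intro l
    unfold ah
    refine continuousOn_of_dominated (bound := fun _ => C') ?_ ?_ (integrable_const C') ?_
    · intro ξ hξ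
      exact ((expo (-l)).continuous.mul (continuous_symbol ha hξ)).aestronglyMeasurable
    · intro ξ hξ
      refine Eventually.of_forall fun y => ?_
      rw [norm_mul, norm_expo, one_mul]
      exact hC' y ξ hξ
    · exact Eventually.of_forall fun y => continuousOn_const.mul (continuousOn_symbol ha y)
  · intro l ξ t ht
    unfold ah
    refine integral_congr_ae (Eventually.of_forall fun y => ?_)
    simp only
    rw [ha.homog y ξ t ht]
  · intro y ξ hξ
    set f : C(Torus d, ℂ) := ⟨fun y => a y ξ, continuous_symbol ha hξ⟩ with hf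
    have hcoef : ∀ l, UnitAddTorus.mFourierCoeff (f : Torus d → ℂ) l = ah a l ξ := fun l => rfl
    have hs : Summable (UnitAddTorus.mFourierCoeff (f : Torus d → ℂ)) :=
      Summable.of_norm_bounded hc fun l => hb l ξ hξ
    have := UnitAddTorus.hasSum_mFourier_series_apply_of_summable hs y
    exact this

end MP_d22ea4_an
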