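import Pool.Agent.Lib_MP_d22ea4_an.Defs

/-!
Traces of compressions in two eigenbases; Cesaro averages of compact operators.
-/

open MeasureTheory Filter Topology Complex
open scoped ContDiff ComplexConjugate InnerProductSpace

noncomputable section

namespace MP_d22ea4_an

section T

variable {H : Type*} [NormedAddCommGroup H] [InnerProductSpace ℂ H]

namespace Trace

/-- a vector which is orthogonal to all but finitely many basis vectors -/
theorem eq_sum {κ : Type*} (ψ : HilbertBasis κ ℂ H) (J : Finset κ) (x : H)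
    (h : ∀ j, j ∉ J → ⟪ψ j, x⟫_ℂ = 0) : x = ∑ j ∈ J, ⟪ψ j, x⟫_ℂ • ψ j := by
  have h1 := ψ.hasSum_repr x
  have h2 : HasSum (fun j => ψ.repr x j • ψ j) (∑ j ∈ J, ψ.repr x j • ψ j) := by
    refine hasSum_sum_of_ne_finset_zero fun j hj => ?_
    rw [ψ.repr_apply_apply, h j hj, zero_smul]
  have h3 := h1.unique h2
  simpa only [ψ.repr_apply_apply] using h3

/-- orthonormal families inside a finite dimensional span -/
theorem card_le {ι κ : Type*} (φ : ι → H) (hφ : Orthonormal ℂ φ) (ψ : κ → H) (I : Finset ι)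
    (J : Finset κ) (h : ∀ i ∈ I, φ i ∈ Submodule.span ℂ (ψ '' (J : Set κ))) : I.card ≤ J.card := by
  classical
  have hli : LinearIndependent ℂ (fun i : I => φ i) :=
    hφ.linearIndependent.comp _ Subtype.val_injective
  have h1 : Module.Finite ℂ (Submodule.span ℂ (ψ '' (J : Set κ))) :=
    Module.Finite.span_of_finite ℂ (J.finite_toSet.image ψ)
  have hli2 : LinearIndependent ℂ
      (fun i : I => (⟨φ i, h i i.2⟩ : Submodule.span ℂ (ψ '' (J : Set κ)))) := by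
    apply LinearIndependent.of_comp (Submodule.span ℂ (ψ '' (J : Set κ))).subtype
    exact hli
  have h2 := hli2.fintype_card_le_finrank
  rw [Fintype.card_coe] at h2
  refine h2.trans ?_
  have h3 : (ψ '' (J : Set κ)) = ((J.image ψ : Finset H) : Set H) := by simp
  rw [h3]
  exact (finrank_span_finset_le_card _).trans Finset.card_image_le

end Trace

open Trace

theorem trace_eq {ι κ : Type*} (φ : HilbertBasis ι ℂ H) (ψ : HilbertBasis κ ℂ H) (μ : ι → ℝ)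
    (ν : κ → ℝ) (h : ∀ i j, μ i ≠ ν j → ⟪φ i, ψ j⟫_ℂ = 0) (hfin : ∀ t : ℝ, {j | ν j ≤ t}.Finite)
    (t : ℝ) : {i | μ i ≤ t}.Finite ∧ {i | μ i ≤ t}.ncard = {j | ν j ≤ t}.ncard ∧
      ∀ A : H →L[ℂ] H, ∑ᶠ i ∈ {i | μ i ≤ t}, ⟪φ i, A (φ i)⟫_ℂ =
        ∑ᶠ j ∈ {j | ν j ≤ t}, ⟪ψ j, A (ψ j)⟫_ℂ := by
  classical
  set J : Finset κ := (hfin t).toFinset with hJ
  have hJmem : ∀ j, j ∈ J ↔ ν j ≤ t := fun j => by simp [hJ]
  have hφ : ∀ i, μ i ≤ t → φ i = ∑ j ∈ J, ⟪ψ j, φ i⟫_ℂ • ψ j := by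
    intro i hi
    refine eq_sum ψ J (φ i) fun j hj => ?_
    have hne : μ i ≠ ν j := by
      intro he
      exact hj ((hJmem j).2 (he ▸ hi))
    rw [← inner_conj_symm, h i j hne, map_zero]
  have hspan : ∀ i, μ i ≤ t → φ i ∈ Submodule.span ℂ (ψ '' (J : Set κ)) := by
    intro i hi
    rw [hφ i hi]
    exact Submodule.sum_mem _ fun j hj => Submodule.smul_mem _ _
      (Submodule.subset_span ⟨j, hj, rfl⟩)
  have hIfin : {i | μ i ≤ t}.Finite := by
    by_contra hcon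
    have hinf : {i | μ i ≤ t}.Infinite := hcon
    obtain ⟨I, hI, hcard⟩ := hinf.exists_subset_card_eq (J.card + 1)
    have := card_le φ φ.orthonormal ψ I J fun i hi => hspan i (hI hi)
    omega
  set I : Finset ι := hIfin.toFinset with hIdef
  have hImem : ∀ i, i ∈ I ↔ μ i ≤ t := fun i => by simp [hIdef]
  have hψ : ∀ j, ν j ≤ t → ψ j = ∑ i ∈ I, ⟪φ i, ψ j⟫_ℂ • φ i := by
    intro j hj
    refine eq_sum φ I (ψ j) fun i hi => ?_
    refine h i j fun he => ?_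
    exact hi ((hImem i).2 (he ▸ hj))
  have hcard : I.card = J.card := by
    apply le_antisymm
    · exact card_le φ φ.orthonormal ψ I J fun i hi => hspan i ((hImem i).1 hi)
    · refine card_le ψ ψ.orthonormal φ J I fun j hj => ?_
      rw [hψ j ((hJmem j).1 hj)]
      exact Submodule.sum_mem _ fun i hi => Submodule.smul_mem _ _
        (Submodule.subset_span ⟨i, hi, rfl⟩)
  have hIs : {i | μ i ≤ t} = (I : Set ι) := by ext i; simp [hIdef]
  have hJs : {j | ν j ≤ t} = (J : Set κ) := by ext j; simp [hJ]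
  refine ⟨hIfin, ?_, fun A => ?_⟩
  · rw [hIs, hJs, Set.ncard_coe_finset, Set.ncard_coe_finset, hcard]
  · rw [hIs, hJs]
    simp only [Finset.mem_coe]
    rw [finsum_mem_finset_eq_sum, finsum_mem_finset_eq_sum]
    have h1 : ∀ i ∈ I, ⟪φ i, A (φ i)⟫_ℂ = ∑ j ∈ J, ⟪φ i, ψ j⟫_ℂ * ⟪ψ j, A (φ i)⟫_ℂ := by
      intro i hi
      have e := hφ i ((hImem i).1 hi)
      have e2 : ⟪φ i, A (φ i)⟫_ℂ = ⟪∑ j ∈ J, ⟪ψ j, φ i⟫_ℂ • ψ j, A (φ i)⟫_ℂ :=
        congrArg (fun x => ⟪x, A (φ i)⟫_ℂ) e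
      rw [e2, sum_inner]
      refine Finset.sum_congr rfl fun j _ => ?_
      rw [inner_smul_left, inner_conj_symm]
    rw [Finset.sum_congr rfl h1, Finset.sum_comm]
    refine Finset.sum_congr rfl fun j hj => ?_
    have e := hψ j ((hJmem j).1 hj)
    have h2 : A (ψ j) = ∑ i ∈ I, ⟪φ i, ψ j⟫_ℂ • A (φ i) := by
      have e3 : A (ψ j) = A (∑ i ∈ I, ⟪φ i, ψ j⟫_ℂ • φ i) := congrArg A e
      rw [e3, map_sum]
      exact Finset.sum_congr rfl fun i _ => by rw [map_smul]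
    rw [h2, inner_sum]
    exact Finset.sum_congr rfl fun i _ => by rw [inner_smul_right]

theorem compact_average {ι : Type*} (φ : HilbertBasis ι ℂ H) (μ : ι → ℝ)
    (hfin : ∀ t : ℝ, {i | μ i ≤ t}.Finite)
    (hinf : Tendsto (fun t : ℝ => {i | μ i ≤ t}.ncard) atTop atTop) {K : H →L[ℂ] H}
    (hK : IsCompactOperator K) :
    Tendsto (fun t : ℝ => (∑ᶠ i ∈ {i | μ i ≤ t}, ⟪φ i, K (φ i)⟫_ℂ) /
      (({i | μ i ≤ t}.ncard : ℕ) : ℂ)) atTop (𝓝 0) := by
  classical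
  -- the diagonal matrix elements tend to zero
  have key : ∀ ε > 0, {i | ε ≤ ‖⟪φ i, K (φ i)⟫_ℂ‖}.Finite := by
    intro ε hε
    have hc : TotallyBounded (K '' Metric.closedBall 0 1) := by
      have h1 : IsCompact (closure (K '' Metric.closedBall 0 1)) :=
        IsCompactOperator.isCompact_closure_image_closedBall (𝕜₁ := ℂ) (f := (K : H →ₗ[ℂ] H)) hK 1
      exact h1.totallyBounded.subset subset_closure
    obtain ⟨F, hF, hcov⟩ := Metric.totallyBounded_iff.mp hc (ε / 2) (by positivity)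
    have hy : ∀ y : H, {i | ε / 2 ≤ ‖⟪φ i, y⟫_ℂ‖}.Finite := by
      intro y
      have hs : Summable fun i => ‖⟪φ i, y⟫_ℂ‖ ^ 2 := φ.orthonormal.inner_products_summable y
      have h2 := hs.tendsto_cofinite_zero
      have h3 : ∀ᶠ i in cofinite, ‖⟪φ i, y⟫_ℂ‖ ^ 2 < (ε / 2) ^ 2 :=
        h2.eventually_lt_const (by positivity)
      rw [eventually_cofinite] at h3
      refine h3.subset fun i hi => ?_
      simp only [Set.mem_ofPred_eq, not_lt] at hi ⊢
      exact pow_le_pow_left₀ (by positivity) hi 2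
    refine (hF.biUnion fun y _ => hy y).subset fun i hi => ?_
    have hmem : K (φ i) ∈ K '' Metric.closedBall 0 1 :=
      ⟨φ i, by simp [φ.orthonormal.1 i], rfl⟩
    obtain ⟨y, hyF, hyb⟩ := Set.mem_iUnion₂.mp (hcov hmem)
    refine Set.mem_iUnion₂.mpr ⟨y, hyF, ?_⟩
    simp only [Set.mem_ofPred_eq] at hi ⊢
    have h4 : ‖⟪φ i, K (φ i) - y⟫_ℂ‖ ≤ ε / 2 := by
      refine (norm_inner_le_norm _ _).trans ?_
      rw [φ.orthonormal.1 i, one_mul, ← dist_eq_norm]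
      exact (Metric.mem_ball.mp hyb).le
    have h5 : ⟪φ i, K (φ i)⟫_ℂ = ⟪φ i, K (φ i) - y⟫_ℂ + ⟪φ i, y⟫_ℂ := by
      rw [← inner_add_right, sub_add_cancel]
    have h6 : ε ≤ ‖⟪φ i, K (φ i) - y⟫_ℂ‖ + ‖⟪φ i, y⟫_ℂ‖ := by
      refine hi.trans ?_
      rw [h5]
      exact norm_add_le _ _
    linarith
  rw [Metric.tendsto_atTop]
  intro ε hε
  set S : Finset ι := (key (ε / 2) (by positivity)).toFinset with hS
  set C : ℝ := ∑ i ∈ S, ‖⟪φ i, K (φ i)⟫_ℂ‖ with hC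
  have hC0 : 0 ≤ C := Finset.sum_nonneg fun _ _ => norm_nonneg _
  have hinf' : Tendsto (fun t : ℝ => (({i | μ i ≤ t}.ncard : ℕ) : ℝ)) atTop atTop :=
    tendsto_natCast_atTop_atTop.comp hinf
  obtain ⟨T, hT⟩ := (hinf'.eventually_gt_atTop (2 * C / ε)).exists_forall_of_atTop
  refine ⟨T, fun t ht => ?_⟩
  have hN := hT t ht
  set N : ℝ := (({i | μ i ≤ t}.ncard : ℕ) : ℝ) with hNdef
  have hNpos : 0 < N := lt_of_le_of_lt (by positivity) hN
  rw [dist_zero_right, norm_div, Complex.norm_natCast, ← hNdef, div_lt_iff₀ hNpos]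
  set I : Finset ι := (hfin t).toFinset with hI
  have hIs : {i | μ i ≤ t} = (I : Set ι) := by ext i; simp [hI]
  have hNI : N = (I.card : ℝ) := by
    rw [hNdef, hIs, Set.ncard_coe_finset]
  rw [hIs]
  simp only [Finset.mem_coe]
  rw [finsum_mem_finset_eq_sum]
  have h1 : ‖∑ i ∈ I, ⟪φ i, K (φ i)⟫_ℂ‖ ≤ ∑ i ∈ I, ‖⟪φ i, K (φ i)⟫_ℂ‖ := norm_sum_le _ _
  have h2 : ∑ i ∈ I, ‖⟪φ i, K (φ i)⟫_ℂ‖ ≤ C + N * (ε / 2) := by
    rw [← Finset.sum_inter_add_sum_sdiff I S]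
    have h3 : ∑ i ∈ I ∩ S, ‖⟪φ i, K (φ i)⟫_ℂ‖ ≤ C :=
      Finset.sum_le_sum_of_subset_of_nonneg Finset.inter_subset_right
        fun _ _ _ => norm_nonneg _
    have h4 : ∑ i ∈ I \ S, ‖⟪φ i, K (φ i)⟫_ℂ‖ ≤ N * (ε / 2) := by
      have h5 : ∑ i ∈ I \ S, ‖⟪φ i, K (φ i)⟫_ℂ‖ ≤ ∑ _i ∈ I \ S, ε / 2 := by
        refine Finset.sum_le_sum fun i hi => ?_
        have : i ∉ S := (Finset.mem_sdiff.mp hi).2
        simp only [hS, Set.Finite.mem_toFinset, Set.mem_ofPred_eq, not_le] at this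
        exact this.le
      refine h5.trans ?_
      rw [Finset.sum_const, nsmul_eq_mul, hNI]
      have h6 : ((I \ S).card : ℝ) ≤ I.card := by
        exact_mod_cast Finset.card_le_card Finset.sdiff_subset
      exact mul_le_mul_of_nonneg_right h6 (by positivity)
    linarith
  have h7 : C < N * (ε / 2) := by
    rw [div_lt_iff₀ hε] at hN
    linarith
  linarith

end T

end MP_d22ea4_an
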