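import Pool.Agent.Lib_MP_d22ea4_an.Geom
import Pool.Agent.Lib_MP_d22ea4_an.Spec1
import Pool.Agent.Lib_MP_d22ea4_an.Box
import Pool.Agent.Lib_MP_d22ea4_an.EBfacts
import Pool.Agent.Lib_MP_d22ea4_an.Fk
import Pool.Agent.Lib_MP_d22ea4_an.Upper
import Pool.Agent.Lib_MP_d22ea4_an.Lower
import Pool.Agent.Lib_MP_d22ea4_an.Loc
import Pool.Agent.Lib_MP_d22ea4_an.Prod
import Pool.Agent.Lib_MP_d22ea4_an.ProdBasis
import Pool.Agent.Lib_MP_d22ea4_an.Matrix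
import Pool.Agent.Lib_MP_d22ea4_an.Symbol
import Pool.Agent.Lib_MP_d22ea4_an.Trace

open MeasureTheory Filter Topology Complex
open scoped ContDiff ComplexConjugate InnerProductSpace

noncomputable section

namespace MP_d22ea4_an

attribute [local instance] instMeasureSpaceUnitAddCircle

/-! ### the explicit eigenbasis -/

/-- a choice of an eigenbasis for every potential -/
def ebV (V : {V : ℝ → ℝ // Good V}) : EB V.1 := Classical.choice (exists_EB V.2)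

/-- the eigenbases of one factor -/
def EE (k : ℕ) (p : ℤ × ℤ) : EB (Vk k p.1 p.2) := ebV ⟨Vk k p.1 p.2, good_Vk k p.1 p.2⟩

/-- states of one factor -/
abbrev SS (k : ℕ) : Type := St (EE k)

/-- pairs of states -/
abbrev PP : Type := SS 3 × SS 2

/-- the eigenvalue of a pair -/
def nu (p : PP) : ℝ := p.1.ev + p.2.ev

theorem ev_nonneg' {k : ℕ} (α : SS k) : 0 ≤ α.ev := EB.ev_nonneg (good_Vk _ _ _) _ _

theorem nu_nonneg (p : PP) : 0 ≤ nu p := add_nonneg (ev_nonneg' _) (ev_nonneg' _)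

theorem span_bot : (Submodule.span ℂ (Set.range fun p : PP => cls (prodSt p.1 p.2)))ᗮ = ⊥ := by
  rw [Submodule.eq_bot_iff]
  intro g hg
  apply prod_total (EE 3) (EE 2) g
  intro α β
  rw [Submodule.mem_orthogonal] at hg
  exact hg _ (Submodule.subset_span ⟨(α, β), rfl⟩)

/-- the explicit Hilbert basis -/
def PB : HilbertBasis PP ℂ (L2T 6) :=
  HilbertBasis.mkOfOrthogonalEqBot (prod_orthonormal (EE 3) (EE 2)) span_bot

theorem PB_apply (p : PP) : PB p = cls (prodSt p.1 p.2) := by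
  unfold PB
  rw [HilbertBasis.coe_mkOfOrthogonalEqBot]

theorem PB_isEigen (p : PP) : IsEigen X0 (nu p) (PB p) ∧
    ∀ (μ : ℝ) (φ : L2T 6), IsEigen X0 μ φ → μ ≠ nu p → ⟪φ, PB p⟫_ℂ = 0 := by
  rw [PB_apply]
  exact prodFn_isEigen ((EE 3 p.1.1).smooth p.1.2) ((EE 2 p.2.1).smooth p.2.2)
    ((EE 3 p.1.1).eq p.1.2) ((EE 2 p.2.1).eq p.2.2)

theorem nu_finite (t : ℝ) : {p : PP | nu p ≤ t}.Finite := by
  apply ((st_finite (EE 3) (by norm_num) t).prod (st_finite (EE 2) (by norm_num) t)).subset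
  intro p hp
  have hp : p.1.ev + p.2.ev ≤ t := hp
  have h1 := ev_nonneg' p.1
  have h2 := ev_nonneg' p.2
  exact ⟨by show p.1.ev ≤ t; linarith, by show p.2.ev ≤ t; linarith⟩

/-- the symmetry `(m, n) → (-m, -n)` -/
theorem exists_flip (k : ℕ) : ∃ σ : SS k ≃ SS k, ∀ α, (σ α).ev = α.ev ∧ (σ α).n = - α.n := by
  have key : ∀ V W : {V : ℝ → ℝ // Good V}, V = W →
      ∃ τ : (ebV V).ι ≃ (ebV W).ι, ∀ i, (ebV W).ev (τ i) = (ebV V).ev i := by
    rintro V W rfl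
    exact ⟨Equiv.refl _, fun i => rfl⟩
  have h : ∀ p : ℤ × ℤ, ∃ τ : (EE k p).ι ≃ (EE k (-p)).ι, ∀ i, (EE k (-p)).ev (τ i) = (EE k p).ev i := by
    intro p
    apply key
    apply Subtype.ext
    exact (Vk_neg k p.1 p.2).symm
  choose τ hτ using h
  refine ⟨(Equiv.sigmaCongr (Equiv.neg (ℤ × ℤ)) τ), fun α => ⟨?_, ?_⟩⟩
  · exact hτ α.1 α.2
  · rfl

/-- number of pairs -/
def NN (t : ℝ) : ℕ := {p : PP | nu p ≤ t}.ncard

theorem NN_lower : ∃ c > 0, ∀ s : ℝ, 2 ≤ s → c * s ^ 14 ≤ (NN (s ^ 2) : ℝ) := by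
  obtain ⟨c1, hc1, h1⟩ := st_lo (EE 3) (by norm_num)
  obtain ⟨c2, hc2, h2⟩ := st_lo (EE 2) (by norm_num)
  refine ⟨c1 * c2 / 2 ^ 14, by positivity, fun s hs => ?_⟩
  have a1 := h1 (s / 2) (by linarith)
  have a2 := h2 (s / 2) (by linarith)
  have hsub : {α : SS 3 | α.ev ≤ (s / 2) ^ 2} ×ˢ {α : SS 2 | α.ev ≤ (s / 2) ^ 2} ⊆
      {p : PP | nu p ≤ s ^ 2} := by
    rintro p ⟨hp1, hp2⟩
    have hp1 : p.1.ev ≤ (s / 2) ^ 2 := hp1
    have hp2 : p.2.ev ≤ (s / 2) ^ 2 := hp2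
    show p.1.ev + p.2.ev ≤ s ^ 2
    nlinarith
  have h3 := Set.ncard_le_ncard hsub (nu_finite _)
  rw [Set.ncard_prod] at h3
  have h4 : (({α : SS 3 | α.ev ≤ (s / 2) ^ 2}.ncard : ℝ)) * ({α : SS 2 | α.ev ≤ (s / 2) ^ 2}.ncard : ℝ)
      ≤ (NN (s ^ 2) : ℝ) := by
    unfold NN
    exact_mod_cast h3
  have h5 : c1 * (s / 2) ^ (2 * 3 + 2) * (c2 * (s / 2) ^ (2 * 2 + 2)) ≤
      (({α : SS 3 | α.ev ≤ (s / 2) ^ 2}.ncard : ℝ)) * ({α : SS 2 | α.ev ≤ (s / 2) ^ 2}.ncard : ℝ) :=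
    mul_le_mul a1 a2 (by positivity) (by positivity)
  calc c1 * c2 / 2 ^ 14 * s ^ 14 = c1 * (s / 2) ^ (2 * 3 + 2) * (c2 * (s / 2) ^ (2 * 2 + 2)) := by
        ring
    _ ≤ _ := h5.trans h4

/-- the bad pairs -/
def Bad (κ s : ℝ) : Set PP :=
  {p | nu p ≤ s ^ 2 ∧ (|(p.1.n : ℝ)| ≤ κ ^ 3 * s ^ 5 ∨ |(p.2.n : ℝ)| ≤ κ ^ 3 * s ^ 3)}

theorem bad_finite (κ s : ℝ) : (Bad κ s).Finite := (nu_finite (s ^ 2)).subset fun _ hp => hp.1

theorem bad_upper (κ : ℝ) (hκ : 1 ≤ κ) : ∃ C, ∀ s : ℝ, 1 ≤ s → ((Bad κ s).ncard : ℝ) ≤ C * s ^ 13 := by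
  obtain ⟨C1, h1⟩ := st_n (EE 3) (by norm_num)
  obtain ⟨C2, h2⟩ := st_up (EE 2) (by norm_num)
  obtain ⟨C3, h3⟩ := st_up (EE 3) (by norm_num)
  obtain ⟨C4, h4⟩ := st_n (EE 2) (by norm_num)
  refine ⟨|C1| * (2 * κ ^ 3) * |C2| + |C3| * (|C4| * (2 * κ ^ 3)), fun s hs => ?_⟩
  have hs0 : 0 < s := by linarith
  set S1 : Set (SS 3) := {α | α.ev ≤ s ^ 2 ∧ |(α.n : ℝ)| ≤ κ ^ 3 * s ^ 5}
  set S2 : Set (SS 2) := {α | α.ev ≤ s ^ 2}
  set S3 : Set (SS 3) := {α | α.ev ≤ s ^ 2}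
  set S4 : Set (SS 2) := {α | α.ev ≤ s ^ 2 ∧ |(α.n : ℝ)| ≤ κ ^ 3 * s ^ 3}
  have f3 : S3.Finite := st_finite (EE 3) (by norm_num) _
  have f2 : S2.Finite := st_finite (EE 2) (by norm_num) _
  have f1 : S1.Finite := f3.subset fun _ h => h.1
  have f4 : S4.Finite := f2.subset fun _ h => h.1
  have hsub : Bad κ s ⊆ S1 ×ˢ S2 ∪ S3 ×ˢ S4 := by
    rintro p ⟨hp, hp'⟩
    have hp : p.1.ev + p.2.ev ≤ s ^ 2 := hp
    have e1 := ev_nonneg' p.1
    have e2 := ev_nonneg' p.2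
    rcases hp' with hp' | hp'
    · left; exact ⟨⟨by linarith, hp'⟩, by show p.2.ev ≤ s ^ 2; linarith⟩
    · right; exact ⟨by show p.1.ev ≤ s ^ 2; linarith, ⟨by linarith, hp'⟩⟩
  have h5 := Set.ncard_le_ncard hsub ((f1.prod f2).union (f3.prod f4))
  have h6 := h5.trans (Set.ncard_union_le _ _)
  rw [Set.ncard_prod, Set.ncard_prod] at h6
  have h7 : ((Bad κ s).ncard : ℝ) ≤ (S1.ncard : ℝ) * S2.ncard + S3.ncard * S4.ncard := by
    exact_mod_cast h6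
  have b1 : (S1.ncard : ℝ) ≤ |C1| * (2 * κ ^ 3) * s ^ 7 := by
    refine (h1 s hs (κ ^ 3 * s ^ 5) (by positivity)).trans ?_
    have k1 : (1:ℝ) ≤ κ ^ 3 * s ^ 5 := one_le_mul_of_one_le_of_one_le (one_le_pow₀ hκ) (one_le_pow₀ hs)
    calc C1 * (κ ^ 3 * s ^ 5 + 1) * s ^ 2 ≤ |C1| * (κ ^ 3 * s ^ 5 + κ ^ 3 * s ^ 5) * s ^ 2 := by
          gcongr; exact le_abs_self _
      _ = _ := by ring
  have b4 : (S4.ncard : ℝ) ≤ |C4| * (2 * κ ^ 3) * s ^ 5 := by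
    refine (h4 s hs (κ ^ 3 * s ^ 3) (by positivity)).trans ?_
    have k1 : (1:ℝ) ≤ κ ^ 3 * s ^ 3 := one_le_mul_of_one_le_of_one_le (one_le_pow₀ hκ) (one_le_pow₀ hs)
    calc C4 * (κ ^ 3 * s ^ 3 + 1) * s ^ 2 ≤ |C4| * (κ ^ 3 * s ^ 3 + κ ^ 3 * s ^ 3) * s ^ 2 := by
          gcongr; exact le_abs_self _
      _ = _ := by ring
  have b2 : (S2.ncard : ℝ) ≤ |C2| * s ^ 6 := by
    refine (h2 s hs).trans ?_
    have : C2 * s ^ (2 * 2 + 2) ≤ |C2| * s ^ (2 * 2 + 2) := by gcongr; exact le_abs_self _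
    exact this.trans (le_of_eq (by ring))
  have b3 : (S3.ncard : ℝ) ≤ |C3| * s ^ 8 := by
    refine (h3 s hs).trans ?_
    have : C3 * s ^ (2 * 3 + 2) ≤ |C3| * s ^ (2 * 3 + 2) := by gcongr; exact le_abs_self _
    exact this.trans (le_of_eq (by ring))
  calc ((Bad κ s).ncard : ℝ) ≤ (S1.ncard : ℝ) * S2.ncard + S3.ncard * S4.ncard := h7
    _ ≤ (|C1| * (2 * κ ^ 3) * s ^ 7) * (|C2| * s ^ 6) +
        (|C3| * s ^ 8) * (|C4| * (2 * κ ^ 3) * s ^ 5) := by gcongr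
    _ = _ := by ring


theorem continuous_lift (u : C(UnitAddCircle, ℂ)) : Continuous (lift u) :=
  u.continuous.comp (AddCircle.continuous_mk' 1)

/-- splitting an integral: small near the end points, bounded in the middle -/
theorem split_le {w F : ℝ → ℝ} (hw : Continuous w) (hF : Continuous F) (hw0 : ∀ x, 0 ≤ w x)
    (hw1 : ∫ x in (0:ℝ)..1, w x = 1) {δ A B : ℝ} (hδ : 0 < δ) (hδ' : δ < 1 / 4) (hA : 0 ≤ A)
    (h1 : ∀ x ∈ Set.Icc 0 δ, F x ≤ A) (h2 : ∀ x ∈ Set.Icc (1 - δ) 1, F x ≤ A)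
    (h3 : ∀ x ∈ Set.Icc (0:ℝ) 1, F x ≤ B) :
    ∫ x in (0:ℝ)..1, F x * w x ≤ A + B * ∫ x in δ..(1 - δ), w x := by
  have i1 : ∀ a b, IntervalIntegrable (fun x => F x * w x) volume a b := fun a b =>
    (hF.mul hw).intervalIntegrable a b
  have i2 : ∀ a b, IntervalIntegrable w volume a b := fun a b => hw.intervalIntegrable a b
  have e1 : ∫ x in (0:ℝ)..1, F x * w x = (∫ x in (0:ℝ)..δ, F x * w x) +
      (∫ x in δ..(1 - δ), F x * w x) + ∫ x in (1 - δ)..1, F x * w x := by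
    rw [intervalIntegral.integral_add_adjacent_intervals (i1 _ _) (i1 _ _),
      intervalIntegral.integral_add_adjacent_intervals (i1 _ _) (i1 _ _)]
  have e2 : ∫ x in (0:ℝ)..1, w x = (∫ x in (0:ℝ)..δ, w x) +
      (∫ x in δ..(1 - δ), w x) + ∫ x in (1 - δ)..1, w x := by
    rw [intervalIntegral.integral_add_adjacent_intervals (i2 _ _) (i2 _ _),
      intervalIntegral.integral_add_adjacent_intervals (i2 _ _) (i2 _ _)]
  have p2 : 0 ≤ ∫ x in δ..(1 - δ), w x :=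
    intervalIntegral.integral_nonneg (by linarith) fun x _ => hw0 x
  have b1 : ∫ x in (0:ℝ)..δ, F x * w x ≤ A * ∫ x in (0:ℝ)..δ, w x := by
    rw [← intervalIntegral.integral_const_mul]
    refine intervalIntegral.integral_mono_on hδ.le (i1 _ _) ((i2 _ _).const_mul A) fun x hx => ?_
    exact mul_le_mul_of_nonneg_right (h1 x hx) (hw0 x)
  have b2 : ∫ x in δ..(1 - δ), F x * w x ≤ B * ∫ x in δ..(1 - δ), w x := by
    rw [← intervalIntegral.integral_const_mul]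
    refine intervalIntegral.integral_mono_on (by linarith) (i1 _ _) ((i2 _ _).const_mul B)
      fun x hx => ?_
    exact mul_le_mul_of_nonneg_right (h3 x ⟨by linarith [hx.1], by linarith [hx.2]⟩) (hw0 x)
  have b3 : ∫ x in (1 - δ)..1, F x * w x ≤ A * ∫ x in (1 - δ)..1, w x := by
    rw [← intervalIntegral.integral_const_mul]
    refine intervalIntegral.integral_mono_on (by linarith) (i1 _ _) ((i2 _ _).const_mul A)
      fun x hx => ?_
    exact mul_le_mul_of_nonneg_right (h2 x hx) (hw0 x)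
  have b4 : A * (∫ x in (0:ℝ)..δ, w x) + A * (∫ x in (1 - δ)..1, w x) ≤ A := by
    have : A * ((∫ x in (0:ℝ)..δ, w x) + (∫ x in δ..(1 - δ), w x) + ∫ x in (1 - δ)..1, w x) = A := by
      rw [← e2, hw1, mul_one]
    nlinarith
  linarith

theorem norm_exp_sub_one_le (y : ℝ) : ‖Complex.exp (I * y) - 1‖ ≤ |y| := by
  have := Real.norm_exp_I_mul_ofReal_sub_one_le (x := y)
  simpa using this

/-- the oscillating integral of a localised density is close to one -/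
theorem osc_le {u : C(UnitAddCircle, ℂ)} (hu1 : ∫ x in (0:ℝ)..1, ‖lift u x‖ ^ 2 = 1) (l : ℤ)
    {δ : ℝ} (hδ : 0 < δ) (hδ' : δ < 1 / 4) :
    ‖(∫ x in (0:ℝ)..1, Complex.exp (2 * Real.pi * I * l * x) * (‖lift u x‖ ^ 2 : ℝ)) - 1‖ ≤
      2 * Real.pi * |(l : ℝ)| * δ + 2 * ∫ x in δ..(1 - δ), ‖lift u x‖ ^ 2 := by
  have hc : Continuous (lift u) := continuous_lift u
  have hw : Continuous fun x => ‖lift u x‖ ^ 2 := by fun_prop
  have hexp : Continuous fun x : ℝ => Complex.exp (2 * Real.pi * I * l * x) := by fun_prop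
  have e1 : (∫ x in (0:ℝ)..1, Complex.exp (2 * Real.pi * I * l * x) * (‖lift u x‖ ^ 2 : ℝ)) - 1 =
      ∫ x in (0:ℝ)..1, (Complex.exp (2 * Real.pi * I * l * x) - 1) * ((‖lift u x‖ ^ 2 : ℝ) : ℂ) := by
    have h2 : ∫ x in (0:ℝ)..1, ((‖lift u x‖ ^ 2 : ℝ) : ℂ) = 1 := by
      rw [intervalIntegral.integral_ofReal, hu1]; simp
    conv_lhs => rw [← h2]
    rw [← intervalIntegral.integral_sub]
    · congr 1
      ext x; ring
    · exact (hexp.mul (Complex.continuous_ofReal.comp hw)).intervalIntegrable _ _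
    · exact (Complex.continuous_ofReal.comp hw).intervalIntegrable _ _
  rw [e1]
  refine (intervalIntegral.norm_integral_le_integral_norm zero_le_one).trans ?_
  have e2 : ∀ x : ℝ, ‖(Complex.exp (2 * Real.pi * I * l * x) - 1) * ((‖lift u x‖ ^ 2 : ℝ) : ℂ)‖ =
      ‖Complex.exp (2 * Real.pi * I * l * x) - 1‖ * ‖lift u x‖ ^ 2 := by
    intro x
    rw [norm_mul, Complex.norm_real, Real.norm_of_nonneg (by positivity)]
  simp_rw [e2]
  refine (split_le (w := fun x => ‖lift u x‖ ^ 2)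
    (F := fun x : ℝ => ‖Complex.exp (2 * Real.pi * I * l * x) - 1‖)
    (A := 2 * Real.pi * |(l : ℝ)| * δ) (B := 2) hw (by fun_prop) (fun x => by positivity) hu1 hδ hδ'
    (by positivity) ?_ ?_ ?_)
  · intro x hx
    have h : (2 * Real.pi * I * l * x : ℂ) = I * ((2 * Real.pi * l * x : ℝ) : ℂ) := by
      push_cast; ring
    rw [h]
    refine (norm_exp_sub_one_le _).trans ?_
    rw [abs_mul, abs_mul, abs_of_nonneg (by positivity : 0 ≤ 2 * Real.pi), abs_of_nonneg hx.1]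
    gcongr
    exact hx.2
  · intro x hx
    have h : Complex.exp (2 * Real.pi * I * l * x) =
        Complex.exp (I * ((2 * Real.pi * l * (x - 1) : ℝ) : ℂ)) := by
      rw [Complex.exp_eq_exp_iff_exists_int]
      exact ⟨l, by push_cast; ring⟩
    rw [h]
    refine (norm_exp_sub_one_le _).trans ?_
    rw [abs_mul, abs_mul, abs_of_nonneg (by positivity : 0 ≤ 2 * Real.pi),
      abs_of_nonpos (by linarith [hx.2] : x - 1 ≤ 0)]
    gcongr
    linarith [hx.1]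
  · intro x _
    have h : (2 * Real.pi * I * l * x : ℂ) = ((2 * Real.pi * l * x : ℝ) : ℂ) * I := by
      push_cast; ring
    refine (norm_sub_le _ _).trans ?_
    rw [h, Complex.norm_exp_ofReal_mul_I, norm_one]
    norm_num

theorem fk_sq_le {k : ℕ} {u : C(UnitAddCircle, ℂ)}
    (hu1 : ∫ x in (0:ℝ)..1, ‖lift u x‖ ^ 2 = 1) {δ : ℝ} (hδ : 0 < δ) (hδ' : δ < 1 / 4) :
    ∫ x in (0:ℝ)..1, (fk k x) ^ 2 * ‖lift u x‖ ^ 2 ≤
      ((20 * δ ^ 2) ^ k) ^ 2 + (2 ^ k) ^ 2 * ∫ x in δ..(1 - δ), ‖lift u x‖ ^ 2 := by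
  have hc : Continuous (lift u) := continuous_lift u
  have hf : Continuous (fk k) := (contDiff_fk k).continuous
  refine (split_le (w := fun x => ‖lift u x‖ ^ 2) (F := fun x : ℝ => (fk k x) ^ 2)
    (A := ((20 * δ ^ 2) ^ k) ^ 2) (B := (2 ^ k) ^ 2) (by fun_prop) (by fun_prop)
    (fun x => by positivity) hu1 hδ hδ' (by positivity) ?_ ?_ ?_)
  · intro x hx
    have h1 := fk_le_pow k x
    have h0 := fk_nonneg k x
    have h2 : (20 * x ^ 2) ^ k ≤ (20 * δ ^ 2) ^ k := by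
      have := hx.1
      have := hx.2
      gcongr
    gcongr
    exact h1.trans h2
  · intro x hx
    have h1 := fk_le_pow k (x - 1)
    have h3 : fk k (x - 1) = fk k x := by
      have := fk_periodic k (x - 1)
      rw [sub_add_cancel] at this
      exact this.symm
    rw [h3] at h1
    have h0 := fk_nonneg k x
    have h2 : (20 * (x - 1) ^ 2) ^ k ≤ (20 * δ ^ 2) ^ k := by
      have := hx.1
      have := hx.2
      have h4 : (x - 1) ^ 2 ≤ δ ^ 2 := by nlinarith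
      gcongr
    gcongr
    exact h1.trans h2
  · intro x _
    have h0 := fk_nonneg k x
    have h1 := fk_le k x
    gcongr

/-- the frequency `m` of a localised state is small compared to `n` -/
theorem m_sq_le {k : ℕ} {m n : ℤ} {u : C(UnitAddCircle, ℂ)} {t : ℝ}
    (hu : ContDiff ℝ ∞ (lift u))
    (hu1 : ∫ x in (0:ℝ)..1, ‖lift u x‖ ^ 2 = 1)
    (hen : ∫ x in (0:ℝ)..1, (‖deriv (lift u) x‖ ^ 2 + Vk k m n x * ‖lift u x‖ ^ 2) ≤ t) :
    (m : ℝ) ^ 2 ≤ t + 2 * (n : ℝ) ^ 2 * ∫ x in (0:ℝ)..1, (fk k x) ^ 2 * ‖lift u x‖ ^ 2 := by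
  have hc : Continuous (lift u) := continuous_lift u
  have hd : Continuous (deriv (lift u)) := hu.continuous_deriv (by simp)
  have hf : Continuous (fk k) := (contDiff_fk k).continuous
  have hV : Continuous (Vk k m n) := (good_Vk k m n).smooth.continuous
  have h1 : (m : ℝ) ^ 2 = ∫ x in (0:ℝ)..1, (m : ℝ) ^ 2 * ‖lift u x‖ ^ 2 := by
    rw [intervalIntegral.integral_const_mul, hu1, mul_one]
  rw [h1]
  have h2 : ∫ x in (0:ℝ)..1, (m : ℝ) ^ 2 * ‖lift u x‖ ^ 2 ≤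
      ∫ x in (0:ℝ)..1, ((‖deriv (lift u) x‖ ^ 2 + Vk k m n x * ‖lift u x‖ ^ 2) +
        2 * (n : ℝ) ^ 2 * ((fk k x) ^ 2 * ‖lift u x‖ ^ 2)) := by
    refine intervalIntegral.integral_mono_on zero_le_one
      (Continuous.intervalIntegrable (by fun_prop) _ _)
      (Continuous.intervalIntegrable (by fun_prop) _ _) fun x _ => ?_
    have h3 : (m : ℝ) ^ 2 ≤ Vk k m n x + 2 * (n : ℝ) ^ 2 * (fk k x) ^ 2 := by
      unfold Vk ak
      have hpi : (3:ℝ) < Real.pi := Real.pi_gt_three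
      nlinarith [sq_nonneg ((m : ℝ) + 2 * (n * fk k x)), sq_nonneg ((m : ℝ) + n * fk k x),
        mul_nonneg (sq_nonneg ((m : ℝ) + n * fk k x)) (by nlinarith : (0:ℝ) ≤ (2 * Real.pi) ^ 2 - 2)]
    have h4 : 0 ≤ ‖lift u x‖ ^ 2 := by positivity
    have h5 : 0 ≤ ‖deriv (lift u) x‖ ^ 2 := by positivity
    nlinarith [mul_le_mul_of_nonneg_right h3 h4]
  refine h2.trans ?_
  rw [intervalIntegral.integral_add (Continuous.intervalIntegrable (by fun_prop) _ _)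
    (Continuous.intervalIntegrable (by fun_prop) _ _), intervalIntegral.integral_const_mul]
  linarith

end MP_d22ea4_an
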