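import Pool.Agent.Lib_MP_d22ea4_an.Asm1

open MeasureTheory Filter Topology Complex
open scoped ContDiff ComplexConjugate InnerProductSpace

noncomputable section

namespace MP_d22ea4_an

attribute [local instance] instMeasureSpaceUnitAddCircle

/-- the behaviour of a symbol near the directions `± e_2` -/
structure NearLim (g : (Fin 6 → ℤ) → ℂ) (gp gm : ℂ) : Prop where
  pos : ∀ ε > 0, ∃ η > 0, ∀ k : Fin 6 → ℤ, 0 < k 2 →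
    (∀ i, i ≠ 2 → |(k i : ℝ)| ≤ η * |(k 2 : ℝ)|) → ‖g k - gp‖ ≤ ε
  neg : ∀ ε > 0, ∃ η > 0, ∀ k : Fin 6 → ℤ, k 2 < 0 →
    (∀ i, i ≠ 2 → |(k i : ℝ)| ≤ η * |(k 2 : ℝ)|) → ‖g k - gm‖ ≤ ε

/-- the expected value of the matrix element -/
def cc (gp gm : ℂ) (p : PP) : ℂ :=
  if 0 < p.1.n then gp else if p.1.n < 0 then gm else (gp + gm) / 2

theorem state_energy {k : ℕ} (α : SS k) :
    ∫ x in (0:ℝ)..1, (‖deriv (lift α.fn) x‖ ^ 2 + Vk k α.m α.n x * ‖lift α.fn x‖ ^ 2) = α.ev :=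
  EB.energy (good_Vk _ _ _) _ _

theorem state_norm {k : ℕ} (α : SS k) : ∫ x in (0:ℝ)..1, ‖lift α.fn x‖ ^ 2 = 1 :=
  EB.norm_one _ _

theorem state_smooth {k : ℕ} (α : SS k) : ContDiff ℝ ∞ (lift α.fn) := (EE k α.1).smooth α.2

theorem state_deriv_le {k : ℕ} (α : SS k) :
    ∫ x in (0:ℝ)..1, ‖deriv (lift α.fn) x‖ ^ 2 ≤ α.ev := by
  rw [← state_energy α]
  have hc : Continuous (lift α.fn) := continuous_lift _
  have hd : Continuous (deriv (lift α.fn)) := (state_smooth α).continuous_deriv (by simp)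
  have hV : Continuous (Vk k α.m α.n) := (good_Vk k α.m α.n).smooth.continuous
  refine intervalIntegral.integral_mono_on zero_le_one
    (Continuous.intervalIntegrable (by fun_prop) _ _)
    (Continuous.intervalIntegrable (by fun_prop) _ _) fun x _ => ?_
  have : 0 ≤ Vk k α.m α.n x * ‖lift α.fn x‖ ^ 2 :=
    mul_nonneg ((good_Vk k α.m α.n).nonneg x) (by positivity)
  linarith

/-- the mass of a state away from `0` -/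
theorem out_le {k : ℕ} (hk : 2 ≤ k) {δ : ℝ} (hδ : 0 < δ) (hδ' : δ < 1 / 4) :
    ∃ C R0 : ℝ, 0 < C ∧ ∀ κ s : ℝ, 1 ≤ κ → R0 ≤ κ → 1 ≤ s → ∀ α : SS k, α.ev ≤ s ^ 2 →
      κ ^ 3 * s ^ 3 ≤ |(α.n : ℝ)| → ∫ x in δ..(1 - δ), ‖lift α.fn x‖ ^ 2 ≤ C / κ ^ 2 := by
  obtain ⟨C, R0, hC, h⟩ := loc hk hδ hδ'
  refine ⟨C, |R0|, hC, fun κ s hκ hκ' hs α hα hn => ?_⟩
  have hR : R0 ≤ κ * s := by
    have h1 := le_abs_self R0
    have h2 : κ * 1 ≤ κ * s := mul_le_mul_of_nonneg_left hs (by linarith)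
    linarith
  have h1 := h (κ * s) hR α.m α.n (by rw [mul_pow]; exact hn) (lift α.fn)
    ((state_smooth α).of_le (by simp)) (lift_periodic _)
  have h2 : ∫ x in (0:ℝ)..1, (‖deriv (lift α.fn) x‖ ^ 2 + (ak k α.m α.n x) ^ 2 * ‖lift α.fn x‖ ^ 2)
      = α.ev := state_energy α
  rw [h2] at h1
  refine h1.trans ?_
  have hs0 : 0 < s := by linarith
  have hκ0 : 0 < κ := by linarith
  calc C / (κ * s) ^ 2 * α.ev ≤ C / (κ * s) ^ 2 * s ^ 2 := by gcongr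
    _ = C / κ ^ 2 := by field_simp

theorem norm_I_le {k : ℕ} (α : SS k) (l : ℤ) :
    ‖∫ x in (0:ℝ)..1, Complex.exp (2 * Real.pi * I * l * x) * (‖lift α.fn x‖ ^ 2 : ℝ)‖ ≤ 1 := by
  refine (intervalIntegral.norm_integral_le_integral_norm zero_le_one).trans ?_
  have : ∀ x : ℝ, ‖Complex.exp (2 * Real.pi * I * l * x) *
      ((‖lift α.fn x‖ ^ 2 : ℝ) : ℂ)‖ = ‖lift α.fn x‖ ^ 2 := by
    intro x
    have h : (2 * Real.pi * I * l * x : ℂ) = ((2 * Real.pi * l * x : ℝ) : ℂ) * I := by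
      push_cast; ring
    rw [norm_mul, h, Complex.norm_exp_ofReal_mul_I, Complex.norm_real,
      Real.norm_of_nonneg (by positivity), one_mul]
  simp_rw [this]
  rw [state_norm]

theorem prod_sub_one_le {a b : ℂ} (ha : ‖a‖ ≤ 1) : ‖a * b - 1‖ ≤ ‖a - 1‖ + ‖b - 1‖ := by
  have : a * b - 1 = a * (b - 1) + (a - 1) := by ring
  rw [this]
  refine (norm_add_le _ _).trans ?_
  rw [norm_mul]
  have := mul_le_mul_of_nonneg_right ha (norm_nonneg (b - 1))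
  linarith

theorem sqrt_aux {D s η N κ : ℝ} (hD : D ≤ s ^ 2) (hη : 0 < η) (hκ : 0 < κ) (hs : 0 < s)
    (hN : κ * s ≤ N) : Real.sqrt (D / (η * N) ^ 2) ≤ 1 / (η * κ) := by
  have hN0 : 0 < N := lt_of_lt_of_le (by positivity) hN
  apply Real.sqrt_le_iff.2
  refine ⟨by positivity, ?_⟩
  rw [div_le_iff₀ (by positivity)]
  refine hD.trans ?_
  have h5 : (1 / (η * κ)) ^ 2 * (η * N) ^ 2 = (N / κ) ^ 2 := by field_simp
  rw [h5]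
  have h6 : s ≤ N / κ := by
    rw [le_div_iff₀ hκ]; linarith
  gcongr

theorem matrix_close {l : Fin 6 → ℤ} {g : (Fin 6 → ℤ) → ℂ} {T : L2T 6 →L[ℂ] L2T 6}
    (hT : IsMD l g T) (hl : l 1 = 0 ∧ l 2 = 0 ∧ l 4 = 0 ∧ l 5 = 0) {G : ℝ}
    (hG : ∀ k, ‖g k‖ ≤ G) {ε η κ s δ C C' : ℝ} (hε : 0 < ε) (hη : 0 < η) (hκ : 0 < κ)
    (hs : 0 < s) (hδ : 0 < δ) (hδ' : δ < 1 / 4) (p : PP) (hp : nu p ≤ s ^ 2) (hn0 : p.1.n ≠ 0)
    (hN : κ * s ≤ |(p.1.n : ℝ)|)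
    (o1 : ∫ x in δ..(1 - δ), ‖lift p.1.fn x‖ ^ 2 ≤ C / κ ^ 2)
    (o2 : ∫ x in δ..(1 - δ), ‖lift p.2.fn x‖ ^ 2 ≤ C' / κ ^ 2)
    (k4 : 2 * G / (η * κ) ≤ ε / 4)
    (k5 : G * (2 * Real.pi * (|(l 0 : ℝ)| + |(l 3 : ℝ)|) * δ) ≤ ε / 8)
    (k6 : G * (2 * (C / κ ^ 2) + 2 * (C' / κ ^ 2)) ≤ ε / 8) (c0 : ℂ) (hc0 : ‖c0‖ ≤ G)
    (hgk : ∀ k : Fin 6 → ℤ, k 1 = p.1.m → k 2 = p.1.n → k 4 = p.2.m → k 5 = p.2.n →
      |(k 0 : ℝ)| ≤ η * |(p.1.n : ℝ)| → |(k 3 : ℝ)| ≤ η * |(p.1.n : ℝ)| → ‖g k - c0‖ ≤ ε / 4) :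
    ‖⟪PB p, T (PB p)⟫_ℂ - c0‖ ≤ ε := by
  have hG0 : 0 ≤ G := (norm_nonneg _).trans hc0
  have ev1 := ev_nonneg' p.1
  have ev2 := ev_nonneg' p.2
  have hp' : p.1.ev + p.2.ev ≤ s ^ 2 := hp
  have h1 := prod_matrix_est hT hl p.1.m p.1.n p.2.m p.2.n hn0
    ((state_smooth p.1).of_le (by simp)) ((state_smooth p.2).of_le (by simp)) (state_norm p.1)
    (state_norm p.2) (by positivity : 0 ≤ ε / 4) hη hG hc0 hgk
  have i1 := (osc_le (state_norm p.1) (l 0) hδ hδ')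
  have i2 := (osc_le (state_norm p.2) (l 3) hδ hδ')
  have i3 := norm_I_le p.1 (l 0)
  have hsq := sqrt_aux (D := (∫ x in (0:ℝ)..1, ‖deriv (lift p.1.fn) x‖ ^ 2) +
          (∫ x in (0:ℝ)..1, ‖deriv (lift p.2.fn) x‖ ^ 2)) (s := s) (η := η)
          (N := |(p.1.n : ℝ)|) (κ := κ)
          ((add_le_add (state_deriv_le p.1) (state_deriv_le p.2)).trans hp') hη hκ hs hN
  rw [PB_apply]
  set x := ⟪cls (prodSt p.1 p.2), T (cls (prodSt p.1 p.2))⟫_ℂ with hx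
  set I1 : ℂ := ∫ x in (0:ℝ)..1, Complex.exp (2 * Real.pi * I * (l 0) * x) *
    (‖lift p.1.fn x‖ ^ 2 : ℝ) with hI1
  set I2 : ℂ := ∫ x in (0:ℝ)..1, Complex.exp (2 * Real.pi * I * (l 3) * x) *
    (‖lift p.2.fn x‖ ^ 2 : ℝ) with hI2
  have h2 : ‖x - c0 * (I1 * I2)‖ ≤ ε / 4 + ε / 4 := by
    refine h1.trans ?_
    have h7 : 2 * G * Real.sqrt (((∫ x in (0:ℝ)..1, ‖deriv (lift p.1.fn) x‖ ^ 2) +
        (∫ x in (0:ℝ)..1, ‖deriv (lift p.2.fn) x‖ ^ 2)) / (η * |(p.1.n : ℝ)|) ^ 2) ≤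
        2 * G * (1 / (η * κ)) := mul_le_mul_of_nonneg_left hsq (by positivity)
    have h8 : 2 * G * (1 / (η * κ)) = 2 * G / (η * κ) := by ring
    rw [h8] at h7
    exact add_le_add le_rfl (h7.trans k4)
  have h8 := prod_sub_one_le (b := I2) i3
  have h9 : ‖c0 * (I1 * I2) - c0‖ ≤ ε / 8 + ε / 8 := by
    have e1 : c0 * (I1 * I2) - c0 = c0 * (I1 * I2 - 1) := by ring
    rw [e1, norm_mul]
    have i1' : ‖I1 - 1‖ ≤ 2 * Real.pi * |(l 0 : ℝ)| * δ + 2 * (C / κ ^ 2) := by linarith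
    have i2' : ‖I2 - 1‖ ≤ 2 * Real.pi * |(l 3 : ℝ)| * δ + 2 * (C' / κ ^ 2) := by linarith
    calc ‖c0‖ * ‖I1 * I2 - 1‖ ≤ G * (‖I1 - 1‖ + ‖I2 - 1‖) :=
          mul_le_mul hc0 h8 (norm_nonneg _) hG0
      _ ≤ G * ((2 * Real.pi * |(l 0 : ℝ)| * δ + 2 * (C / κ ^ 2)) +
          (2 * Real.pi * |(l 3 : ℝ)| * δ + 2 * (C' / κ ^ 2))) :=
          mul_le_mul_of_nonneg_left (add_le_add i1' i2') hG0
      _ = G * (2 * Real.pi * (|(l 0 : ℝ)| + |(l 3 : ℝ)|) * δ) +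
          G * (2 * (C / κ ^ 2) + 2 * (C' / κ ^ 2)) := by ring
      _ ≤ ε / 8 + ε / 8 := add_le_add k5 k6
  have h10 : x - c0 = (x - c0 * (I1 * I2)) + (c0 * (I1 * I2) - c0) := by ring
  rw [h10]
  refine (norm_add_le _ _).trans ?_
  linarith

theorem m_small {α : SS 3} {s κ η δ C : ℝ} (hκ : 0 < κ) (hη : 0 < η) (hs : 0 < s)
    (hδ : 0 < δ) (hδ' : δ < 1 / 4) (hev : α.ev ≤ s ^ 2) (hN : κ * s ≤ |(α.n : ℝ)|)
    (o1 : ∫ x in δ..(1 - δ), ‖lift α.fn x‖ ^ 2 ≤ C / κ ^ 2)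
    (hδ2 : ((20 * δ ^ 2) ^ 3) ^ 2 ≤ η ^ 2 / 16)
    (k5 : 1 / κ ^ 2 ≤ η ^ 2 / 4) (k7 : (2 ^ 3) ^ 2 * (C / κ ^ 2) ≤ η ^ 2 / 16) :
    |(α.m : ℝ)| ≤ η * |(α.n : ℝ)| := by
  have h1 := m_sq_le (k := 3) (state_smooth α) (state_norm α) ((state_energy α).le.trans hev)
  have h2 := fk_sq_le (k := 3) (state_norm α) hδ hδ'
  have h3 : ∫ x in (0:ℝ)..1, (fk 3 x) ^ 2 * ‖lift α.fn x‖ ^ 2 ≤ η ^ 2 / 8 := by
    have : (2 ^ 3) ^ 2 * ∫ x in δ..(1 - δ), ‖lift α.fn x‖ ^ 2 ≤ (2 ^ 3) ^ 2 * (C / κ ^ 2) :=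
      mul_le_mul_of_nonneg_left o1 (by norm_num)
    linarith
  set N : ℝ := |(α.n : ℝ)| with hNdef
  have h5 : (α.n : ℝ) ^ 2 = N ^ 2 := by rw [hNdef, sq_abs]
  rw [h5] at h1
  have h4 : s ^ 2 ≤ N ^ 2 * (1 / κ ^ 2) := by
    have : κ ^ 2 * s ^ 2 ≤ N ^ 2 := by
      rw [← mul_pow]; gcongr
    rw [mul_one_div, le_div_iff₀ (by positivity)]
    linarith
  have h7 : N ^ 2 * (1 / κ ^ 2) ≤ N ^ 2 * (η ^ 2 / 4) := by gcongr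
  have h8 : 2 * N ^ 2 * ∫ x in (0:ℝ)..1, (fk 3 x) ^ 2 * ‖lift α.fn x‖ ^ 2 ≤
      2 * N ^ 2 * (η ^ 2 / 8) := by gcongr
  have h9 : (α.m : ℝ) ^ 2 ≤ N ^ 2 * (η ^ 2 / 4) + 2 * N ^ 2 * (η ^ 2 / 8) := by linarith
  have h10 : N ^ 2 * (η ^ 2 / 4) + 2 * N ^ 2 * (η ^ 2 / 8) = (1 / 2) * (η * N) ^ 2 := by ring
  have h11 : 0 ≤ (η * N) ^ 2 := sq_nonneg _
  have h6 : (α.m : ℝ) ^ 2 ≤ (η * N) ^ 2 := by linarith
  exact abs_le_of_sq_le_sq h6 (by positivity)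

/-- the choice of `δ` -/
theorem choose_delta {G L η ε : ℝ} (hG0 : 0 ≤ G) (hL0 : 0 ≤ L) (hη : 0 < η) (hε : 0 < ε) :
    ∃ δ : ℝ, 0 < δ ∧ δ < 1 / 4 ∧ G * (2 * Real.pi * L * δ) ≤ ε / 8 ∧
      ((20 * δ ^ 2) ^ 3) ^ 2 ≤ η ^ 2 / 16 := by
  have hπ := Real.pi_pos
  set δ : ℝ := min (1 / 8) (min (η ^ 2 / 40) (ε / (8 * ((G + 1) * (2 * Real.pi * (L + 1))))))
    with hδdef
  have hδ : 0 < δ := lt_min (by norm_num) (lt_min (by positivity) (by positivity))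
  have hδ8 : δ ≤ 1 / 8 := min_le_left _ _
  have hδη : δ ≤ η ^ 2 / 40 := (min_le_right _ _).trans (min_le_left _ _)
  have hδε : δ ≤ ε / (8 * ((G + 1) * (2 * Real.pi * (L + 1)))) :=
    (min_le_right _ _).trans (min_le_right _ _)
  refine ⟨δ, hδ, by linarith, ?_, ?_⟩
  · calc G * (2 * Real.pi * L * δ) ≤ (G + 1) * (2 * Real.pi * (L + 1) *
          (ε / (8 * ((G + 1) * (2 * Real.pi * (L + 1)))))) := by
          gcongr <;> linarith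
      _ = ε / 8 := by field_simp
  · have h1 : 20 * δ ^ 2 ≤ 1 := by nlinarith
    have h0 : 0 ≤ 20 * δ ^ 2 := by positivity
    have h2 : ((20 * δ ^ 2) ^ 3) ^ 2 ≤ 20 * δ ^ 2 := by
      rw [← pow_mul]
      exact pow_le_of_le_one h0 h1 (by norm_num)
    refine h2.trans ?_
    nlinarith

/-- the choice of `κ` -/
theorem choose_kappa {G η ε C C' C3 R0 R0' : ℝ} (hG0 : 0 ≤ G) (hη : 0 < η) (hε : 0 < ε)
    (hC : 0 < C) (hC' : 0 < C') : ∃ κ : ℝ, 1 ≤ κ ∧ R0 ≤ κ ∧ R0' ≤ κ ∧ |C3| ≤ η * κ ∧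
      2 * G / (η * κ) ≤ ε / 4 ∧ 1 / κ ^ 2 ≤ η ^ 2 / 4 ∧
      G * (2 * (C / κ ^ 2) + 2 * (C' / κ ^ 2)) ≤ ε / 8 ∧
      (2 ^ 3) ^ 2 * (C / κ ^ 2) ≤ η ^ 2 / 16 := by
  set κ : ℝ := 1 + |R0| + |R0'| + |C3| / η + 8 * G / (η * ε) + 2 / η + 16 * G * (C + C') / ε +
    1024 * C / η ^ 2 with hκdef
  have t1 : 0 ≤ |R0| := abs_nonneg _
  have t2 : 0 ≤ |R0'| := abs_nonneg _
  have t3 : 0 ≤ |C3| / η := by positivity
  have t4 : 0 ≤ 8 * G / (η * ε) := by positivity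
  have t5 : 0 ≤ 2 / η := by positivity
  have t6 : 0 ≤ 16 * G * (C + C') / ε := by positivity
  have t7 : 0 ≤ 1024 * C / η ^ 2 := by positivity
  have hκ1 : 1 ≤ κ := by linarith
  have hκ0 : 0 < κ := by linarith
  have hκκ : κ ≤ κ ^ 2 := le_self_pow₀ hκ1 (by norm_num)
  refine ⟨κ, hκ1, by linarith [le_abs_self R0], by linarith [le_abs_self R0'], ?_, ?_, ?_, ?_, ?_⟩
  · have : |C3| / η ≤ κ := by linarith
    rw [div_le_iff₀ hη] at this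
    linarith
  · have h1 : 8 * G / (η * ε) ≤ κ := by linarith
    rw [div_le_iff₀ (by positivity)] at h1
    rw [div_le_iff₀ (by positivity)]
    linarith
  · have h1 : 2 / η ≤ κ := by linarith
    have h2 : 1 / κ ≤ η / 2 := by
      rw [div_le_iff₀ hη] at h1
      rw [div_le_iff₀ hκ0]
      linarith
    calc 1 / κ ^ 2 = (1 / κ) ^ 2 := by rw [div_pow, one_pow]
      _ ≤ (η / 2) ^ 2 := by gcongr
      _ = η ^ 2 / 4 := by ring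
  · have h1 : 16 * G * (C + C') / ε ≤ κ ^ 2 := by linarith
    rw [div_le_iff₀ hε] at h1
    have : G * (2 * (C / κ ^ 2) + 2 * (C' / κ ^ 2)) = 2 * G * (C + C') / κ ^ 2 := by ring
    rw [this, div_le_iff₀ (by positivity)]
    linarith
  · have h1 : 1024 * C / η ^ 2 ≤ κ ^ 2 := by linarith
    rw [div_le_iff₀ (by positivity)] at h1
    have : (2 ^ 3) ^ 2 * (C / κ ^ 2) = 64 * C / κ ^ 2 := by ring
    rw [this, div_le_iff₀ (by positivity)]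
    linarith

theorem good_pair {l : Fin 6 → ℤ} {g : (Fin 6 → ℤ) → ℂ} {T : L2T 6 →L[ℂ] L2T 6}
    (hT : IsMD l g T) (hl : l 1 = 0 ∧ l 2 = 0 ∧ l 4 = 0 ∧ l 5 = 0) {G : ℝ} {gp gm : ℂ}
    (hG : ∀ k, ‖g k‖ ≤ G) (hgp : ‖gp‖ ≤ G) (hgm : ‖gm‖ ≤ G) (hN : NearLim g gp gm) {ε : ℝ}
    (hε : 0 < ε) : ∃ κ : ℝ, 1 ≤ κ ∧ ∀ s : ℝ, 1 ≤ s → ∀ p : PP, nu p ≤ s ^ 2 → p ∉ Bad κ s →
      ‖⟪PB p, T (PB p)⟫_ℂ - cc gp gm p‖ ≤ ε := by
  have hG0 : 0 ≤ G := (norm_nonneg _).trans hgp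
  obtain ⟨η1, hη1, hpos⟩ := hN.pos (ε / 4) (by positivity)
  obtain ⟨η2, hη2, hneg⟩ := hN.neg (ε / 4) (by positivity)
  obtain ⟨η, hη, hηle1, hηle2⟩ : ∃ η : ℝ, 0 < η ∧ η ≤ η1 ∧ η ≤ η2 :=
    ⟨min η1 η2, lt_min hη1 hη2, min_le_left _ _, min_le_right _ _⟩
  obtain ⟨δ, hδ, hδ', hδ1, hδ2⟩ := choose_delta (L := |(l 0 : ℝ)| + |(l 3 : ℝ)|) hG0
    (by positivity) hη hε
  obtain ⟨C, R0, hC, hout⟩ := out_le (k := 3) (by norm_num) hδ hδ'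
  obtain ⟨C', R0', hC', hout'⟩ := out_le (k := 2) (by norm_num) hδ hδ'
  obtain ⟨C3, hz⟩ := st_zero (EE 2) (by norm_num)
  obtain ⟨κ, hκ1, kR, kR', k3, k4, k5, k6, k7⟩ :=
    choose_kappa (C3 := C3) (R0 := R0) (R0' := R0') hG0 hη hε hC hC'
  refine ⟨κ, hκ1, fun s hs p hp hbad => ?_⟩
  have hκ0 : 0 < κ := by linarith
  have hs0 : 0 < s := by linarith
  have ev1 := ev_nonneg' p.1
  have ev2 := ev_nonneg' p.2
  have hp' : p.1.ev + p.2.ev ≤ s ^ 2 := hp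
  have e1 : p.1.ev ≤ s ^ 2 := by linarith
  have e2 : p.2.ev ≤ s ^ 2 := by linarith
  have hb : κ ^ 3 * s ^ 5 < |(p.1.n : ℝ)| ∧ κ ^ 3 * s ^ 3 < |(p.2.n : ℝ)| := by
    unfold Bad at hbad
    simp only [Set.mem_ofPred_eq, not_and, not_or, not_le] at hbad
    exact hbad hp
  obtain ⟨hb1, hb2⟩ := hb
  have hN5 : κ * s ^ 5 ≤ |(p.1.n : ℝ)| := by
    have h1 : κ ≤ κ ^ 3 := le_self_pow₀ hκ1 (by norm_num)
    have h2 : κ * s ^ 5 ≤ κ ^ 3 * s ^ 5 := mul_le_mul_of_nonneg_right h1 (by positivity)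
    linarith
  have hN1 : κ * s ≤ |(p.1.n : ℝ)| := by
    have h1 : s ≤ s ^ 5 := le_self_pow₀ hs (by norm_num)
    have h2 : κ * s ≤ κ * s ^ 5 := mul_le_mul_of_nonneg_left h1 hκ0.le
    linarith
  have hN0 : 0 < |(p.1.n : ℝ)| := lt_of_lt_of_le (by positivity) hN1
  have hn0 : p.1.n ≠ 0 := by
    intro h
    rw [h] at hN0
    simp at hN0
  -- localisation
  have o1 : ∫ x in δ..(1 - δ), ‖lift p.1.fn x‖ ^ 2 ≤ C / κ ^ 2 := by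
    refine hout κ s hκ1 kR hs p.1 e1 ?_
    have h1 : s ^ 3 ≤ s ^ 5 := pow_le_pow_right₀ hs (by norm_num)
    have h2 : κ ^ 3 * s ^ 3 ≤ κ ^ 3 * s ^ 5 := mul_le_mul_of_nonneg_left h1 (by positivity)
    linarith
  have o2 : ∫ x in δ..(1 - δ), ‖lift p.2.fn x‖ ^ 2 ≤ C' / κ ^ 2 :=
    hout' κ s hκ1 kR' hs p.2 e2 hb2.le
  -- the other frequencies
  obtain ⟨z1, z2⟩ := hz s hs p.2 e2
  have z3 : ∀ y : ℝ, y ≤ C3 * s ^ (2 * 2 + 1) → y ≤ η * |(p.1.n : ℝ)| := by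
    intro y hy
    have h5 : 0 ≤ s ^ 5 := by positivity
    calc y ≤ C3 * s ^ (2 * 2 + 1) := hy
      _ ≤ |C3| * s ^ 5 := mul_le_mul_of_nonneg_right (le_abs_self C3) h5
      _ ≤ (η * κ) * s ^ 5 := mul_le_mul_of_nonneg_right k3 h5
      _ = η * (κ * s ^ 5) := by ring
      _ ≤ η * |(p.1.n : ℝ)| := mul_le_mul_of_nonneg_left hN5 hη.le
  have z1' := z3 _ z1
  have z2' := z3 _ z2
  have z4 : |(p.1.m : ℝ)| ≤ η * |(p.1.n : ℝ)| :=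
    m_small hκ0 hη hs0 hδ hδ' e1 hN1 o1 hδ2 k5 k7
  have key := matrix_close hT hl hG hε hη hκ0 hs0 hδ hδ' p hp hn0 hN1 o1 o2 k4 hδ1 k6
  have hall : ∀ k : Fin 6 → ℤ, k 1 = p.1.m → k 2 = p.1.n → k 4 = p.2.m → k 5 = p.2.n →
      |(k 0 : ℝ)| ≤ η * |(p.1.n : ℝ)| → |(k 3 : ℝ)| ≤ η * |(p.1.n : ℝ)| →
      ∀ i, i ≠ 2 → |(k i : ℝ)| ≤ η * |(k 2 : ℝ)| := by
    intro k q1 q2 q4 q5 q0 q3 i hi
    rw [q2]
    fin_cases i
    · exact q0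
    · show |(k 1 : ℝ)| ≤ _
      rw [q1]; exact z4
    · exact absurd rfl hi
    · exact q3
    · show |(k 4 : ℝ)| ≤ _
      rw [q4]; exact z2'
    · show |(k 5 : ℝ)| ≤ _
      rw [q5]; exact z1'
  have hle : ∀ {y z η' : ℝ}, η ≤ η' → 0 ≤ z → y ≤ η * z → y ≤ η' * z := by
    intro y z η' h1 h2 h3
    exact h3.trans (mul_le_mul_of_nonneg_right h1 h2)
  rcases lt_or_gt_of_ne hn0 with hlt | hgt
  · have hc : cc gp gm p = gm := by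
      unfold cc
      rw [if_neg (by omega), if_pos hlt]
    rw [hc]
    refine key gm hgm fun k q1 q2 q4 q5 q0 q3 => hneg k (by rw [q2]; exact hlt) fun i hi => ?_
    exact hle hηle2 (abs_nonneg _) (hall k q1 q2 q4 q5 q0 q3 i hi)
  · have hc : cc gp gm p = gp := by
      unfold cc
      rw [if_pos hgt]
    rw [hc]
    refine key gp hgp fun k q1 q2 q4 q5 q0 q3 => hpos k (by rw [q2]; exact hgt) fun i hi => ?_
    exact hle hηle1 (abs_nonneg _) (hall k q1 q2 q4 q5 q0 q3 i hi)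

end MP_d22ea4_an
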