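import Pool.Agent.Lib_MP_d22ea4_an.Asm3

open MeasureTheory Filter Topology Complex
open scoped ContDiff ComplexConjugate InnerProductSpace

noncomputable section

namespace MP_d22ea4_an

attribute [local instance] instMeasureSpaceUnitAddCircle

/-! ### the measure `W0` -/

/-- set the coordinates `0` and `3` to zero -/
def proj (y : Torus 6) : Torus 6 := fun i => if i = 0 ∨ i = 3 then 0 else y i

/-- the covector direction `dx_2` -/
def ePlus : Metric.sphere (0 : EuclideanSpace ℝ (Fin 6)) 1 :=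
  ⟨EuclideanSpace.single 2 1, by simp⟩

/-- the covector direction `-dx_2` -/
def eMinus : Metric.sphere (0 : EuclideanSpace ℝ (Fin 6)) 1 :=
  ⟨EuclideanSpace.single 2 (-1), by simp⟩

/-- one half of the sum over the two signs of the Haar measure of the torus `x_0 = x_3 = 0`, placed
at the covector direction `± dx_2` -/
def W0 : Measure (CoS 6) :=
  (1 / 2 : ENNReal) • (haarT 6).map (fun y => ((proj y, ePlus) : CoS 6)) +
    (1 / 2 : ENNReal) • (haarT 6).map (fun y => ((proj y, eMinus) : CoS 6))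

theorem continuous_proj : Continuous proj := by
  apply continuous_pi
  intro i
  unfold proj
  by_cases h : i = 0 ∨ i = 3
  · simp only [if_pos h]; exact continuous_const
  · simp only [if_neg h]; exact continuous_apply i

theorem measurable_emb (e : Metric.sphere (0 : EuclideanSpace ℝ (Fin 6)) 1) :
    Measurable (fun y => ((proj y, e) : CoS 6)) :=
  continuous_proj.measurable.prodMk measurable_const

instance prob_W0 : IsProbabilityMeasure W0 := by
  constructor
  unfold W0
  rw [Measure.add_apply, Measure.smul_apply, Measure.smul_apply,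
    Measure.map_apply (measurable_emb _) MeasurableSet.univ,
    Measure.map_apply (measurable_emb _) MeasurableSet.univ, Set.preimage_univ, Set.preimage_univ,
    measure_univ]
  simp only [smul_eq_mul, mul_one]
  exact ENNReal.add_halves 1

theorem integral_W0 {F : CoS 6 → ℂ} (hF : Continuous F) {C : ℝ} (hC : ∀ p, ‖F p‖ ≤ C) :
    ∫ p, F p ∂W0 = (1 / 2 : ℂ) * (∫ y, F (proj y, ePlus) ∂(haarT 6)) +
      (1 / 2 : ℂ) * (∫ y, F (proj y, eMinus) ∂(haarT 6)) := by
  have hm : Measurable F := hF.measurable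
  have hint : ∀ (μ : Measure (CoS 6)) [IsFiniteMeasure μ], Integrable F μ := fun μ _ =>
    Integrable.of_bound hm.aestronglyMeasurable C (Eventually.of_forall hC)
  have f1 : IsProbabilityMeasure ((haarT 6).map (fun y => ((proj y, ePlus) : CoS 6))) :=
    Measure.isProbabilityMeasure_map (measurable_emb _).aemeasurable
  have f2 : IsProbabilityMeasure ((haarT 6).map (fun y => ((proj y, eMinus) : CoS 6))) :=
    Measure.isProbabilityMeasure_map (measurable_emb _).aemeasurable
  have htop : (1 / 2 : ENNReal) ≠ ⊤ := by simp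
  unfold W0
  rw [integral_add_measure ((hint _).smul_measure htop) ((hint _).smul_measure htop),
    integral_smul_measure, integral_smul_measure,
    integral_map (measurable_emb _).aemeasurable hm.aestronglyMeasurable,
    integral_map (measurable_emb _).aemeasurable hm.aestronglyMeasurable]
  have : (1 / 2 : ENNReal).toReal = 1 / 2 := by simp
  rw [this]
  simp only [Complex.real_smul]
  push_cast
  ring

theorem integral_expo (l : Fin 6 → ℤ) : ∫ y, expo l y ∂(haarT 6) = if l = 0 then 1 else 0 := by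
  have h1 := (orthonormal_iff_ite.1 (UnitAddTorus.orthonormal_mFourier (d := Fin 6))) 0 l
  have h2 : ⟪cls (expo (0 : Fin 6 → ℤ)), cls (expo l)⟫_ℂ = ∫ y, expo l y ∂(haarT 6) := by
    rw [ContinuousMap.inner_toLp]
    refine integral_congr_ae (Eventually.of_forall fun y => ?_)
    have h3 : (expo (0 : Fin 6 → ℤ)) y = 1 := by
      rw [show expo (0 : Fin 6 → ℤ) = 1 from UnitAddTorus.mFourier_zero]; rfl
    show expo l y * conj (expo (0 : Fin 6 → ℤ) y) = expo l y
    rw [h3]
    simp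
  rw [← h2]
  refine Eq.trans h1 ?_
  by_cases h : l = 0
  · rw [if_pos h, if_pos h.symm]
  · rw [if_neg h, if_neg fun h' => h h'.symm]

/-- the indicator of the frequencies which survive -/
def dl (l : Fin 6 → ℤ) : ℂ := if l 1 = 0 ∧ l 2 = 0 ∧ l 4 = 0 ∧ l 5 = 0 then 1 else 0

theorem expo_proj (l : Fin 6 → ℤ) (y : Torus 6) :
    expo l (proj y) = expo (fun i => if i = 0 ∨ i = 3 then 0 else l i) y := by
  show ∏ i, fourier (l i) (proj y i) = ∏ i, fourier (if i = 0 ∨ i = 3 then 0 else l i) (y i)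
  refine Finset.prod_congr rfl fun i _ => ?_
  unfold proj
  by_cases h : i = 0 ∨ i = 3
  · rw [if_pos h, if_pos h, fourier_eval_zero, fourier_zero]
  · rw [if_neg h, if_neg h]

theorem integral_expo_proj (l : Fin 6 → ℤ) : ∫ y, expo l (proj y) ∂(haarT 6) = dl l := by
  simp_rw [expo_proj]
  rw [integral_expo]
  unfold dl
  congr 1
  apply propext
  constructor
  · intro h
    have := fun i => congrFun h i
    exact ⟨by simpa using this 1, by simpa using this 2, by simpa using this 4,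
      by simpa using this 5⟩
  · rintro ⟨h1, h2, h4, h5⟩
    funext i
    fin_cases i <;> simp_all

/-! ### the expansion of a symbol -/

/-- the data provided by `symbol_series` -/
structure Ser (a : Torus 6 → (Fin 6 → ℝ) → ℂ) (c : (Fin 6 → ℤ) → ℝ)
    (ah : (Fin 6 → ℤ) → (Fin 6 → ℝ) → ℂ) : Prop where
  summ : Summable c
  bound : ∀ l ξ, ξ ≠ 0 → ‖ah l ξ‖ ≤ c l
  cont : ∀ l, ContinuousOn (ah l) {0}ᶜ
  homog : ∀ l ξ, ∀ t : ℝ, 0 < t → ah l (t • ξ) = ah l ξ
  sum : ∀ y ξ, ξ ≠ 0 → HasSum (fun l => ah l ξ * expo l y) (a y ξ)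

/-- the vector `e_2` -/
def ep : Fin 6 → ℝ := Pi.single 2 1

/-- the vector `-e_2` -/
def em : Fin 6 → ℝ := Pi.single 2 (-1)

theorem ep_ne : ep ≠ 0 := by
  intro h
  have := congrFun h 2
  simp [ep] at this

theorem em_ne : em ≠ 0 := by
  intro h
  have := congrFun h 2
  simp [em] at this

theorem ePlus_coe : (fun i => (ePlus : EuclideanSpace ℝ (Fin 6)) i) = ep := by
  funext i
  simp [ePlus, ep, Pi.single_apply]

theorem eMinus_coe : (fun i => (eMinus : EuclideanSpace ℝ (Fin 6)) i) = em := by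
  funext i
  simp [eMinus, em, Pi.single_apply]

theorem sphere_ne (p : CoS 6) : (fun i => (p.2 : EuclideanSpace ℝ (Fin 6)) i) ≠ 0 := by
  intro h
  have h1 : ‖(p.2 : EuclideanSpace ℝ (Fin 6))‖ = 1 := by simpa using p.2.2
  have h2 : (p.2 : EuclideanSpace ℝ (Fin 6)) = 0 := by
    ext i
    exact congrFun h i
  rw [h2, norm_zero] at h1
  exact zero_ne_one h1

variable {a : Torus 6 → (Fin 6 → ℝ) → ℂ} {c : (Fin 6 → ℤ) → ℝ}
  {ah : (Fin 6 → ℤ) → (Fin 6 → ℝ) → ℂ}

theorem expo_norm {d : ℕ} (l : Fin d → ℤ) (y : Torus d) : ‖expo l y‖ ≤ 1 := by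
  have h := (expo l).norm_coe_le_norm y
  rwa [UnitAddTorus.mFourier_norm] at h

theorem Ser.term_le (h : Ser a c ah) (l : Fin 6 → ℤ) (y : Torus 6) {ξ : Fin 6 → ℝ} (hξ : ξ ≠ 0) :
    ‖ah l ξ * expo l y‖ ≤ c l := by
  rw [norm_mul]
  have h1 := h.bound l ξ hξ
  have h2 := expo_norm l y
  have h3 := norm_nonneg (ah l ξ)
  nlinarith [norm_nonneg (expo l y)]

theorem Ser.continuous (h : Ser a c ah) :
    Continuous fun p : CoS 6 => a p.1 (fun i => (p.2 : EuclideanSpace ℝ (Fin 6)) i) := by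
  have e1 : (fun p : CoS 6 => a p.1 (fun i => (p.2 : EuclideanSpace ℝ (Fin 6)) i)) =
      fun p : CoS 6 => ∑' l, ah l (fun i => (p.2 : EuclideanSpace ℝ (Fin 6)) i) * expo l p.1 := by
    funext p
    exact (h.sum p.1 _ (sphere_ne p)).tsum_eq.symm
  rw [e1]
  refine continuous_tsum (fun l => ?_) h.summ fun l p => h.term_le l p.1 (sphere_ne p)
  refine Continuous.mul ?_ ((expo l).continuous.comp continuous_fst)
  have h2 : Continuous fun p : CoS 6 => (fun i => (p.2 : EuclideanSpace ℝ (Fin 6)) i) := by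
    fun_prop
  exact (h.cont l).comp_continuous h2 fun p => sphere_ne p

theorem Ser.norm_le (h : Ser a c ah) (p : CoS 6) :
    ‖a p.1 (fun i => (p.2 : EuclideanSpace ℝ (Fin 6)) i)‖ ≤ ∑' l, c l := by
  rw [← (h.sum p.1 _ (sphere_ne p)).tsum_eq]
  exact tsum_of_norm_bounded h.summ.hasSum fun l => h.term_le l p.1 (sphere_ne p)

theorem Ser.hasSum_proj (h : Ser a c ah) {ξ : Fin 6 → ℝ} (hξ : ξ ≠ 0) :
    HasSum (fun l => ah l ξ * dl l) (∫ y, a (proj y) ξ ∂(haarT 6)) := by
  have h1 : ∀ y, a (proj y) ξ = ∑' l, ah l ξ * expo l (proj y) := fun y =>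
    (h.sum (proj y) ξ hξ).tsum_eq.symm
  simp_rw [h1]
  have h2 : ∀ l, ∫ y, ah l ξ * expo l (proj y) ∂(haarT 6) = ah l ξ * dl l := by
    intro l
    rw [integral_const_mul, integral_expo_proj]
  simp_rw [← h2]
  have hci : ∀ l, Integrable (fun y => ah l ξ * expo l (proj y)) (haarT 6) := by
    intro l
    refine Integrable.of_bound ?_ (c l) (Eventually.of_forall fun y => h.term_le l (proj y) hξ)
    exact (continuous_const.mul ((expo l).continuous.comp continuous_proj)).aestronglyMeasurable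
  apply hasSum_integral_of_summable_integral_norm hci
  refine Summable.of_nonneg_of_le (fun l => integral_nonneg fun y => norm_nonneg _) (fun l => ?_)
    h.summ
  calc ∫ y, ‖ah l ξ * expo l (proj y)‖ ∂(haarT 6) ≤ ∫ _y, c l ∂(haarT 6) :=
        integral_mono (hci l).norm (integrable_const _) fun y => h.term_le l (proj y) hξ
    _ = c l := by simp

theorem Ser.integral (h : Ser a c ah) :
    HasSum (fun l => dl l * ((ah l ep + ah l em) / 2))
      (∫ p, a p.1 (fun i => (p.2 : EuclideanSpace ℝ (Fin 6)) i) ∂W0) := by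
  rw [integral_W0 h.continuous h.norm_le]
  simp only [ePlus_coe, eMinus_coe]
  have h1 := (h.hasSum_proj ep_ne).mul_left (1 / 2)
  have h2 := (h.hasSum_proj em_ne).mul_left (1 / 2)
  refine (h1.add h2).congr_fun ?_
  intro l
  ring

/-- the multiplier -/
def gg (ah : (Fin 6 → ℤ) → (Fin 6 → ℝ) → ℂ) (l k : Fin 6 → ℤ) : ℂ :=
  if k = 0 then 0 else ah l (fun i => ((k i : ℤ) : ℝ))

theorem coe_ne {k : Fin 6 → ℤ} (hk : k ≠ 0) : (fun i => ((k i : ℤ) : ℝ)) ≠ 0 := by
  intro h
  apply hk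
  funext i
  have h2 : ((k i : ℤ) : ℝ) = 0 := congrFun h i
  exact_mod_cast h2

theorem Ser.c_nonneg (h : Ser a c ah) (l : Fin 6 → ℤ) : 0 ≤ c l :=
  (norm_nonneg _).trans (h.bound l ep ep_ne)

theorem Ser.gg_le (h : Ser a c ah) (l k : Fin 6 → ℤ) : ‖gg ah l k‖ ≤ c l := by
  unfold gg
  split_ifs with hk
  · rw [norm_zero]; exact h.c_nonneg l
  · exact h.bound l _ (coe_ne hk)

theorem near_aux (h : Ser a c ah) (l : Fin 6 → ℤ) (σ : ℝ) (hσ : |σ| = 1) {ε : ℝ} (hε : 0 < ε) :
    ∃ η > 0, ∀ k : Fin 6 → ℤ, 0 < σ * (k 2 : ℝ) →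
      (∀ i, i ≠ 2 → |(k i : ℝ)| ≤ η * |(k 2 : ℝ)|) → ‖gg ah l k - ah l (Pi.single 2 σ)‖ ≤ ε := by
  have hne : (Pi.single 2 σ : Fin 6 → ℝ) ≠ 0 := by
    intro h0
    have := congrFun h0 2
    simp only [Pi.single_eq_same, Pi.zero_apply] at this
    rw [this] at hσ
    simp at hσ
  have hc : ContinuousAt (ah l) (Pi.single 2 σ) :=
    (h.cont l).continuousAt (isOpen_compl_singleton.mem_nhds hne)
  obtain ⟨η, hη, hball⟩ := Metric.continuousAt_iff.1 hc ε hε
  refine ⟨η / 2, by positivity, fun k hk hki => ?_⟩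
  have hk2 : (k 2 : ℝ) ≠ 0 := by
    intro h0; rw [h0] at hk; simp at hk
  have hk0 : k ≠ 0 := by
    intro h0; rw [h0] at hk2; simp at hk2
  have hpos : 0 < |(k 2 : ℝ)| := abs_pos.2 hk2
  unfold gg
  rw [if_neg hk0]
  set ξ : Fin 6 → ℝ := |(k 2 : ℝ)|⁻¹ • (fun i => ((k i : ℤ) : ℝ)) with hξ
  have e1 : ah l (fun i => ((k i : ℤ) : ℝ)) = ah l ξ := (h.homog l _ _ (by positivity)).symm
  rw [e1, ← dist_eq_norm]
  apply le_of_lt
  apply hball
  rw [dist_pi_lt_iff hη]
  intro i
  rw [Real.dist_eq]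
  by_cases hi : i = 2
  · subst hi
    have : ξ 2 = σ := by
      show |(k 2 : ℝ)|⁻¹ * (k 2 : ℝ) = σ
      have h2 : (k 2 : ℝ) = σ * |(k 2 : ℝ)| := by
        rcases eq_or_eq_neg_of_abs_eq hσ with h1 | h1
        · rw [h1] at hk ⊢
          rw [abs_of_pos (by linarith)]; ring
        · rw [h1] at hk ⊢
          rw [abs_of_neg (by linarith)]; ring
      nth_rewrite 2 [h2]
      field_simp
    rw [this]
    simp [hη]
  · rw [Pi.single_eq_of_ne hi, sub_zero]
    show |(|(k 2 : ℝ)|⁻¹ * (k i : ℝ))| < η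
    rw [abs_mul, abs_inv, abs_abs, inv_mul_lt_iff₀ hpos]
    have := hki i hi
    nlinarith

theorem Ser.nearLim (h : Ser a c ah) (l : Fin 6 → ℤ) :
    NearLim (gg ah l) (ah l ep) (ah l em) where
  pos := by
    intro ε hε
    obtain ⟨η, hη, h1⟩ := near_aux h l 1 (by simp) hε
    refine ⟨η, hη, fun k hk hki => h1 k ?_ hki⟩
    rw [one_mul]; exact_mod_cast hk
  neg := by
    intro ε hε
    obtain ⟨η, hη, h1⟩ := near_aux h l (-1) (by simp) hε
    refine ⟨η, hη, fun k hk hki => h1 k ?_ hki⟩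
    have : (k 2 : ℝ) < 0 := by exact_mod_cast hk
    linarith

/-! ### the toroidal quantization -/

theorem Ser.exists_op (h : Ser a c ah) : ∃ (T : (Fin 6 → ℤ) → (L2T 6 →L[ℂ] L2T 6))
    (A : L2T 6 →L[ℂ] L2T 6), (∀ l, IsMD l (gg ah l) (T l)) ∧ (∀ l, ‖T l‖ ≤ c l) ∧ HasSum T A := by
  choose T hT hT' using fun l => exists_MD l (gg ah l) (h.gg_le l)
  exact ⟨T, ∑' l, T l, hT, hT', (Summable.of_norm_bounded h.summ hT').hasSum⟩

theorem Ser.op_apply (h : Ser a c ah) {T : (Fin 6 → ℤ) → (L2T 6 →L[ℂ] L2T 6)}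
    {A : L2T 6 →L[ℂ] L2T 6} (hT : ∀ l, IsMD l (gg ah l) (T l)) (hA : HasSum T A)
    {k : Fin 6 → ℤ} (hk : k ≠ 0) {b : C(Torus 6, ℂ)}
    (hb : ∀ y, b y = a y (fun i => ((k i : ℤ) : ℝ)) * expo k y) :
    A (cls (expo k)) = cls b := by
  have h1 : HasSum (fun l => T l (cls (expo k))) (A (cls (expo k))) :=
    hA.mapL (ContinuousLinearMap.apply ℂ (L2T 6) (cls (expo k)))
  have hs : Summable (fun l => ah l (fun i => ((k i : ℤ) : ℝ)) • expo (k + l)) := by
    refine Summable.of_norm_bounded h.summ fun l => ?_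
    rw [norm_smul, UnitAddTorus.mFourier_norm, mul_one]
    exact h.bound l _ (coe_ne hk)
  have hb' : HasSum (fun l => ah l (fun i => ((k i : ℤ) : ℝ)) • expo (k + l)) b := by
    have h2 := hs.hasSum
    have h3 : ∑' l, ah l (fun i => ((k i : ℤ) : ℝ)) • expo (k + l) = b := by
      ext y
      have h4 := (ContinuousMap.evalCLM ℂ y).hasSum h2
      have h5 : HasSum (fun l => ah l (fun i => ((k i : ℤ) : ℝ)) * expo l y * expo k y)
          (a y (fun i => ((k i : ℤ) : ℝ)) * expo k y) := (h.sum y _ (coe_ne hk)).mul_right _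
      rw [← hb] at h5
      refine h4.unique ?_
      refine h5.congr_fun ?_
      intro l
      show ah l _ * expo (k + l) y = _
      rw [UnitAddTorus.mFourier_add]
      ring
    rw [← h3]; exact h2
  have h6 : HasSum (fun l => ah l (fun i => ((k i : ℤ) : ℝ)) • cls (expo (k + l))) (cls b) := by
    have := (ContinuousMap.toLp (E := ℂ) 2 (haarT 6) ℂ).hasSum hb'
    simpa only [map_smul] using this
  refine h1.unique ?_
  refine h6.congr_fun ?_
  intro l
  rw [hT l k]
  unfold gg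
  rw [if_neg hk]

theorem Ser.exists_b (h : Ser a c ah) {k : Fin 6 → ℤ} (hk : k ≠ 0) :
    ∃ b : C(Torus 6, ℂ), ∀ y, b y = a y (fun i => ((k i : ℤ) : ℝ)) * expo k y := by
  have h1 : (fun y => a y (fun i => ((k i : ℤ) : ℝ))) =
      fun y => ∑' l, ah l (fun i => ((k i : ℤ) : ℝ)) * expo l y := by
    funext y
    exact (h.sum y _ (coe_ne hk)).tsum_eq.symm
  have h2 : Continuous (fun y => a y (fun i => ((k i : ℤ) : ℝ))) := by
    rw [h1]
    exact continuous_tsum (fun l => continuous_const.mul (expo l).continuous) h.summ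
      fun l y => h.term_le l y (coe_ne hk)
  exact ⟨⟨fun y => a y (fun i => ((k i : ℤ) : ℝ)) * expo k y, h2.mul (expo k).continuous⟩,
    fun y => rfl⟩

/-- an operator which vanishes on all `e_k`, `k ≠ 0`, is compact -/
theorem compact_of_vanish {R : L2T 6 →L[ℂ] L2T 6}
    (hR : ∀ k : Fin 6 → ℤ, k ≠ 0 → R (cls (expo k)) = 0) : IsCompactOperator R := by
  have e1 : R = (ContinuousLinearMap.toSpanSingleton ℂ (R (cls (expo 0)))).comp
      (innerSL ℂ (cls (expo (0 : Fin 6 → ℤ)))) := by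
    ext1 f
    have h1 := (UnitAddTorus.mFourierBasis (d := Fin 6)).hasSum_repr f
    have h2 := R.hasSum h1
    have h3 : HasSum (fun k => R ((UnitAddTorus.mFourierBasis (d := Fin 6)).repr f k •
        (UnitAddTorus.mFourierBasis (d := Fin 6)) k))
        (R ((UnitAddTorus.mFourierBasis (d := Fin 6)).repr f 0 •
        (UnitAddTorus.mFourierBasis (d := Fin 6)) 0)) := by
      apply hasSum_single
      intro k hk
      have h4 : R ((UnitAddTorus.mFourierBasis (d := Fin 6)) k) = 0 := by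
        rw [UnitAddTorus.coe_mFourierBasis]; exact hR k hk
      rw [map_smul, h4, smul_zero]
    rw [h2.unique h3, map_smul, HilbertBasis.repr_apply_apply, UnitAddTorus.coe_mFourierBasis]
    rfl
  rw [e1]
  have h2 : IsCompactOperator (ContinuousLinearMap.id ℂ ℂ) :=
    (isCompactOperator_id_iff_finiteDimensional (𝕜 := ℂ)).2 inferInstance
  have h3 := (h2.clm_comp (ContinuousLinearMap.toSpanSingleton ℂ (R (cls (expo 0))))).comp_clm
    (innerSL ℂ (cls (expo (0 : Fin 6 → ℤ))))
  exact h3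

end MP_d22ea4_an
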