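import Pool.Agent.Lib_MP_d22ea4_an.Asm4

open MeasureTheory Filter Topology Complex
open scoped ContDiff ComplexConjugate InnerProductSpace

noncomputable section

namespace MP_d22ea4_an

attribute [local instance] instMeasureSpaceUnitAddCircle

/-- the limit of the averages for the toroidal quantization -/
theorem Ser.tendsto_average {a : Torus 6 → (Fin 6 → ℝ) → ℂ} {c : (Fin 6 → ℤ) → ℝ}
    {ah : (Fin 6 → ℤ) → (Fin 6 → ℝ) → ℂ} (h : Ser a c ah)
    {T : (Fin 6 → ℤ) → (L2T 6 →L[ℂ] L2T 6)} {A : L2T 6 →L[ℂ] L2T 6}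
    (hT : ∀ l, IsMD l (gg ah l) (T l)) (hT' : ∀ l, ‖T l‖ ≤ c l) (hA : HasSum T A) :
    Tendsto (average PB nu A) atTop
      (𝓝 (∫ p, a p.1 (fun i => (p.2 : EuclideanSpace ℝ (Fin 6)) i) ∂W0)) := by
  rw [← h.integral.tsum_eq]
  have e1 : average PB nu A = fun t => ∑' l, average PB nu (T l) t := by
    funext t
    exact (hasSum_average hA t).tsum_eq.symm
  rw [e1]
  refine tendsto_tsum_of_dominated_convergence (bound := c) h.summ (fun l => ?_)
    (Eventually.of_forall fun t l => (norm_average_le (T l) t).trans (hT' l))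
  by_cases hl : l 1 = 0 ∧ l 2 = 0 ∧ l 4 = 0 ∧ l 5 = 0
  · unfold dl
    rw [if_pos hl, one_mul]
    exact avg_MD_good (hT l) hl (h.gg_le l) (h.bound l ep ep_ne) (h.bound l em em_ne) (h.nearLim l)
  · unfold dl
    rw [if_neg hl, zero_mul]
    refine avg_MD_zero (hT l) ?_
    by_contra hcon
    push Not at hcon
    exact hl hcon

theorem exists_ser {a : Torus 6 → (Fin 6 → ℝ) → ℂ} (ha : IsSymbol a) :
    ∃ (c : (Fin 6 → ℤ) → ℝ) (ah : (Fin 6 → ℤ) → (Fin 6 → ℝ) → ℂ), Ser a c ah := by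
  obtain ⟨c, ah, h1, h2, h3, h4, h5⟩ := symbol_series ha
  exact ⟨c, ah, ⟨h1, h2, h3, h4, h5⟩⟩

theorem isCompactOperator_zero' : IsCompactOperator (0 : L2T 6 →L[ℂ] L2T 6) :=
  isCompactOperator_zero

theorem exists_quant {a : Torus 6 → (Fin 6 → ℝ) → ℂ} (ha : IsSymbol a) :
    ∃ A : L2T 6 →L[ℂ] L2T 6, IsQuant a A := by
  obtain ⟨c, ah, h⟩ := exists_ser ha
  obtain ⟨T, A, hT, hT', hA⟩ := h.exists_op
  refine ⟨A, 0, isCompactOperator_zero', fun k hk b hb => ?_⟩
  rw [sub_zero]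
  exact h.op_apply hT hA hk hb

/-- the limit for every quantization, along the explicit basis -/
theorem tendsto_average_PB {a : Torus 6 → (Fin 6 → ℝ) → ℂ} (ha : IsSymbol a)
    {A : L2T 6 →L[ℂ] L2T 6} (hA : IsQuant a A) :
    Tendsto (average PB nu A) atTop
      (𝓝 (∫ p, a p.1 (fun i => (p.2 : EuclideanSpace ℝ (Fin 6)) i) ∂W0)) := by
  obtain ⟨c, ah, h⟩ := exists_ser ha
  obtain ⟨T, A0, hT, hT', hA0⟩ := h.exists_op
  obtain ⟨K, hK, hAK⟩ := hA
  have hR : IsCompactOperator (A - K - A0 : L2T 6 →L[ℂ] L2T 6) := by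
    apply compact_of_vanish
    intro k hk
    obtain ⟨b, hb⟩ := h.exists_b hk
    rw [sub_apply, hAK k hk b hb, h.op_apply hT hA0 hk hb, sub_self]
  have e1 : A = A0 + (K + (A - K - A0)) := by abel
  have hcomp : IsCompactOperator (K + (A - K - A0) : L2T 6 →L[ℂ] L2T 6) := hK.add hR
  have h1 := compact_average PB nu nu_finite NN_tendsto hcomp
  have h2 : Tendsto (average PB nu (K + (A - K - A0))) atTop (𝓝 0) := h1
  have h3 := (h.tendsto_average hT hT' hA0).add h2
  rw [add_zero] at h3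
  refine h3.congr fun t => ?_
  rw [← average_add, ← e1]

theorem average_indep {ι : Type} {φ : HilbertBasis ι ℂ (L2T 6)} {μ : ι → ℝ}
    (h : IsEigenbasis X0 φ μ) (t : ℝ) : {i | μ i ≤ t}.Finite ∧
      ∀ A : L2T 6 →L[ℂ] L2T 6, average φ μ A t = average PB nu A t := by
  have h1 := trace_eq φ PB μ nu (fun i p hip => (PB_isEigen p).2 (μ i) (φ i) (h i) hip) nu_finite t
  refine ⟨h1.1, fun A => ?_⟩
  unfold average
  rw [h1.2.1, h1.2.2 A]

theorem isWeyl_W0 : IsWeyl X0 W0 where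
  prob := inferInstance
  basis := ⟨PP, PB, nu, fun p => (PB_isEigen p).1⟩
  quant := fun _ ha => exists_quant ha
  discrete := fun _ _ _ h t => (average_indep h t).1
  limit := by
    intro a ha A hA ι φ μ h
    refine (tendsto_average_PB ha hA).congr fun t => ?_
    exact ((average_indep h t).2 A).symm

/-- a point of `SΣ_6` outside the support -/
def pt : Fin 6 → ℝ := fun i => if i = 3 then 1 / 2 else 0

theorem pt_mem : ((pr pt, ePlus) : CoS 6) ∈ SSigma X0 6 := by
  refine ⟨pt, rfl, fun v hv => ?_⟩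
  have h1 := flag_X0 pt (by simp [pt]) v hv
  have h2 : ∀ i, (ePlus : EuclideanSpace ℝ (Fin 6)) i = ep i := fun i => congrFun ePlus_coe i
  simp only [h2]
  rw [Finset.sum_eq_single 2]
  · simp [ep, h1]
  · intro i _ hi
    simp [ep, Pi.single_eq_of_ne hi]
  · simp

theorem half_ne : ((1 / 2 : ℝ) : UnitAddCircle) ≠ 0 := by
  intro h
  rw [AddCircle.coe_eq_zero_iff] at h
  obtain ⟨n, hn⟩ := h
  rw [zsmul_eq_mul, mul_one] at hn
  have h2 : (2 * n : ℝ) = 1 := by linarith
  have h3 : (2 * n : ℤ) = 1 := by exact_mod_cast h2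
  omega

theorem pt_notMem : ((pr pt, ePlus) : CoS 6) ∉ W0.support := by
  have hopen : IsOpen {p : CoS 6 | p.1 3 ≠ 0} :=
    isOpen_ne.preimage ((continuous_apply 3).comp continuous_fst)
  have hmem : ((pr pt, ePlus) : CoS 6) ∈ {p : CoS 6 | p.1 3 ≠ 0} := by
    show ((pt 3 : ℝ) : UnitAddCircle) ≠ 0
    simp only [pt, if_true]
    exact half_ne
  have hnull : W0 {p : CoS 6 | p.1 3 ≠ 0} = 0 := by
    have h1 : ∀ e, (fun y => ((proj y, e) : CoS 6)) ⁻¹' {p : CoS 6 | p.1 3 ≠ 0} = ∅ := by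
      intro e
      ext y
      simp [proj]
    unfold W0
    rw [Measure.add_apply, Measure.smul_apply, Measure.smul_apply,
      Measure.map_apply (measurable_emb _) hopen.measurableSet,
      Measure.map_apply (measurable_emb _) hopen.measurableSet, h1, h1]
    simp
  rw [Measure.notMem_support_iff_exists]
  exact ⟨_, hopen.mem_nhds hmem, hnull⟩

end MP_d22ea4_an
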