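import Pool.Agent.Lib_MP_d22ea4_an.Asm5

/-!
The two sets: the support of `W0` and `SΣ_6`.
-/

open MeasureTheory Filter Topology Complex
open scoped ContDiff ComplexConjugate InnerProductSpace

noncomputable section

namespace MP_d22ea4_an

attribute [local instance] instMeasureSpaceUnitAddCircle

/-! ### `SΣ_6` -/

theorem mem6_of_bracket {j : ℕ} {c k : Fin 6} {g : ℝ → ℝ} (hj : j ≤ 6) (x : Fin 6 → ℝ)
    (hb : IsBracket X0 j (Gf c k g)) : Pi.single k (g (x c)) ∈ flag X0 6 x :=
  Submodule.subset_span ⟨j, hj, _, hb, rfl⟩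

theorem single_one_of_ne {k : Fin 6} {y : ℝ} (hy : y ≠ 0) {S : Submodule ℝ (Fin 6 → ℝ)}
    (h : (Pi.single k y : Fin 6 → ℝ) ∈ S) : (Pi.single k 1 : Fin 6 → ℝ) ∈ S := by
  have : (Pi.single k 1 : Fin 6 → ℝ) = y⁻¹ • Pi.single k y := by
    rw [← Pi.single_smul, smul_eq_mul, inv_mul_cancel₀ hy]
  rw [this]
  exact Submodule.smul_mem _ _ h

theorem chain6 (c e k : Fin 6) (hc : IsSection X0 (Ef c)) (f : ℝ → ℝ) (r α β γ : ℝ)
    (hf : ∀ x, f x = r + tc α β γ x) (hs : IsSection X0 (fun x => Ef e x + Gf c k f x))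
    (x : Fin 6 → ℝ) (hn : (Pi.single k 1 : Fin 6 → ℝ) ∉ flag X0 6 x) :
    (α * Real.sin (2 * Real.pi * x c) + 2 * β * Real.sin (2 * (2 * Real.pi * x c)) +
      3 * γ * Real.sin (3 * (2 * Real.pi * x c)) = 0) ∧
    (α * Real.cos (2 * Real.pi * x c) + 4 * β * Real.cos (2 * (2 * Real.pi * x c)) +
      9 * γ * Real.cos (3 * (2 * Real.pi * x c)) = 0) ∧
    (α * Real.cos (2 * Real.pi * x c) + 16 * β * Real.cos (2 * (2 * Real.pi * x c)) +
      81 * γ * Real.cos (3 * (2 * Real.pi * x c)) = 0) := by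
  have hf' : f = fun x => r + tc α β γ x := funext hf
  have d1 : ∀ t, HasDerivAt f (ts (-(2 * Real.pi * α)) (-(2 * (2 * Real.pi) * β))
      (-(3 * (2 * Real.pi) * γ)) t) t := by
    intro t
    rw [hf']
    exact (hasDerivAt_tc α β γ t).const_add r
  have b2 : IsBracket X0 (1 + 1) (Gf c k (ts (-(2 * Real.pi * α)) (-(2 * (2 * Real.pi) * β))
      (-(3 * (2 * Real.pi) * γ)))) := by
    rw [← bracket_first c e k d1]
    exact IsBracket.bracket (IsBracket.sec hc) (IsBracket.sec hs)
  have b3 := isBracket_step c k hc (hasDerivAt_ts _ _ _) b2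
  have b4 := isBracket_step c k hc (hasDerivAt_tc _ _ _) b3
  have b5 := isBracket_step c k hc (hasDerivAt_ts _ _ _) b4
  have m2 := mem6_of_bracket (by norm_num) x b2
  have m3 := mem6_of_bracket (by norm_num) x b3
  have m5 := mem6_of_bracket (by norm_num) x b5
  have key : ∀ y : ℝ, (Pi.single k y : Fin 6 → ℝ) ∈ flag X0 6 x → y = 0 := by
    intro y hy
    by_contra hy0
    exact hn (single_one_of_ne hy0 hy)
  have k2 := key _ m2
  have k3 := key _ m3
  have k5 := key _ m5
  unfold tc at k3 k5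
  unfold ts at k2
  have hpi := Real.pi_pos
  refine ⟨?_, ?_, ?_⟩
  · have : (2 * Real.pi) * (α * Real.sin (2 * Real.pi * x c) +
        2 * β * Real.sin (2 * (2 * Real.pi * x c)) +
        3 * γ * Real.sin (3 * (2 * Real.pi * x c))) = 0 := by linear_combination -k2
    exact (mul_eq_zero.1 this).resolve_left (by positivity)
  · have : (2 * Real.pi) ^ 2 * (α * Real.cos (2 * Real.pi * x c) +
        4 * β * Real.cos (2 * (2 * Real.pi * x c)) +
        9 * γ * Real.cos (3 * (2 * Real.pi * x c))) = 0 := by linear_combination -k3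
    exact (mul_eq_zero.1 this).resolve_left (by positivity)
  · have : (2 * Real.pi) ^ 4 * (α * Real.cos (2 * Real.pi * x c) +
        16 * β * Real.cos (2 * (2 * Real.pi * x c)) +
        81 * γ * Real.cos (3 * (2 * Real.pi * x c))) = 0 := by linear_combination k5
    exact (mul_eq_zero.1 this).resolve_left (by positivity)

theorem single_five_mem6 (x : Fin 6 → ℝ) : (Pi.single 5 1 : Fin 6 → ℝ) ∈ flag X0 6 x := by
  by_contra hn
  obtain ⟨-, h3, h5⟩ := chain6 3 4 5 (by rw [Ef_three]; exact isSection_X0 2) (fk 2) (3 / 2) (-2)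
    (1 / 2) 0 fk_two (by rw [← X0_three']; exact isSection_X0 3) x hn
  have hC2 := Real.cos_two_mul (2 * Real.pi * x 3)
  set C1 := Real.cos (2 * Real.pi * x 3)
  set C2 := Real.cos (2 * (2 * Real.pi * x 3))
  have e1 : C2 = 0 := by linarith
  have e2 : C1 = 0 := by linarith
  rw [e1, e2] at hC2
  norm_num at hC2

theorem single_two_mem6 (x : Fin 6 → ℝ) (hx : ∀ n : ℤ, x 0 ≠ n) :
    (Pi.single 2 1 : Fin 6 → ℝ) ∈ flag X0 6 x := by
  by_contra hn
  obtain ⟨h2, h3, h5⟩ := chain6 0 1 2 (by rw [Ef_zero]; exact isSection_X0 0) (fk 3) (5 / 2)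
    (-15 / 4) (3 / 2) (-1 / 4) fk_three (by rw [← X0_one']; exact isSection_X0 1) x hn
  rw [Real.sin_three_mul, Real.sin_two_mul] at h2
  rw [Real.cos_three_mul, Real.cos_two_mul] at h3 h5
  have hsq := Real.sin_sq_add_cos_sq (2 * Real.pi * x 0)
  have hc1 : Real.cos (2 * Real.pi * x 0) ≠ 1 := by
    intro h
    rw [Real.cos_eq_one_iff] at h
    obtain ⟨n, hn⟩ := h
    apply hx n
    have hpi : (2 * Real.pi) ≠ 0 := by positivity
    apply mul_left_cancel₀ hpi
    linarith
  set C := Real.cos (2 * Real.pi * x 0)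
  set S := Real.sin (2 * Real.pi * x 0)
  have hS : S * (1 - C) ^ 2 = 0 := by
    have e : S ^ 3 = S * (1 - C ^ 2) := by
      rw [← hsq]
      ring
    have h2' : 4 * S ^ 3 * (3 / 4) + S * (6 * C) + S * (-15 / 4 - 9 / 4) = 0 := by
      linear_combination h2
    rw [e] at h2'
    linear_combination (-1 / 3) * h2'
  have h1C : (1 - C) ^ 2 ≠ 0 := pow_ne_zero _ (sub_ne_zero.2 (Ne.symm hc1))
  have hS0 : S = 0 := (mul_eq_zero.1 hS).resolve_right h1C
  have hC : C = -1 := by
    rw [hS0] at hsq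
    have : (C - 1) * (C + 1) = 0 := by linear_combination hsq
    rcases mul_eq_zero.1 this with h | h
    · exact absurd (by linarith) hc1
    · linarith
  rw [hC] at h3
  norm_num at h3

theorem X0_mem6 (i : Fin 4) (x : Fin 6 → ℝ) : X0 i x ∈ flag X0 6 x :=
  Submodule.subset_span ⟨1, by norm_num, _, IsBracket.sec (isSection_X0 i), rfl⟩

theorem eq_two_of {ξ : EuclideanSpace ℝ (Fin 6)} (h : ∀ i, i ≠ 2 → ξ i = 0) (hn : ‖ξ‖ = 1) :
    ξ 2 = 1 ∨ ξ 2 = -1 := by
  have h1 : ‖ξ‖ ^ 2 = ∑ i, ‖ξ i‖ ^ 2 := EuclideanSpace.norm_sq_eq ξ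
  rw [Finset.sum_eq_single 2 (fun i _ hi => by rw [h i hi]; simp) (by simp), hn] at h1
  rw [Real.norm_eq_abs, sq_abs] at h1
  have : (ξ 2 - 1) * (ξ 2 + 1) = 0 := by linear_combination -h1
  rcases mul_eq_zero.1 this with h | h
  · left; linarith
  · right; linarith

theorem SSigma_X0 : SSigma X0 6 = {p : CoS 6 | p.1 0 = 0 ∧
    ∀ i, i ≠ 2 → (p.2 : EuclideanSpace ℝ (Fin 6)) i = 0} := by
  ext p
  constructor
  · rintro ⟨x, hx, hv⟩
    have h0 : (p.2 : EuclideanSpace ℝ (Fin 6)) 0 = 0 := by
      have := hv _ (X0_mem6 0 x)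
      simpa [X0, Fin.sum_univ_succ] using this
    have h3 : (p.2 : EuclideanSpace ℝ (Fin 6)) 3 = 0 := by
      have := hv _ (X0_mem6 2 x)
      rw [← Ef_three] at this
      simpa [Ef, Pi.single_apply] using this
    have h5 : (p.2 : EuclideanSpace ℝ (Fin 6)) 5 = 0 := by
      have := hv _ (single_five_mem6 x)
      simpa [Pi.single_apply] using this
    have h4 : (p.2 : EuclideanSpace ℝ (Fin 6)) 4 = 0 := by
      have := hv _ (X0_mem6 3 x)
      rw [X0_three'] at this
      simpa [Ef, Gf, Pi.single_apply, mul_add, Finset.sum_add_distrib, h5] using this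
    have hx0 : ∃ n : ℤ, x 0 = n := by
      by_contra hne
      push_neg at hne
      have h2 : (p.2 : EuclideanSpace ℝ (Fin 6)) 2 = 0 := by
        have := hv _ (single_two_mem6 x hne)
        simpa [Pi.single_apply] using this
      have h1 : (p.2 : EuclideanSpace ℝ (Fin 6)) 1 = 0 := by
        have := hv _ (X0_mem6 1 x)
        rw [X0_one'] at this
        simpa [Ef, Gf, Pi.single_apply, mul_add, Finset.sum_add_distrib, h2] using this
      have hn : ‖(p.2 : EuclideanSpace ℝ (Fin 6))‖ = 1 := by simpa using p.2.2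
      have hz : (p.2 : EuclideanSpace ℝ (Fin 6)) = 0 := by
        ext i
        fin_cases i <;> simp_all
      rw [hz] at hn
      simp at hn
    obtain ⟨n, hn⟩ := hx0
    have hf : fk 3 (x 0) = 0 := by
      have hc : Real.cos (2 * Real.pi * x 0) = 1 := by
        rw [Real.cos_eq_one_iff]
        exact ⟨n, by rw [hn]; ring⟩
      unfold fk
      rw [hc]
      norm_num
    have h1 : (p.2 : EuclideanSpace ℝ (Fin 6)) 1 = 0 := by
      have := hv _ (X0_mem6 1 x)
      rw [X0_one'] at this
      simpa [Ef, Gf, Pi.single_apply, mul_add, Finset.sum_add_distrib, hf] using this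
    refine ⟨?_, ?_⟩
    · rw [← hx]
      show ((x 0 : ℝ) : UnitAddCircle) = 0
      rw [hn, AddCircle.coe_eq_zero_iff]
      exact ⟨n, by simp⟩
    · intro i hi
      fin_cases i
      · exact h0
      · exact h1
      · exact absurd rfl hi
      · exact h3
      · exact h4
      · exact h5
  · rintro ⟨h0, hξ⟩
    have hsurj : ∀ i, ∃ t : ℝ, ((t : ℝ) : UnitAddCircle) = p.1 i := fun i =>
      QuotientAddGroup.mk_surjective (p.1 i)
    choose y hy using hsurj
    refine ⟨fun i => if i = 0 then 0 else y i, ?_, ?_⟩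
    · funext i
      by_cases hi : i = 0
      · subst hi
        simp [pr, h0]
      · simp [pr, hi, hy]
    · intro v hv
      have hv2 := flag_X0 _ (by simp) v hv
      refine Finset.sum_eq_zero fun i _ => ?_
      by_cases hi : i = 2
      · rw [hi, hv2, mul_zero]
      · rw [hξ i hi, zero_mul]

/-! ### the support of `W0` -/

theorem coe_ePlus (i : Fin 6) : (ePlus : EuclideanSpace ℝ (Fin 6)) i = if i = 2 then 1 else 0 := by
  simp [ePlus, Pi.single_apply]

theorem coe_eMinus (i : Fin 6) :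
    (eMinus : EuclideanSpace ℝ (Fin 6)) i = if i = 2 then -1 else 0 := by
  by_cases h : i = 2 <;> simp [eMinus, Pi.single_apply, h]

theorem null_open {U : Set (CoS 6)} (hU : IsOpen U) (h1 : ∀ y, (proj y, ePlus) ∉ U)
    (h2 : ∀ y, (proj y, eMinus) ∉ U) : ∀ p ∈ U, p ∉ W0.support := by
  intro p hp
  rw [Measure.notMem_support_iff_exists]
  refine ⟨U, hU.mem_nhds hp, ?_⟩
  have e1 : (fun y => ((proj y, ePlus) : CoS 6)) ⁻¹' U = ∅ := by
    ext y; simpa using h1 y
  have e2 : (fun y => ((proj y, eMinus) : CoS 6)) ⁻¹' U = ∅ := by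
    ext y; simpa using h2 y
  unfold W0
  rw [Measure.add_apply, Measure.smul_apply, Measure.smul_apply,
    Measure.map_apply (measurable_emb _) hU.measurableSet,
    Measure.map_apply (measurable_emb _) hU.measurableSet, e1, e2]
  simp

theorem isOpenPos_haarT (d : ℕ) : (haarT d).IsOpenPosMeasure :=
  inferInstanceAs (Measure.IsOpenPosMeasure (Measure.pi fun _ : Fin d => AddCircle.haarAddCircle))

theorem pos_open {U : Set (CoS 6)} (hU : IsOpen U) {y : Torus 6} {e}
    (he : e = ePlus ∨ e = eMinus) (hy : (proj y, e) ∈ U) : 0 < W0 U := by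
  have := isOpenPos_haarT 6
  have hopen : IsOpen ((fun y => ((proj y, e) : CoS 6)) ⁻¹' U) :=
    hU.preimage (continuous_proj.prodMk continuous_const)
  have hpos : 0 < haarT 6 ((fun y => ((proj y, e) : CoS 6)) ⁻¹' U) :=
    hopen.measure_pos _ ⟨y, hy⟩
  have hhalf : (0 : ENNReal) < 1 / 2 := by simp
  unfold W0
  rw [Measure.add_apply, Measure.smul_apply, Measure.smul_apply,
    Measure.map_apply (measurable_emb _) hU.measurableSet,
    Measure.map_apply (measurable_emb _) hU.measurableSet]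
  rcases he with rfl | rfl
  · exact lt_of_lt_of_le (ENNReal.mul_pos hhalf.ne' hpos.ne') le_self_add
  · exact lt_of_lt_of_le (ENNReal.mul_pos hhalf.ne' hpos.ne') le_add_self

theorem support_W0 : W0.support = {p : CoS 6 | p.1 0 = 0 ∧ p.1 3 = 0 ∧
    ∀ i, i ≠ 2 → (p.2 : EuclideanSpace ℝ (Fin 6)) i = 0} := by
  ext p
  constructor
  · intro hp
    refine ⟨?_, ?_, ?_⟩
    · by_contra h
      refine null_open (U := {p : CoS 6 | p.1 0 ≠ 0})
        (isOpen_ne.preimage ((continuous_apply 0).comp continuous_fst)) ?_ ?_ p h hp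
      · intro y hy; exact hy (by simp [proj])
      · intro y hy; exact hy (by simp [proj])
    · by_contra h
      refine null_open (U := {p : CoS 6 | p.1 3 ≠ 0})
        (isOpen_ne.preimage ((continuous_apply 3).comp continuous_fst)) ?_ ?_ p h hp
      · intro y hy; exact hy (by simp [proj])
      · intro y hy; exact hy (by simp [proj])
    · intro i hi
      by_contra h
      refine null_open (U := {p : CoS 6 | (p.2 : EuclideanSpace ℝ (Fin 6)) i ≠ 0})
        (isOpen_ne.preimage ?_) ?_ ?_ p h hp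
      · have : Continuous fun q : CoS 6 => (q.2 : EuclideanSpace ℝ (Fin 6)) :=
          continuous_subtype_val.comp continuous_snd
        exact (EuclideanSpace.proj i).continuous.comp this
      · intro y hy; exact hy (by simp [coe_ePlus, hi])
      · intro y hy; exact hy (by simp [coe_eMinus, hi])
  · rintro ⟨h0, h3, hξ⟩
    have hn : ‖(p.2 : EuclideanSpace ℝ (Fin 6))‖ = 1 := by simpa using p.2.2
    have he : p.2 = ePlus ∨ p.2 = eMinus := by
      rcases eq_two_of hξ hn with h | h
      · left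
        apply Subtype.ext
        ext i
        rw [coe_ePlus]
        by_cases hi : i = 2
        · rw [if_pos hi, hi, h]
        · rw [if_neg hi, hξ i hi]
      · right
        apply Subtype.ext
        ext i
        rw [coe_eMinus]
        by_cases hi : i = 2
        · rw [if_pos hi, hi, h]
        · rw [if_neg hi, hξ i hi]
    have hproj : proj p.1 = p.1 := by
      funext i
      unfold proj
      by_cases hi : i = 0 ∨ i = 3
      · rw [if_pos hi]
        rcases hi with rfl | rfl
        · exact h0.symm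
        · exact h3.symm
      · rw [if_neg hi]
    by_contra hns
    rw [Measure.notMem_support_iff_exists] at hns
    obtain ⟨U, hU, hU0⟩ := hns
    obtain ⟨V, hVU, hV, hpV⟩ := mem_nhds_iff.1 hU
    have : 0 < W0 V := pos_open (y := p.1) hV he (by rw [hproj]; exact hpV)
    exact absurd (measure_mono_null hVU hU0) this.ne'

theorem support_ne : W0.support ≠ SSigma X0 6 := fun h => pt_notMem (h ▸ pt_mem)

end MP_d22ea4_an
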