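import Pool.Agent.Lib_MP_d22ea4_an.Defs

/-!
Working definitions for the proof: eigenbases of one-dimensional periodic Schrödinger operators,
the states of one factor, product functions on `T^6`.
-/

open MeasureTheory Filter Topology Complex
open scoped ContDiff ComplexConjugate InnerProductSpace

noncomputable section

namespace MP_d22ea4_an

attribute [local instance] instMeasureSpaceUnitAddCircle

/-! ### the circle -/

/-- `L²` of the circle `ℝ/ℤ` -/
abbrev L2C : Type := Lp ℂ 2 (AddCircle.haarAddCircle : Measure UnitAddCircle)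

/-- class of a continuous function in `L²` of the circle -/
abbrev clc (f : C(UnitAddCircle, ℂ)) : L2C :=
  ContinuousMap.toLp (E := ℂ) 2 AddCircle.haarAddCircle ℂ f

/-- the lift to `ℝ` of a function on the circle -/
abbrev lift (f : C(UnitAddCircle, ℂ)) : ℝ → ℂ := fun x => f ((x : ℝ) : UnitAddCircle)

/-- an orthonormal basis of `L²(ℝ/ℤ)` of smooth eigenfunctions of `-u'' + V u` -/
structure EB (V : ℝ → ℝ) where
  ι : Type
  fn : ι → C(UnitAddCircle, ℂ)
  ev : ι → ℝ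
  smooth : ∀ i, ContDiff ℝ ∞ (lift (fn i))
  eq : ∀ i (x : ℝ), - deriv (deriv (lift (fn i))) x + (V x : ℂ) * lift (fn i) x =
    (ev i : ℂ) * lift (fn i) x
  orth : Orthonormal ℂ (fun i => clc (fn i))
  total : ∀ g : L2C, (∀ i, ⟪clc (fn i), g⟫_ℂ = 0) → g = 0

/-- admissible potentials -/
structure Good (V : ℝ → ℝ) : Prop where
  smooth : ContDiff ℝ ∞ V
  per : Function.Periodic V 1
  nonneg : ∀ x, 0 ≤ V x

/-- `f_k(x) = (1 - cos 2πx)^k` -/
def fk (k : ℕ) (x : ℝ) : ℝ := (1 - Real.cos (2 * Real.pi * x)) ^ k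

/-- `a(x) = 2π (m + n f_k(x))` -/
def ak (k : ℕ) (m n : ℤ) (x : ℝ) : ℝ := 2 * Real.pi * ((m : ℝ) + (n : ℝ) * fk k x)

/-- `V = a²` -/
def Vk (k : ℕ) (m n : ℤ) (x : ℝ) : ℝ := (ak k m n x) ^ 2

theorem contDiff_fk (k : ℕ) : ContDiff ℝ ∞ (fk k) := by
  unfold fk
  fun_prop

theorem contDiff_ak (k : ℕ) (m n : ℤ) : ContDiff ℝ ∞ (ak k m n) :=
  contDiff_const.mul (contDiff_const.add (contDiff_const.mul (contDiff_fk k)))

theorem fk_periodic (k : ℕ) : Function.Periodic (fk k) 1 := by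
  intro x
  unfold fk
  rw [show 2 * Real.pi * (x + 1) = 2 * Real.pi * x + 2 * Real.pi by ring, Real.cos_add_two_pi]

theorem ak_periodic (k : ℕ) (m n : ℤ) : Function.Periodic (ak k m n) 1 := by
  intro x
  unfold ak
  rw [fk_periodic k x]

theorem good_Vk (k : ℕ) (m n : ℤ) : Good (Vk k m n) where
  smooth := (contDiff_ak k m n).pow 2
  per := fun x => by unfold Vk; rw [ak_periodic k m n x]
  nonneg := fun x => sq_nonneg _

theorem Vk_neg (k : ℕ) (m n : ℤ) : Vk k (-m) (-n) = Vk k m n := by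
  funext x
  unfold Vk ak
  push_cast
  ring

/-- the states of one factor: a pair `p = (m, n)` of frequencies and an eigenfunction of the
operator `-u'' + (2π (m + n f_k))² u` -/
abbrev St {k : ℕ} (E : ∀ p : ℤ × ℤ, EB (Vk k p.1 p.2)) : Type := Σ p : ℤ × ℤ, (E p).ι

namespace St

variable {k : ℕ} {E : ∀ p : ℤ × ℤ, EB (Vk k p.1 p.2)}

/-- the frequency `m` -/
def m (α : St E) : ℤ := α.1.1

/-- the frequency `n` -/
def n (α : St E) : ℤ := α.1.2

/-- the eigenvalue -/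
def ev (α : St E) : ℝ := (E α.1).ev α.2

/-- the eigenfunction -/
def fn (α : St E) : C(UnitAddCircle, ℂ) := (E α.1).fn α.2

end St

/-- box number `j` of the `P` boxes of `[0,1]` is forbidden for `a` at the energy `s²` -/
def Forb (a : ℝ → ℝ) (s : ℝ) (P j : ℕ) : Prop :=
  ∃ S : Set ℝ, S ⊆ Set.Icc ((j : ℝ) / P) ((j : ℝ) / P + 1 / P) ∧ MeasurableSet S ∧
    1 / (8 * (P : ℝ)) ≤ (volume S).toReal ∧ ∀ x ∈ S, 8 * s ≤ |a x|

/-- product functions on `T^6` -/
def prodFn (m1 n1 m2 n2 : ℤ) (u v : C(UnitAddCircle, ℂ)) : C(Torus 6, ℂ) where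
  toFun y := u (y 0) * (fourier m1 (y 1) * fourier n1 (y 2)) *
    (v (y 3) * (fourier m2 (y 4) * fourier n2 (y 5)))
  continuous_toFun := by fun_prop

/-- the product function belonging to a pair of states -/
def prodSt {k k' : ℕ} {E : ∀ p : ℤ × ℤ, EB (Vk k p.1 p.2)} {E' : ∀ p : ℤ × ℤ, EB (Vk k' p.1 p.2)}
    (α : St E) (β : St E') : C(Torus 6, ℂ) := prodFn α.m α.n β.m β.n α.fn β.fn

/-- the bounded operator `T` is `e_k ↦ g(k) e_{k+l}` -/
def IsMD {d : ℕ} (l : Fin d → ℤ) (g : (Fin d → ℤ) → ℂ) (T : L2T d →L[ℂ] L2T d) : Prop :=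
  ∀ k, T (cls (expo k)) = g k • cls (expo (k + l))

end MP_d22ea4_an
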