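import Mathlib

/-!
# Sub-Riemannian Laplacians on flat tori and their microlocal Weyl measures

The definitions used in the statement of the result for problem MP_d22ea4_an.

The manifold `M` is a flat torus, given by its covering map `π : E → M` from a Euclidean space `E`:
vector fields on `M` are smooth maps `V : E → E` with `V x = V y` whenever `π x = π y`, smooth
functions on `M` are the functions `f` on `M` with `f ∘ π` smooth, and the cotangent bundle of `M` is
`M × E`, where `ξ ∈ E` is the covector `v ↦ ⟨ξ, v⟩`.  The co-sphere bundle is identified with the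
closed subset of the points `(y, ξ)` of `M × E` with `‖ξ‖ = 1`.  The distribution `D` is given by a
global smooth orthonormal frame `X_1, ..., X_k`; `μ` is a finite measure on `M`.
-/

open MeasureTheory Filter Topology
open scoped ContDiff

noncomputable section

namespace SRTorus

variable {E M : Type} [NormedAddCommGroup E] [InnerProductSpace ℝ E]

/-! ### vector fields, distributions and their flags -/

/-- smooth vector fields on `M` -/
structure IsVF (π : E → M) (V : E → E) : Prop where
  smooth : ContDiff ℝ ∞ V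
  periodic : ∀ x y, π x = π y → V x = V y

/-- `X` is a smooth frame (declared to be orthonormal) of a subbundle `D` of the tangent bundle of
`M`: the pair `(D, g)` is the sub-Riemannian structure -/
structure IsFrame {k : ℕ} (π : E → M) (X : Fin k → E → E) : Prop where
  vf : ∀ i, IsVF π (X i)
  indep : ∀ x, LinearIndependent ℝ (fun i => X i x)

/-- `V` is a smooth section of `D` -/
structure IsSection {k : ℕ} (π : E → M) (X : Fin k → E → E) (V : E → E) : Prop where
  vf : IsVF π V
  mem : ∀ x, V x ∈ Submodule.span ℝ (Set.range fun i => X i x)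

/-- `IsBracket π X i V`: `V` is an iterated bracket of length `i` of sections of `D` -/
inductive IsBracket {k : ℕ} (π : E → M) (X : Fin k → E → E) : ℕ → (E → E) → Prop
  | sec (V : E → E) : IsSection π X V → IsBracket π X 1 V
  | bracket (i j : ℕ) (V W : E → E) : IsBracket π X i V → IsBracket π X j W →
      IsBracket π X (i + j) (VectorField.lieBracket ℝ V W)

/-- `D_i(x)`: the span of the values at `x` of brackets of length at most `i` of sections of `D` -/
def flag {k : ℕ} (π : E → M) (X : Fin k → E → E) (i : ℕ) (x : E) : Submodule ℝ E :=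
  Submodule.span ℝ {v | ∃ j ≤ i, ∃ V, IsBracket π X j V ∧ V x = v}

/-- `r` is the least integer with `D_r(x) = T_x M` for all `x` (in particular `Lie(D) = TM`) -/
structure IsStep {k : ℕ} (π : E → M) (X : Fin k → E → E) (r : ℕ) : Prop where
  top : ∀ x, flag π X r x = ⊤
  ne_top : ∀ i < r, ∃ x, flag π X i x ≠ ⊤

/-- `SΣ_j`: the points `(y, ξ)` of the co-sphere bundle such that `ξ` annihilates `D_j(y)` -/
def SSigma {k : ℕ} (π : E → M) (X : Fin k → E → E) (j : ℕ) : Set (M × E) :=
  {p | ‖p.2‖ = 1 ∧ ∃ x, π x = p.1 ∧ ∀ v ∈ flag π X j x, inner ℝ p.2 v = 0}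

/-! ### the Friedrichs extension and its eigenfunctions -/

variable [TopologicalSpace M] [CompactSpace M] [MeasurableSpace M] [BorelSpace M]

/-- the class in `L²(M, μ)` of a continuous function -/
def cls (μ : Measure M) [IsFiniteMeasure μ] (f : C(M, ℂ)) : Lp ℂ 2 μ :=
  ContinuousMap.toLp 2 μ ℂ f

/-- smooth functions on `M` -/
structure IsSmooth (π : E → M) (f : C(M, ℂ)) : Prop where
  smooth : ContDiff ℝ ∞ (fun x => f (π x))

/-- `g` is the derivative `V f` of the function `f` along the vector field `V` -/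
structure IsDeriv (π : E → M) (V : E → E) (f g : C(M, ℂ)) : Prop where
  eq : ∀ x, g (π x) = fderiv ℝ (fun y => f (π y)) x (V x)

/-- `φ` belongs to the domain of the closure of the form `Q(f) = ∑ ‖X_i f‖²` (defined on smooth
functions), and `g i` is the derivative of `φ` along `X_i` -/
structure HasGrad {k : ℕ} (π : E → M) (μ : Measure M) [IsFiniteMeasure μ] (X : Fin k → E → E)
    (φ : Lp ℂ 2 μ) (g : Fin k → Lp ℂ 2 μ) : Prop where
  approx : ∃ (f : ℕ → C(M, ℂ)) (h : ℕ → Fin k → C(M, ℂ)),
    (∀ n, IsSmooth π (f n)) ∧ (∀ n i, IsDeriv π (X i) (f n) (h n i)) ∧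
    Tendsto (fun n => cls μ (f n)) atTop (𝓝 φ) ∧
    ∀ i, Tendsto (fun n => cls μ (h n i)) atTop (𝓝 (g i))

/-- `φ` is in the domain of the Friedrichs extension `-Δ` of the form `Q` and `-Δ φ = t φ`:
`φ` is in the form domain and `Q(φ, f) = t ⟨φ, f⟩` for all smooth `f` -/
structure IsEigen {k : ℕ} (π : E → M) (μ : Measure M) [IsFiniteMeasure μ] (X : Fin k → E → E)
    (t : ℝ) (φ : Lp ℂ 2 μ) : Prop where
  weak : ∃ g : Fin k → Lp ℂ 2 μ, HasGrad π μ X φ g ∧
    ∀ (f : C(M, ℂ)) (h : Fin k → C(M, ℂ)), IsSmooth π f → (∀ i, IsDeriv π (X i) f (h i)) →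
      ∑ i, inner ℂ (g i) (cls μ (h i)) = (t : ℂ) * inner ℂ φ (cls μ f)

/-! ### symbols, quantizations and the microlocal Weyl measure -/

/-- symbols of order zero, i.e. smooth functions on the co-sphere bundle, viewed as functions on
`T^*M ∖ 0 = M × (E ∖ 0)` which are homogeneous of degree zero -/
structure IsSymbol (π : E → M) (a : M → E → ℂ) : Prop where
  smooth : ContDiffOn ℝ ∞ (fun p : E × E => a (π p.1) p.2) {p | p.2 ≠ 0}
  homog : ∀ y ξ, ∀ t : ℝ, 0 < t → a y (t • ξ) = a y ξ

/-- The bounded operator `A` is a quantization of the symbol `a`: up to a compact operator it is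
the toroidal quantization `e_κ ↦ a(·, κ) e_κ`, where `e_κ(π x) = exp (2 π i ⟨κ, x⟩)` (so that `κ`
runs through the dual lattice).  (All usual quantizations of `a`, for instance positive ones, have
this property, because they differ by operators of order `-1`.) -/
structure IsQuant (π : E → M) (μ : Measure M) [IsFiniteMeasure μ] (a : M → E → ℂ)
    (A : Lp ℂ 2 μ →L[ℂ] Lp ℂ 2 μ) : Prop where
  toroidal : ∃ K : Lp ℂ 2 μ →L[ℂ] Lp ℂ 2 μ, IsCompactOperator K ∧
    ∀ (κ : E) (e b : C(M, ℂ)), κ ≠ 0 →
      (∀ x, e (π x) = Complex.exp (2 * Real.pi * Complex.I * (inner ℝ κ x : ℝ))) →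
      (∀ y, b y = a y κ * e y) → A (cls μ e) - K (cls μ e) = cls μ b

/-- the average of `c_i` over the indices `i` with `ev i ≤ t` -/
def average {ι : Type} (c : ι → ℂ) (ev : ι → ℝ) (t : ℝ) : ℂ :=
  (∑ᶠ i ∈ {i | ev i ≤ t}, c i) / (Set.ncard {i | ev i ≤ t} : ℂ)

/-- The probability measure `W` on the co-sphere bundle (a measure on `M × E` which is carried by
`‖ξ‖ = 1`) is the microlocal Weyl measure of the sub-Riemannian Laplacian of `X` and `μ`: the
spectrum is discrete (there are orthonormal eigenbases, and for each of them there are finitely many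
eigenvalues below each level), every symbol of order zero has a quantization, and for every symbol,
quantization and eigenbasis the averages of `⟨A φ_i, φ_i⟩` over the eigenvalues at most `t` converge
to the integral of the symbol as `t → ∞`. -/
structure IsWeyl [MeasurableSpace E] {k : ℕ} (π : E → M) (μ : Measure M) [IsFiniteMeasure μ]
    (X : Fin k → E → E) (W : Measure (M × E)) : Prop where
  prob : IsProbabilityMeasure W
  sphere : ∀ᵐ p ∂W, ‖p.2‖ = 1
  basis : ∃ (ι : Type) (φ : HilbertBasis ι ℂ (Lp ℂ 2 μ)) (ev : ι → ℝ),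
    ∀ i, IsEigen π μ X (ev i) (φ i)
  quant : ∀ a, IsSymbol π a → ∃ A, IsQuant π μ a A
  discrete : ∀ (ι : Type) (φ : HilbertBasis ι ℂ (Lp ℂ 2 μ)) (ev : ι → ℝ),
    (∀ i, IsEigen π μ X (ev i) (φ i)) → ∀ t : ℝ, {i | ev i ≤ t}.Finite
  limit : ∀ a, IsSymbol π a → ∀ A, IsQuant π μ a A →
    ∀ (ι : Type) (φ : HilbertBasis ι ℂ (Lp ℂ 2 μ)) (ev : ι → ℝ),
      (∀ i, IsEigen π μ X (ev i) (φ i)) →
      Tendsto (average (fun i => inner ℂ (φ i) (A (φ i))) ev) atTop (𝓝 (∫ p, a p.1 p.2 ∂W))

/-! ### the torus `T^6` and the example -/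

/-- the covering map `ℝ^6 → T^6 = (ℝ/ℤ)^6` -/
def pr (x : EuclideanSpace ℝ (Fin 6)) : UnitAddTorus (Fin 6) := fun i => (x i : UnitAddCircle)

/-- the normalised Haar measure of the torus `T^6` -/
abbrev haar : Measure (UnitAddTorus (Fin 6)) := Measure.pi fun _ => AddCircle.haarAddCircle

/-- the vector fields `∂_0, ∂_1 + (1 - cos 2πx_0)^3 ∂_2, ∂_3, ∂_4 + (1 - cos 2πx_3)^2 ∂_5` -/
def X0 (i : Fin 4) (x : EuclideanSpace ℝ (Fin 6)) : EuclideanSpace ℝ (Fin 6) :=
  WithLp.toLp 2 (![![1, 0, 0, 0, 0, 0],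
    ![0, 1, (1 - Real.cos (2 * Real.pi * x 0)) ^ 3, 0, 0, 0],
    ![0, 0, 0, 1, 0, 0],
    ![0, 0, 0, 0, 1, (1 - Real.cos (2 * Real.pi * x 3)) ^ 2]] i)

end SRTorus
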