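import Pool.Agent.Lib_MP_d22ea4_an.Asm6
import Pool.Agent.Lib_MP_d22ea4_an.Stmt

/-!
The definitions of `Stmt.lean` agree with those of `Defs.lean`.
-/

open MeasureTheory Filter Topology Complex
open scoped ContDiff ComplexConjugate InnerProductSpace

noncomputable section

namespace MP_d22ea4_an

attribute [local instance] instMeasureSpaceUnitAddCircle

/-- the Euclidean space -/
abbrev E6 : Type := EuclideanSpace ℝ (Fin 6)

/-- coordinates -/
def LL : E6 ≃L[ℝ] (Fin 6 → ℝ) := EuclideanSpace.equiv (Fin 6) ℝ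

theorem LL_apply (x : E6) (i : Fin 6) : LL x i = x i := rfl

theorem LL_symm_apply (x : Fin 6 → ℝ) (i : Fin 6) : LL.symm x i = x i := rfl

theorem pr_LL (x : E6) : SRTorus.pr x = pr (LL x) := rfl

theorem pr_LL_symm (x : Fin 6 → ℝ) : SRTorus.pr (LL.symm x) = pr x := rfl

/-- transport of a vector field -/
def cj (V : E6 → E6) : VF 6 := fun x => LL (V (LL.symm x))

theorem X0_eq (i : Fin 4) : cj (SRTorus.X0 i) = X0 i := by
  funext x
  fin_cases i <;> rfl

theorem pr_eq_iff (x y : E6) :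
    SRTorus.pr x = SRTorus.pr y ↔ ∃ k : Fin 6 → ℤ, LL x = LL y + fun i => ((k i : ℤ) : ℝ) := by
  constructor
  · intro h
    have h1 : ∀ i, ∃ n : ℤ, x i = y i + n := by
      intro i
      have h2 : ((x i : ℝ) : UnitAddCircle) = ((y i : ℝ) : UnitAddCircle) := congrFun h i
      have h3 : ((x i - y i : ℝ) : UnitAddCircle) = 0 := by
        rw [AddCircle.coe_sub, h2, sub_self]
      rw [AddCircle.coe_eq_zero_iff] at h3
      obtain ⟨n, hn⟩ := h3
      rw [zsmul_eq_mul, mul_one] at hn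
      exact ⟨n, by linarith⟩
    choose k hk using h1
    exact ⟨k, funext hk⟩
  · rintro ⟨k, hk⟩
    funext i
    show ((x i : ℝ) : UnitAddCircle) = ((y i : ℝ) : UnitAddCircle)
    have : x i = y i + k i := congrFun hk i
    rw [this, AddCircle.coe_add]
    have : (((k i : ℤ) : ℝ) : UnitAddCircle) = 0 := by
      rw [AddCircle.coe_eq_zero_iff]
      exact ⟨k i, by simp⟩
    rw [this, add_zero]

theorem isVF_iff (V : E6 → E6) : SRTorus.IsVF SRTorus.pr V ↔ IsVF (cj V) := by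
  constructor
  · intro h
    refine ⟨LL.contDiff.comp (h.1.comp LL.symm.contDiff), fun x k => ?_⟩
    show LL (V _) = LL (V _)
    congr 1
    apply h.2
    rw [pr_eq_iff]
    exact ⟨k, by simp⟩
  · intro h
    have hV : V = fun x => LL.symm (cj V (LL x)) := by
      funext x
      simp [cj]
    refine ⟨?_, fun x y hxy => ?_⟩
    · rw [hV]
      exact LL.symm.contDiff.comp (h.1.comp LL.contDiff)
    · obtain ⟨k, hk⟩ := (pr_eq_iff x y).1 hxy
      rw [hV]
      simp only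
      rw [hk, h.2]

theorem mem_span_iff {k : ℕ} (X : Fin k → E6 → E6) (V : E6 → E6) (x : Fin 6 → ℝ) :
    V (LL.symm x) ∈ Submodule.span ℝ (Set.range fun i => X i (LL.symm x)) ↔
      cj V x ∈ Submodule.span ℝ (Set.range fun i => cj (X i) x) := by
  have h1 : (Set.range fun i => cj (X i) x) =
      (LL.toLinearEquiv : E6 →ₗ[ℝ] (Fin 6 → ℝ)) '' (Set.range fun i => X i (LL.symm x)) := by
    rw [← Set.range_comp]
    rfl
  rw [h1, Submodule.span_image]
  show _ ↔ LL.toLinearEquiv (V (LL.symm x)) ∈ _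
  rw [Submodule.mem_map_equiv]
  simp

theorem isSection_iff {k : ℕ} (X : Fin k → E6 → E6) (V : E6 → E6) :
    SRTorus.IsSection SRTorus.pr X V ↔ IsSection (fun i => cj (X i)) (cj V) := by
  constructor
  · intro h
    exact ⟨(isVF_iff V).1 h.1, fun x => (mem_span_iff X V x).1 (h.2 _)⟩
  · intro h
    refine ⟨(isVF_iff V).2 h.1, fun x => ?_⟩
    have := (mem_span_iff X V (LL x)).2 (h.2 _)
    simpa using this

theorem lieBracket_cj (V W : E6 → E6) :
    cj (VectorField.lieBracket ℝ V W) = VectorField.lieBracket ℝ (cj V) (cj W) := by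
  have hf : ∀ (U : E6 → E6) (x v : Fin 6 → ℝ),
      fderiv ℝ (cj U) x v = LL (fderiv ℝ U (LL.symm x) (LL.symm v)) := by
    intro U x v
    have h1 : cj U = LL ∘ (U ∘ LL.symm) := rfl
    rw [h1, LL.comp_fderiv, LL.symm.comp_right_fderiv]
    rfl
  funext x
  rw [VectorField.lieBracket_eq, VectorField.lieBracket_eq]
  show LL (fderiv ℝ W (LL.symm x) (V (LL.symm x)) - fderiv ℝ V (LL.symm x) (W (LL.symm x))) =
    fderiv ℝ (cj W) x (cj V x) - fderiv ℝ (cj V) x (cj W x)
  rw [hf, hf, map_sub]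
  simp [cj]

theorem cj_surj (V : VF 6) : ∃ U : E6 → E6, cj U = V :=
  ⟨fun x => LL.symm (V (LL x)), by funext x; simp [cj]⟩

theorem cj_inj {U V : E6 → E6} (h : cj U = cj V) : U = V := by
  funext x
  have := congrFun h (LL x)
  simpa [cj] using this

theorem isBracket_iff {k : ℕ} (X : Fin k → E6 → E6) (j : ℕ) (V : E6 → E6) :
    SRTorus.IsBracket SRTorus.pr X j V ↔ IsBracket (fun i => cj (X i)) j (cj V) := by
  constructor
  · intro h
    induction h with
    | sec V h => exact IsBracket.sec ((isSection_iff X V).1 h)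
    | bracket i j V W _ _ ih1 ih2 =>
      rw [lieBracket_cj]
      exact IsBracket.bracket ih1 ih2
  · intro h
    generalize hU : cj V = U at h
    induction h generalizing V with
    | sec h =>
      subst hU
      exact SRTorus.IsBracket.sec _ ((isSection_iff X _).2 h)
    | @bracket i j V' W' _ _ ih1 ih2 =>
      obtain ⟨A, rfl⟩ := cj_surj V'
      obtain ⟨B, rfl⟩ := cj_surj W'
      rw [← lieBracket_cj] at hU
      rw [cj_inj hU]
      exact SRTorus.IsBracket.bracket _ _ _ _ (ih1 A rfl) (ih2 B rfl)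

theorem mem_flag_iff {k : ℕ} (X : Fin k → E6 → E6) (j : ℕ) (x v : E6) :
    v ∈ SRTorus.flag SRTorus.pr X j x ↔ LL v ∈ flag (fun i => cj (X i)) j (LL x) := by
  have h1 : {v | ∃ l ≤ j, ∃ V : VF 6, IsBracket (fun i => cj (X i)) l V ∧ V (LL x) = v} =
      (LL.toLinearEquiv : E6 →ₗ[ℝ] (Fin 6 → ℝ)) ''
        {v | ∃ l ≤ j, ∃ V, SRTorus.IsBracket SRTorus.pr X l V ∧ V x = v} := by
    ext w
    constructor
    · rintro ⟨l, hl, V, hV, rfl⟩
      obtain ⟨U, rfl⟩ := cj_surj V
      refine ⟨U x, ⟨l, hl, U, (isBracket_iff X l U).2 hV, rfl⟩, ?_⟩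
      simp [cj]
    · rintro ⟨u, ⟨l, hl, V, hV, rfl⟩, rfl⟩
      refine ⟨l, hl, cj V, (isBracket_iff X l V).1 hV, ?_⟩
      simp [cj]
  unfold SRTorus.flag flag
  rw [h1, Submodule.span_image]
  show _ ↔ LL.toLinearEquiv v ∈ _
  rw [Submodule.mem_map_equiv]
  simp

theorem X0_fun : (fun i => cj (SRTorus.X0 i)) = X0 := funext X0_eq

theorem sIsFrame : SRTorus.IsFrame SRTorus.pr SRTorus.X0 := by
  refine ⟨fun i => ?_, fun x => ?_⟩
  · rw [isVF_iff, X0_eq]
    exact isFrame_X0.vf i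
  · have h1 := isFrame_X0.indep (LL x)
    have h2 : (fun i => X0 i (LL x)) =
        (LL.toLinearEquiv : E6 →ₗ[ℝ] (Fin 6 → ℝ)) ∘ fun i => SRTorus.X0 i x := by
      funext i
      rw [← X0_eq]
      simp [cj]
    rw [h2] at h1
    exact h1.of_comp _

theorem sIsStep : SRTorus.IsStep SRTorus.pr SRTorus.X0 7 := by
  refine ⟨fun x => ?_, fun i hi => ?_⟩
  · rw [eq_top_iff]
    intro v _
    rw [mem_flag_iff, X0_fun, isStep_X0.1]
    trivial
  · obtain ⟨x, hx⟩ := isStep_X0.2 i hi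
    refine ⟨LL.symm x, fun h => hx ?_⟩
    rw [eq_top_iff]
    intro v _
    have h1 : LL.symm v ∈ SRTorus.flag SRTorus.pr SRTorus.X0 i (LL.symm x) := by
      rw [h]
      trivial
    rw [mem_flag_iff, X0_fun] at h1
    simpa using h1

theorem inner_E6 (u v : E6) : inner ℝ u v = ∑ i, u i * v i := by
  rw [PiLp.inner_apply]
  refine Finset.sum_congr rfl fun i _ => ?_
  simp [mul_comm]

/-- the inclusion of the co-sphere bundle -/
def inc (p : CoS 6) : Torus 6 × E6 := (p.1, (p.2 : E6))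

theorem sSSigma : SRTorus.SSigma SRTorus.pr SRTorus.X0 6 =
    {p | p.1 0 = 0 ∧ ‖p.2‖ = 1 ∧ ∀ i, i ≠ 2 → p.2 i = 0} := by
  ext p
  constructor
  · rintro ⟨h1, x, hx, hv⟩
    have h2 : ((p.1, ⟨p.2, by simpa using h1⟩) : CoS 6) ∈ SSigma X0 6 := by
      refine ⟨LL x, hx, fun v hv' => ?_⟩
      have h3 := hv (LL.symm v) (by rw [mem_flag_iff, X0_fun]; simpa using hv')
      rw [inner_E6] at h3
      exact h3
    rw [SSigma_X0] at h2
    exact ⟨h2.1, h1, h2.2⟩
  · rintro ⟨h0, h1, hξ⟩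
    have h2 : ((p.1, ⟨p.2, by simpa using h1⟩) : CoS 6) ∈ SSigma X0 6 := by
      rw [SSigma_X0]
      exact ⟨h0, hξ⟩
    obtain ⟨x, hx, hv⟩ := h2
    refine ⟨h1, LL.symm x, hx, fun v hv' => ?_⟩
    rw [inner_E6]
    rw [mem_flag_iff, X0_fun, LL.apply_symm_apply] at hv'
    exact hv (LL v) hv'

/-! ### functions -/

theorem isSmooth_iff (f : C(Torus 6, ℂ)) : SRTorus.IsSmooth SRTorus.pr f ↔ IsSmooth f := by
  constructor
  · intro h
    exact h.1.comp LL.symm.contDiff
  · intro h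
    exact ⟨ContDiff.comp (g := fun x : Fin 6 → ℝ => f (pr x)) h LL.contDiff⟩

theorem isDeriv_iff (V : E6 → E6) (f g : C(Torus 6, ℂ)) :
    SRTorus.IsDeriv SRTorus.pr V f g ↔ IsDeriv (cj V) f g := by
  have key : ∀ x : E6, fderiv ℝ (fun y => f (SRTorus.pr y)) x (V x) =
      fderiv ℝ (fun y : Fin 6 → ℝ => f (pr y)) (LL x) (cj V (LL x)) := by
    intro x
    have h1 : (fun y : E6 => f (SRTorus.pr y)) = (fun y : Fin 6 → ℝ => f (pr y)) ∘ LL := rfl
    rw [h1, LL.comp_right_fderiv]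
    simp [cj]
  constructor
  · intro h x
    have := h.1 (LL.symm x)
    rw [key] at this
    simpa [pr_LL_symm] using this
  · intro h
    refine ⟨fun x => ?_⟩
    rw [key, ← h]
    rfl

theorem hasGrad_iff {k : ℕ} (X : Fin k → E6 → E6) (φ : L2T 6) (g : Fin k → L2T 6) :
    SRTorus.HasGrad SRTorus.pr SRTorus.haar X φ g ↔ HasGrad (fun i => cj (X i)) φ g := by
  constructor
  · rintro ⟨f, h, h1, h2, h3, h4⟩
    exact ⟨f, h, fun n => (isSmooth_iff _).1 (h1 n), fun n i => (isDeriv_iff _ _ _).1 (h2 n i),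
      h3, h4⟩
  · rintro ⟨f, h, h1, h2, h3, h4⟩
    exact ⟨f, h, fun n => (isSmooth_iff _).2 (h1 n), fun n i => (isDeriv_iff _ _ _).2 (h2 n i),
      h3, h4⟩

theorem isEigen_iff {k : ℕ} (X : Fin k → E6 → E6) (t : ℝ) (φ : L2T 6) :
    SRTorus.IsEigen SRTorus.pr SRTorus.haar X t φ ↔ IsEigen (fun i => cj (X i)) t φ := by
  constructor
  · rintro ⟨g, h1, h2⟩
    exact ⟨g, (hasGrad_iff _ _ _).1 h1, fun f h hf hd =>
      h2 f h ((isSmooth_iff _).2 hf) fun i => (isDeriv_iff _ _ _).2 (hd i)⟩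
  · rintro ⟨g, h1, h2⟩
    exact ⟨g, (hasGrad_iff _ _ _).2 h1, fun f h hf hd =>
      h2 f h ((isSmooth_iff _).1 hf) fun i => (isDeriv_iff _ _ _).1 (hd i)⟩

/-! ### symbols -/

/-- symbols in coordinates -/
def cs (a : Torus 6 → E6 → ℂ) : Torus 6 → (Fin 6 → ℝ) → ℂ := fun y ξ => a y (LL.symm ξ)

theorem isSymbol_cs {a : Torus 6 → E6 → ℂ} (h : SRTorus.IsSymbol SRTorus.pr a) :
    IsSymbol (cs a) := by
  refine ⟨?_, fun y ξ t ht => ?_⟩
  · have h1 := h.1
    have h2 : ContDiff ℝ ∞ (fun p : (Fin 6 → ℝ) × (Fin 6 → ℝ) => (LL.symm p.1, LL.symm p.2)) :=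
      (LL.symm.contDiff.comp contDiff_fst).prodMk (LL.symm.contDiff.comp contDiff_snd)
    refine ContDiffOn.comp h1 h2.contDiffOn ?_
    intro p hp
    simp only [Set.mem_ofPred_eq] at hp ⊢
    intro h0
    apply hp
    simpa using h0
  · show a y (LL.symm (t • ξ)) = a y (LL.symm ξ)
    rw [map_smul, h.2 _ _ _ ht]

theorem coe_mul (t : ℝ) (n : ℤ) : ((n : ℂ) * (t : ℂ)) = ((n * t : ℝ) : ℂ) := by push_cast; ring

theorem expo_pr (k : Fin 6 → ℤ) (x : Fin 6 → ℝ) :
    expo k (pr x) = exp (2 * Real.pi * I * ((∑ i, (k i : ℝ) * x i : ℝ) : ℂ)) := by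
  show UnitAddTorus.mFourier k (pr x) = _
  unfold UnitAddTorus.mFourier
  simp only [ContinuousMap.coe_mk, pr]
  rw [ofReal_sum, Finset.mul_sum, exp_sum]
  refine Finset.prod_congr rfl fun i _ => ?_
  rw [fourier_coe_apply]
  congr 1
  push_cast
  ring

theorem pr_surj' (y : Torus 6) : ∃ x : Fin 6 → ℝ, pr x = y := by
  have hsurj : ∀ i, ∃ t : ℝ, ((t : ℝ) : UnitAddCircle) = y i := fun i =>
    QuotientAddGroup.mk_surjective (y i)
  choose x hx using hsurj
  exact ⟨x, funext hx⟩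

theorem expo_unique {κ : E6} {e : C(Torus 6, ℂ)}
    (he : ∀ x, e (SRTorus.pr x) = exp (2 * Real.pi * I * (inner ℝ κ x : ℝ))) :
    ∃ k : Fin 6 → ℤ, κ = LL.symm (fun i => ((k i : ℤ) : ℝ)) ∧ e = expo k := by
  have h0 : ∀ i, ∃ n : ℤ, κ i = n := by
    intro i
    have h1 := he (EuclideanSpace.single i 1)
    have h2 := he 0
    have h3 : SRTorus.pr (EuclideanSpace.single i 1) = SRTorus.pr 0 := by
      rw [pr_eq_iff]
      refine ⟨fun j => if j = i then 1 else 0, ?_⟩
      funext j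
      show (EuclideanSpace.single i (1:ℝ) : E6) j = _
      by_cases h : j = i
      · subst h; simp
      · simp [h]
    rw [h3, h2, inner_zero_right] at h1
    simp only [ofReal_zero, mul_zero, exp_zero] at h1
    have h4 : inner ℝ κ (EuclideanSpace.single i (1 : ℝ)) = κ i := by
      rw [EuclideanSpace.inner_single_right]
      simp
    rw [h4] at h1
    obtain ⟨n, hn⟩ := exp_eq_one_iff.1 h1.symm
    refine ⟨n, ?_⟩
    have h5 : (2 * Real.pi * I : ℂ) ≠ 0 := two_pi_I_ne_zero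
    have h6 : ((κ i : ℝ) : ℂ) = (n : ℂ) := by
      apply mul_left_cancel₀ h5
      rw [hn]
      ring
    exact_mod_cast h6
  choose k hk using h0
  have hκ : κ = LL.symm (fun i => ((k i : ℤ) : ℝ)) := by
    ext i
    rw [LL_symm_apply]
    exact hk i
  refine ⟨k, hκ, ?_⟩
  ext y
  obtain ⟨x, rfl⟩ := pr_surj' y
  rw [expo_pr, ← pr_LL_symm, he, inner_E6]
  congr 3
  refine Finset.sum_congr rfl fun i _ => ?_
  rw [hk i, LL_symm_apply]

theorem isQuant_iff (a : Torus 6 → E6 → ℂ) (A : L2T 6 →L[ℂ] L2T 6) :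
    SRTorus.IsQuant SRTorus.pr SRTorus.haar a A ↔ IsQuant (cs a) A := by
  constructor
  · rintro ⟨K, h1, h2⟩
    refine ⟨K, h1, fun k hk b hb => ?_⟩
    refine h2 (LL.symm fun i => ((k i : ℤ) : ℝ)) (expo k) b ?_ ?_ hb
    · intro h
      apply hk
      have h3 : (fun i => ((k i : ℤ) : ℝ)) = 0 := by simpa using h
      funext i
      have := congrFun h3 i
      simpa using this
    · intro x
      rw [pr_LL, expo_pr, inner_E6]
      rfl
  · rintro ⟨K, h1, h2⟩
    refine ⟨K, h1, fun κ e b hκ he hb => ?_⟩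
    obtain ⟨k, rfl, rfl⟩ := expo_unique he
    refine h2 k ?_ b hb
    rintro rfl
    apply hκ
    have : (fun i => (((0 : Fin 6 → ℤ) i : ℤ) : ℝ)) = 0 := by
      funext i
      simp
    rw [this, map_zero]

/-! ### the measure -/

theorem isClosedEmbedding_inc : IsClosedEmbedding inc := by
  have h1 : IsClosedEmbedding (fun p : CoS 6 => (p.1, (p.2 : E6))) := by
    have h2 : IsClosedEmbedding (Subtype.val : Metric.sphere (0 : E6) 1 → E6) :=
      Metric.isClosed_sphere.isClosedEmbedding_subtypeVal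
    exact (IsClosedEmbedding.id).prodMap h2
  exact h1

theorem measurableEmbedding_inc : MeasurableEmbedding inc :=
  isClosedEmbedding_inc.measurableEmbedding

/-- the Weyl measure -/
def WW : Measure (Torus 6 × E6) := W0.map inc

theorem support_WW : WW.support =
    {p | p.1 0 = 0 ∧ p.1 3 = 0 ∧ ‖p.2‖ = 1 ∧ ∀ i, i ≠ 2 → p.2 i = 0} := by
  ext p
  constructor
  · intro hp
    have hsph : ‖p.2‖ = 1 := by
      by_contra hne
      have hopen : IsOpen {q : Torus 6 × E6 | ‖q.2‖ ≠ 1} :=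
        isOpen_ne.preimage (continuous_norm.comp continuous_snd)
      refine absurd hp ?_
      rw [Measure.notMem_support_iff_exists]
      refine ⟨_, hopen.mem_nhds hne, ?_⟩
      unfold WW
      rw [measurableEmbedding_inc.map_apply]
      have : inc ⁻¹' {q : Torus 6 × E6 | ‖q.2‖ ≠ 1} = ∅ := by
        ext q
        simp [inc]
      rw [this, measure_empty]
    have h2 : ((p.1, ⟨p.2, by simpa using hsph⟩) : CoS 6) ∈ W0.support := by
      by_contra hns
      rw [Measure.notMem_support_iff_exists] at hns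
      obtain ⟨U, hU, hU0⟩ := hns
      have h3 := isClosedEmbedding_inc.isInducing.nhds_eq_comap
        ((p.1, ⟨p.2, by simpa using hsph⟩) : CoS 6)
      rw [h3] at hU
      obtain ⟨V, hV, hVU⟩ := hU
      refine absurd hp ?_
      rw [Measure.notMem_support_iff_exists]
      refine ⟨V, hV, ?_⟩
      unfold WW
      rw [measurableEmbedding_inc.map_apply]
      exact measure_mono_null hVU hU0
    rw [support_W0] at h2
    exact ⟨h2.1, h2.2.1, hsph, h2.2.2⟩
  · rintro ⟨h0, h3, hsph, hξ⟩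
    by_contra hns
    rw [Measure.notMem_support_iff_exists] at hns
    obtain ⟨U, hU, hU0⟩ := hns
    have h2 : ((p.1, ⟨p.2, by simpa using hsph⟩) : CoS 6) ∈ W0.support := by
      rw [support_W0]
      exact ⟨h0, h3, hξ⟩
    refine absurd h2 ?_
    rw [Measure.notMem_support_iff_exists]
    refine ⟨inc ⁻¹' U, isClosedEmbedding_inc.continuous.continuousAt.preimage_mem_nhds hU, ?_⟩
    unfold WW at hU0
    rwa [measurableEmbedding_inc.map_apply] at hU0

theorem sIsWeyl : SRTorus.IsWeyl SRTorus.pr SRTorus.haar SRTorus.X0 WW := by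
  have hE : ∀ (t : ℝ) (φ : L2T 6), SRTorus.IsEigen SRTorus.pr SRTorus.haar SRTorus.X0 t φ ↔
      IsEigen X0 t φ := by
    intro t φ
    rw [isEigen_iff, X0_fun]
  have hprob := isWeyl_W0.prob
  refine ⟨?_, ?_, ?_, ?_, ?_, ?_⟩
  · exact Measure.isProbabilityMeasure_map measurableEmbedding_inc.measurable.aemeasurable
  · unfold WW
    rw [measurableEmbedding_inc.ae_map_iff]
    exact Eventually.of_forall fun p => by simp [inc]
  · obtain ⟨ι, φ, μ, h⟩ := isWeyl_W0.basis
    exact ⟨ι, φ, μ, fun i => (hE _ _).2 (h i)⟩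
  · intro a ha
    obtain ⟨A, hA⟩ := isWeyl_W0.quant (cs a) (isSymbol_cs ha)
    exact ⟨A, (isQuant_iff a A).2 hA⟩
  · intro ι φ μ h t
    exact isWeyl_W0.discrete ι φ μ (fun i => (hE _ _).1 (h i)) t
  · intro a ha A hA ι φ μ h
    have h1 := isWeyl_W0.limit (cs a) (isSymbol_cs ha) A ((isQuant_iff a A).1 hA) ι φ μ
      (fun i => (hE _ _).1 (h i))
    have h2 : ∫ p, a p.1 p.2 ∂WW =
        ∫ p : CoS 6, cs a p.1 (fun i => (p.2 : EuclideanSpace ℝ (Fin 6)) i) ∂W0 := by
      unfold WW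
      rw [measurableEmbedding_inc.integral_map]
      rfl
    rw [h2]
    exact h1

theorem sNe : WW.support ≠ SRTorus.SSigma SRTorus.pr SRTorus.X0 6 := by
  rw [support_WW, sSSigma]
  intro h
  have h1 := pt_mem
  rw [SSigma_X0] at h1
  have h2 : ((pr pt, (ePlus : E6)) : Torus 6 × E6) ∈
      {p : Torus 6 × E6 | p.1 0 = 0 ∧ ‖p.2‖ = 1 ∧ ∀ i, i ≠ 2 → p.2 i = 0} := by
    refine ⟨h1.1, by simp, h1.2⟩
  rw [← h] at h2
  exact pt_notMem (by rw [support_W0]; exact ⟨h2.1, h2.2.1, h2.2.2.2⟩)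

end MP_d22ea4_an
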