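import Mathlib

/-!
# Sub-Riemannian Laplacians on tori and their microlocal Weyl measures

Definitions used in the statement of the result for problem MP_d22ea4_an.  Everything is stated on
the torus `T^d = (ℝ/ℤ)^d` with its Haar probability measure (a smooth volume), for a distribution
`D` which has a global smooth orthonormal frame `X_1, ..., X_k`.
-/

open MeasureTheory Filter Topology Complex
open scoped ContDiff ComplexConjugate InnerProductSpace

noncomputable section

namespace MP_d22ea4_an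

attribute [local instance] instMeasureSpaceUnitAddCircle

/-- the torus `T^d = (ℝ/ℤ)^d` -/
abbrev Torus (d : ℕ) : Type := UnitAddTorus (Fin d)

/-- the covering map `ℝ^d → T^d` -/
def pr {d : ℕ} (x : Fin d → ℝ) : Torus d := fun i => ((x i : ℝ) : UnitAddCircle)

/-- the Haar probability measure of the torus -/
abbrev haarT (d : ℕ) : Measure (Torus d) := volume

instance instProbT (d : ℕ) : IsProbabilityMeasure (haarT d) :=
  inferInstanceAs (IsProbabilityMeasure (Measure.pi fun _ : Fin d => AddCircle.haarAddCircle))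

/-- `L²(T^d)` -/
abbrev L2T (d : ℕ) : Type := Lp ℂ 2 (haarT d)

/-- the class in `L²(T^d)` of a continuous function -/
abbrev cls {d : ℕ} (f : C(Torus d, ℂ)) : L2T d := ContinuousMap.toLp (E := ℂ) 2 (haarT d) ℂ f

/-- the exponential `y ↦ exp (2 π i k·y)` -/
abbrev expo {d : ℕ} (k : Fin d → ℤ) : C(Torus d, ℂ) := UnitAddTorus.mFourier k

/-! ### vector fields, distributions and their flags -/

/-- vector fields on `T^d`, as maps `ℝ^d → ℝ^d` -/
abbrev VF (d : ℕ) : Type := (Fin d → ℝ) → (Fin d → ℝ)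

/-- smooth vector fields on `T^d`: smooth `ℤ^d`-periodic maps `ℝ^d → ℝ^d` -/
structure IsVF {d : ℕ} (V : VF d) : Prop where
  smooth : ContDiff ℝ ∞ V
  periodic : ∀ x (k : Fin d → ℤ), V (x + fun i => ((k i : ℤ) : ℝ)) = V x

/-- `X` is a smooth frame (declared to be orthonormal) of a subbundle `D` of the tangent bundle of
`T^d`: the pair `(D, g)` is the sub-Riemannian structure -/
structure IsFrame {d k : ℕ} (X : Fin k → VF d) : Prop where
  vf : ∀ i, IsVF (X i)
  indep : ∀ x, LinearIndependent ℝ (fun i => X i x)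

/-- smooth sections of `D` -/
def IsSection {d k : ℕ} (X : Fin k → VF d) (V : VF d) : Prop :=
  IsVF V ∧ ∀ x, V x ∈ Submodule.span ℝ (Set.range fun i => X i x)

/-- `IsBracket X i V`: `V` is an iterated bracket of length `i` of sections of `D` -/
inductive IsBracket {d k : ℕ} (X : Fin k → VF d) : ℕ → VF d → Prop
  | sec {V : VF d} : IsSection X V → IsBracket X 1 V
  | bracket {i j : ℕ} {V W : VF d} : IsBracket X i V → IsBracket X j W →
      IsBracket X (i + j) (VectorField.lieBracket ℝ V W)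

/-- `D_i(x)`: the span of the values at `x` of brackets of length at most `i` of sections of `D` -/
def flag {d k : ℕ} (X : Fin k → VF d) (i : ℕ) (x : Fin d → ℝ) : Submodule ℝ (Fin d → ℝ) :=
  Submodule.span ℝ {v | ∃ j ≤ i, ∃ V : VF d, IsBracket X j V ∧ V x = v}

/-- `r` is the least integer with `D_r(x) = T_x M` for all `x` (in particular `Lie(D) = TM`) -/
def IsStep {d k : ℕ} (X : Fin k → VF d) (r : ℕ) : Prop :=
  (∀ x, flag X r x = ⊤) ∧ ∀ i < r, ∃ x, flag X i x ≠ ⊤

/-- the co-sphere bundle `S^*T^d = T^d × S^{d-1}` -/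
abbrev CoS (d : ℕ) : Type := Torus d × Metric.sphere (0 : EuclideanSpace ℝ (Fin d)) 1

/-- `SΣ_j`: the directions of the covectors which annihilate `D_j` -/
def SSigma {d k : ℕ} (X : Fin k → VF d) (j : ℕ) : Set (CoS d) :=
  {p | ∃ x, pr x = p.1 ∧ ∀ v ∈ flag X j x, ∑ i, (p.2 : EuclideanSpace ℝ (Fin d)) i * v i = 0}

/-! ### the Friedrichs extension and its eigenfunctions -/

/-- smooth functions on `T^d` -/
def IsSmooth {d : ℕ} (f : C(Torus d, ℂ)) : Prop := ContDiff ℝ ∞ (fun x : Fin d → ℝ => f (pr x))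

/-- `g` is the derivative `V f` of the function `f` along the vector field `V` -/
def IsDeriv {d : ℕ} (V : VF d) (f g : C(Torus d, ℂ)) : Prop :=
  ∀ x, g (pr x) = fderiv ℝ (fun y : Fin d → ℝ => f (pr y)) x (V x)

/-- `φ` belongs to the domain of the closure of the form `Q(f) = ∑ ‖X_i f‖²` (defined on smooth
functions), and `g i` is the derivative of `φ` along `X_i` -/
def HasGrad {d k : ℕ} (X : Fin k → VF d) (φ : L2T d) (g : Fin k → L2T d) : Prop :=
  ∃ (f : ℕ → C(Torus d, ℂ)) (h : ℕ → Fin k → C(Torus d, ℂ)),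
    (∀ n, IsSmooth (f n)) ∧ (∀ n i, IsDeriv (X i) (f n) (h n i)) ∧
    Tendsto (fun n => cls (f n)) atTop (𝓝 φ) ∧
    ∀ i, Tendsto (fun n => cls (h n i)) atTop (𝓝 (g i))

/-- `φ` is in the domain of the Friedrichs extension `-Δ` of the form `Q` and `-Δ φ = μ φ`:
`φ` is in the form domain and `Q(φ, f) = μ ⟨φ, f⟩` for all smooth `f` -/
def IsEigen {d k : ℕ} (X : Fin k → VF d) (μ : ℝ) (φ : L2T d) : Prop :=
  ∃ g : Fin k → L2T d, HasGrad X φ g ∧
    ∀ (f : C(Torus d, ℂ)) (h : Fin k → C(Torus d, ℂ)), IsSmooth f →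
      (∀ i, IsDeriv (X i) f (h i)) → ∑ i, ⟪g i, cls (h i)⟫_ℂ = (μ : ℂ) * ⟪φ, cls f⟫_ℂ

/-- `(φ, μ)` is an orthonormal eigenbasis of `-Δ` -/
def IsEigenbasis {d k : ℕ} (X : Fin k → VF d) {ι : Type} (φ : HilbertBasis ι ℂ (L2T d))
    (μ : ι → ℝ) : Prop := ∀ i, IsEigen X (μ i) (φ i)

/-! ### symbols, quantizations and the microlocal Weyl measure -/

/-- symbols of order zero, i.e. smooth functions on the co-sphere bundle, viewed as functions on
`T^d × (ℝ^d ∖ 0)` which are homogeneous of degree zero -/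
structure IsSymbol {d : ℕ} (a : Torus d → (Fin d → ℝ) → ℂ) : Prop where
  smooth : ContDiffOn ℝ ∞ (fun p : (Fin d → ℝ) × (Fin d → ℝ) => a (pr p.1) p.2) {p | p.2 ≠ 0}
  homog : ∀ y ξ, ∀ t : ℝ, 0 < t → a y (t • ξ) = a y ξ

/-- The bounded operator `A` is a quantization of the symbol `a`: up to a compact operator it is
the toroidal quantization `e_k ↦ a(·, k) e_k`.  (All usual quantizations of `a`, for instance
positive ones, have this property, because they differ by operators of order `-1`.) -/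
def IsQuant {d : ℕ} (a : Torus d → (Fin d → ℝ) → ℂ) (A : L2T d →L[ℂ] L2T d) : Prop :=
  ∃ K : L2T d →L[ℂ] L2T d, IsCompactOperator K ∧ ∀ k : Fin d → ℤ, k ≠ 0 →
    ∀ b : C(Torus d, ℂ), (∀ y, b y = a y (fun i => ((k i : ℤ) : ℝ)) * expo k y) →
      (A - K) (cls (expo k)) = cls b

/-- the average of `⟨A φ_i, φ_i⟩` over the eigenfunctions with eigenvalue at most `t` -/
def average {d : ℕ} {ι : Type} (φ : HilbertBasis ι ℂ (L2T d)) (μ : ι → ℝ)
    (A : L2T d →L[ℂ] L2T d) (t : ℝ) : ℂ :=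
  (∑ᶠ i ∈ {i | μ i ≤ t}, ⟪φ i, A (φ i)⟫_ℂ) / (Set.ncard {i | μ i ≤ t} : ℂ)

/-- The probability measure `W` on the co-sphere bundle is the microlocal Weyl measure of the
sub-Riemannian Laplacian of `X`: the spectrum is discrete (there are orthonormal eigenbases, and for
each of them there are finitely many eigenvalues below each level), every symbol of order zero has
a quantization, and for every symbol, quantization and eigenbasis the averages converge to the
integral of the symbol. -/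
structure IsWeyl {d k : ℕ} (X : Fin k → VF d) (W : Measure (CoS d)) : Prop where
  prob : IsProbabilityMeasure W
  basis : ∃ (ι : Type) (φ : HilbertBasis ι ℂ (L2T d)) (μ : ι → ℝ), IsEigenbasis X φ μ
  quant : ∀ a : Torus d → (Fin d → ℝ) → ℂ, IsSymbol a → ∃ A : L2T d →L[ℂ] L2T d, IsQuant a A
  discrete : ∀ (ι : Type) (φ : HilbertBasis ι ℂ (L2T d)) (μ : ι → ℝ), IsEigenbasis X φ μ →
    ∀ t : ℝ, {i | μ i ≤ t}.Finite
  limit : ∀ a : Torus d → (Fin d → ℝ) → ℂ, IsSymbol a → ∀ A : L2T d →L[ℂ] L2T d, IsQuant a A →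
    ∀ (ι : Type) (φ : HilbertBasis ι ℂ (L2T d)) (μ : ι → ℝ), IsEigenbasis X φ μ →
      Tendsto (average φ μ A) atTop
        (𝓝 (∫ p, a p.1 (fun i => (p.2 : EuclideanSpace ℝ (Fin d)) i) ∂W))

/-- the vector fields `∂_0, ∂_1 + (1 - cos 2πx_0)^3 ∂_2, ∂_3, ∂_4 + (1 - cos 2πx_3)^2 ∂_5`
on `T^6` -/
def X0 : Fin 4 → VF 6 := fun i x =>
  match i with
  | 0 => ![1, 0, 0, 0, 0, 0]
  | 1 => ![0, 1, (1 - Real.cos (2 * Real.pi * x 0)) ^ 3, 0, 0, 0]
  | 2 => ![0, 0, 0, 1, 0, 0]
  | 3 => ![0, 0, 0, 0, 1, (1 - Real.cos (2 * Real.pi * x 3)) ^ 2]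

end MP_d22ea4_an
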