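import Pool.Agent.Lib_MP_d22ea4_an.Base

/-!
# The flag of the distribution spanned by `X0` (piece G)
-/

open MeasureTheory Filter Topology Complex
open scoped ContDiff ComplexConjugate InnerProductSpace

noncomputable section

namespace MP_d22ea4_an

/-! ### The frame -/

theorem X0_zero : X0 0 = fun _ => ![1, 0, 0, 0, 0, 0] := rfl
theorem X0_one : X0 1 = fun x => ![0, 1, (1 - Real.cos (2 * Real.pi * x 0)) ^ 3, 0, 0, 0] := rfl
theorem X0_two : X0 2 = fun _ => ![0, 0, 0, 1, 0, 0] := rfl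
theorem X0_three :
    X0 3 = fun x => ![0, 0, 0, 0, 1, (1 - Real.cos (2 * Real.pi * x 3)) ^ 2] := rfl

theorem cos_periodic_int (t : ℝ) (k : ℤ) :
    Real.cos (2 * Real.pi * (t + k)) = Real.cos (2 * Real.pi * t) := by
  have : 2 * Real.pi * (t + k) = 2 * Real.pi * t + k * (2 * Real.pi) := by ring
  rw [this, Real.cos_add_int_mul_two_pi]

theorem isVF_X0 (i : Fin 4) : IsVF (X0 i) := by
  constructor
  · rw [contDiff_pi]
    intro j
    fin_cases i <;> fin_cases j <;> simp [X0] <;> fun_prop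
  · intro x k
    fin_cases i
    · rfl
    · simp only [X0, Pi.add_apply, cos_periodic_int]
    · rfl
    · simp only [X0, Pi.add_apply, cos_periodic_int]

theorem isFrame_X0 : IsFrame X0 where
  vf := isVF_X0
  indep := by
    intro x
    rw [Fintype.linearIndependent_iff]
    intro g hg
    have h0 := congrFun hg 0
    have h1 := congrFun hg 1
    have h3 := congrFun hg 3
    have h4 := congrFun hg 4
    simp [Fin.sum_univ_four, X0] at h0 h1 h3 h4
    intro i
    fin_cases i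
    · exact h0
    · exact h1
    · exact h3
    · exact h4

/-! ### Functions vanishing to high order -/

/-- `g` is a smooth multiple of `sin (π x_0) ^ k` -/
def Van (k : ℕ) (g : (Fin 6 → ℝ) → ℝ) : Prop :=
  ∃ h : (Fin 6 → ℝ) → ℝ, ContDiff ℝ ∞ h ∧ ∀ x, g x = (Real.sin (Real.pi * x 0)) ^ k * h x

theorem contDiff_sin0 : ContDiff ℝ ∞ (fun x : Fin 6 → ℝ => Real.sin (Real.pi * x 0)) := by
  fun_prop

theorem Van.smooth {k : ℕ} {g : (Fin 6 → ℝ) → ℝ} (hg : Van k g) : ContDiff ℝ ∞ g := by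
  obtain ⟨h, hh, hgh⟩ := hg
  have : g = fun x => (Real.sin (Real.pi * x 0)) ^ k * h x := funext hgh
  rw [this]
  exact (contDiff_sin0.pow k).mul hh

theorem Van.add {k : ℕ} {g g' : (Fin 6 → ℝ) → ℝ} (hg : Van k g) (hg' : Van k g') :
    Van k (fun x => g x + g' x) := by
  obtain ⟨h, hh, hgh⟩ := hg
  obtain ⟨h', hh', hgh'⟩ := hg'
  exact ⟨fun x => h x + h' x, hh.add hh', fun x => by dsimp only; rw [hgh, hgh']; ring⟩

theorem Van.sub {k : ℕ} {g g' : (Fin 6 → ℝ) → ℝ} (hg : Van k g) (hg' : Van k g') :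
    Van k (fun x => g x - g' x) := by
  obtain ⟨h, hh, hgh⟩ := hg
  obtain ⟨h', hh', hgh'⟩ := hg'
  exact ⟨fun x => h x - h' x, hh.sub hh', fun x => by dsimp only; rw [hgh, hgh']; ring⟩

theorem Van.mul {k : ℕ} {g g' : (Fin 6 → ℝ) → ℝ} (hg : Van k g) (hg' : ContDiff ℝ ∞ g') :
    Van k (fun x => g x * g' x) := by
  obtain ⟨h, hh, hgh⟩ := hg
  exact ⟨fun x => h x * g' x, hh.mul hg', fun x => by dsimp only; rw [hgh]; ring⟩

theorem Van.mono {k l : ℕ} {g : (Fin 6 → ℝ) → ℝ} (hg : Van k g) (hl : l ≤ k) : Van l g := by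
  obtain ⟨h, hh, hgh⟩ := hg
  refine ⟨fun x => (Real.sin (Real.pi * x 0)) ^ (k - l) * h x,
    (contDiff_sin0.pow _).mul hh, fun x => ?_⟩
  rw [hgh, ← mul_assoc, ← pow_add, Nat.add_sub_cancel' hl]

theorem van_of_smooth {g : (Fin 6 → ℝ) → ℝ} (hg : ContDiff ℝ ∞ g) : Van 0 g :=
  ⟨g, hg, fun x => by simp⟩

theorem smooth_deriv {g : (Fin 6 → ℝ) → ℝ} (hg : ContDiff ℝ ∞ g) {V : VF 6}
    (hV : ContDiff ℝ ∞ V) : ContDiff ℝ ∞ (fun x => fderiv ℝ g x (V x)) :=
  (hg.fderiv_right (m := ∞) (by norm_num)).clm_apply hV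

theorem Van.deriv {k : ℕ} {g : (Fin 6 → ℝ) → ℝ} (hg : Van k g) {V : VF 6}
    (hV : ContDiff ℝ ∞ V) : Van (k - 1) (fun x => fderiv ℝ g x (V x)) := by
  rcases k with _ | k
  · exact van_of_smooth (smooth_deriv hg.smooth hV)
  · obtain ⟨h, hh, hgh⟩ := hg
    have hs := contDiff_sin0
    refine ⟨fun x => ((k : ℝ) + 1) * fderiv ℝ (fun x : Fin 6 → ℝ => Real.sin (Real.pi * x 0)) x (V x)
        * h x + Real.sin (Real.pi * x 0) * fderiv ℝ h x (V x), ?_, fun x => ?_⟩
    · exact ((contDiff_const.mul (smooth_deriv hs hV)).mul hh).add (hs.mul (smooth_deriv hh hV))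
    · have e : g = fun x => (Real.sin (Real.pi * x 0)) ^ (k + 1) * h x := funext hgh
      have hd1 : DifferentiableAt ℝ (fun x : Fin 6 → ℝ => Real.sin (Real.pi * x 0)) x :=
        hs.differentiable (by simp) x
      have hd2 : DifferentiableAt ℝ h x := hh.differentiable (by simp) x
      have h3 : HasFDerivAt (fun x : Fin 6 → ℝ => (Real.sin (Real.pi * x 0)) ^ (k + 1) * h x) _ x :=
        (hd1.hasFDerivAt.pow (k + 1)).mul hd2.hasFDerivAt
      dsimp only
      rw [e, h3.fderiv]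
      simp only [Nat.add_sub_cancel, add_apply, smul_apply,
        smul_eq_mul, nsmul_eq_mul]
      push_cast
      ring

/-! ### The contact form -/

/-- `f_1 (x_0)` -/
def f10 (x : Fin 6 → ℝ) : ℝ := (1 - Real.cos (2 * Real.pi * x 0)) ^ 3

theorem van_f10 : Van 6 f10 := by
  refine ⟨fun _ => 8, contDiff_const, fun x => ?_⟩
  unfold f10
  have : 2 * Real.pi * x 0 = 2 * (Real.pi * x 0) := by ring
  rw [this, Real.cos_two_mul, Real.cos_sq']
  ring

/-- `θ = dx_2 - f_1(x_0) dx_1` -/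
def theta (V : VF 6) (x : Fin 6 → ℝ) : ℝ := V x 2 - f10 x * V x 1

theorem theta_section {V : VF 6} (hV : IsSection X0 V) (x : Fin 6 → ℝ) : theta V x = 0 := by
  have h := hV.2 x
  unfold theta
  refine Submodule.span_induction (p := fun v _ => v 2 - f10 x * v 1 = 0) ?_ ?_ ?_ ?_ h
  · rintro v ⟨i, rfl⟩
    fin_cases i <;> simp [X0, f10]
  · simp
  · intro a b _ _ ha hb
    simp only [Pi.add_apply]
    linarith
  · intro c a _ ha
    simp only [Pi.smul_apply, smul_eq_mul]
    have : c * a 2 - f10 x * (c * a 1) = c * (a 2 - f10 x * a 1) := by ring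
    rw [this, ha, mul_zero]

theorem contDiff_comp {V : VF 6} (hV : ContDiff ℝ ∞ V) (c : Fin 6) :
    ContDiff ℝ ∞ (fun x => V x c) := contDiff_pi.1 hV c

theorem lieBracket_apply {V W : VF 6} (hV : ContDiff ℝ ∞ V) (hW : ContDiff ℝ ∞ W)
    (x : Fin 6 → ℝ) (c : Fin 6) :
    VectorField.lieBracket ℝ V W x c =
      fderiv ℝ (fun y => W y c) x (V x) - fderiv ℝ (fun y => V y c) x (W x) := by
  have hV' : ∀ c, DifferentiableAt ℝ (fun y => V y c) x :=
    fun c => (contDiff_comp hV c).differentiable (by simp) x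
  have hW' : ∀ c, DifferentiableAt ℝ (fun y => W y c) x :=
    fun c => (contDiff_comp hW c).differentiable (by simp) x
  rw [VectorField.lieBracket_eq]
  simp only [Pi.sub_apply]
  rw [fderiv_pi hV', fderiv_pi hW']
  rfl

theorem contDiff_lieBracket {V W : VF 6} (hV : ContDiff ℝ ∞ V) (hW : ContDiff ℝ ∞ W) :
    ContDiff ℝ ∞ (VectorField.lieBracket ℝ V W) := by
  rw [contDiff_pi]
  intro c
  have : (fun x => VectorField.lieBracket ℝ V W x c) = fun x =>
      fderiv ℝ (fun y => W y c) x (V x) - fderiv ℝ (fun y => V y c) x (W x) :=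
    funext fun x => lieBracket_apply hV hW x c
  rw [this]
  exact (smooth_deriv (contDiff_comp hW c) hV).sub (smooth_deriv (contDiff_comp hV c) hW)

theorem theta_bracket {V W : VF 6} (hV : ContDiff ℝ ∞ V) (hW : ContDiff ℝ ∞ W) :
    theta (VectorField.lieBracket ℝ V W) = fun x =>
      (fderiv ℝ (theta W) x (V x) - fderiv ℝ (theta V) x (W x)) +
      (fderiv ℝ f10 x (V x) * W x 1 - fderiv ℝ f10 x (W x) * V x 1) := by
  funext x
  have hf : DifferentiableAt ℝ f10 x := van_f10.smooth.differentiable (by simp) x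
  have key : ∀ U : VF 6, ContDiff ℝ ∞ U → ∀ v : Fin 6 → ℝ, fderiv ℝ (theta U) x v =
      fderiv ℝ (fun y => U y 2) x v - (f10 x * fderiv ℝ (fun y => U y 1) x v +
        fderiv ℝ f10 x v * U x 1) := by
    intro U hU v
    have h1 : DifferentiableAt ℝ (fun y => U y 1) x :=
      (contDiff_comp hU 1).differentiable (by simp) x
    have h2 : DifferentiableAt ℝ (fun y => U y 2) x :=
      (contDiff_comp hU 2).differentiable (by simp) x
    have h3 : HasFDerivAt (fun y => U y 2 - f10 y * U y 1) _ x :=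
      h2.hasFDerivAt.sub (hf.hasFDerivAt.mul h1.hasFDerivAt)
    have h4 : theta U = fun y => U y 2 - f10 y * U y 1 := rfl
    rw [h4, h3.fderiv]
    simp only [sub_apply, add_apply,
      smul_apply, smul_eq_mul]
    ring
  rw [key V hV, key W hW]
  unfold theta
  rw [lieBracket_apply hV hW, lieBracket_apply hV hW]
  ring

theorem bracket_facts {j : ℕ} {V : VF 6} (h : IsBracket X0 j V) :
    1 ≤ j ∧ ContDiff ℝ ∞ V ∧ Van (7 - j) (theta V) := by
  induction h with
  | sec h =>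
    refine ⟨le_rfl, h.1.smooth, fun _ => 0, contDiff_const, fun x => ?_⟩
    rw [theta_section h x, mul_zero]
  | @bracket i j V W _ _ ihV ihW =>
    obtain ⟨hi, hV, hvV⟩ := ihV
    obtain ⟨hj, hW, hvW⟩ := ihW
    refine ⟨by omega, contDiff_lieBracket hV hW, ?_⟩
    rw [theta_bracket hV hW]
    refine (((hvW.deriv hV).mono (by omega)).sub ((hvV.deriv hW).mono (by omega))).add ?_
    exact (((van_f10.deriv hV).mul (contDiff_comp hW 1)).mono (by omega)).sub
      (((van_f10.deriv hW).mul (contDiff_comp hV 1)).mono (by omega))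

/-- `dx_2` annihilates `D_6` at the points with `x_0 = 0` -/
theorem flag_X0 (x : Fin 6 → ℝ) (hx : x 0 = 0) : ∀ v ∈ flag X0 6 x, v 2 = 0 := by
  intro v hv
  unfold flag at hv
  refine Submodule.span_induction (p := fun v _ => v 2 = 0) ?_ rfl ?_ ?_ hv
  · rintro v ⟨j, hj, V, hV, rfl⟩
    obtain ⟨hj1, hVs, hvan⟩ := bracket_facts hV
    obtain ⟨h, -, hh⟩ := hvan.mono (l := 1) (by omega)
    have h1 := hh x
    have h2 : f10 x = 0 := by
      unfold f10
      rw [hx]
      simp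
    unfold theta at h1
    rw [h2, hx] at h1
    simpa using h1
  · intro a b _ _ ha hb
    rw [Pi.add_apply, ha, hb, add_zero]
  · intro c a _ ha
    rw [Pi.smul_apply, ha, smul_zero]

/-! ### The full flag -/

/-- the field `g(x_c) ∂_k` -/
def Gf (c k : Fin 6) (g : ℝ → ℝ) : VF 6 := fun x => Pi.single k (g (x c))

/-- constant field -/
def Ef (c : Fin 6) : VF 6 := fun _ => Pi.single c 1

theorem hasFDerivAt_Gf (c k : Fin 6) {g : ℝ → ℝ} {g' : ℝ} (x : Fin 6 → ℝ)
    (hg : HasDerivAt g g' (x c)) : HasFDerivAt (Gf c k g)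
      (ContinuousLinearMap.pi fun i => if i = k then
        g' • (ContinuousLinearMap.proj (R := ℝ) (φ := fun _ : Fin 6 => ℝ) c) else 0) x := by
  rw [hasFDerivAt_pi]
  intro i
  by_cases h : i = k
  · subst h
    simp only [Gf, Pi.single_eq_same, if_true]
    exact hg.comp_hasFDerivAt x
      (ContinuousLinearMap.proj (R := ℝ) (φ := fun _ : Fin 6 => ℝ) c).hasFDerivAt
  · simp only [Gf, Pi.single_eq_of_ne h, if_neg h]
    exact hasFDerivAt_const _ _

theorem lieBracket_const (v : Fin 6 → ℝ) (W : VF 6) (x : Fin 6 → ℝ) :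
    VectorField.lieBracket ℝ (fun _ => v) W x = fderiv ℝ W x v := by
  rw [VectorField.lieBracket_eq]
  simp

theorem bracket_Gf (c k : Fin 6) {g g' : ℝ → ℝ} (hg : ∀ t, HasDerivAt g (g' t) t) :
    VectorField.lieBracket ℝ (Ef c) (Gf c k g) = Gf c k g' := by
  funext x
  unfold Ef
  rw [lieBracket_const, (hasFDerivAt_Gf c k x (hg (x c))).fderiv]
  funext i
  rw [ContinuousLinearMap.pi_apply]
  by_cases h : i = k
  · subst h
    simp [Gf]
  · simp [Gf, h]

theorem isBracket_step {j : ℕ} (c k : Fin 6) {g g' : ℝ → ℝ} (hc : IsSection X0 (Ef c))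
    (hg : ∀ t, HasDerivAt g (g' t) t) (hb : IsBracket X0 j (Gf c k g)) :
    IsBracket X0 (1 + j) (Gf c k g') := by
  rw [← bracket_Gf c k hg]
  exact IsBracket.bracket (IsBracket.sec hc) hb

theorem isSection_X0 (i : Fin 4) : IsSection X0 (X0 i) :=
  ⟨isVF_X0 i, fun _ => Submodule.subset_span ⟨i, rfl⟩⟩

theorem Ef_zero : Ef 0 = X0 0 := by
  funext x i
  fin_cases i <;> simp [Ef, X0]

theorem Ef_three : Ef 3 = X0 2 := by
  funext x i
  fin_cases i <;> simp [Ef, X0]

theorem X0_one' : X0 1 = fun x => Ef 1 x + Gf 0 2 (fk 3) x := by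
  funext x i
  fin_cases i <;> simp [Ef, X0, Gf, fk]

theorem X0_three' : X0 3 = fun x => Ef 4 x + Gf 3 5 (fk 2) x := by
  funext x i
  fin_cases i <;> simp [Ef, X0, Gf, fk]

theorem bracket_first (c e k : Fin 6) {g g' : ℝ → ℝ} (hg : ∀ t, HasDerivAt g (g' t) t) :
    VectorField.lieBracket ℝ (Ef c) (fun x => Ef e x + Gf c k g x) = Gf c k g' := by
  rw [← bracket_Gf c k hg]
  funext x
  have h : Ef c = fun _ => Pi.single c 1 := rfl
  rw [h, lieBracket_const, lieBracket_const]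
  have h2 : Ef e = fun _ => Pi.single e 1 := rfl
  rw [h2]
  rw [fderiv_const_add]

/-- trigonometric polynomials -/
def tc (a b c : ℝ) (x : ℝ) : ℝ := a * Real.cos (2 * Real.pi * x) +
  b * Real.cos (2 * (2 * Real.pi * x)) + c * Real.cos (3 * (2 * Real.pi * x))

def ts (a b c : ℝ) (x : ℝ) : ℝ := a * Real.sin (2 * Real.pi * x) +
  b * Real.sin (2 * (2 * Real.pi * x)) + c * Real.sin (3 * (2 * Real.pi * x))

theorem hasDerivAt_tc (a b c x : ℝ) : HasDerivAt (tc a b c)
    (ts (-(2 * Real.pi * a)) (-(2 * (2 * Real.pi) * b)) (-(3 * (2 * Real.pi) * c)) x) x := by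
  have h0 : HasDerivAt (fun x : ℝ => 2 * Real.pi * x) (2 * Real.pi) x := by
    simpa using (hasDerivAt_id x).const_mul (2 * Real.pi)
  have h1 := (h0.cos).const_mul a
  have h2 := ((h0.const_mul 2).cos).const_mul b
  have h3 := ((h0.const_mul 3).cos).const_mul c
  have h4 := (h1.add h2).add h3
  unfold ts
  refine h4.congr_deriv ?_
  ring

theorem hasDerivAt_ts (a b c x : ℝ) : HasDerivAt (ts a b c)
    (tc (2 * Real.pi * a) (2 * (2 * Real.pi) * b) (3 * (2 * Real.pi) * c) x) x := by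
  have h0 : HasDerivAt (fun x : ℝ => 2 * Real.pi * x) (2 * Real.pi) x := by
    simpa using (hasDerivAt_id x).const_mul (2 * Real.pi)
  have h1 := (h0.sin).const_mul a
  have h2 := ((h0.const_mul 2).sin).const_mul b
  have h3 := ((h0.const_mul 3).sin).const_mul c
  have h4 := (h1.add h2).add h3
  unfold tc
  refine h4.congr_deriv ?_
  ring

theorem fk_three (x : ℝ) : fk 3 x = 5 / 2 + tc (-15 / 4) (3 / 2) (-1 / 4) x := by
  unfold fk tc
  rw [Real.cos_three_mul, Real.cos_two_mul]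
  ring

theorem fk_two (x : ℝ) : fk 2 x = 3 / 2 + tc (-2) (1 / 2) 0 x := by
  unfold fk tc
  rw [Real.cos_two_mul]
  ring

theorem single_mem_flag {j : ℕ} {c k : Fin 6} {g : ℝ → ℝ} (hj : j ≤ 7) (x : Fin 6 → ℝ)
    (hb : IsBracket X0 j (Gf c k g)) : Pi.single k (g (x c)) ∈ flag X0 7 x :=
  Submodule.subset_span ⟨j, hj, _, hb, rfl⟩

/-- the chain of brackets of one factor -/
theorem mem_flag_of_chain (c e k : Fin 6) (hc : IsSection X0 (Ef c)) (f : ℝ → ℝ) (r α β γ : ℝ)
    (hf : ∀ x, f x = r + tc α β γ x) (hs : IsSection X0 (fun x => Ef e x + Gf c k f x))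
    (hα : α ≠ 0) (hβ : β ≠ 0) (x : Fin 6 → ℝ) : (Pi.single k 1 : Fin 6 → ℝ) ∈ flag X0 7 x := by
  have hf' : f = fun x => r + tc α β γ x := funext hf
  have d1 : ∀ t, HasDerivAt f (ts (-(2 * Real.pi * α)) (-(2 * (2 * Real.pi) * β))
      (-(3 * (2 * Real.pi) * γ)) t) t := by
    intro t
    rw [hf']
    exact (hasDerivAt_tc α β γ t).const_add r
  have b2 : IsBracket X0 (1 + 1) (Gf c k (ts (-(2 * Real.pi * α)) (-(2 * (2 * Real.pi) * β))
      (-(3 * (2 * Real.pi) * γ)))) := by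
    rw [← bracket_first c e k d1]
    exact IsBracket.bracket (IsBracket.sec hc) (IsBracket.sec hs)
  have b3 := isBracket_step c k hc (hasDerivAt_ts _ _ _) b2
  have b4 := isBracket_step c k hc (hasDerivAt_tc _ _ _) b3
  have b5 := isBracket_step c k hc (hasDerivAt_ts _ _ _) b4
  have b6 := isBracket_step c k hc (hasDerivAt_tc _ _ _) b5
  have b7 := isBracket_step c k hc (hasDerivAt_ts _ _ _) b6
  have m3 := single_mem_flag (by norm_num) x b3
  have m5 := single_mem_flag (by norm_num) x b5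
  have m7 := single_mem_flag (by norm_num) x b7
  by_contra hne
  have key : ∀ y : ℝ, (Pi.single k y : Fin 6 → ℝ) ∈ flag X0 7 x → y = 0 := by
    intro y hy
    by_contra hy0
    apply hne
    have : (Pi.single k 1 : Fin 6 → ℝ) = y⁻¹ • Pi.single k y := by
      rw [← Pi.single_smul, smul_eq_mul, inv_mul_cancel₀ hy0]
    rw [this]
    exact Submodule.smul_mem _ _ hy
  have k3 := key _ m3
  have k5 := key _ m5
  have k7 := key _ m7
  unfold tc at k3 k5 k7
  have hpi := Real.pi_pos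
  set C1 := Real.cos (2 * Real.pi * x c)
  set C2 := Real.cos (2 * (2 * Real.pi * x c))
  set C3 := Real.cos (3 * (2 * Real.pi * x c))
  have hC2 : C2 = 2 * C1 ^ 2 - 1 := Real.cos_two_mul _
  have e3 : α * C1 + 4 * β * C2 + 9 * γ * C3 = 0 := by
    have : (2 * Real.pi) ^ 2 * (α * C1 + 4 * β * C2 + 9 * γ * C3) = 0 := by linear_combination -k3
    exact (mul_eq_zero.1 this).resolve_left (by positivity)
  have e5 : α * C1 + 16 * β * C2 + 81 * γ * C3 = 0 := by
    have : (2 * Real.pi) ^ 4 * (α * C1 + 16 * β * C2 + 81 * γ * C3) = 0 := by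
      linear_combination k5
    exact (mul_eq_zero.1 this).resolve_left (by positivity)
  have e7 : α * C1 + 64 * β * C2 + 729 * γ * C3 = 0 := by
    have : (2 * Real.pi) ^ 6 * (α * C1 + 64 * β * C2 + 729 * γ * C3) = 0 := by
      linear_combination -k7
    exact (mul_eq_zero.1 this).resolve_left (by positivity)
  have e8 : β * C2 = 0 := by linarith
  have e9 : α * C1 = 0 := by linarith
  have e10 : C2 = 0 := (mul_eq_zero.1 e8).resolve_left hβ
  have e11 : C1 = 0 := (mul_eq_zero.1 e9).resolve_left hα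
  rw [hC2, e11] at e10
  norm_num at e10

theorem single_two_mem (x : Fin 6 → ℝ) : (Pi.single 2 1 : Fin 6 → ℝ) ∈ flag X0 7 x := by
  refine mem_flag_of_chain 0 1 2 ?_ (fk 3) (5 / 2) (-15 / 4) (3 / 2) (-1 / 4) fk_three ?_
    (by norm_num) (by norm_num) x
  · rw [Ef_zero]
    exact isSection_X0 0
  · rw [← X0_one']
    exact isSection_X0 1

theorem single_five_mem (x : Fin 6 → ℝ) : (Pi.single 5 1 : Fin 6 → ℝ) ∈ flag X0 7 x := by
  refine mem_flag_of_chain 3 4 5 ?_ (fk 2) (3 / 2) (-2) (1 / 2) 0 fk_two ?_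
    (by norm_num) (by norm_num) x
  · rw [Ef_three]
    exact isSection_X0 2
  · rw [← X0_three']
    exact isSection_X0 3

theorem X0_mem (i : Fin 4) (x : Fin 6 → ℝ) : X0 i x ∈ flag X0 7 x :=
  Submodule.subset_span ⟨1, by norm_num, _, IsBracket.sec (isSection_X0 i), rfl⟩

theorem flag_top (x : Fin 6 → ℝ) : flag X0 7 x = ⊤ := by
  have h2 := single_two_mem x
  have h5 := single_five_mem x
  have h0 : (Pi.single 0 1 : Fin 6 → ℝ) ∈ flag X0 7 x := by
    have := X0_mem 0 x
    rw [← Ef_zero] at this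
    exact this
  have h3 : (Pi.single 3 1 : Fin 6 → ℝ) ∈ flag X0 7 x := by
    have := X0_mem 2 x
    rw [← Ef_three] at this
    exact this
  have hs : ∀ (k : Fin 6) (y : ℝ), (Pi.single k 1 : Fin 6 → ℝ) ∈ flag X0 7 x →
      (Pi.single k y : Fin 6 → ℝ) ∈ flag X0 7 x := by
    intro k y hk
    have : (Pi.single k y : Fin 6 → ℝ) = y • Pi.single k 1 := by
      rw [← Pi.single_smul, smul_eq_mul, mul_one]
    rw [this]
    exact Submodule.smul_mem _ _ hk
  have h1 : (Pi.single 1 1 : Fin 6 → ℝ) ∈ flag X0 7 x := by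
    have h := X0_mem 1 x
    rw [X0_one'] at h
    have h' := Submodule.sub_mem _ h (hs 2 (fk 3 (x 0)) h2)
    have e : (fun x => Ef 1 x + Gf 0 2 (fk 3) x) x - Pi.single 2 (fk 3 (x 0)) =
        (Pi.single 1 1 : Fin 6 → ℝ) := by
      simp [Ef, Gf]
    rwa [e] at h'
  have h4 : (Pi.single 4 1 : Fin 6 → ℝ) ∈ flag X0 7 x := by
    have h := X0_mem 3 x
    rw [X0_three'] at h
    have h' := Submodule.sub_mem _ h (hs 5 (fk 2 (x 3)) h5)
    have e : (fun x => Ef 4 x + Gf 3 5 (fk 2) x) x - Pi.single 5 (fk 2 (x 3)) =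
        (Pi.single 4 1 : Fin 6 → ℝ) := by
      simp [Ef, Gf]
    rwa [e] at h'
  rw [eq_top_iff]
  intro v _
  have hv : v = ∑ i, (Pi.single i (v i) : Fin 6 → ℝ) := (Finset.univ_sum_single v).symm
  rw [hv]
  refine Submodule.sum_mem _ (fun i _ => hs i (v i) ?_)
  fin_cases i
  · exact h0
  · exact h1
  · exact h2
  · exact h3
  · exact h4
  · exact h5

theorem flag_mono {i j : ℕ} (h : i ≤ j) (x : Fin 6 → ℝ) : flag X0 i x ≤ flag X0 j x := by
  refine Submodule.span_mono ?_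
  rintro v ⟨l, hl, V, hV, rfl⟩
  exact ⟨l, hl.trans h, V, hV, rfl⟩

theorem isStep_X0 : IsStep X0 7 := by
  refine ⟨flag_top, fun i hi => ⟨0, fun htop => ?_⟩⟩
  have h1 : (Pi.single 2 1 : Fin 6 → ℝ) ∈ flag X0 6 0 := by
    refine flag_mono (show i ≤ 6 by omega) 0 ?_
    rw [htop]
    trivial
  have h2 := flag_X0 0 rfl _ h1
  simp at h2

end MP_d22ea4_an
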