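import Pool.Agent.Lib_MP_d22ea4_an.ProdBasis

/-!
Piece M: matrix elements of weighted shifts in product states.
-/

open MeasureTheory Filter Topology Complex
open scoped ContDiff ComplexConjugate InnerProductSpace

noncomputable section

namespace MP_d22ea4_an

attribute [local instance] instMeasureSpaceUnitAddCircle

section Matrix

/-- the Fourier basis of `L²(T^d)` -/
abbrev mxB (d : ℕ) : HilbertBasis (Fin d → ℤ) ℂ (L2T d) := UnitAddTorus.mFourierBasis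

theorem mx_fB_apply {d : ℕ} (k : Fin d → ℤ) : mxB d k = cls (expo k) := by
  have := congrFun (UnitAddTorus.coe_mFourierBasis (d := Fin d)) k
  exact this

/-- the weighted shift on `ℓ²` -/
theorem mx_memlp_shift {d : ℕ} (l : Fin d → ℤ) (g : (Fin d → ℤ) → ℂ) {C : ℝ} (hg : ∀ k, ‖g k‖ ≤ C)
    (f : lp (fun _ : Fin d → ℤ => ℂ) 2) :
    Memℓp (fun k => g (k - l) * f (k - l)) 2 ∧
      ∑' k, ‖g (k - l) * f (k - l)‖ ^ 2 ≤ (C * ‖f‖) ^ 2 := by
  have hC : 0 ≤ C := (norm_nonneg _).trans (hg 0)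
  have h1 : Summable (fun k => ‖f k‖ ^ 2) := by
    have := (lp.memℓp f).summable (by norm_num)
    simpa using this
  have h2 : Summable (fun k => C ^ 2 * ‖f (k - l)‖ ^ 2) :=
    ((Equiv.subRight l).summable_iff.mpr h1).mul_left _
  have hle : ∀ k, ‖g (k - l) * f (k - l)‖ ^ 2 ≤ C ^ 2 * ‖f (k - l)‖ ^ 2 := fun k => by
    rw [norm_mul, mul_pow]
    have := hg (k - l)
    gcongr
  have h3 : Summable (fun k => ‖g (k - l) * f (k - l)‖ ^ 2) :=
    Summable.of_nonneg_of_le (fun _ => by positivity) hle h2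
  refine ⟨memℓp_gen (by simpa using h3), ?_⟩
  calc ∑' k, ‖g (k - l) * f (k - l)‖ ^ 2 ≤ ∑' k, C ^ 2 * ‖f (k - l)‖ ^ 2 :=
        h3.tsum_le_tsum hle h2
    _ = C ^ 2 * ∑' k, ‖f k‖ ^ 2 := by
        rw [tsum_mul_left]
        congr 1
        exact (Equiv.subRight l).tsum_eq (fun k => ‖f k‖ ^ 2)
    _ = (C * ‖f‖) ^ 2 := by
        have := lp.norm_rpow_eq_tsum (p := 2) (by norm_num) f
        have h4 : ‖f‖ ^ 2 = ∑' k, ‖f k‖ ^ 2 := by simpa using this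
        rw [mul_pow, h4]

/-- the weighted shift on `ℓ²` as a continuous linear map -/
def mx_wshift {d : ℕ} (l : Fin d → ℤ) (g : (Fin d → ℤ) → ℂ) {C : ℝ} (hg : ∀ k, ‖g k‖ ≤ C) :
    lp (fun _ : Fin d → ℤ => ℂ) 2 →L[ℂ] lp (fun _ : Fin d → ℤ => ℂ) 2 :=
  LinearMap.mkContinuous
    { toFun := fun f => ⟨fun k => g (k - l) * f (k - l), (mx_memlp_shift l g hg f).1⟩
      map_add' := fun f f' => by
        ext k
        simp [mul_add]
      map_smul' := fun c f => by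
        ext k
        simp
        ring } C (fun f => by
        have hC : 0 ≤ C := (norm_nonneg _).trans (hg 0)
        have h2 := (mx_memlp_shift l g hg f).2
        set F : lp (fun _ : Fin d → ℤ => ℂ) 2 := ⟨fun k => g (k - l) * f (k - l), (mx_memlp_shift l g hg f).1⟩
        have h3 : ‖F‖ ^ 2 ≤ (C * ‖f‖) ^ 2 := by
          have := lp.norm_rpow_eq_tsum (p := 2) (by norm_num) F
          have h4 : ‖F‖ ^ 2 = ∑' k, ‖F k‖ ^ 2 := by simpa using this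
          rw [h4]
          exact h2
        exact le_of_sq_le_sq h3 (by positivity))

theorem mx_wshift_apply {d : ℕ} (l : Fin d → ℤ) (g : (Fin d → ℤ) → ℂ) {C : ℝ} (hg : ∀ k, ‖g k‖ ≤ C)
    (f : lp (fun _ : Fin d → ℤ => ℂ) 2) (k : Fin d → ℤ) :
    mx_wshift l g hg f k = g (k - l) * f (k - l) := rfl

theorem exists_MD {d : ℕ} (l : Fin d → ℤ) (g : (Fin d → ℤ) → ℂ) {C : ℝ} (hg : ∀ k, ‖g k‖ ≤ C) :
    ∃ T : L2T d →L[ℂ] L2T d, IsMD l g T ∧ ‖T‖ ≤ C := by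
  have hC : 0 ≤ C := (norm_nonneg _).trans (hg 0)
  refine ⟨((mxB d).repr.symm.toContinuousLinearEquiv.toContinuousLinearMap.comp
    (mx_wshift l g hg)).comp (mxB d).repr.toContinuousLinearEquiv.toContinuousLinearMap, ?_, ?_⟩
  · intro k
    apply (mxB d).repr.injective
    classical
    ext j
    simp only [ContinuousLinearMap.comp_apply, ContinuousLinearEquiv.coe_coe,
      LinearIsometryEquiv.coe_toContinuousLinearEquiv, LinearIsometryEquiv.apply_symm_apply,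
      map_smul]
    rw [← mx_fB_apply, ← mx_fB_apply, (mxB d).repr_self, (mxB d).repr_self, mx_wshift_apply]
    simp only [lp.coeFn_smul, Pi.smul_apply, smul_eq_mul]
    by_cases h : j = k + l
    · subst h
      simp
    · have h' : j - l ≠ k := fun h' => h (by rw [← h']; simp)
      rw [lp.single_apply_ne _ _ _ h, lp.single_apply_ne _ _ _ h']
      simp
  · refine ContinuousLinearMap.opNorm_le_bound _ hC fun f => ?_
    simp only [ContinuousLinearMap.comp_apply, ContinuousLinearEquiv.coe_coe,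
      LinearIsometryEquiv.coe_toContinuousLinearEquiv, LinearIsometryEquiv.norm_map]
    calc ‖mx_wshift l g hg ((mxB d).repr f)‖ ≤ C * ‖(mxB d).repr f‖ := by
          refine (ContinuousLinearMap.le_opNorm _ _).trans ?_
          gcongr
          exact LinearMap.mkContinuous_norm_le _ hC _
      _ = C * ‖f‖ := by rw [LinearIsometryEquiv.norm_map]


theorem mx_hasSum_coeff {d : ℕ} (Φ : L2T d) :
    HasSum (fun k => ⟪cls (expo k), Φ⟫_ℂ • cls (expo k)) Φ := by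
  have h := (mxB d).hasSum_repr Φ
  simpa only [HilbertBasis.repr_apply_apply, mx_fB_apply] using h

/-- Parseval -/
theorem mx_hasSum_norm_coeff {d : ℕ} (Φ : L2T d) :
    HasSum (fun k => ‖⟪cls (expo k), Φ⟫_ℂ‖ ^ 2) (‖Φ‖ ^ 2) := by
  have h := (mxB d).hasSum_inner_mul_inner Φ Φ
  simp only [mx_fB_apply] at h
  have h2 : ∀ k : Fin d → ℤ, ⟪Φ, cls (expo k)⟫_ℂ * ⟪cls (expo k), Φ⟫_ℂ =
      ((‖⟪cls (expo k), Φ⟫_ℂ‖ ^ 2 : ℝ) : ℂ) := fun k => by
    rw [← inner_conj_symm Φ (cls (expo k)), ← Complex.normSq_eq_conj_mul_self,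
      Complex.normSq_eq_norm_sq]
  simp only [h2] at h
  rw [inner_self_eq_norm_sq_to_K] at h
  rw [show ((RCLike.ofReal ‖Φ‖ : ℂ)) ^ 2 = ((‖Φ‖ ^ 2 : ℝ) : ℂ) by push_cast; rfl] at h
  exact_mod_cast h

theorem mx_inner_expo {d : ℕ} (j k : Fin d → ℤ) :
    ⟪cls (expo j), cls (expo k)⟫_ℂ = if j = k then 1 else 0 := by
  have h := (orthonormal_iff_ite.mp (mxB d).orthonormal) j k
  simpa only [mx_fB_apply] using h

/-- Fourier coefficients of `T Φ` -/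
theorem mx_md_coeff {d : ℕ} {l : Fin d → ℤ} {g : (Fin d → ℤ) → ℂ} {T : L2T d →L[ℂ] L2T d}
    (hT : IsMD l g T) (Φ : L2T d) (j : Fin d → ℤ) :
    ⟪cls (expo j), T Φ⟫_ℂ = g (j - l) * ⟪cls (expo (j - l)), Φ⟫_ℂ := by
  have h1 := (mx_hasSum_coeff Φ).mapL T
  have h2 := h1.mapL (innerSL ℂ (cls (expo j)))
  simp only [innerSL_apply_apply, map_smul, hT _, mx_inner_expo] at h2
  have h3 : HasSum (fun k => ⟪cls (expo k), Φ⟫_ℂ * (g k * if j = k + l then 1 else 0))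
      (⟪cls (expo (j - l)), Φ⟫_ℂ * (g (j - l) * if j = (j - l) + l then 1 else 0)) := by
    refine hasSum_single (j - l) fun k hk => ?_
    have : j ≠ k + l := fun h => hk (by rw [h]; simp)
    simp [this]
  have h4 := h2.unique h3
  rw [h4, if_pos (by simp), mul_one, mul_comm]

/-- norm of `T Φ` -/
theorem mx_md_norm {d : ℕ} {l : Fin d → ℤ} {g : (Fin d → ℤ) → ℂ} {T : L2T d →L[ℂ] L2T d}
    (hT : IsMD l g T) (Φ : L2T d) :
    HasSum (fun k => ‖g k‖ ^ 2 * ‖⟪cls (expo k), Φ⟫_ℂ‖ ^ 2) (‖T Φ‖ ^ 2) := by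
  have h := mx_hasSum_norm_coeff (T Φ)
  simp only [mx_md_coeff hT, norm_mul, mul_pow] at h
  exact ((Equiv.subRight l).hasSum_iff
    (f := fun k => ‖g k‖ ^ 2 * ‖⟪cls (expo k), Φ⟫_ℂ‖ ^ 2)).mp h

theorem mx_ext_coeff {d : ℕ} {Φ Ψ : L2T d} (h : ∀ k, ⟪cls (expo k), Φ⟫_ℂ = ⟪cls (expo k), Ψ⟫_ℂ) :
    Φ = Ψ := by
  have h1 := mx_hasSum_coeff Φ
  have h2 := mx_hasSum_coeff Ψ
  simp only [h] at h1
  exact h1.unique h2

theorem prod_matrix_zero {l : Fin 6 → ℤ} {g : (Fin 6 → ℤ) → ℂ} {T : L2T 6 →L[ℂ] L2T 6}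
    (hT : IsMD l g T) (hl : l 1 ≠ 0 ∨ l 2 ≠ 0 ∨ l 4 ≠ 0 ∨ l 5 ≠ 0) (m1 n1 m2 n2 : ℤ)
    (u v : C(UnitAddCircle, ℂ)) :
    ⟪cls (prodFn m1 n1 m2 n2 u v), T (cls (prodFn m1 n1 m2 n2 u v))⟫_ℂ = 0 := by
  set Φ : L2T 6 := cls (prodFn m1 n1 m2 n2 u v) with hΦ
  have h := (mxB 6).hasSum_inner_mul_inner Φ (T Φ)
  simp only [mx_fB_apply] at h
  have h0 : ∀ k : Fin 6 → ℤ, ⟪Φ, cls (expo k)⟫_ℂ * ⟪cls (expo k), T Φ⟫_ℂ = 0 := fun k => by
    rw [mx_md_coeff hT, ← inner_conj_symm Φ (cls (expo k)), hΦ, prod_coeff, prod_coeff]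
    split_ifs with h1 h2
    · exfalso
      simp only [Pi.sub_apply] at h2
      omega
    · simp
    · simp
    · simp
  simp only [h0] at h
  exact h.unique hasSum_zero

/-! ### the circle -/

theorem mx_integral_circle (f : UnitAddCircle → ℂ) :
    ∫ t, f t ∂(AddCircle.haarAddCircle : Measure UnitAddCircle) =
      ∫ x in (0:ℝ)..1, f ((x : ℝ) : UnitAddCircle) := by
  have h := fourierCoeff_eq_intervalIntegral (T := 1) f 0 0
  unfold fourierCoeff at h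
  simpa using h

theorem mx_inner_clc_aux (u v : C(UnitAddCircle, ℂ)) :
    ⟪clc u, clc v⟫_ℂ = ∫ x in (0:ℝ)..1, conj (lift u x) * lift v x := by
  rw [ContinuousMap.inner_toLp, mx_integral_circle]
  refine intervalIntegral.integral_congr fun x _ => ?_
  simp only [lift]
  ring

theorem mx_inner_clc_self (u : C(UnitAddCircle, ℂ)) :
    ⟪clc u, clc u⟫_ℂ = ((∫ x in (0:ℝ)..1, ‖lift u x‖ ^ 2 : ℝ) : ℂ) := by
  rw [mx_inner_clc_aux, ← intervalIntegral.integral_ofReal]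
  refine intervalIntegral.integral_congr fun x _ => ?_
  rw [← Complex.normSq_eq_conj_mul_self, Complex.normSq_eq_norm_sq]

/-- the derivative as a function on the circle -/
theorem mx_exists_deriv {u : C(UnitAddCircle, ℂ)} (hu : ContDiff ℝ 1 (lift u)) :
    ∃ w : C(UnitAddCircle, ℂ), lift w = deriv (lift u) := by
  have hper : Function.Periodic (deriv (lift u)) 1 := by
    intro x
    have h1 : (fun y => lift u (y + 1)) = lift u := by
      funext y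
      simp only [lift]
      congr 1
      simp
    have h2 := deriv_comp_add_const (lift u) 1 x
    rw [h1] at h2
    exact h2.symm
  have hc : Continuous (deriv (lift u)) := hu.continuous_deriv le_rfl
  refine ⟨⟨hper.lift, ?_⟩, ?_⟩
  · exact continuous_quot_lift _ hc
  · funext x
    exact hper.lift_coe x

theorem mx_fourierCoeff_deriv {u w : C(UnitAddCircle, ℂ)} (hu : ContDiff ℝ 1 (lift u))
    (hw : lift w = deriv (lift u)) (n : ℤ) :
    fourierCoeff (w : UnitAddCircle → ℂ) n =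
      2 * Real.pi * I * n * fourierCoeff (u : UnitAddCircle → ℂ) n := by
  rw [fourierCoeff_eq_intervalIntegral (T := 1) _ n 0,
    fourierCoeff_eq_intervalIntegral (T := 1) _ n 0]
  have hd : ∀ x : ℝ, HasDerivAt (lift u) (deriv (lift u) x) x := fun x =>
    (hu.differentiable one_ne_zero x).hasDerivAt
  have hf : ∀ x : ℝ, HasDerivAt (fun y : ℝ => fourier (-n) (y : UnitAddCircle))
      (-2 * Real.pi * I * n * fourier (-n) (x : UnitAddCircle)) x := fun x => by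
    have := hasDerivAt_fourier_neg 1 n x
    simpa using this
  have hcf : Continuous (fun y : ℝ => fourier (-n) (y : UnitAddCircle)) := by fun_prop
  have hibp := intervalIntegral.integral_mul_deriv_eq_deriv_mul (a := 0) (b := 1)
    (u := fun y : ℝ => fourier (-n) (y : UnitAddCircle)) (v := lift u)
    (u' := fun x : ℝ => -2 * Real.pi * I * n * fourier (-n) (x : UnitAddCircle))
    (v' := deriv (lift u)) (fun x _ => hf x) (fun x _ => hd x)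
    ((continuous_const.mul hcf).intervalIntegrable _ _)
    ((hu.continuous_deriv le_rfl).intervalIntegrable _ _)
  have e0 : ((1 : ℝ) : UnitAddCircle) = ((0 : ℝ) : UnitAddCircle) := by simp
  have hw' : ∀ x : ℝ, w (x : UnitAddCircle) = deriv (lift u) x := fun x => congrFun hw x
  simp only [zero_add, smul_eq_mul, hw']
  rw [hibp]
  simp only [lift, e0, sub_self, zero_sub]
  rw [← intervalIntegral.integral_neg]
  simp only [one_div, inv_one, one_smul]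
  rw [← intervalIntegral.integral_const_mul]
  refine intervalIntegral.integral_congr fun x _ => ?_
  change -(-2 * (Real.pi : ℂ) * I * n * fourier (-n) (x : UnitAddCircle) * u (x : UnitAddCircle)) =
    2 * (Real.pi : ℂ) * I * n * (fourier (-n) (x : UnitAddCircle) * u (x : UnitAddCircle))
  ring

theorem mx_fourierCoeff_fourier_mul (u : C(UnitAddCircle, ℂ)) (a n : ℤ) :
    fourierCoeff ((fourier a * u : C(UnitAddCircle, ℂ)) : UnitAddCircle → ℂ) n =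
      fourierCoeff (u : UnitAddCircle → ℂ) (n - a) := by
  unfold fourierCoeff
  refine integral_congr_ae (ae_of_all _ fun t => ?_)
  simp only [ContinuousMap.coe_mul, Pi.mul_apply, smul_eq_mul]
  rw [← mul_assoc, ← fourier_add]
  congr 2
  ring_nf


theorem mx_norm_cls_prodFn (m1 n1 m2 n2 : ℤ) (u v : C(UnitAddCircle, ℂ)) :
    ‖cls (prodFn m1 n1 m2 n2 u v)‖ ^ 2 =
      (∫ x in (0:ℝ)..1, ‖lift u x‖ ^ 2) * (∫ x in (0:ℝ)..1, ‖lift v x‖ ^ 2) := by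
  have h := prod_inner m1 n1 m2 n2 m1 n1 m2 n2 u v u v
  rw [if_pos ⟨rfl, rfl, rfl, rfl⟩, inner_self_eq_norm_sq_to_K, mx_inner_clc_self, mx_inner_clc_self] at h
  have h2 : (((‖cls (prodFn m1 n1 m2 n2 u v)‖ ^ 2 : ℝ)) : ℂ) =
      (((∫ x in (0:ℝ)..1, ‖lift u x‖ ^ 2) * (∫ x in (0:ℝ)..1, ‖lift v x‖ ^ 2) : ℝ) : ℂ) := by
    push_cast
    exact h
  exact_mod_cast h2

/-- the main term -/
theorem mx_shift_prodFn {l : Fin 6 → ℤ} {M : L2T 6 →L[ℂ] L2T 6} (hM : IsMD l (fun _ => 1) M)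
    (hl : l 1 = 0 ∧ l 2 = 0 ∧ l 4 = 0 ∧ l 5 = 0) (m1 n1 m2 n2 : ℤ) (u v : C(UnitAddCircle, ℂ)) :
    M (cls (prodFn m1 n1 m2 n2 u v)) =
      cls (prodFn m1 n1 m2 n2 (fourier (l 0) * u) (fourier (l 3) * v)) := by
  refine mx_ext_coeff fun k => ?_
  rw [mx_md_coeff hM, prod_coeff, prod_coeff, mx_fourierCoeff_fourier_mul, mx_fourierCoeff_fourier_mul]
  obtain ⟨h1, h2, h4, h5⟩ := hl
  simp only [Pi.sub_apply, h1, h2, h4, h5, sub_zero, one_mul]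

theorem mx_inner_clc_fourier_mul (u : C(UnitAddCircle, ℂ)) (a : ℤ) :
    ⟪clc u, clc (fourier a * u)⟫_ℂ =
      ∫ x in (0:ℝ)..1, Complex.exp (2 * Real.pi * I * a * x) * (‖lift u x‖ ^ 2 : ℝ) := by
  rw [mx_inner_clc_aux]
  refine intervalIntegral.integral_congr fun x _ => ?_
  have h1 : lift (fourier a * u) x = Complex.exp (2 * Real.pi * I * a * x) * lift u x := by
    simp only [lift, ContinuousMap.coe_mul, Pi.mul_apply]
    rw [fourier_coe_apply]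
    simp
  rw [h1, ← Complex.normSq_eq_norm_sq, Complex.normSq_eq_conj_mul_self]
  ring

theorem prod_matrix_est {l : Fin 6 → ℤ} {g : (Fin 6 → ℤ) → ℂ} {T : L2T 6 →L[ℂ] L2T 6}
    (hT : IsMD l g T) (hl : l 1 = 0 ∧ l 2 = 0 ∧ l 4 = 0 ∧ l 5 = 0) (m1 n1 m2 n2 : ℤ)
    (hn : n1 ≠ 0) {u v : C(UnitAddCircle, ℂ)} (hu : ContDiff ℝ 1 (lift u))
    (hv : ContDiff ℝ 1 (lift v)) (hu1 : ∫ x in (0:ℝ)..1, ‖lift u x‖ ^ 2 = 1)
    (hv1 : ∫ x in (0:ℝ)..1, ‖lift v x‖ ^ 2 = 1) {G ε η : ℝ} {g0 : ℂ} (hε : 0 ≤ ε) (hη : 0 < η)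
    (hG : ∀ k, ‖g k‖ ≤ G) (hG0 : ‖g0‖ ≤ G)
    (hg : ∀ k : Fin 6 → ℤ, k 1 = m1 → k 2 = n1 → k 4 = m2 → k 5 = n2 →
      |(k 0 : ℝ)| ≤ η * |(n1 : ℝ)| → |(k 3 : ℝ)| ≤ η * |(n1 : ℝ)| → ‖g k - g0‖ ≤ ε) :
    ‖⟪cls (prodFn m1 n1 m2 n2 u v), T (cls (prodFn m1 n1 m2 n2 u v))⟫_ℂ -
      g0 * ((∫ x in (0:ℝ)..1, Complex.exp (2 * Real.pi * I * (l 0) * x) * (‖lift u x‖ ^ 2 : ℝ)) *
        (∫ x in (0:ℝ)..1, Complex.exp (2 * Real.pi * I * (l 3) * x) * (‖lift v x‖ ^ 2 : ℝ)))‖ ≤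
      ε + 2 * G * Real.sqrt (((∫ x in (0:ℝ)..1, ‖deriv (lift u) x‖ ^ 2) +
        (∫ x in (0:ℝ)..1, ‖deriv (lift v) x‖ ^ 2)) / (η * |(n1 : ℝ)|) ^ 2) := by
  have hG' : 0 ≤ G := (norm_nonneg _).trans hG0
  obtain ⟨M, hM, -⟩ := exists_MD (d := 6) l (fun _ => (1 : ℂ)) (C := 1) (fun _ => by simp)
  obtain ⟨du, hdu⟩ := mx_exists_deriv hu
  obtain ⟨dv, hdv⟩ := mx_exists_deriv hv
  set Φ : L2T 6 := cls (prodFn m1 n1 m2 n2 u v) with hΦ
  set Φ1 : L2T 6 := cls (prodFn m1 n1 m2 n2 du v) with hΦ1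
  set Φ2 : L2T 6 := cls (prodFn m1 n1 m2 n2 u dv) with hΦ2
  have hN : ‖Φ‖ ^ 2 = 1 := by rw [hΦ, mx_norm_cls_prodFn, hu1, hv1, one_mul]
  have hN' : ‖Φ‖ = 1 := by
    have := norm_nonneg Φ
    nlinarith
  have hN1 : ‖Φ1‖ ^ 2 = ∫ x in (0:ℝ)..1, ‖deriv (lift u) x‖ ^ 2 := by
    rw [hΦ1, mx_norm_cls_prodFn, hv1, mul_one, hdu]
  have hN2 : ‖Φ2‖ ^ 2 = ∫ x in (0:ℝ)..1, ‖deriv (lift v) x‖ ^ 2 := by
    rw [hΦ2, mx_norm_cls_prodFn, hu1, one_mul, hdv]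
  have hmain : ⟪Φ, M Φ⟫_ℂ =
      (∫ x in (0:ℝ)..1, Complex.exp (2 * Real.pi * I * (l 0) * x) * (‖lift u x‖ ^ 2 : ℝ)) *
        (∫ x in (0:ℝ)..1, Complex.exp (2 * Real.pi * I * (l 3) * x) * (‖lift v x‖ ^ 2 : ℝ)) := by
    rw [hΦ, mx_shift_prodFn hM hl, prod_inner, if_pos ⟨rfl, rfl, rfl, rfl⟩, mx_inner_clc_fourier_mul,
      mx_inner_clc_fourier_mul]
  rw [← hmain]
  have hT' : IsMD l (fun k => g k - g0) (T - g0 • M) := fun k => by
    rw [_root_.sub_apply, hT k, _root_.smul_apply, hM k, one_smul,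
      sub_smul]
  have e1 : ⟪Φ, T Φ⟫_ℂ - g0 * ⟪Φ, M Φ⟫_ℂ = ⟪Φ, (T - g0 • M) Φ⟫_ℂ := by
    rw [_root_.sub_apply, _root_.smul_apply, inner_sub_right,
      inner_smul_right]
  rw [e1]
  have hD : 0 < η * |(n1 : ℝ)| := mul_pos hη (abs_pos.mpr (by exact_mod_cast hn))
  set D : ℝ := η * |(n1 : ℝ)| with hDdef
  set X : ℝ := ((∫ x in (0:ℝ)..1, ‖deriv (lift u) x‖ ^ 2) +
        (∫ x in (0:ℝ)..1, ‖deriv (lift v) x‖ ^ 2)) / D ^ 2 with hX
  have hX' : X = (‖Φ1‖ ^ 2 + ‖Φ2‖ ^ 2) / D ^ 2 := by rw [hX, hN1, hN2]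
  have hX0 : 0 ≤ X := by rw [hX']; positivity
  have hbound : ‖(T - g0 • M) Φ‖ ^ 2 ≤ ε ^ 2 + 4 * G ^ 2 * X := by
    have s1 := mx_md_norm hT' Φ
    have s2 := ((mx_hasSum_norm_coeff Φ).mul_left (ε ^ 2)).add
      (((mx_hasSum_norm_coeff Φ1).add (mx_hasSum_norm_coeff Φ2)).mul_left (4 * G ^ 2 / D ^ 2))
    have e2 : ε ^ 2 * ‖Φ‖ ^ 2 + 4 * G ^ 2 / D ^ 2 * (‖Φ1‖ ^ 2 + ‖Φ2‖ ^ 2) =
        ε ^ 2 + 4 * G ^ 2 * X := by rw [hN, hX']; ring
    rw [← e2]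
    refine hasSum_le (fun k => ?_) s1 s2
    have c0 := prod_coeff m1 n1 m2 n2 u v k
    have c1 := prod_coeff m1 n1 m2 n2 du v k
    have c2 := prod_coeff m1 n1 m2 n2 u dv k
    rw [← hΦ] at c0
    rw [← hΦ1, mx_fourierCoeff_deriv hu hdu] at c1
    rw [← hΦ2, mx_fourierCoeff_deriv hv hdv] at c2
    by_cases hk : k 1 = m1 ∧ k 2 = n1 ∧ k 4 = m2 ∧ k 5 = n2
    · rw [if_pos hk] at c0 c1 c2
      have c1' : ‖⟪cls (expo k), Φ1⟫_ℂ‖ ^ 2 =
          4 * Real.pi ^ 2 * (k 0 : ℝ) ^ 2 * ‖⟪cls (expo k), Φ⟫_ℂ‖ ^ 2 := by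
        rw [c1, c0]
        simp only [norm_mul, Complex.norm_I, Complex.norm_intCast, Complex.norm_real,
          Real.norm_eq_abs, Complex.norm_ofNat, mul_pow, sq_abs]
        ring
      have c2' : ‖⟪cls (expo k), Φ2⟫_ℂ‖ ^ 2 =
          4 * Real.pi ^ 2 * (k 3 : ℝ) ^ 2 * ‖⟪cls (expo k), Φ⟫_ℂ‖ ^ 2 := by
        rw [c2, c0]
        simp only [norm_mul, Complex.norm_I, Complex.norm_intCast, Complex.norm_real,
          Real.norm_eq_abs, Complex.norm_ofNat, mul_pow, sq_abs]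
        ring
      rw [c1', c2']
      set c : ℝ := ‖⟪cls (expo k), Φ⟫_ℂ‖ ^ 2 with hc
      have hc0 : 0 ≤ c := by positivity
      have hpi : 1 ≤ 4 * Real.pi ^ 2 := by nlinarith [Real.pi_gt_three]
      by_cases hs : |(k 0 : ℝ)| ≤ D ∧ |(k 3 : ℝ)| ≤ D
      · have := hg k hk.1 hk.2.1 hk.2.2.1 hk.2.2.2 hs.1 hs.2
        have h5 : ‖g k - g0‖ ^ 2 ≤ ε ^ 2 := by gcongr
        have h6 : 0 ≤ 4 * G ^ 2 / D ^ 2 * (4 * Real.pi ^ 2 * (k 0 : ℝ) ^ 2 * c +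
            4 * Real.pi ^ 2 * (k 3 : ℝ) ^ 2 * c) := by positivity
        nlinarith [mul_le_mul_of_nonneg_right h5 hc0]
      · have h7 : D ^ 2 ≤ (k 0 : ℝ) ^ 2 + (k 3 : ℝ) ^ 2 := by
          rw [not_and_or, not_le, not_le] at hs
          rcases hs with hs | hs
          · have := pow_le_pow_left₀ hD.le hs.le 2
            rw [sq_abs] at this
            nlinarith [sq_nonneg (k 3 : ℝ)]
          · have := pow_le_pow_left₀ hD.le hs.le 2
            rw [sq_abs] at this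
            nlinarith [sq_nonneg (k 0 : ℝ)]
        have h8 : ‖g k - g0‖ ≤ 2 * G := (norm_sub_le _ _).trans (by linarith [hG k])
        have h9 : ‖g k - g0‖ ^ 2 ≤ 4 * G ^ 2 := by
          have := pow_le_pow_left₀ (norm_nonneg _) h8 2
          nlinarith
        have h10 : 4 * G ^ 2 * c ≤ 4 * G ^ 2 / D ^ 2 * (4 * Real.pi ^ 2 * (k 0 : ℝ) ^ 2 * c +
            4 * Real.pi ^ 2 * (k 3 : ℝ) ^ 2 * c) := by
          have h11 : 4 * G ^ 2 / D ^ 2 * (4 * Real.pi ^ 2 * (k 0 : ℝ) ^ 2 * c +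
            4 * Real.pi ^ 2 * (k 3 : ℝ) ^ 2 * c) = 4 * G ^ 2 * c * ((4 * Real.pi ^ 2) *
              (((k 0 : ℝ) ^ 2 + (k 3 : ℝ) ^ 2) / D ^ 2)) := by ring
          rw [h11]
          have h12 : 1 ≤ ((k 0 : ℝ) ^ 2 + (k 3 : ℝ) ^ 2) / D ^ 2 := by
            rw [le_div_iff₀ (by positivity)]
            linarith
          have h13 : 1 ≤ (4 * Real.pi ^ 2) * (((k 0 : ℝ) ^ 2 + (k 3 : ℝ) ^ 2) / D ^ 2) := by
            nlinarith
          exact le_mul_of_one_le_right (by positivity) h13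
        have h14 : 0 ≤ ε ^ 2 * c := by positivity
        nlinarith [mul_le_mul_of_nonneg_right h9 hc0]
    · rw [if_neg hk] at c0
      rw [c0]
      have h17 : ‖g k - g0‖ ^ 2 * ‖(0 : ℂ)‖ ^ 2 = 0 := by simp
      rw [h17]
      positivity
  have hfin : ‖(T - g0 • M) Φ‖ ≤ ε + 2 * G * Real.sqrt X := by
    refine le_of_sq_le_sq ?_ (by positivity)
    refine hbound.trans ?_
    have h15 := Real.sq_sqrt hX0
    have h16 : 0 ≤ ε * (2 * G * Real.sqrt X) := by positivity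
    nlinarith
  calc ‖⟪Φ, (T - g0 • M) Φ⟫_ℂ‖ ≤ ‖Φ‖ * ‖(T - g0 • M) Φ‖ := norm_inner_le_norm _ _
    _ ≤ _ := by rw [hN', one_mul]; exact hfin

end Matrix

end MP_d22ea4_an
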